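import Mathlib
import Pool.Agent.Lib.MP_b197b4_ntK.NoZero
import Pool.Agent.Lib.MP_b197b4_ntA.ADefs
import Pool.Agent.Lib.MP_b197b4_ntC.CDefs

/-!
# MP_b197b4_nt, project K1, part KC: definitions

`x` are homogeneous coordinates of a normal projective surface. `Z` and `Z - Y` are forms of degree
`d` with the curves `V₁` and `V₂`, which are regular at the regular point `O₁`; `x0`, `x1` are
general linear forms. The affine coordinates are `X = x1 / x0`, `y = Y / x0 ^ d`, `z = Z / x0 ^ d`.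
-/

set_option autoImplicit false

namespace Pool.Agent.Lib.MP_b197b4_ntK

open IsLocalRing Polynomial

open MPb197b4P (fib)

/-- `u` is in `O`, and it is not a unit of `O`. -/
def InMax {F : Type} [Field F] (O : Subring F) (u : F) : Prop := u ∈ O ∧ ∀ v ∈ O, u * v ≠ 1

variable (k : Type) {F : Type} [Field k] [Field F] [Algebra k F] {n : ℕ}

/-- The function `h` on the points gives the form of the curve `V` (on the forms `s` whose zeros
on `V` are regular points). -/
def Rep (x : Fin (n + 1) → F) (l : ∀ V : ValuationSubring F, ResidueField V → ℚ)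
    (e : ValuationSubring F → ℚ) (V : ValuationSubring F) (h : Subring F → ℚ) : Prop :=
  ∀ (b : ℕ) (s : F), s ∈ hom k x b → s ≠ 0 → vh x V b s = 0 → RegZeros k x V b s →
    Lam x l e V s b =
      ∑ᶠ (O) (_ : O ∈ Points (charts k x) ∧ (O : Set F) ⊆ V), h O * lenH x O V b s

/-- S1(a): one function gives the forms of all prime forms of degree `a`. -/
def S1 (x : Fin (n + 1) → F) (l : ∀ V : ValuationSubring F, ResidueField V → ℚ)
    (e : ValuationSubring F → ℚ) (a : ℕ) : Prop :=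
  ∃ h : Subring F → ℚ, (∀ O, ¬ Loc2 O → h O = 0) ∧
    ∀ t V, PrimeForm k x a t V → Rep k x l e V h

variable {k}

/-- evaluation of polynomials in `x, y, z` (innermost variable `x`) -/
noncomputable def ev (X y z : F) : k[X][X][X] →+* F :=
  eval₂RingHom (eval₂RingHom (aeval X : k[X] →ₐ[k] F).toRingHom y) z

/-- evaluation of polynomials in `x, y` (innermost variable `x`) -/
noncomputable def ev2 (X y : F) : k[X][X] →+* F :=
  eval₂RingHom (aeval X : k[X] →ₐ[k] F).toRingHom y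

variable (k)

/-- The situation of the comparison of the forms `Z` and `Z - Y` of degree `d` at `O₁`. -/
structure Coord (x : Fin (n + 1) → F) (x0 x1 Y Z : F) (d : ℕ) (O₁ : Subring F) (c : k) :
    Prop where
  two : 2 ≤ d
  h0 : x0 ∈ hom k x 1
  h1 : x1 ∈ hom k x 1
  hY : Y ∈ hom k x d
  hZ : Z ∈ hom k x d
  ne : x0 ≠ 0
  /-- (C1) no common zeros at infinity -/
  noz : ∀ O ∈ Points (charts k x), NotZero x O 1 x0 ∨ NotZero x O 1 x1 ∨ NotZero x O d Y
  noz₁ : ∀ O ∈ Points (charts k x), NotZero x O 1 x0 ∨ NotZero x O 1 x1 ∨ NotZero x O d Z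
  noz₂ : ∀ O ∈ Points (charts k x), NotZero x O 1 x0 ∨ NotZero x O 1 x1 ∨
    NotZero x O d (Z - Y)
  pt : O₁ ∈ Points (charts k x)
  gen : Gen k x O₁ x0
  /-- (C3) `O₁` is the only point with its coordinates -/
  uni : ∀ O ∈ Points (charts k x), Gen k x O x0 → InMax O (x1 / x0 - algebraMap k F c) →
    InMax O (Y / x0 ^ d) → InMax O (Z / x0 ^ d) → O = O₁
  /-- (C4) -/
  par₁ : IsParam O₁ (x1 / x0 - algebraMap k F c) (Z / x0 ^ d)
  par₂ : IsParam O₁ (x1 / x0 - algebraMap k F c) ((Z - Y) / x0 ^ d)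

/-- The equation `f` of the surface in the coordinates. -/
structure Eqn (x : Fin (n + 1) → F) (x0 x1 Y Z : F) (d : ℕ) (f : k[X][X][X]) (r : ℕ) :
    Prop where
  monic : f.Monic
  deg : f.natDegree = r
  irr : Irreducible f
  one : 1 ≤ r
  wt : ∀ i j, (f.coeff j).coeff i ≠ 0 → ((f.coeff j).coeff i).natDegree + d * (i + j) ≤ d * r
  ker : ∀ g : k[X][X][X], ev (x1 / x0) (Y / x0 ^ d) (Z / x0 ^ d) g = 0 ↔ f ∣ g
  ker2 : ∀ g : k[X][X], ev2 (x1 / x0) (Y / x0 ^ d) g = 0 → g = 0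
  int : ∀ u ∈ chartOf k x x0, IsIntegral (Algebra.adjoin k {x1 / x0, Y / x0 ^ d}) u
  gen : ∀ u : F, ∃ g h : k[X][X][X], ev (x1 / x0) (Y / x0 ^ d) (Z / x0 ^ d) h ≠ 0 ∧
    u = ev (x1 / x0) (Y / x0 ^ d) (Z / x0 ^ d) g / ev (x1 / x0) (Y / x0 ^ d) (Z / x0 ^ d) h

/-- The form of degree `e` with the affine equation `z - κ y - α(X)`. -/
noncomputable def tform (x0 x1 Y Z : F) (d e : ℕ) (κ : k) (α : k[X]) : F :=
  x0 ^ e * (Z / x0 ^ d - algebraMap k F κ * (Y / x0 ^ d) - aeval (x1 / x0) α)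

/-- The form of degree `e` with the affine equation `y - γ(X)`. -/
noncomputable def yform (x0 x1 Y : F) (d e : ℕ) (γ : k[X]) : F :=
  x0 ^ e * (Y / x0 ^ d - aeval (x1 / x0) γ)

/-- `(a, b, c)` are the coordinates of the point `O`. -/
structure HasCoord (x : Fin (n + 1) → F) (x0 x1 Y Z : F) (d : ℕ) (O : Subring F) (a b c : k) :
    Prop where
  pt : O ∈ Points (charts k x)
  gen : Gen k x O x0
  cx : InMax O (x1 / x0 - algebraMap k F a)
  cy : InMax O (Y / x0 ^ d - algebraMap k F b)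
  cz : InMax O (Z / x0 ^ d - algebraMap k F c)

/-- The curve `V` is the curve `z = κ y + α(X)` of the affine chart `x0 ≠ 0`. -/
structure IsFib (x : Fin (n + 1) → F) (x0 x1 Y Z : F) (d : ℕ) (f : k[X][X][X])
    (κ : k) (α : k[X]) (V : ValuationSubring F) : Prop where
  cur : V ∈ Curves (charts k x)
  gen : Gen k x V.toSubring x0
  mem : ∀ g : k[X][X][X], ev (x1 / x0) (Y / x0 ^ d) (Z / x0 ^ d) g ∈ V
  lt : ∀ g : k[X][X][X], V.valuation (ev (x1 / x0) (Y / x0 ^ d) (Z / x0 ^ d) g) < 1 ↔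
    fib f κ α ∣ fib g κ α
  uni : ∀ V' ∈ Curves (charts k x), Gen k x V'.toSubring x0 → V'.valuation
    (Z / x0 ^ d - algebraMap k F κ * (Y / x0 ^ d) - aeval (x1 / x0) α) < 1 → V' = V

end Pool.Agent.Lib.MP_b197b4_ntK
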