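import Mathlib
import Pool.Agent.Lib.MP_b197b4_ntH.H0

/-!
# MP_b197b4_nt, project K1, part KC: polynomials
-/

set_option autoImplicit false

namespace Pool.Agent.Lib.MP_b197b4_ntK

open IsLocalRing Polynomial

open MPb197b4P (fib cut ev3 RegPt Spl Good Core)

variable {k F : Type} [Field k] [Field F] [Algebra k F] {n : ℕ} {x : Fin (n + 1) → F}
  {x0 x1 Y Z : F} {d : ℕ} {O₁ : Subring F} {c₁ : k} {f : k[X][X][X]} {r : ℕ}
  {κ : k} {α γ : k[X]} {e : ℕ} {V : ValuationSubring F}
  {l : ∀ V : ValuationSubring F, ResidueField V → ℚ} {ν : ValuationSubring F → ℚ}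

/-- value of `ev` on polynomials without `z` -/
theorem ev_C (a b c : F) (g : k[X][X]) : ev a b c (C g) = ev2 a b g := by
  unfold ev ev2
  rw [coe_eval₂RingHom, eval₂_C]

theorem ev_X (a b c : F) : ev (k := k) a b c Polynomial.X = c := by
  unfold ev
  rw [coe_eval₂RingHom, eval₂_X]

theorem ev2_C (a b : F) (g : k[X]) : ev2 a b (C g) = aeval a g := by
  unfold ev2
  rw [coe_eval₂RingHom, eval₂_C]
  rfl

theorem ev2_X (a b : F) : ev2 (k := k) a b Polynomial.X = b := by
  unfold ev2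
  rw [coe_eval₂RingHom, eval₂_X]

theorem HA_mem1 {S : Subalgebra k F} {a : F} (ha : a ∈ S) (g : k[X]) : aeval a g ∈ S := by
  rw [aeval_eq_sum_range]
  exact S.sum_mem fun i _ => S.smul_mem (S.pow_mem ha i) _

theorem HA_mem2 {S : Subalgebra k F} {a b : F} (ha : a ∈ S) (hb : b ∈ S) (g : k[X][X]) :
    ev2 a b g ∈ S := by
  unfold ev2
  rw [coe_eval₂RingHom, eval₂_eq_sum_range]
  exact S.sum_mem fun i _ => S.mul_mem (HA_mem1 ha _) (S.pow_mem hb i)

theorem HA_mem3 {S : Subalgebra k F} {a b c : F} (ha : a ∈ S) (hb : b ∈ S) (hc : c ∈ S)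
    (g : k[X][X][X]) : ev a b c g ∈ S := by
  unfold ev
  rw [coe_eval₂RingHom, eval₂_eq_sum_range]
  exact S.sum_mem fun i _ => S.mul_mem (HA_mem2 ha hb _) (S.pow_mem hc i)

theorem mem_adjoin_three (a b c u : F) :
    u ∈ Algebra.adjoin k {a, b, c} ↔ ∃ g : k[X][X][X], u = ev a b c g := by
  constructor
  · intro hu
    induction hu using Algebra.adjoin_induction with
    | mem y hy =>
      rcases hy with rfl | rfl | rfl
      · exact ⟨C (C Polynomial.X), by rw [ev_C, ev2_C, aeval_X]⟩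
      · exact ⟨C Polynomial.X, by rw [ev_C, ev2_X]⟩
      · exact ⟨Polynomial.X, by rw [ev_X]⟩
    | algebraMap c => exact ⟨C (C (C c)), by rw [ev_C, ev2_C, aeval_C]⟩
    | add y z _ _ h1 h2 =>
      obtain ⟨g, hg⟩ := h1
      obtain ⟨h, hh⟩ := h2
      exact ⟨g + h, by rw [map_add, hg, hh]⟩
    | mul y z _ _ h1 h2 =>
      obtain ⟨g, hg⟩ := h1
      obtain ⟨h, hh⟩ := h2
      exact ⟨g * h, by rw [map_mul, hg, hh]⟩
  · rintro ⟨g, rfl⟩
    refine HA_mem3 (Algebra.subset_adjoin ?_) (Algebra.subset_adjoin ?_)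
      (Algebra.subset_adjoin ?_) g <;> simp

theorem mem_adjoin_two (a b u : F) :
    u ∈ Algebra.adjoin k {a, b} ↔ ∃ g : k[X][X], u = ev2 a b g := by
  constructor
  · intro hu
    induction hu using Algebra.adjoin_induction with
    | mem y hy =>
      rcases hy with rfl | rfl
      · exact ⟨C Polynomial.X, by rw [ev2_C, aeval_X]⟩
      · exact ⟨Polynomial.X, by rw [ev2_X]⟩
    | algebraMap c => exact ⟨C (C c), by rw [ev2_C, aeval_C]⟩
    | add y z _ _ h1 h2 =>
      obtain ⟨g, hg⟩ := h1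
      obtain ⟨h, hh⟩ := h2
      exact ⟨g + h, by rw [map_add, hg, hh]⟩
    | mul y z _ _ h1 h2 =>
      obtain ⟨g, hg⟩ := h1
      obtain ⟨h, hh⟩ := h2
      exact ⟨g * h, by rw [map_mul, hg, hh]⟩
  · rintro ⟨g, rfl⟩
    refine HA_mem2 (Algebra.subset_adjoin ?_) (Algebra.subset_adjoin ?_) g <;> simp

/-- `g` is congruent to `fib g κ α` modulo `z - κ y - α`. -/
theorem fib_dvd_iff (f g : k[X][X][X]) (κ : k) (α : k[X]) :
    fib f κ α ∣ fib g κ α ↔
      ∃ u v, g = f * u + (Polynomial.X - C (C (C κ) * Polynomial.X + C α)) * v := by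
  constructor
  · rintro ⟨w, hw⟩
    have h1 : (g - f * C w).IsRoot (C (C κ) * Polynomial.X + C α) := by
      rw [IsRoot.def, eval_sub, eval_mul, eval_C]
      exact sub_eq_zero.2 hw
    obtain ⟨v, hv⟩ := dvd_iff_isRoot.2 h1
    exact ⟨C w, v, by rw [← hv]; ring⟩
  · rintro ⟨u, v, h⟩
    refine ⟨u.eval (C (C κ) * Polynomial.X + C α), ?_⟩
    unfold MPb197b4P.fib
    rw [h, eval_add, eval_mul, eval_mul, eval_sub, eval_X, eval_C, sub_self, zero_mul, add_zero]

theorem HA_hom {A B : Type} [CommRing A] [CommRing B] (φ : A →+* B) (f : A[X]) (P : A) :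
    φ (f.eval P) = f.eval₂ φ (φ P) := by
  have h := hom_eval₂ f (RingHom.id A) φ P
  rw [RingHom.comp_id] at h
  rw [← h]
  rfl

/-- value of `fib` at a point -/
theorem fib_eval (f : k[X][X][X]) (κ : k) (α : k[X]) (a b : k) :
    ((fib f κ α).eval (C b)).eval a = ev3 f a b (α.eval a + κ * b) := by
  have h : ∀ P Q : k[X][X], (P.eval (C b)).eval a = (Q.eval (C b)).eval a →
      ((f.eval P).eval (C b)).eval a = ((f.eval Q).eval (C b)).eval a := by
    intro P Q hPQ
    have h1 := HA_hom ((evalRingHom a).comp (evalRingHom (C b))) f P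
    have h2 := HA_hom ((evalRingHom a).comp (evalRingHom (C b))) f Q
    rw [RingHom.comp_apply, coe_evalRingHom, coe_evalRingHom, RingHom.comp_apply,
      coe_evalRingHom, coe_evalRingHom] at h1 h2
    rw [h1, h2, hPQ]
  unfold MPb197b4P.ev3 MPb197b4P.fib
  refine h _ _ ?_
  simp [add_comm]

theorem HA_eval (g : k[X][X]) (γ : k[X]) (a : k) :
    (g.eval γ).eval a = (g.eval (C (γ.eval a))).eval a := by
  have h1 := HA_hom (evalRingHom a) g γ
  have h2 := HA_hom (evalRingHom a) g (C (γ.eval a))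
  rw [coe_evalRingHom] at h1 h2
  rw [h1, h2, eval_C]

/-- value of `cut` at a point -/
theorem cut_eval (f : k[X][X][X]) (κ : k) (α γ : k[X]) (a : k) :
    (cut f κ α γ).eval a = ev3 f a (γ.eval a) (α.eval a + κ * γ.eval a) := by
  rw [← fib_eval]
  exact HA_eval _ _ _

/-- weights at most `N`, where the inner variable has weight `1` and the outer variable has
weight `e` -/
def HA_PW (e N : ℕ) (p : k[X][X]) : Prop := ∀ i j, N < j + e * i → (p.coeff i).coeff j = 0

theorem HA_PW.sum {ι : Type} {e N : ℕ} {s : Finset ι} {p : ι → k[X][X]}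
    (h : ∀ i ∈ s, HA_PW e N (p i)) : HA_PW e N (∑ i ∈ s, p i) := by
  intro i j hij
  rw [finsetSum_coeff, finsetSum_coeff]
  exact Finset.sum_eq_zero fun a ha => h a ha i j hij

theorem HA_PW.mul {e N M : ℕ} {p q : k[X][X]} (hp : HA_PW e N p) (hq : HA_PW e M q) :
    HA_PW e (N + M) (p * q) := by
  intro i j hij
  rw [coeff_mul, finsetSum_coeff]
  refine Finset.sum_eq_zero fun a ha => ?_
  rw [coeff_mul]
  refine Finset.sum_eq_zero fun b hb => ?_
  rw [Finset.HasAntidiagonal.mem_antidiagonal] at ha hb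
  have h1 : e * i = e * a.1 + e * a.2 := by rw [← ha, mul_add]
  rcases lt_or_ge N (b.1 + e * a.1) with h | h
  · rw [hp _ _ h, zero_mul]
  · rw [hq a.2 b.2 (by omega), mul_zero]

theorem HA_PW.one {e : ℕ} : HA_PW e 0 (1 : k[X][X]) := by
  intro i j hij
  rcases Nat.eq_zero_or_pos i with rfl | hi
  · rw [coeff_one_zero, coeff_one, if_neg (by omega)]
  · rw [coeff_one, if_neg (by omega), coeff_zero]

theorem HA_PW.pow {e N : ℕ} {p : k[X][X]} (hp : HA_PW e N p) (i : ℕ) :
    HA_PW e (N * i) (p ^ i) := by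
  induction i with
  | zero => rw [pow_zero, mul_zero]; exact HA_PW.one
  | succ i ih => rw [pow_succ, Nat.mul_succ]; exact ih.mul hp

theorem HA_PW.mono {e N M : ℕ} {p : k[X][X]} (hp : HA_PW e N p) (h : N ≤ M) : HA_PW e M p :=
  fun i j hij => hp i j (lt_of_le_of_lt h hij)

theorem HA_lin {e : ℕ} (κ : k) {α : k[X]} (hα : α.natDegree ≤ e) :
    HA_PW e e (C (C κ) * Polynomial.X + C α) := by
  intro i j hij
  rcases i with _ | _ | i
  · rw [coeff_add, mul_coeff_zero, coeff_X_zero, mul_zero, zero_add, coeff_C_zero]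
    exact coeff_eq_zero_of_natDegree_lt (by omega)
  · rw [coeff_add, coeff_C_mul, zero_add, coeff_X_one, mul_one,
      coeff_C, if_neg one_ne_zero, add_zero, coeff_C, if_neg (by omega)]
  · rw [coeff_add, coeff_C_mul, coeff_X, if_neg (by omega), mul_zero, zero_add, coeff_C,
      if_neg (by omega), coeff_zero]

/-- the weights of `fib` -/
theorem HA_fib (hf : f.natDegree = r)
    (hwt : ∀ i j, (f.coeff j).coeff i ≠ 0 →
      ((f.coeff j).coeff i).natDegree + d * (i + j) ≤ d * r) (hd : 1 ≤ d)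
    (hde : d ≤ e) (hα : α.natDegree ≤ e) : HA_PW e (e * r) (fib f κ α) := by
  unfold MPb197b4P.fib
  rw [eval_eq_sum_range]
  refine HA_PW.sum fun j hj => ?_
  have hjr : j ≤ r := by
    rw [Finset.mem_range, hf] at hj
    omega
  have h1 : HA_PW e (e * (r - j)) (f.coeff j) := by
    intro i l hil
    by_contra h
    have h0 : (f.coeff j).coeff i ≠ 0 := by
      intro h0
      rw [h0, coeff_zero] at h
      exact h rfl
    have h2 := hwt i j h0
    have h3 : l ≤ ((f.coeff j).coeff i).natDegree := le_natDegree_of_ne_zero h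
    have h4 : i + j ≤ r := by
      by_contra h5
      push Not at h5
      have h6 : d * (r + 1) ≤ d * (i + j) := Nat.mul_le_mul_left d h5
      rw [mul_add, mul_one] at h6
      omega
    obtain ⟨t, ht⟩ := Nat.exists_eq_add_of_le h4
    have h5 : r - j = i + t := by omega
    rw [h5, mul_add] at hil
    rw [ht, mul_add d (i + j) t] at h2
    have h6 : d * t ≤ e * t := Nat.mul_le_mul_right t hde
    omega
  have h2 := h1.mul ((HA_lin κ hα).pow j)
  refine h2.mono ?_
  rw [← mul_add]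
  exact Nat.mul_le_mul_left e (by omega)

theorem HA_PW.natDegree {e N : ℕ} {p : k[X][X]} (hp : HA_PW e N p) (i : ℕ) (h : p.coeff i ≠ 0) :
    (p.coeff i).natDegree + e * i ≤ N := by
  by_contra h1
  push Not at h1
  exact h (leadingCoeff_eq_zero.1 (hp i _ h1))

theorem HA_PW.eval {e N : ℕ} {p : k[X][X]} (hp : HA_PW e N p) (hγ : γ.natDegree ≤ e) :
    (p.eval γ).natDegree ≤ N := by
  rw [eval_eq_sum_range]
  refine natDegree_sum_le_of_forall_le _ _ fun i _ => ?_
  by_cases h : p.coeff i = 0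
  · rw [h, zero_mul, natDegree_zero]
    exact Nat.zero_le _
  · refine natDegree_mul_le.trans ?_
    have h1 := hp.natDegree i h
    have h2 : (γ ^ i).natDegree ≤ i * γ.natDegree := natDegree_pow_le
    have h3 : i * γ.natDegree ≤ i * e := Nat.mul_le_mul_left i hγ
    rw [mul_comm e i] at h1
    omega

/-- The weights of `fib`, for curves of degree `e > d`. -/
theorem fib_weight (hf : f.natDegree = r) (hd : 1 ≤ d)
    (hwt : ∀ i j, (f.coeff j).coeff i ≠ 0 →
      ((f.coeff j).coeff i).natDegree + d * (i + j) ≤ d * r)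
    (hde : d < e) (hα : α.natDegree ≤ e) (i : ℕ) :
    ((fib f κ α).coeff i).natDegree + e * i ≤ e * r ∨ (fib f κ α).coeff i = 0 := by
  by_cases h : (fib f κ α).coeff i = 0
  · exact Or.inr h
  · exact Or.inl ((HA_fib hf hwt hd hde.le hα).natDegree i h)

/-- For the members `(κ, 0)` of degree `d < e` a split section has degree exactly `e`. -/
theorem spl_coeff (hf : f.natDegree = r) (hr : 1 ≤ r) (hd : 1 ≤ d)
    (hwt : ∀ i j, (f.coeff j).coeff i ≠ 0 →
      ((f.coeff j).coeff i).natDegree + d * (i + j) ≤ d * r)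
    (hde : d < e) (hs : Spl f e (r * e) κ 0 γ) : γ.coeff e ≠ 0 := by
  intro h
  have h1 : γ.natDegree ≤ e - 1 := by
    rw [natDegree_le_iff_coeff_eq_zero]
    intro N hN
    rcases eq_or_lt_of_le (show e ≤ N by omega) with h2 | h2
    · rw [← h2]; exact h
    · exact coeff_eq_zero_of_natDegree_lt (lt_of_le_of_lt hs.deg h2)
  have h2 : HA_PW (e - 1) ((e - 1) * r) (fib f κ 0) :=
    HA_fib hf hwt hd (by omega) (by rw [natDegree_zero]; exact Nat.zero_le _)
  have h3 := h2.eval h1
  have h4 := hs.num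
  unfold MPb197b4P.cut at h4
  rw [h4] at h3
  have h5 : (e - 1) * r < r * e := by
    rw [mul_comm r e]
    exact Nat.mul_lt_mul_of_pos_right (by omega) hr
  omega

end Pool.Agent.Lib.MP_b197b4_ntK
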