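import Mathlib
import Pool.Agent.Lib.MP_b197b4_ntH.HA
import Pool.Agent.Lib.MP_b197b4_ntK.KLocN

/-!
# MP_b197b4_nt, project K1, part KC: the local ring at `O₁`, the field of fractions
-/

set_option autoImplicit false
set_option linter.style.haveILetI false

namespace Pool.Agent.Lib.MP_b197b4_ntK

open IsLocalRing Polynomial

open MPb197b4P (fib cut ev3 RegPt Spl Good Core)

variable {k F : Type} [Field k] [Field F] [Algebra k F] {n : ℕ} {x : Fin (n + 1) → F}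
  {x0 x1 Y Z : F} {d : ℕ} {O₁ : Subring F} {c₁ : k} {f : k[X][X][X]} {r : ℕ}
  {κ : k} {α γ : k[X]} {e : ℕ} {V : ValuationSubring F}
  {l : ∀ V : ValuationSubring F, ResidueField V → ℚ} {ν : ValuationSubring F → ℚ}

/-- The coordinates are functions on the chart `x0 ≠ 0`. -/
theorem coord_memH (h0 : x0 ∈ hom k x 1) (h1 : x1 ∈ hom k x 1) (hY : Y ∈ hom k x d)
    (hZ : Z ∈ hom k x d) :
    Algebra.adjoin k {x1 / x0, Y / x0 ^ d, Z / x0 ^ d} ≤ chartOf k x x0 := by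
  refine Algebra.adjoin_le ?_
  rintro u (rfl | rfl | rfl)
  · have := div_mem_chartOf (w := x0) h1
    rwa [pow_one] at this
  · exact div_mem_chartOf hY
  · exact div_mem_chartOf hZ

/-- An element of the chart is in the maximal ideal of a point iff it is not a unit there. -/
theorem HB_mem_iff {A : Subalgebra k F} {m : Ideal A} {O : Subring F} (hm : m.IsMaximal)
    (hO : IsLoc A m O) (a : A) : a ∈ m ↔ InMax O (a : F) := by
  haveI := hm.isPrime
  constructor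
  · intro ha
    refine ⟨mem_of_isLoc hm.ne_top hO a.2, ?_⟩
    intro v hv h
    obtain ⟨b, s, hs, rfl⟩ := (hO v).1 hv
    have hs0 := coe_ne_zero_of_notMem hs
    apply hs
    have h1 : s = a * b := by
      apply Subtype.ext
      change (s : F) = a * b
      field_simp at h
      exact h.symm
    rw [h1]
    exact m.mul_mem_right b ha
  · rintro ⟨-, h⟩
    by_contra ha
    have ha0 := coe_ne_zero_of_notMem ha
    refine h ((a : F)⁻¹) ((hO _).2 ⟨1, a, ha, ?_⟩) (mul_inv_cancel₀ ha0)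
    rw [inv_eq_one_div]
    rfl

/-- The elements of the maximal ideal given by parameters. -/
theorem HB_par_left {O : Subring F} {a b : F} (h : IsParam O a b) : InMax O a := by
  obtain ⟨ha, hb, hy⟩ := h
  refine ⟨ha, ?_⟩
  intro v hv hav
  have h1 := (hy ⟨a, ha⟩).1 (Ideal.subset_span (Set.mem_insert _ _))
  exact h1 (IsUnit.of_mul_eq_one ⟨v, hv⟩ (Subtype.ext hav))

theorem HB_par_right {O : Subring F} {a b : F} (h : IsParam O a b) : InMax O b := by
  obtain ⟨ha, hb, hy⟩ := h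
  refine ⟨hb, ?_⟩
  intro v hv hav
  have h1 := (hy ⟨b, hb⟩).1 (Ideal.subset_span (Set.mem_insert_of_mem _ rfl))
  exact h1 (IsUnit.of_mul_eq_one ⟨v, hv⟩ (Subtype.ext hav))

/-- The maximal ideal of the point `O₁` in the chart, and the comparison. -/
theorem HB_compare [IsAlgClosed k] (hS : SurfN k x) (hC : Coord k x x0 x1 Y Z d O₁ c₁)
    (hint : ∀ u ∈ chartOf k x x0, IsIntegral (Algebra.adjoin k {x1 / x0, Y / x0 ^ d}) u)
    (m : Ideal (chartOf k x x0)) (hm : m.IsMaximal) (hL : IsLoc (chartOf k x x0) m O₁) :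
    ∀ a ∈ chartOf k x x0, ∃ s : Algebra.adjoin k {x1 / x0, Y / x0 ^ d, Z / x0 ^ d},
      (⟨s, coord_memH hC.h0 hC.h1 hC.hY hC.hZ s.2⟩ : chartOf k x x0) ∉ m ∧
        (s : F) * a ∈ Algebra.adjoin k {x1 / x0, Y / x0 ^ d, Z / x0 ^ d} := by
  haveI := hm.isPrime
  have hle := coord_memH hC.h0 hC.h1 hC.hY hC.hZ
  have hXm : x1 / x0 ∈ Algebra.adjoin k {x1 / x0, Y / x0 ^ d, Z / x0 ^ d} :=
    Algebra.subset_adjoin (Or.inl rfl)
  have hYm : Y / x0 ^ d ∈ Algebra.adjoin k {x1 / x0, Y / x0 ^ d, Z / x0 ^ d} :=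
    Algebra.subset_adjoin (Or.inr (Or.inl rfl))
  have hZm : Z / x0 ^ d ∈ Algebra.adjoin k {x1 / x0, Y / x0 ^ d, Z / x0 ^ d} :=
    Algebra.subset_adjoin (Or.inr (Or.inr rfl))
  have hXc : x1 / x0 - algebraMap k F c₁ ∈
      Algebra.adjoin k {x1 / x0, Y / x0 ^ d, Z / x0 ^ d} :=
    sub_mem hXm (Subalgebra.algebraMap_mem _ _)
  have hpX : InMax O₁ (x1 / x0 - algebraMap k F c₁) := HB_par_left hC.par₁
  have hpZ : InMax O₁ (Z / x0 ^ d) := HB_par_right hC.par₁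
  have hpW : InMax O₁ ((Z - Y) / x0 ^ d) := HB_par_right hC.par₂
  have hm1 : (⟨x1 / x0 - algebraMap k F c₁, hle hXc⟩ : chartOf k x x0) ∈ m :=
    (HB_mem_iff hm hL _).2 hpX
  have hm2 : (⟨Z / x0 ^ d, hle hZm⟩ : chartOf k x x0) ∈ m := (HB_mem_iff hm hL _).2 hpZ
  have hWm : (Z - Y) / x0 ^ d ∈ Algebra.adjoin k {x1 / x0, Y / x0 ^ d, Z / x0 ^ d} := by
    rw [sub_div]
    exact sub_mem hZm hYm
  have hm3 : (⟨(Z - Y) / x0 ^ d, hle hWm⟩ : chartOf k x x0) ∈ m := (HB_mem_iff hm hL _).2 hpW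
  have hm4 : (⟨Y / x0 ^ d, hle hYm⟩ : chartOf k x x0) ∈ m := by
    have h1 := m.sub_mem hm2 hm3
    have h2 : (⟨Z / x0 ^ d, hle hZm⟩ : chartOf k x x0) - ⟨(Z - Y) / x0 ^ d, hle hWm⟩ =
        ⟨Y / x0 ^ d, hle hYm⟩ := by
      apply Subtype.ext
      change Z / x0 ^ d - (Z - Y) / x0 ^ d = Y / x0 ^ d
      rw [sub_div]
      ring
    rwa [h2] at h1
  have hint' : ∀ a ∈ chartOf k x x0,
      IsIntegral (Algebra.adjoin k {x1 / x0, Y / x0 ^ d, Z / x0 ^ d}) a := by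
    intro a ha
    obtain ⟨P, hP, hPa⟩ := hint a ha
    have hsub : Algebra.adjoin k {x1 / x0, Y / x0 ^ d} ≤
        Algebra.adjoin k {x1 / x0, Y / x0 ^ d, Z / x0 ^ d} := by
      apply Algebra.adjoin_mono
      rintro u (rfl | rfl)
      · exact Or.inl rfl
      · exact Or.inr (Or.inl rfl)
    refine ⟨P.map (Subalgebra.inclusion hsub : _ →+* _), hP.map _, ?_⟩
    rw [Polynomial.eval₂_map]
    exact hPa
  refine compare_point hle (chartOf_fg k x x0) hint' m ⟨_, hXc⟩ ⟨_, hZm⟩ hm1 hm2 ?_ ?_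
  · intro m' hm' hmm'
    haveI := hm'.isPrime
    have hx0s : x0 ∈ Submodule.span k (Set.range x) := mem_hom_one.1 hC.h0
    obtain ⟨O, hO, hOg, hOL⟩ := exists_point hS.ne hx0s hC.ne hm'
    have h1 : O = O₁ := by
      refine hC.uni O hO hOg ?_ ?_ ?_
      · exact (HB_mem_iff hm' hOL _).1 (hmm' ⟨_, hXc⟩ hm1)
      · exact (HB_mem_iff hm' hOL _).1 (hmm' ⟨_, hYm⟩ hm4)
      · exact (HB_mem_iff hm' hOL _).1 (hmm' ⟨_, hZm⟩ hm2)
    subst h1
    ext a
    rw [HB_mem_iff hm' hOL, HB_mem_iff hm hL]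
  · intro a ha
    obtain ⟨hα, hβ, hy⟩ := hC.par₁
    have haM := (HB_mem_iff hm hL a).1 ha
    have h1 : ¬ IsUnit (⟨(a : F), haM.1⟩ : O₁) := by
      intro hu
      obtain ⟨v, hv⟩ := hu.exists_right_inv
      exact haM.2 (v : F) v.2 (congrArg Subtype.val hv)
    obtain ⟨b, c, hbc⟩ := Ideal.mem_span_pair.1 ((hy _).2 h1)
    have hbc' : (b : F) * (x1 / x0 - algebraMap k F c₁) + c * (Z / x0 ^ d) = a :=
      congrArg Subtype.val hbc
    obtain ⟨b1, s, hs, hb⟩ := (hL b).1 b.2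
    obtain ⟨c1, t, ht, hc⟩ := (hL c).1 c.2
    have hs0 := coe_ne_zero_of_notMem hs
    have ht0 := coe_ne_zero_of_notMem ht
    refine ⟨s * t, b1 * t, c1 * s, ?_, ?_⟩
    · intro hst
      rcases (hm.isPrime.mem_or_mem hst) with h | h
      · exact hs h
      · exact ht h
    · change ((s : F) * t) * a = (b1 * t) * (x1 / x0 - algebraMap k F c₁) +
        (c1 * s) * (Z / x0 ^ d)
      rw [← hbc', hb, hc, mul_add]
      have e1 : (s : F) * t * ((b1 : F) / s * (x1 / x0 - algebraMap k F c₁)) =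
          b1 * t * (x1 / x0 - algebraMap k F c₁) := by
        calc (s : F) * t * ((b1 : F) / s * (x1 / x0 - algebraMap k F c₁)) =
            ((b1 : F) / s * s) * t * (x1 / x0 - algebraMap k F c₁) := by ring
          _ = _ := by rw [div_mul_cancel₀ _ hs0]
      have e2 : (s : F) * t * ((c1 : F) / t * (Z / x0 ^ d)) = c1 * s * (Z / x0 ^ d) := by
        calc (s : F) * t * ((c1 : F) / t * (Z / x0 ^ d)) =
            ((c1 : F) / t * t) * s * (Z / x0 ^ d) := by ring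
          _ = _ := by rw [div_mul_cancel₀ _ ht0]
      rw [e1, e2]

/-- Values of polynomials at the point. -/
theorem HB_value {A : Subalgebra k F} (m : Ideal A) {a b c : F} (ha : a ∈ A) (hb : b ∈ A)
    (hc : c ∈ A) (t : k) (hA : ∀ g : k[X][X][X], ev a b c g ∈ A)
    (h1 : (⟨a, ha⟩ : A) - algebraMap k A t ∈ m) (h2 : (⟨b, hb⟩ : A) ∈ m)
    (h3 : (⟨c, hc⟩ : A) ∈ m) (g : k[X][X][X]) :
    (⟨ev a b c g, hA g⟩ : A) - algebraMap k A (ev3 g t 0 0) ∈ m := by
  let φ : k[X][X][X] →+* A ⧸ m := (Ideal.Quotient.mk m).comp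
    ((ev (k := k) a b c).codRestrict A.toSubring hA)
  let ψ : k[X][X][X] →+* A ⧸ m := (algebraMap k (A ⧸ m)).comp
    ((evalRingHom t).comp ((evalRingHom (C 0)).comp (evalRingHom (C (C 0)))))
  have hφψ : φ = ψ := by
    apply Polynomial.ringHom_ext'
    · apply Polynomial.ringHom_ext'
      · apply Polynomial.ringHom_ext
        · intro r
          change Ideal.Quotient.mk m ⟨ev a b c (C (C (C r))), _⟩ =
            algebraMap k (A ⧸ m) (((((C (C (C r)) : k[X][X][X])).eval (C (C 0))).eval (C 0)).eval t)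
          rw [eval_C, eval_C, eval_C]
          have h4 : (⟨ev a b c (C (C (C r))), hA _⟩ : A) = algebraMap k A r := by
            apply Subtype.ext
            change ev a b c (C (C (C r))) = algebraMap k F r
            rw [ev_C, ev2_C, aeval_C]
          rw [h4]
          rfl
        · change Ideal.Quotient.mk m ⟨ev a b c (C (C X)), _⟩ =
            algebraMap k (A ⧸ m) (((((C (C X) : k[X][X][X])).eval (C (C 0))).eval (C 0)).eval t)
          rw [eval_C, eval_C, eval_X]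
          have h4 : (⟨ev a b c (C (C X)), hA _⟩ : A) = ⟨a, ha⟩ := by
            apply Subtype.ext
            change ev a b c (C (C X)) = a
            rw [ev_C, ev2_C, aeval_X]
          rw [h4, ← sub_eq_zero]
          exact Ideal.Quotient.eq_zero_iff_mem.2 h1
      · change Ideal.Quotient.mk m ⟨ev a b c (C X), _⟩ =
            algebraMap k (A ⧸ m) (((((C X : k[X][X][X])).eval (C (C 0))).eval (C 0)).eval t)
        rw [eval_C, eval_X, eval_C, map_zero]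
        have h4 : (⟨ev a b c (C X), hA _⟩ : A) = ⟨b, hb⟩ := by
          apply Subtype.ext
          change ev a b c (C X) = b
          rw [ev_C, ev2_X]
        rw [h4]
        exact Ideal.Quotient.eq_zero_iff_mem.2 h2
    · change Ideal.Quotient.mk m ⟨ev a b c X, _⟩ =
            algebraMap k (A ⧸ m) (((((X : k[X][X][X])).eval (C (C 0))).eval (C 0)).eval t)
      rw [eval_X, eval_C, eval_C, map_zero]
      have h4 : (⟨ev a b c X, hA _⟩ : A) = ⟨c, hc⟩ := by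
        apply Subtype.ext
        change ev a b c X = c
        rw [ev_X]
      rw [h4]
      exact Ideal.Quotient.eq_zero_iff_mem.2 h3
  have h5 : φ g = ψ g := by rw [hφψ]
  have h6 : Ideal.Quotient.mk m ⟨ev a b c g, hA g⟩ =
      Ideal.Quotient.mk m (algebraMap k A (ev3 g t 0 0)) := by
    have h7 : ψ g = Ideal.Quotient.mk m (algebraMap k A (ev3 g t 0 0)) := by
      change algebraMap k (A ⧸ m) (((g.eval (C (C 0))).eval (C 0)).eval t) = _
      rfl
    rw [← h7]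
    exact h5
  exact Ideal.Quotient.eq.1 h6

/-- HB. PROOF (T_K1_KC section 3): helper22's `compare_point` with `A1 = k[X, y, z]`,
`A = chartOf k x x0`, `p = X - c`, `q = z` (`par₁`, `uni`). -/
theorem coord_loc [IsAlgClosed k] (hS : SurfN k x) (hC : Coord k x x0 x1 Y Z d O₁ c₁)
    (hint : ∀ u ∈ chartOf k x x0, IsIntegral (Algebra.adjoin k {x1 / x0, Y / x0 ^ d}) u) (u : F) :
    u ∈ O₁ ↔ ∃ g g' : k[X][X][X], ev3 g' c₁ 0 0 ≠ 0 ∧
      u * ev (x1 / x0) (Y / x0 ^ d) (Z / x0 ^ d) g' =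
        ev (x1 / x0) (Y / x0 ^ d) (Z / x0 ^ d) g := by
  obtain ⟨m, hm, hL⟩ := exists_isLoc hS.ne hC.pt hC.gen
  haveI := hm.isPrime
  have hle := coord_memH hC.h0 hC.h1 hC.hY hC.hZ
  have hcmp := HB_compare hS hC hint m hm hL
  have hL1 := (isLoc_of_compare hle m hcmp O₁).1 hL
  have hXm : x1 / x0 ∈ Algebra.adjoin k {x1 / x0, Y / x0 ^ d, Z / x0 ^ d} :=
    Algebra.subset_adjoin (Or.inl rfl)
  have hYm : Y / x0 ^ d ∈ Algebra.adjoin k {x1 / x0, Y / x0 ^ d, Z / x0 ^ d} :=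
    Algebra.subset_adjoin (Or.inr (Or.inl rfl))
  have hZm : Z / x0 ^ d ∈ Algebra.adjoin k {x1 / x0, Y / x0 ^ d, Z / x0 ^ d} :=
    Algebra.subset_adjoin (Or.inr (Or.inr rfl))
  have hA1 : ∀ g : k[X][X][X], ev (x1 / x0) (Y / x0 ^ d) (Z / x0 ^ d) g ∈
      Algebra.adjoin k {x1 / x0, Y / x0 ^ d, Z / x0 ^ d} :=
    fun g => (mem_adjoin_three _ _ _ _).2 ⟨g, rfl⟩
  have hA : ∀ g : k[X][X][X], ev (x1 / x0) (Y / x0 ^ d) (Z / x0 ^ d) g ∈ chartOf k x x0 :=
    fun g => hle (hA1 g)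
  have h1 : (⟨x1 / x0, hle hXm⟩ : chartOf k x x0) - algebraMap k (chartOf k x x0) c₁ ∈ m :=
    (HB_mem_iff hm hL _).2 (HB_par_left hC.par₁)
  have h3 : (⟨Z / x0 ^ d, hle hZm⟩ : chartOf k x x0) ∈ m :=
    (HB_mem_iff hm hL _).2 (HB_par_right hC.par₁)
  have h2 : (⟨Y / x0 ^ d, hle hYm⟩ : chartOf k x x0) ∈ m := by
    have hWm : (Z - Y) / x0 ^ d ∈ Algebra.adjoin k {x1 / x0, Y / x0 ^ d, Z / x0 ^ d} := by
      rw [sub_div]
      exact sub_mem hZm hYm
    have hm3 : (⟨(Z - Y) / x0 ^ d, hle hWm⟩ : chartOf k x x0) ∈ m :=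
      (HB_mem_iff hm hL _).2 (HB_par_right hC.par₂)
    have h4 := m.sub_mem h3 hm3
    have h5 : (⟨Z / x0 ^ d, hle hZm⟩ : chartOf k x x0) - ⟨(Z - Y) / x0 ^ d, hle hWm⟩ =
        ⟨Y / x0 ^ d, hle hYm⟩ := by
      apply Subtype.ext
      change Z / x0 ^ d - (Z - Y) / x0 ^ d = Y / x0 ^ d
      rw [sub_div]
      ring
    rwa [h5] at h4
  have hval := HB_value m (hle hXm) (hle hYm) (hle hZm) c₁ hA h1 h2 h3
  -- membership in `m` of values
  have hnot : ∀ g : k[X][X][X], (⟨ev (x1 / x0) (Y / x0 ^ d) (Z / x0 ^ d) g, hA g⟩ :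
      chartOf k x x0) ∉ m ↔ ev3 g c₁ 0 0 ≠ 0 := by
    intro g
    have h4 := hval g
    constructor
    · intro hg h0
      rw [h0, map_zero, sub_zero] at h4
      exact hg h4
    · intro h0 hg
      have h5 := m.sub_mem hg h4
      rw [sub_sub_cancel] at h5
      apply hm.ne_top
      rw [Ideal.eq_top_iff_one]
      have h6 := m.mul_mem_left (algebraMap k (chartOf k x x0) (ev3 g c₁ 0 0)⁻¹) h5
      rwa [← map_mul, inv_mul_cancel₀ h0, map_one] at h6
  rw [hL1 u]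
  constructor
  · rintro ⟨a, s, hs, rfl⟩
    obtain ⟨g, hg⟩ := (mem_adjoin_three _ _ _ _).1 a.2
    obtain ⟨g', hg'⟩ := (mem_adjoin_three _ _ _ _).1 s.2
    have hs' : (⟨s, hle s.2⟩ : chartOf k x x0) ∉ m := hs
    have hs0 := coe_ne_zero_of_notMem hs'
    refine ⟨g, g', ?_, ?_⟩
    · rw [← hnot]
      have h7 : (⟨ev (x1 / x0) (Y / x0 ^ d) (Z / x0 ^ d) g', hA g'⟩ : chartOf k x x0) =
          ⟨s, hle s.2⟩ := Subtype.ext hg'.symm
      rw [h7]
      exact hs'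
    · rw [← hg, ← hg']
      exact div_mul_cancel₀ _ hs0
  · rintro ⟨g, g', h0, hu⟩
    have h8 := (hnot g').2 h0
    have hs0 := coe_ne_zero_of_notMem h8
    refine ⟨⟨_, hA1 g⟩, ⟨_, hA1 g'⟩, h8, ?_⟩
    rw [eq_div_iff hs0]
    exact hu

/-- HB2. `F` is the field of fractions of `k[X, y, z]` (`frac_of_compare`). -/
theorem coord_gen [IsAlgClosed k] (hS : SurfN k x) (hC : Coord k x x0 x1 Y Z d O₁ c₁)
    (hint : ∀ u ∈ chartOf k x x0, IsIntegral (Algebra.adjoin k {x1 / x0, Y / x0 ^ d}) u) (u : F) :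
    ∃ g h : k[X][X][X], ev (x1 / x0) (Y / x0 ^ d) (Z / x0 ^ d) h ≠ 0 ∧
      u = ev (x1 / x0) (Y / x0 ^ d) (Z / x0 ^ d) g /
        ev (x1 / x0) (Y / x0 ^ d) (Z / x0 ^ d) h := by
  obtain ⟨m, hm, hL⟩ := exists_isLoc hS.ne hC.pt hC.gen
  haveI := hm.isPrime
  have hle := coord_memH hC.h0 hC.h1 hC.hY hC.hZ
  have hcmp := HB_compare hS hC hint m hm hL
  have hfr : IsFractionRing (chartOf k x x0) F :=
    chartOf_frac hS.ne (hS.chart 0).frac (mem_hom_one.1 hC.h0) hC.ne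
  have hfr1 : IsFractionRing (Algebra.adjoin k {x1 / x0, Y / x0 ^ d, Z / x0 ^ d}) F := by
    refine frac_of_compare hfr ?_
    intro a ha
    obtain ⟨s, hs, hsa⟩ := hcmp a ha
    exact ⟨s, ne_zero_of_notMem_incl hle hs, hsa⟩
  haveI := hfr1
  obtain ⟨a, b, hb, rfl⟩ := IsFractionRing.div_surjective
    (A := Algebra.adjoin k {x1 / x0, Y / x0 ^ d, Z / x0 ^ d}) u
  have hb0 : (b : F) ≠ 0 := fun h0 => nonZeroDivisors.ne_zero hb (Subtype.ext h0)
  obtain ⟨g, hg⟩ := (mem_adjoin_three _ _ _ _).1 a.2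
  obtain ⟨h, hh⟩ := (mem_adjoin_three _ _ _ _).1 b.2
  refine ⟨g, h, ?_, ?_⟩
  · rw [← hh]
    exact hb0
  · rw [← hg, ← hh]
    rfl

end Pool.Agent.Lib.MP_b197b4_ntK
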