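import Mathlib
import Pool.Agent.Lib.MP_b197b4_ntH.HB
import Pool.Agent.Lib.MP_b197b4_ntQ.WtC
import Pool.Agent.Lib.MP_b197b4_ntG.GenN

/-!
# MP_b197b4_nt, project K1, part KC: the equation of the surface
-/

set_option autoImplicit false

namespace Pool.Agent.Lib.MP_b197b4_ntK

open IsLocalRing Polynomial

open MPb197b4P (fib cut ev3 RegPt Spl Good Core)

variable {k F : Type} [Field k] [Field F] [Algebra k F] {n : ℕ} {x : Fin (n + 1) → F}
  {x0 x1 Y Z : F} {d : ℕ} {O₁ : Subring F} {c₁ : k} {f : k[X][X][X]} {r : ℕ}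
  {κ : k} {α γ : k[X]} {e : ℕ} {V : ValuationSubring F}
  {l : ∀ V : ValuationSubring F, ResidueField V → ℚ} {ν : ValuationSubring F → ℚ}

/-- HC. From `exists_wt` (ntQ/WtC.lean) and `coord_gen`. -/
theorem exists_eqn [IsAlgClosed k] (hS : SurfN k x) (hC : Coord k x x0 x1 Y Z d O₁ c₁) :
    ∃ f r, Eqn k x x0 x1 Y Z d f r := by
  obtain ⟨f, h1, h2, h3, h4, h5, h6, h7⟩ := Q.exists_wt hS.ne (le_trans (by norm_num) hC.two)
    (mem_hom_one.1 hC.h0) (mem_hom_one.1 hC.h1) hC.ne hC.hY hC.hZ hC.noz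
    (chartN_chartOf hS (mem_hom_one.1 hC.h0) hC.ne)
  exact ⟨f, f.natDegree, h1, rfl, h3, h2, h4, h5, h6, h7, coord_gen hS hC h7⟩

end Pool.Agent.Lib.MP_b197b4_ntK
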