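import Mathlib
import Pool.Agent.Lib.MP_b197b4_ntH.HA

/-!
# MP_b197b4_nt, project K1, part KC: the degree of the equation is at least two
-/

set_option autoImplicit false

namespace Pool.Agent.Lib.MP_b197b4_ntK

open IsLocalRing Polynomial

open MPb197b4P (fib cut ev3 RegPt Spl Good Core)

/-- multiply the variables by `T` and `T ^ d`: the degree in `T` is the weight -/
noncomputable def HC2w (k : Type) [Field k] (d : ℕ) : k[X][X] →+* k[X][X][X] :=
  eval₂RingHom (eval₂RingHom
    (((C : k[X][X] →+* k[X][X][X]).comp (C : k[X] →+* k[X][X])).comp (C : k →+* k[X]))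
    (C (C (Polynomial.X : k[X])) * (Polynomial.X : k[X][X][X])))
    (C (Polynomial.X : k[X][X]) * (Polynomial.X : k[X][X][X]) ^ d)

theorem HC2w_X (k : Type) [Field k] (d : ℕ) :
    HC2w k d Polynomial.X = C Polynomial.X * Polynomial.X ^ d := by
  unfold HC2w
  rw [coe_eval₂RingHom, eval₂_X]

theorem HC2w_CX (k : Type) [Field k] (d : ℕ) :
    HC2w k d (C Polynomial.X) = C (C Polynomial.X) * Polynomial.X := by
  unfold HC2w
  rw [coe_eval₂RingHom, eval₂_C, coe_eval₂RingHom, eval₂_X]

theorem HC2w_CC (k : Type) [Field k] (d : ℕ) (c : k) :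
    HC2w k d (C (C c)) = C (C (C c)) := by
  unfold HC2w
  rw [coe_eval₂RingHom, eval₂_C, coe_eval₂RingHom, eval₂_C]
  rfl

theorem HC2w_monomial (k : Type) [Field k] (d i j : ℕ) (c : k) :
    HC2w k d (monomial i (monomial j c)) =
      C (C (monomial j c) * Polynomial.X ^ i) * Polynomial.X ^ (j + d * i) := by
  rw [← C_mul_X_pow_eq_monomial, ← C_mul_X_pow_eq_monomial]
  simp only [map_mul, map_pow, HC2w_CC, HC2w_X, HC2w_CX]
  ring

theorem HC2w_coeff {k : Type} [Field k] (d : ℕ) (p : k[X][X]) (i j : ℕ) :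
    (((HC2w k d p).coeff (j + d * i)).coeff i).coeff j = (p.coeff i).coeff j := by
  induction p using Polynomial.induction_on' with
  | add p q hp hq =>
    rw [map_add, coeff_add, coeff_add, coeff_add, coeff_add, coeff_add, hp, hq]
  | monomial i' a =>
    induction a using Polynomial.induction_on' with
    | add p q hp hq =>
      rw [map_add, map_add, coeff_add, coeff_add, coeff_add, coeff_add, coeff_add, hp, hq]
    | monomial j' c =>
      rw [HC2w_monomial, coeff_C_mul, coeff_X_pow, coeff_monomial]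
      by_cases hi : i' = i
      · subst hi
        rw [if_pos rfl]
        by_cases hj : j' = j
        · subst hj
          rw [if_pos rfl, mul_one, coeff_C_mul, coeff_X_pow, if_pos rfl, mul_one]
        · rw [if_neg (by omega), mul_zero, coeff_zero, coeff_zero, coeff_monomial, if_neg hj]
      · rw [if_neg hi, coeff_zero]
        by_cases h : j + d * i = j' + d * i'
        · rw [if_pos h, mul_one, coeff_C_mul, coeff_X_pow, if_neg (fun h => hi h.symm), mul_zero,
            coeff_zero]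
        · rw [if_neg h, mul_zero, coeff_zero, coeff_zero]

theorem HC2w_lin {k : Type} [Field k] {d : ℕ} (hd : 2 ≤ d) {p : k[X][X]}
    (hp : (HC2w k d p).natDegree ≤ 1) : ∃ g : k[X], p = C g ∧ g.natDegree ≤ 1 := by
  have h1 : ∀ i j, 1 < j + d * i → (p.coeff i).coeff j = 0 := by
    intro i j h
    rw [← HC2w_coeff d p i j, coeff_eq_zero_of_natDegree_lt (lt_of_le_of_lt hp h), coeff_zero,
      coeff_zero]
  refine ⟨p.coeff 0, ?_, ?_⟩
  · ext i j
    cases i with
    | zero => rw [coeff_C_zero]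
    | succ i =>
      rw [coeff_C_succ, coeff_zero]
      refine h1 _ _ ?_
      have : 2 * 1 ≤ d * (i + 1) := Nat.mul_le_mul hd (Nat.succ_le_succ (Nat.zero_le i))
      omega
  · rw [natDegree_le_iff_coeff_eq_zero]
    intro j hj
    exact h1 0 j (by omega)

variable {k F : Type} [Field k] [Field F] [Algebra k F] {n : ℕ} {x : Fin (n + 1) → F}
  {x0 x1 Y Z : F} {d : ℕ} {O₁ : Subring F} {c₁ : k} {f : k[X][X][X]} {r : ℕ}
  {κ : k} {α γ : k[X]} {e : ℕ} {V : ValuationSubring F}
  {l : ∀ V : ValuationSubring F, ResidueField V → ℚ} {ν : ValuationSubring F → ℚ}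

/-- If `r = 1` then the chart `x0 ≠ 0` is `k[X, y]`. -/
theorem HC2_chart (hE : Eqn k x x0 x1 Y Z d f 1) {u : F} (hu : u ∈ chartOf k x x0) :
    ∃ p : k[X][X], u = ev2 (x1 / x0) (Y / x0 ^ d) p := by
  set a := x1 / x0 with ha
  set b := Y / x0 ^ d with hb
  set c := Z / x0 ^ d with hc
  have h1 : f = Polynomial.X + C (f.coeff 0) := by
    have h2 := hE.monic.eq_X_add_C hE.deg
    exact h2
  have h3 : c = ev2 a b (-(f.coeff 0)) := by
    have h4 := (hE.ker f).2 dvd_rfl
    rw [h1, map_add, ev_X, ev_C] at h4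
    rw [map_neg]
    exact eq_neg_of_add_eq_zero_left h4
  have h5 : ∀ g : k[X][X][X], ∃ p : k[X][X], ev a b c g = ev2 a b p := by
    intro g
    refine ⟨g.eval (-(f.coeff 0)), ?_⟩
    rw [h3]
    exact eval₂_at_apply (ev2 a b) _
  have hinj : Function.Injective (ev2 (k := k) a b) :=
    (injective_iff_map_eq_zero _).2 hE.ker2
  let _ : Algebra k[X][X] F := (ev2 (k := k) a b).toAlgebra
  have : FaithfulSMul k[X][X] F := (faithfulSMul_iff_algebraMap_injective _ _).2 hinj
  have : IsFractionRing k[X][X] F := by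
    refine IsFractionRing.of_field _ _ fun y => ?_
    obtain ⟨g, h, -, hy⟩ := hE.gen y
    obtain ⟨p, hp⟩ := h5 g
    obtain ⟨q, hq⟩ := h5 h
    exact ⟨p, q, by
      rw [hy, hp, hq]
      rfl⟩
  have h6 : IsIntegral k[X][X] u := by
    have h7 : IsIntegral (Algebra.adjoin k {a, b}) u := hE.int u hu
    set B := Algebra.adjoin k {a, b} with hB
    have h8 : ∀ p : k[X][X], ev2 a b p ∈ B := fun p => (mem_adjoin_two a b _).2 ⟨p, rfl⟩
    let ψ : k[X][X] →+* B := (ev2 (k := k) a b).codRestrict B h8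
    have h9 : Function.Bijective ψ := by
      constructor
      · intro p q hpq
        exact hinj (congrArg Subtype.val hpq)
      · rintro ⟨y, hy⟩
        obtain ⟨g, hg⟩ := (mem_adjoin_two a b _).1 hy
        exact ⟨g, Subtype.ext hg.symm⟩
    let χ := RingEquiv.ofBijective ψ h9
    refine IsIntegral.map_of_comp_eq (χ.symm : B →+* k[X][X]) (RingHom.id F) ?_ h7
    ext y
    have h10 := congrArg Subtype.val (χ.apply_symm_apply y)
    exact h10
  obtain ⟨p, hp⟩ := (IsIntegrallyClosed.isIntegral_iff).1 h6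
  exact ⟨p, hp.symm⟩

/-- The weights of the forms of degree `M` are at most `M + c`. -/
theorem HC2_bound (hd : 2 ≤ d) (hx : ∀ i, x i ≠ 0) (h0 : x0 ∈ hom k x 1) (h1 : x1 ∈ hom k x 1)
    (hY : Y ∈ hom k x d) (hx0 : x0 ≠ 0)
    (noz : ∀ O ∈ Points (charts k x), NotZero x O 1 x0 ∨ NotZero x O 1 x1 ∨ NotZero x O d Y)
    (hinj : ∀ g : k[X][X], ev2 (x1 / x0) (Y / x0 ^ d) g = 0 → g = 0)
    (hch : ∀ u ∈ chartOf k x x0, ∃ p : k[X][X], u = ev2 (x1 / x0) (Y / x0 ^ d) p) :
    ∃ c : ℕ, ∀ M, ∀ p : k[X][X], x0 ^ M * ev2 (x1 / x0) (Y / x0 ^ d) p ∈ hom k x M →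
      (HC2w k d p).natDegree ≤ M + c := by
  classical
  set a := x1 / x0 with ha
  set b := Y / x0 ^ d with hb
  have hw : x0 ∈ Submodule.span k (Set.range x) := mem_hom_one.1 h0
  -- every form is a polynomial
  have e1 : ∀ M, ∀ g ∈ hom k x M, ∃ p : k[X][X], g = x0 ^ M * ev2 a b p := by
    intro M g hg
    obtain ⟨p, hp⟩ := hch (g / x0 ^ M) (div_mem_chartOf hg)
    exact ⟨p, by
      rw [← hp, mul_div_cancel₀ _ (pow_ne_zero _ hx0)]⟩
  -- one degree
  have e2 : ∀ M, ∃ c : ℕ, ∀ p : k[X][X], x0 ^ M * ev2 a b p ∈ hom k x M →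
      (HC2w k d p).natDegree ≤ c := by
    intro M
    have hfg : (hom k x M).FG := (Submodule.fg_span (Set.finite_range x)).pow M
    obtain ⟨S, hS⟩ := hfg
    have h3 : ∀ g : F, ∃ p : k[X][X], g ∈ S → g = x0 ^ M * ev2 a b p := by
      intro g
      by_cases hg : g ∈ S
      · obtain ⟨p, hp⟩ := e1 M g (hS ▸ Submodule.subset_span hg)
        exact ⟨p, fun _ => hp⟩
      · exact ⟨0, fun h => absurd h hg⟩
    choose P hP using h3
    refine ⟨S.sup fun g => (HC2w k d (P g)).natDegree, fun p hp => ?_⟩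
    have h4 : ∀ g ∈ hom k x M, ∃ q : k[X][X], g = x0 ^ M * ev2 a b q ∧
        (HC2w k d q).natDegree ≤ S.sup fun g => (HC2w k d (P g)).natDegree := by
      intro g hg
      rw [← hS] at hg
      induction hg using Submodule.span_induction with
      | mem g hg =>
        exact ⟨P g, hP g hg, Finset.le_sup (f := fun g => (HC2w k d (P g)).natDegree) hg⟩
      | zero =>
        exact ⟨0, by rw [map_zero, mul_zero], by
          rw [map_zero, natDegree_zero]
          exact Nat.zero_le _⟩
      | add g g' _ _ ih ih' =>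
        obtain ⟨q, h5, h6⟩ := ih
        obtain ⟨q', h5', h6'⟩ := ih'
        refine ⟨q + q', ?_, ?_⟩
        · rw [map_add, mul_add, ← h5, ← h5']
        · rw [map_add]
          exact (natDegree_add_le _ _).trans (max_le h6 h6')
      | smul c g _ ih =>
        obtain ⟨q, h5, h6⟩ := ih
        refine ⟨C (C c) * q, ?_, ?_⟩
        · rw [map_mul, ev2_C, aeval_C, h5, Algebra.smul_def]
          ring
        · rw [map_mul, HC2w_CC]
          exact (natDegree_C_mul_le _ _).trans h6
    obtain ⟨q, hq, hq'⟩ := h4 _ hp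
    have h7 : p = q := by
      have h8 : ev2 a b p = ev2 a b q := mul_left_cancel₀ (pow_ne_zero _ hx0) hq
      have h9 : p - q = 0 := hinj _ (by rw [map_sub, h8, sub_self])
      exact sub_eq_zero.1 h9
    rw [h7]
    exact hq'
  choose c hc using e2
  -- forms without common zero
  obtain ⟨M₀, hM₀, hcomb⟩ := exists_comb_fin (k := k) hx ![x0, x1, Y] ![1, 1, d] (by
    intro j
    fin_cases j
    · exact h0
    · exact h1
    · exact hY) (by
    intro O hO
    rcases noz O hO with h | h | h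
    · exact ⟨0, h⟩
    · exact ⟨1, h⟩
    · exact ⟨2, h⟩)
  have hd0 : d ≤ M₀ := hM₀ 2
  refine ⟨(Finset.range (M₀ + 1)).sup c, fun M => ?_⟩
  induction M using Nat.strong_induction_on with
  | _ M ih =>
    intro p hp
    by_cases hM : M ≤ M₀
    · have h3 : c M ≤ (Finset.range (M₀ + 1)).sup c :=
        Finset.le_sup (f := c) (Finset.mem_range.2 (Nat.lt_succ_of_le hM))
      have h4 := hc M p hp
      omega
    · obtain ⟨g, hg, hs⟩ := hcomb M (by omega) _ hp
      rw [Fin.sum_univ_three] at hs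
      have hg0 : g 0 ∈ hom k x (M - 1) := hg 0
      have hg1 : g 1 ∈ hom k x (M - 1) := hg 1
      have hg2 : g 2 ∈ hom k x (M - d) := hg 2
      have hs' : x0 ^ M * ev2 a b p = x0 * g 0 + x1 * g 1 + Y * g 2 := hs
      obtain ⟨p0, hp0⟩ := e1 _ _ hg0
      obtain ⟨p1, hp1⟩ := e1 _ _ hg1
      obtain ⟨p2, hp2⟩ := e1 _ _ hg2
      have w0 := ih (M - 1) (by omega) p0 (hp0 ▸ hg0)
      have w1 := ih (M - 1) (by omega) p1 (hp1 ▸ hg1)
      have w2 := ih (M - d) (by omega) p2 (hp2 ▸ hg2)
      have h5 : p = p0 + C Polynomial.X * p1 + Polynomial.X * p2 := by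
        rw [← sub_eq_zero]
        refine hinj _ ?_
        rw [map_sub, map_add, map_add, map_mul, map_mul, ev2_C, aeval_X, ev2_X, sub_eq_zero]
        have h6 : x0 ^ M ≠ 0 := pow_ne_zero _ hx0
        refine mul_left_cancel₀ h6 ?_
        rw [hs', hp0, hp1, hp2]
        have h7 : x0 ^ M = x0 ^ (M - 1) * x0 := by
          rw [← pow_succ]
          exact congrArg _ (by omega)
        have h8 : x0 ^ M = x0 ^ (M - d) * x0 ^ d := by
          rw [← pow_add]
          exact congrArg _ (by omega)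
        have h9 : x0 ^ M * (a * ev2 a b p1) = x0 ^ (M - 1) * ev2 a b p1 * x1 := by
          rw [h7, ha]
          field_simp
        have h10 : x0 ^ M * (b * ev2 a b p2) = x0 ^ (M - d) * ev2 a b p2 * Y := by
          rw [h8, hb]
          field_simp
        rw [mul_add, mul_add, h9, h10]
        rw [h7]
        ring
      rw [h5, map_add, map_add, map_mul, map_mul, HC2w_CX, HC2w_X]
      have v1 : (C (C (Polynomial.X : k[X])) * (Polynomial.X : k[X][X][X])).natDegree ≤ 1 := by
        have h11 := natDegree_C_mul_X_pow_le (C (Polynomial.X : k[X])) 1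
        rwa [pow_one] at h11
      have v2 : (C (Polynomial.X : k[X][X]) * (Polynomial.X : k[X][X][X]) ^ d).natDegree ≤ d :=
        natDegree_C_mul_X_pow_le _ _
      refine (natDegree_add_le _ _).trans (max_le ((natDegree_add_le _ _).trans (max_le ?_ ?_)) ?_)
      · omega
      · refine natDegree_mul_le.trans ?_
        omega
      · refine natDegree_mul_le.trans ?_
        omega

/-- HC2. `r ≥ 2`. PROOF (T_K1_KC section 2): if `r = 1` then `F = k(X, y)`, the chart `x0 ≠ 0` is
`k[X, y]`, the chart `x1 ≠ 0` is in `k[1 / X, y / X ^ d]` (integrality at infinity by `noz`), so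
`v / x0` is in `k + k X` for every linear form `v` (`d ≥ 2`), and `F = k(X)`, a contradiction. -/
theorem eqn_two [IsAlgClosed k] (hS : SurfN k x) (hC : Coord k x x0 x1 Y Z d O₁ c₁)
    (hE : Eqn k x x0 x1 Y Z d f r) : 2 ≤ r := by
  by_contra hr
  have hr1 : r = 1 := by
    have := hE.one
    omega
  subst hr1
  have hw : x0 ∈ Submodule.span k (Set.range x) := mem_hom_one.1 hC.h0
  obtain ⟨c, hc⟩ := HC2_bound hC.two hS.ne hC.h0 hC.h1 hC.hY hC.ne hC.noz hE.ker2
    (fun u hu => HC2_chart hE hu)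
  have e1 : ∀ v ∈ hom k x 1, ∃ g : k[X], v / x0 = aeval (x1 / x0) g := by
    intro v hv
    have hv' : v / x0 ∈ chartOf k x x0 := by
      have h1 := div_mem_chartOf (w := x0) hv
      rwa [pow_one] at h1
    obtain ⟨p, hp⟩ := HC2_chart hE hv'
    have h2 : ∀ M, M * (HC2w k d p).natDegree ≤ M + c := by
      intro M
      rw [← natDegree_pow, ← map_pow]
      refine hc M _ ?_
      rw [map_pow, ← hp, ← mul_pow, mul_div_cancel₀ _ hC.ne]
      have h3 := pow_mem_hom hv M
      rwa [one_mul] at h3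
    have h4 : (HC2w k d p).natDegree ≤ 1 := by
      by_contra h5
      have h6 : 2 ≤ (HC2w k d p).natDegree := by omega
      have h7 := h2 (c + 1)
      have h8 : (c + 1) * 2 ≤ (c + 1) * (HC2w k d p).natDegree := Nat.mul_le_mul_left _ h6
      omega
    obtain ⟨g, hg, -⟩ := HC2w_lin hC.two h4
    exact ⟨g, by rw [hp, hg, ev2_C]⟩
  have e2 : chartOf k x x0 ≤ (aeval (R := k) (x1 / x0)).range := by
    unfold chartOf
    refine Algebra.adjoin_le ?_
    rintro _ ⟨j, rfl⟩
    obtain ⟨g, hg⟩ := e1 (x j) (x_mem_hom j)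
    exact ⟨g, hg.symm⟩
  obtain ⟨g, hg⟩ := e2 (div_mem_chartOf hC.hY)
  have h3 := hE.ker2 (Polynomial.X - C g) (by
    rw [map_sub, ev2_X, ev2_C, sub_eq_zero]
    exact hg.symm)
  exact X_sub_C_ne_zero g h3

end Pool.Agent.Lib.MP_b197b4_ntK
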