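import Mathlib

/-!
# MP_b197b4_nt, project K1: the coefficient of `y ^ r` of the special curves

If the coefficient of `y ^ r` in `f (x, y, κ y)` is zero then there is a valuation ring which
contains `x` and in which `1 / y` and `z / y - κ` are not invertible.
-/

set_option autoImplicit false
set_option linter.style.haveILetI false

namespace Pool.Agent.Lib.MP_b197b4_ntH

open Polynomial

section Ind

variable {R : Type*} [CommRing R]

theorem ind3 {P : R[X][X] → Prop} (hadd : ∀ a b, P a → P b → P (a + b))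
    (hmul : ∀ a b, P a → P b → P (a * b)) (hC : ∀ q : R, P (C (C q))) (hU : P (C X)) (hT : P X)
    (p : R[X][X]) : P p := by
  have hone : P 1 := by
    have := hC 1
    simpa using this
  have hpow : ∀ a, P a → ∀ n : ℕ, P (a ^ n) := by
    intro a ha n
    induction n with
    | zero => rw [pow_zero]; exact hone
    | succ n ih => rw [pow_succ]; exact hmul _ _ ih ha
  have h1 : ∀ q : R[X], P (C q) := by
    intro q
    induction q using Polynomial.induction_on' with
    | add a b ha hb => rw [C_add]; exact hadd _ _ ha hb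
    | monomial n a =>
      rw [← C_mul_X_pow_eq_monomial, C_mul, C_pow]
      exact hmul _ _ (hC a) (hpow _ hU n)
  induction p using Polynomial.induction_on' with
  | add a b ha hb => exact hadd _ _ ha hb
  | monomial n a =>
    rw [← C_mul_X_pow_eq_monomial]
    exact hmul _ _ (h1 a) (hpow _ hT n)

end Ind

variable {k F : Type} [Field k] [Field F] [Algebra k F]

/-- evaluation of polynomials in `x, y, z` (innermost variable `x`) -/
noncomputable def evv (a b c : F) : k[X][X][X] →+* F :=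
  eval₂RingHom (eval₂RingHom (aeval a : k[X] →ₐ[k] F).toRingHom b) c

theorem evv_C (a b c : F) (q : k[X]) : evv a b c (C (C q)) = aeval a q := by
  simp [evv]

theorem evv_U (a b c : F) : evv (k := k) a b c (C X) = b := by simp [evv]

theorem evv_T (a b c : F) : evv (k := k) a b c X = c := by simp [evv]

theorem evv_sub (a b c : F) (κ : k) :
    evv a b c (X - C (C (C κ)) * C X) = c - algebraMap k F κ * b := by
  have h1 : (X : k[X][X][X]) = (X - C (C (C κ)) * C X) + C (C (C κ)) * C X := by ring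
  have h2 := congrArg (evv a b c) h1
  rw [map_add, map_mul, evv_T, evv_U, evv_C, aeval_C] at h2
  exact eq_sub_of_add_eq h2.symm

section Sub

variable {L : Type} [Field L] (ι : k[X][X][X] →+* L)

/-- The substitution `y = 1 / U`, `z = (T + κ) / U`. -/
noncomputable def Th (κ : k) : k[X][X][X] →+* L :=
  eval₂RingHom (eval₂RingHom (ι.comp ((C : k[X][X] →+* k[X][X][X]).comp C)) (ι (C X))⁻¹)
    (ι (X + C (C (C κ))) * (ι (C X))⁻¹)

theorem Th_C (κ : k) (q : k[X]) : Th ι κ (C (C q)) = ι (C (C q)) := by simp [Th]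

theorem Th_U (κ : k) : Th ι κ (C X) = (ι (C X))⁻¹ := by simp [Th]

theorem Th_T (κ : k) : Th ι κ X = ι (X + C (C (C κ))) * (ι (C X))⁻¹ := by simp [Th]

theorem Th_sub (κ : k) : Th ι κ (X - C (C (C κ)) * C X) = ι X * (ι (C X))⁻¹ := by
  have h1 : (X : k[X][X][X]) = (X - C (C (C κ)) * C X) + C (C (C κ)) * C X := by ring
  have h2 := congrArg (Th ι κ) h1
  rw [map_add, map_mul, Th_T, Th_U, Th_C, map_add] at h2
  have h3 := eq_sub_of_add_eq h2.symm
  rw [h3]
  ring

theorem algU_ne (hι : Function.Injective ι) : ι (C X) ≠ 0 := by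
  rw [Ne, map_eq_zero_iff ι hι]
  simp

theorem Th_pol (hι : Function.Injective ι) (κ : k) (G : k[X][X][X]) :
    ∃ (M : ℕ) (G' : k[X][X][X]), ι (C X) ^ M * Th ι κ G = ι G' := by
  have hU := algU_ne ι hι
  refine ind3 (P := fun G => ∃ (M : ℕ) (G' : k[X][X][X]),
    ι (C X) ^ M * Th ι κ G = ι G') ?_ ?_ ?_ ?_ ?_ G
  · rintro a b ⟨M, a', ha⟩ ⟨N, b', hb⟩
    refine ⟨M + N, C X ^ N * a' + C X ^ M * b', ?_⟩
    simp only [map_add, map_mul, map_pow]
    rw [← ha, ← hb]
    ring
  · rintro a b ⟨M, a', ha⟩ ⟨N, b', hb⟩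
    refine ⟨M + N, a' * b', ?_⟩
    simp only [map_mul]
    rw [← ha, ← hb]
    ring
  · intro q
    exact ⟨0, C (C q), by rw [pow_zero, one_mul, Th_C]⟩
  · refine ⟨1, 1, ?_⟩
    rw [pow_one, Th_U, mul_inv_cancel₀ hU, map_one]
  · refine ⟨1, X + C (C (C κ)), ?_⟩
    rw [pow_one, Th_T, mul_left_comm, mul_inv_cancel₀ hU, mul_one]

theorem exists_G (hι : Function.Injective ι) {x y z : F} (hy : y ≠ 0) (κ : k)
    (Q : k[X][X][X]) : ∃ (N : ℕ) (G : k[X][X][X]), Th ι κ G * ι (C X) ^ N = ι Q ∧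
    evv x y z G = y ^ N * evv x y⁻¹ (z / y - algebraMap k F κ) Q := by
  have hU := algU_ne ι hι
  refine ind3 (P := fun Q => ∃ (N : ℕ) (G : k[X][X][X]), Th ι κ G * ι (C X) ^ N = ι Q ∧
    evv x y z G = y ^ N * evv x y⁻¹ (z / y - algebraMap k F κ) Q) ?_ ?_ ?_ ?_ ?_ Q
  · rintro a b ⟨M, a', ha, ha'⟩ ⟨N, b', hb, hb'⟩
    refine ⟨M + N, C X ^ N * a' + C X ^ M * b', ?_, ?_⟩
    · simp only [map_add, map_mul, map_pow, Th_U]
      rw [← ha, ← hb, pow_add]
      have h1 : (ι (C X))⁻¹ ^ N * ι (C X) ^ N = 1 := by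
        rw [← mul_pow, inv_mul_cancel₀ hU, one_pow]
      have h2 : (ι (C X))⁻¹ ^ M * ι (C X) ^ M = 1 := by
        rw [← mul_pow, inv_mul_cancel₀ hU, one_pow]
      linear_combination (Th ι κ a' * ι (C X) ^ M) * h1 + (Th ι κ b' * ι (C X) ^ N) * h2
    · simp only [map_add, map_mul, map_pow, evv_U]
      rw [ha', hb']
      ring
  · rintro a b ⟨M, a', ha, ha'⟩ ⟨N, b', hb, hb'⟩
    refine ⟨M + N, a' * b', ?_, ?_⟩
    · simp only [map_mul]
      rw [← ha, ← hb]
      ring
    · simp only [map_mul]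
      rw [ha', hb']
      ring
  · intro q
    refine ⟨0, C (C q), ?_, ?_⟩
    · rw [pow_zero, mul_one, Th_C]
    · rw [pow_zero, one_mul, evv_C, evv_C]
  · refine ⟨1, 1, ?_, ?_⟩
    · rw [map_one, pow_one, one_mul]
    · rw [map_one, pow_one, evv_U, mul_inv_cancel₀ hy]
  · refine ⟨1, X - C (C (C κ)) * C X, ?_, ?_⟩
    · rw [Th_sub, pow_one, mul_assoc, inv_mul_cancel₀ hU, mul_one]
    · rw [evv_sub, evv_T]
      field_simp

/-- The reversed polynomial. -/
noncomputable def rev (f : k[X][X][X]) (r : ℕ) (κ : k) : k[X][X][X] :=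
  ∑ j ∈ Finset.range (r + 1), ∑ i ∈ Finset.range (r + 1),
    C (C ((f.coeff j).coeff i) * X ^ (r - i - j)) * (X + C (C (C κ))) ^ j

theorem Th_rev (hι : Function.Injective ι) {f : k[X][X][X]} {r : ℕ} (κ : k)
    (hdeg : f.natDegree = r) (htot : ∀ i j, (f.coeff j).coeff i ≠ 0 → i + j ≤ r) :
    ι (C X) ^ r * Th ι κ f = ι (rev f r κ) := by
  have hU := algU_ne ι hι
  have h1 : ∀ j, f.coeff j = ∑ i ∈ Finset.range (r + 1), C ((f.coeff j).coeff i) * X ^ i := by
    intro j
    refine (f.coeff j).as_sum_range_C_mul_X_pow' ?_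
    rw [Nat.lt_succ_iff]
    refine natDegree_le_iff_coeff_eq_zero.2 fun i hi => ?_
    by_contra hne
    have := htot i j hne
    omega
  have h2 : f = ∑ j ∈ Finset.range (r + 1), C (f.coeff j) * X ^ j :=
    f.as_sum_range_C_mul_X_pow' (by omega)
  have h3 : Th ι κ f = ∑ j ∈ Finset.range (r + 1), ∑ i ∈ Finset.range (r + 1),
      Th ι κ (C (C ((f.coeff j).coeff i))) * Th ι κ (C X) ^ i * Th ι κ X ^ j := by
    conv_lhs => rw [h2]
    rw [map_sum]
    refine Finset.sum_congr rfl fun j _ => ?_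
    conv_lhs => rw [h1 j]
    rw [map_mul, map_sum, map_sum, map_pow, Finset.sum_mul]
    refine Finset.sum_congr rfl fun i _ => ?_
    rw [C_mul, map_mul, C_pow, map_pow]
  rw [h3, rev, map_sum, Finset.mul_sum]
  refine Finset.sum_congr rfl fun j _ => ?_
  rw [map_sum, Finset.mul_sum]
  refine Finset.sum_congr rfl fun i _ => ?_
  by_cases h0 : (f.coeff j).coeff i = 0
  · rw [h0]
    simp
  · have h4 := htot i j h0
    rw [Th_C, Th_U, Th_T, map_mul, C_mul, map_mul, C_pow, map_pow, map_pow]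
    have h5 : ι (C X) ^ r = ι (C X) ^ (r - i - j) * (ι (C X) ^ i * ι (C X) ^ j) := by
      rw [← pow_add, ← pow_add]
      congr 1
      omega
    have h6 : (ι (C X))⁻¹ ^ i * ι (C X) ^ i = 1 := by
      rw [← mul_pow, inv_mul_cancel₀ hU, one_pow]
    have h7 : (ι (C X))⁻¹ ^ j * ι (C X) ^ j = 1 := by
      rw [← mul_pow, inv_mul_cancel₀ hU, one_pow]
    rw [h5, mul_pow]
    calc _ = ι (C (C ((f.coeff j).coeff i))) * ι (C X) ^ (r - i - j) *
          ι (X + C (C (C κ))) ^ j * ((ι (C X))⁻¹ ^ i * ι (C X) ^ i) *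
          ((ι (C X))⁻¹ ^ j * ι (C X) ^ j) := by ring
      _ = _ := by rw [h6, h7, mul_one, mul_one]

/-- The part of degree `r`. -/
noncomputable def topp (f : k[X][X][X]) (r : ℕ) (κ : k) : k[X][X] :=
  ∑ j ∈ Finset.range (r + 1), C ((f.coeff j).coeff (r - j)) * (X + C (C κ)) ^ j

theorem rev_map {f : k[X][X][X]} {r : ℕ} (κ : k)
    (htot : ∀ i j, (f.coeff j).coeff i ≠ 0 → i + j ≤ r) :
    (rev f r κ).map (evalRingHom (0 : k[X])) = topp f r κ := by
  rw [rev, topp, Polynomial.map_sum]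
  refine Finset.sum_congr rfl fun j hj => ?_
  have hj' : j ≤ r := by
    have := Finset.mem_range.1 hj
    omega
  rw [Polynomial.map_sum, Finset.sum_eq_single (r - j)]
  · have h3 : r - (r - j) - j = 0 := by omega
    rw [Polynomial.map_mul, Polynomial.map_pow, Polynomial.map_add, map_X, map_C, map_C, h3]
    simp
  · intro i _ hij
    by_cases h0 : (f.coeff j).coeff i = 0
    · rw [h0]
      simp
    · have h1 := htot i j h0
      have h2 : r - i - j ≠ 0 := by omega
      rw [Polynomial.map_mul, map_C, coe_evalRingHom, eval_mul, eval_pow, eval_X,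
        zero_pow h2, mul_zero, C_0, zero_mul]
  · intro h
    exact absurd (Finset.mem_range.2 (by omega)) h

theorem topp_ne {f : k[X][X][X]} {r : ℕ} (κ : k) (hm : f.Monic) (hdeg : f.natDegree = r) :
    topp f r κ ≠ 0 := by
  intro h0
  have h1 : topp f r κ = (∑ j ∈ Finset.range (r + 1),
      C ((f.coeff j).coeff (r - j)) * (X : k[X][X]) ^ j).comp (X + C (C κ)) := by
    rw [topp, Polynomial.sum_comp]
    refine Finset.sum_congr rfl fun j _ => ?_
    rw [mul_comp, C_comp, X_pow_comp]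
  have h2 : (∑ j ∈ Finset.range (r + 1),
      C ((f.coeff j).coeff (r - j)) * (X : k[X][X]) ^ j) ≠ 0 := by
    intro h3
    have h4 := congrArg (fun p : k[X][X] => p.coeff r) h3
    simp only [finsetSum_coeff, coeff_C_mul, coeff_X_pow, coeff_zero] at h4
    rw [Finset.sum_eq_single r] at h4
    · have h5 : f.coeff r = 1 := by rw [← hdeg]; exact hm
      rw [h5] at h4
      simp at h4
    · intro j _ hj
      rw [if_neg (fun h => hj h.symm), mul_zero]
    · intro h5
      exact absurd (Finset.mem_range.2 (by omega)) h5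
  rw [h1] at h0
  have h3 := (Polynomial.comp_eq_zero_iff.1 h0)
  rcases h3 with h3 | ⟨_, h3⟩
  · exact h2 h3
  · have h4 := congrArg (fun p : k[X][X] => p.coeff 1) h3
    simp at h4

theorem topp_eval {f : k[X][X][X]} {r : ℕ} (κ : k) (hdeg : f.natDegree = r) :
    (topp f r κ).eval 0 = (f.eval (C (C κ) * X)).coeff r := by
  rw [topp, eval_finsetSum, eval_eq_sum_range' (show f.natDegree < r + 1 by omega),
    finsetSum_coeff]
  refine Finset.sum_congr rfl fun j hj => ?_
  have hj' : j ≤ r := by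
    have := Finset.mem_range.1 hj
    omega
  rw [eval_mul, eval_C, eval_pow, eval_add, eval_X, eval_C, zero_add, mul_pow, ← C_pow, ← C_pow,
    ← mul_assoc]
  have h1 : (f.coeff j * C (C κ ^ j) * X ^ j).coeff (r - j + j) =
      (f.coeff j * C (C κ ^ j)).coeff (r - j) := coeff_mul_X_pow _ _ _
  rw [Nat.sub_add_cancel hj'] at h1
  rw [C_pow, h1, coeff_mul_C]

theorem rev_dvd (hι : Function.Injective ι) {x y z : F} {f : k[X][X][X]} {r : ℕ} (hy : y ≠ 0)
    (κ : k) (hker : ∀ g : k[X][X][X], evv x y z g = 0 ↔ f ∣ g) (hm : f.Monic)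
    (hdeg : f.natDegree = r) (htot : ∀ i j, (f.coeff j).coeff i ≠ 0 → i + j ≤ r)
    {Q : k[X][X][X]} (hQ : evv x y⁻¹ (z / y - algebraMap k F κ) Q = 0) : rev f r κ ∣ Q := by
  obtain ⟨N, G, h1, h2⟩ := exists_G ι hι hy κ (z := z) (x := x) Q
  rw [hQ, mul_zero] at h2
  obtain ⟨q, rfl⟩ := (hker G).1 h2
  obtain ⟨M, q', h3⟩ := Th_pol ι hι κ q
  have h4 := Th_rev ι hι κ hdeg htot
  have h5 : ι ((C X) ^ (r + M) * Q) = ι (rev f r κ * (q' * (C X) ^ N)) := by
    simp only [map_mul, map_pow]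
    rw [← h1, ← h3, ← h4, map_mul]
    ring
  have h6 := hι h5
  have hp : Prime (C X : k[X][X][X]) := prime_C_iff.2 prime_X
  have hnd : ¬ (C X : k[X][X][X]) ∣ rev f r κ := by
    intro h7
    apply topp_ne κ hm hdeg
    rw [← rev_map κ htot]
    obtain ⟨s, hs⟩ := h7
    rw [hs, Polynomial.map_mul, map_C]
    simp
  obtain ⟨s, hs⟩ := hp.pow_dvd_of_dvd_mul_left (r + M) hnd ⟨Q, h6.symm⟩
  refine ⟨s, ?_⟩
  have hne : (C X : k[X][X][X]) ^ (r + M) ≠ 0 := pow_ne_zero _ hp.ne_zero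
  apply mul_left_cancel₀ hne
  rw [h6, hs]
  ring

end Sub

/-- The valuation ring over the point at infinity. -/
theorem exists_val_top {x y z : F} {f : k[X][X][X]} {r : ℕ} (hy : y ≠ 0)
    (κ : k) (hker : ∀ g : k[X][X][X], evv x y z g = 0 ↔ f ∣ g) (hm : f.Monic)
    (hdeg : f.natDegree = r) (htot : ∀ i j, (f.coeff j).coeff i ≠ 0 → i + j ≤ r)
    (h0 : (f.eval (C (C κ) * X)).coeff r = 0) :
    ∃ W : ValuationSubring F, (∀ c : k, algebraMap k F c ∈ W) ∧ x ∈ W ∧
      W.valuation y⁻¹ < 1 ∧ W.valuation (z / y - algebraMap k F κ) < 1 := by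
  let ev' := evv (k := k) x y⁻¹ (z / y - algebraMap k F κ)
  let B : Subring F :=
    { carrier := Set.range ev'
      mul_mem' := by
        rintro _ _ ⟨p, rfl⟩ ⟨q, rfl⟩
        exact ⟨p * q, map_mul _ _ _⟩
      one_mem' := ⟨1, map_one _⟩
      add_mem' := by
        rintro _ _ ⟨p, rfl⟩ ⟨q, rfl⟩
        exact ⟨p + q, map_add _ _ _⟩
      zero_mem' := ⟨0, map_zero _⟩
      neg_mem' := by
        rintro _ ⟨p, rfl⟩
        refine ⟨C (C (C (-1))) * p, ?_⟩
        rw [map_mul]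
        have h1 : ev' (C (C (C (-1)))) = -1 := by
          change evv _ _ _ _ = _
          rw [evv_C, aeval_C, map_neg, map_one]
        rw [h1, neg_one_mul] }
  have hyr : y⁻¹ ∈ B := ⟨C X, evv_U (k := k) _ _ _⟩
  have hzr : z / y - algebraMap k F κ ∈ B := ⟨X, evv_T (k := k) _ _ _⟩
  let I : Ideal B := Ideal.span {⟨y⁻¹, hyr⟩, ⟨z / y - algebraMap k F κ, hzr⟩}
  have hI : I ≠ ⊤ := by
    intro hI
    have h1 : (1 : B) ∈ I := by rw [hI]; trivial
    obtain ⟨⟨a, ha⟩, ⟨b, hb⟩, hab⟩ := Ideal.mem_span_pair.1 h1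
    obtain ⟨P1, rfl⟩ := ha
    obtain ⟨P2, rfl⟩ := hb
    have h2 : ev' P1 * y⁻¹ + ev' P2 * (z / y - algebraMap k F κ) = 1 :=
      congrArg Subtype.val hab
    have h3 : ev' (P1 * C X + P2 * X) = ev' 1 := by
      rw [map_add, map_mul, map_mul, map_one, ← h2]
      congr 2
      · exact evv_U _ _ _
      · exact evv_T _ _ _
    have h4 : ev' (1 - (P1 * C X + P2 * X)) = 0 := by
      have h5 : (1 : k[X][X][X]) = (1 - (P1 * C X + P2 * X)) + (P1 * C X + P2 * X) := by ring
      have h6 := congrArg ev' h5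
      rw [map_add, h3] at h6
      have h7 : ev' (1 - (P1 * C X + P2 * X)) + ev' 1 = 0 + ev' 1 := by rw [← h6, zero_add]
      exact add_right_cancel h7
    have hinj : Function.Injective (algebraMap (k[X][X][X]) (FractionRing (k[X][X][X]))) :=
      IsFractionRing.injective _ _
    obtain ⟨s, hs⟩ := rev_dvd (L := FractionRing (k[X][X][X])) _ hinj hy κ hker hm hdeg htot h4
    have h5 := congrArg (fun p : k[X][X][X] => (p.map (evalRingHom (0 : k[X]))).eval 0) hs
    simp only [Polynomial.map_mul, rev_map κ htot, eval_mul, topp_eval κ hdeg, h0, zero_mul] at h5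
    simp at h5
  obtain ⟨W, hW1, hW2⟩ := Ideal.image_subset_nonunits_valuationSubring I hI
  refine ⟨W, ?_, ?_, ?_, ?_⟩
  · intro c
    refine hW1 ⟨C (C (C c)), ?_⟩
    change evv _ _ _ _ = _
    rw [evv_C, aeval_C]
  · refine hW1 ⟨C (C X), ?_⟩
    change evv _ _ _ _ = _
    rw [evv_C, aeval_X]
  · exact (ValuationSubring.mem_nonunits_iff W).1
      (hW2 ⟨⟨y⁻¹, hyr⟩, Ideal.subset_span (by simp), rfl⟩)
  · exact (ValuationSubring.mem_nonunits_iff W).1
      (hW2 ⟨⟨z / y - algebraMap k F κ, hzr⟩, Ideal.subset_span (by simp), rfl⟩)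

end Pool.Agent.Lib.MP_b197b4_ntH
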