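import Mathlib
import Pool.Agent.Lib.MP_b197b4_ntH.HA
import Pool.Agent.Lib.MP_b197b4_ntH.Top
import Pool.Agent.Lib.MP_b197b4_ntC.Integ

/-!
# MP_b197b4_nt, project K1, part KC: the top coefficients of the two special members
-/

set_option autoImplicit false

namespace Pool.Agent.Lib.MP_b197b4_ntK

open IsLocalRing Polynomial

open MPb197b4P (fib cut ev3 RegPt Spl Good Core)

variable {k F : Type} [Field k] [Field F] [Algebra k F] {n : ℕ} {x : Fin (n + 1) → F}
  {x0 x1 Y Z : F} {d : ℕ} {O₁ : Subring F} {c₁ : k} {f : k[X][X][X]} {r : ℕ}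
  {κ : k} {α γ : k[X]} {e : ℕ} {V : ValuationSubring F}
  {l : ∀ V : ValuationSubring F, ResidueField V → ℚ} {ν : ValuationSubring F → ℚ}

/-- `s / t` lies in a valuation ring which contains `O`, if the form `t` of degree `a` has no zero
at `O`. -/
theorem HF_div_mem {W : ValuationSubring F} (hW : Over k W) {O : Subring F}
    (hO : (O : Set F) ⊆ W) {a : ℕ} {s t : F} (ht : NotZero x O a t) (hs : s ∈ hom k x a) :
    s / t ∈ W := by
  obtain ⟨ht0, w, hw0, hw, hi⟩ := ht
  have h1 : ∀ (m : ℕ) (u : F), u ∈ hom k x m → u / w ^ m ∈ W := by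
    intro m u hu
    refine hom_induction (k := k) (x := x) (p := fun m u => u / w ^ m ∈ W) ?_ ?_ ?_ ?_ ?_ hu
    · intro c
      rw [pow_zero, div_one]
      exact hW c
    · intro m v j _ hv
      rw [pow_succ, mul_div_mul_comm]
      exact mul_mem hv (hO (hw j))
    · intro m u v hu hv
      rw [add_div]
      exact add_mem hu hv
    · intro m
      rw [zero_div]
      exact zero_mem _
    · intro m c u hu
      rw [Algebra.smul_def, mul_div_assoc]
      exact mul_mem (hW c) hu
  have h2 : s / t = (s / w ^ a) * (t / w ^ a)⁻¹ := by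
    have := pow_ne_zero a hw0
    field_simp
  rw [h2]
  exact mul_mem (h1 a s hs) (hO hi)

theorem HF_y_ne {X y : F} (hker2 : ∀ g : k[X][X], ev2 X y g = 0 → g = 0) : y ≠ 0 := by
  intro hy
  have h1 : ev2 (k := k) X y Polynomial.X = 0 := by
    simp [ev2, hy]
  exact Polynomial.X_ne_zero (hker2 _ h1)

theorem HF_pow {O : Subring F} {s : F} (h : NotZero x O 1 s) (d : ℕ) :
    NotZero x O d (s ^ d) := by
  obtain ⟨hs, w, hw, h1, h2⟩ := h
  refine ⟨pow_ne_zero d hs, w, hw, h1, ?_⟩
  rw [pow_one] at h2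
  rw [← div_pow, ← inv_pow]
  exact pow_mem h2 d

/-- The special member `κ`, if `x0`, `x1` and `Z - κ Y` have no common zero. -/
theorem HF_top (hx : ∀ i, x i ≠ 0) (hd : 1 ≤ d) (hY : Y ∈ hom k x d) (hne : x0 ≠ 0) (κ : k)
    {t : F} (ht : t = Z - algebraMap k F κ * Y)
    (hn : ∀ O ∈ Points (charts k x), NotZero x O 1 x0 ∨ NotZero x O 1 x1 ∨ NotZero x O d t)
    (hE : Eqn k x x0 x1 Y Z d f r) : (fib f κ 0).natDegree = r := by
  have hy : Y / x0 ^ d ≠ 0 := HF_y_ne hE.ker2
  have hY0 : Y ≠ 0 := fun h => hy (by rw [h, zero_div])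
  have htot : ∀ i j, (f.coeff j).coeff i ≠ 0 → i + j ≤ r := by
    intro i j hij
    have h2 := hE.wt i j hij
    have h3 : d * (i + j) ≤ d * r := by omega
    exact Nat.le_of_mul_le_mul_left h3 hd
  have hfib : fib f κ 0 = f.eval (C (C κ) * Polynomial.X) := by
    unfold fib
    rw [C_0, add_zero]
  rw [hfib]
  have hle : (f.eval (C (C κ) * Polynomial.X)).natDegree ≤ r := by
    rw [eval_eq_sum_range]
    refine natDegree_sum_le_of_forall_le _ _ fun j hj => ?_
    by_cases hj0 : f.coeff j = 0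
    · rw [hj0, zero_mul, natDegree_zero]
      exact Nat.zero_le r
    · have h1 : (f.coeff j).coeff (f.coeff j).natDegree ≠ 0 := by
        rw [coeff_natDegree]
        exact leadingCoeff_ne_zero.2 hj0
      have h2 := htot _ _ h1
      have h3 : ((C (C κ) * Polynomial.X : k[X][X]) ^ j).natDegree ≤ j := by
        refine natDegree_pow_le.trans ?_
        have h4 : (C (C κ) * Polynomial.X : k[X][X]).natDegree ≤ 1 := (natDegree_C_mul_le _ _).trans natDegree_X_le
        calc _ ≤ j * 1 := Nat.mul_le_mul_left _ h4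
          _ = j := mul_one j
      exact (natDegree_mul_le.trans (Nat.add_le_add_left h3 _)).trans h2
  refine le_antisymm hle (le_natDegree_of_ne_zero fun h0 => ?_)
  obtain ⟨W, hWk, hWX, hWy, hWz⟩ :=
    MP_b197b4_ntH.exists_val_top hy κ (fun g => hE.ker g) hE.monic hE.deg htot h0
  obtain ⟨O, hO, hOW⟩ := exists_point_le hx W hWk
  have hno : Y / x0 ^ d ∉ W := by
    intro h1
    have h2 := (ValuationSubring.valuation_le_one_iff W _).2 h1
    have h3 : W.valuation (Y / x0 ^ d) * W.valuation (Y / x0 ^ d)⁻¹ = 1 := by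
      rw [← map_mul, mul_inv_cancel₀ hy, map_one]
    have h4 := lt_of_le_of_lt (mul_le_of_le_one_left' h2) hWy
    rw [h3] at h4
    exact lt_irrefl _ h4
  rcases hn O hO with h1 | h1 | h1
  · exact hno (HF_div_mem hWk hOW (HF_pow h1 d) hY)
  · apply hno
    have h2 := HF_div_mem hWk hOW (HF_pow h1 d) hY
    have h3 : Y / x0 ^ d = (Y / x1 ^ d) * (x1 / x0) ^ d := by
      have := h1.1
      rw [div_pow]
      field_simp
    rw [h3]
    exact mul_mem h2 (pow_mem hWX d)
  · have h2 := HF_div_mem hWk hOW h1 hY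
    have h3 := (ValuationSubring.valuation_le_one_iff W _).2 h2
    have h4 : Z / x0 ^ d / (Y / x0 ^ d) - algebraMap k F κ = t / Y := by
      rw [ht]
      field_simp
    rw [h4] at hWz
    have h5 : W.valuation (Y / t) * W.valuation (t / Y) = 1 := by
      rw [← map_mul, div_mul_div_cancel₀ h1.1, div_self hY0, map_one]
    have h6 := lt_of_le_of_lt (mul_le_of_le_one_left' h3) hWz
    rw [h5] at h6
    exact lt_irrefl _ h6

/-- HF. The coefficient of `Y ^ r` of `fib f 0 0` is `f_top(1, 0)`; if it is zero there is a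
valuation ring with `x0 = x1 = Z = 0` at its centre, and this contradicts `noz₁`. -/
theorem top_zero [IsAlgClosed k] (hS : SurfN k x) (hC : Coord k x x0 x1 Y Z d O₁ c₁)
    (hE : Eqn k x x0 x1 Y Z d f r) : (fib f 0 0).natDegree = r :=
  HF_top hS.ne (by have := hC.two; omega) hC.hY hC.ne 0 (by rw [map_zero, zero_mul, sub_zero])
    hC.noz₁ hE

/-- HF2. The same with `noz₂`. -/
theorem top_one [IsAlgClosed k] (hS : SurfN k x) (hC : Coord k x x0 x1 Y Z d O₁ c₁)
    (hE : Eqn k x x0 x1 Y Z d f r) : (fib f 1 0).natDegree = r :=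
  HF_top hS.ne (by have := hC.two; omega) hC.hY hC.ne 1 (by rw [map_one, one_mul]) hC.noz₂ hE

end Pool.Agent.Lib.MP_b197b4_ntK
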