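import Mathlib
import Pool.Agent.Lib.MP_b197b4_ntH.HA
import Pool.Agent.Lib.MP_b197b4_ntK.KLocN
import Pool.Agent.Lib.MP_b197b4_ntG.GenN

/-!
# MP_b197b4_nt, project K1, part KC: the curve of a member of the family
-/

set_option autoImplicit false

namespace Pool.Agent.Lib.MP_b197b4_ntK

open IsLocalRing Polynomial

open MPb197b4P (fib cut ev3 RegPt Spl Good Core)

variable {k F : Type} [Field k] [Field F] [Algebra k F] {n : ℕ} {x : Fin (n + 1) → F}
  {x0 x1 Y Z : F} {d : ℕ} {O₁ : Subring F} {c₁ : k} {f : k[X][X][X]} {r : ℕ}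
  {κ : k} {α γ : k[X]} {e : ℕ} {V : ValuationSubring F}
  {l : ∀ V : ValuationSubring F, ResidueField V → ℚ} {ν : ValuationSubring F → ℚ}

/-- A prime ideal above a nonzero prime ideal is maximal, in a subalgebra over which a chart is
integral. -/
theorem hd_max {A A1 : Subalgebra k F} (hA : ChartN A) (hle : A1 ≤ A)
    (hint : ∀ a ∈ A, IsIntegral A1 a) (P0 P : Ideal A1) [hP0 : P0.IsPrime] (hP : P.IsPrime)
    (h0 : P0 ≠ ⊥) (h1 : P0 < P) : P.IsMaximal := by
  letI := (Subalgebra.inclusion hle).toAlgebra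
  haveI hI : Algebra.IsIntegral A1 A := by
    constructor
    intro a
    haveI : IsScalarTower A1 A F := IsScalarTower.of_algebraMap_eq fun c => rfl
    exact (isIntegral_algHom_iff (IsScalarTower.toAlgHom A1 A F) Subtype.val_injective).1
      (hint a a.2)
  have hinj : Function.Injective (algebraMap A1 A) := Subalgebra.inclusion_injective hle
  by_contra hmax
  obtain ⟨M, hM, hPM⟩ := Ideal.exists_le_maximal P hP.ne_top
  have hPM' : P < M := lt_of_le_of_ne hPM fun h => hmax (h ▸ hM)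
  haveI : (⊥ : Ideal A).IsPrime := Ideal.isPrime_bot
  haveI := hM.isPrime
  obtain ⟨Q1, -, hQ1, hc1⟩ := Ideal.exists_ideal_over_prime_of_isIntegral P0 (⊥ : Ideal A) (by
    rw [← RingHom.ker_eq_comap_bot, (RingHom.injective_iff_ker_eq_bot _).1 hinj]
    exact bot_le)
  haveI := hQ1
  obtain ⟨Q2, hQ12, hQ2, hc2⟩ := Ideal.exists_ideal_over_prime_of_isIntegral P Q1 (by
    rw [hc1]
    exact h1.le)
  haveI := hQ2
  obtain ⟨Q3, hQ23, hQ3, hc3⟩ := Ideal.exists_ideal_over_prime_of_isIntegral M Q2 (by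
    rw [hc2]
    exact hPM)
  haveI := hQ3
  have hQ3m : Q3.IsMaximal := max_of_comap_max hle hint Q3 (by
    have : Q3.comap (Subalgebra.inclusion hle) = M := hc3
    rw [this]
    exact hM)
  have l1 : (⊥ : Ideal A) < Q1 := by
    refine bot_lt_iff_ne_bot.2 ?_
    rintro rfl
    apply h0
    rw [← hc1, ← RingHom.ker_eq_comap_bot, (RingHom.injective_iff_ker_eq_bot _).1 hinj]
  have l2 : Q1 < Q2 := by
    refine lt_of_le_of_ne hQ12 ?_
    rintro rfl
    exact h1.ne (hc1.symm.trans hc2)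
  have l3 : Q2 < Q3 := by
    refine lt_of_le_of_ne hQ23 ?_
    rintro rfl
    exact hPM'.ne (hc2.symm.trans hc3)
  have h6 := Ideal.height_add_one_le_of_lt_of_isPrime l1
  have h7 := Ideal.height_add_one_le_of_lt_of_isPrime l2
  have h8 := Ideal.height_add_one_le_of_lt_of_isPrime l3
  rw [Ideal.height_bot, zero_add] at h6
  rw [hA.height Q3 hQ3m] at h8
  have h9 : (3 : ℕ∞) ≤ 2 := calc
    (3 : ℕ∞) = 1 + 1 + 1 := by norm_num
    _ ≤ Q1.height + 1 + 1 := by gcongr
    _ ≤ Q2.height + 1 := by gcongr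
    _ ≤ 2 := h8
  exact absurd h9 (by decide)

/-- The affine coordinates are in the chart. -/
theorem hd_coord (h0 : x0 ∈ hom k x 1) (h1 : x1 ∈ hom k x 1) (hY : Y ∈ hom k x d)
    (hZ : Z ∈ hom k x d) :
    Algebra.adjoin k {x1 / x0, Y / x0 ^ d, Z / x0 ^ d} ≤ chartOf k x x0 := by
  refine Algebra.adjoin_le ?_
  rintro u (rfl | rfl | rfl)
  · have := div_mem_chartOf (w := x0) h1
    rwa [pow_one] at this
  · exact div_mem_chartOf hY
  · exact div_mem_chartOf hZ

theorem hd_int {A : Subalgebra k F} {a b c : F}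
    (h : ∀ u ∈ A, IsIntegral (Algebra.adjoin k {a, b}) u) :
    ∀ u ∈ A, IsIntegral (Algebra.adjoin k {a, b, c}) u := by
  intro u hu
  have hle : Algebra.adjoin k ({a, b} : Set F) ≤ Algebra.adjoin k {a, b, c} := by
    refine Algebra.adjoin_mono ?_
    rintro v (rfl | rfl)
    · exact Or.inl rfl
    · exact Or.inr (Or.inl rfl)
  obtain ⟨p, hp, hpu⟩ := h u hu
  refine ⟨p.map (Subalgebra.inclusion hle).toRingHom, hp.map _, ?_⟩
  rw [Polynomial.eval₂_map]
  exact hpu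

theorem hd_sub (a b c : F) (g h : k[X][X][X]) : ev a b c (g - h) = ev a b c g - ev a b c h := by
  apply eq_sub_of_add_eq
  rw [← map_add]
  exact congrArg (ev a b c) (sub_add_cancel g h)

/-- The value of the equation of a member. -/
theorem hd_ev (a b c : F) (κ : k) (α : k[X]) :
    ev a b c (Polynomial.X - C (C (C κ) * Polynomial.X + C α)) =
      c - algebraMap k F κ * b - aeval a α := by
  rw [hd_sub, ev_X, ev_C, map_add, map_mul, ev2_C, ev2_C, ev2_X, aeval_C, sub_sub]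

/-- The value is in the ideal of the member. -/
theorem hd_iff {a b c : F} (hker : ∀ g : k[X][X][X], ev a b c g = 0 ↔ f ∣ g) (κ : k) (α : k[X])
    (g : k[X][X][X]) :
    (∃ v : k[X][X][X], ev a b c g = (c - algebraMap k F κ * b - aeval a α) * ev a b c v) ↔
      fib f κ α ∣ fib g κ α := by
  rw [fib_dvd_iff]
  constructor
  · rintro ⟨v, hv⟩
    have h1 : ev a b c (g - (Polynomial.X - C (C (C κ) * Polynomial.X + C α)) * v) = 0 := by
      rw [hd_sub, map_mul, hd_ev, hv, sub_self]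
    obtain ⟨u, hu⟩ := (hker _).1 h1
    exact ⟨u, v, by rw [← hu]; ring⟩
  · rintro ⟨u, v, huv⟩
    refine ⟨v, ?_⟩
    have h1 : ev a b c f = 0 := (hker _).2 dvd_rfl
    rw [huv, map_add, map_mul, map_mul, h1, zero_mul, zero_add, hd_ev]

theorem hd_ne (hm : f.Monic) (hdeg : 1 ≤ f.natDegree) {a b c : F}
    (hker : ∀ g : k[X][X][X], ev a b c g = 0 ↔ f ∣ g) (hirr : fib f κ α ≠ 0) :
    c - algebraMap k F κ * b - aeval a α ≠ 0 := by
  intro h0
  rw [← hd_ev] at h0
  obtain ⟨q, hq⟩ := (hker _).1 h0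
  have hX : (Polynomial.X - C (C (C κ) * Polynomial.X + C α) : k[X][X][X]).Monic :=
    monic_X_sub_C _
  have hqm : q.Monic := hm.of_mul_monic_left (hq ▸ hX)
  have h1 := congrArg Polynomial.natDegree hq
  rw [natDegree_X_sub_C, hm.natDegree_mul hqm] at h1
  have h2 : q.natDegree = 0 := by omega
  have h3 : q = 1 := hqm.natDegree_eq_zero.1 h2
  rw [h3, mul_one] at hq
  apply hirr
  unfold MPb197b4P.fib
  rw [← hq]
  simp

/-- The element of the ring of coordinates. -/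
noncomputable def hdW (a b c : F) (κ : k) (α : k[X]) : Algebra.adjoin k ({a, b, c} : Set F) :=
  ⟨c - algebraMap k F κ * b - aeval a α, by
    rw [← hd_ev a b c κ α]
    exact (mem_adjoin_three a b c _).2 ⟨_, rfl⟩⟩

theorem hd_mem_span {a b c : F} (hker : ∀ g : k[X][X][X], ev a b c g = 0 ↔ f ∣ g) (κ : k)
    (α : k[X]) (u : Algebra.adjoin k ({a, b, c} : Set F)) (g : k[X][X][X])
    (hg : (u : F) = ev a b c g) :
    u ∈ Ideal.span {hdW a b c κ α} ↔ fib f κ α ∣ fib g κ α := by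
  rw [Ideal.mem_span_singleton, ← hd_iff hker]
  constructor
  · rintro ⟨v, hv⟩
    obtain ⟨g', hg'⟩ := (mem_adjoin_three a b c _).1 v.2
    refine ⟨g', ?_⟩
    rw [← hg, ← hg', hv]
    rfl
  · rintro ⟨v, hv⟩
    refine ⟨⟨ev a b c v, (mem_adjoin_three a b c _).2 ⟨_, rfl⟩⟩, Subtype.ext ?_⟩
    rw [hg, hv]
    rfl

theorem hd_prime {a b c : F} (hker : ∀ g : k[X][X][X], ev a b c g = 0 ↔ f ∣ g)
    (hirr : Irreducible (fib f κ α)) : (Ideal.span {hdW a b c κ α}).IsPrime := by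
  have hp : Prime (fib f κ α) := hirr.prime
  constructor
  · intro h
    have h1 : (1 : Algebra.adjoin k ({a, b, c} : Set F)) ∈ Ideal.span {hdW a b c κ α} := by
      rw [h]
      trivial
    have h2 := (hd_mem_span hker κ α 1 1 (by rw [map_one]; rfl)).1 h1
    have h3 : fib (1 : k[X][X][X]) κ α = 1 := by
      unfold MPb197b4P.fib
      exact eval_one
    rw [h3] at h2
    exact hp.not_isUnit (isUnit_of_dvd_one h2)
  · intro u v huv
    obtain ⟨g, hg⟩ := (mem_adjoin_three a b c _).1 u.2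
    obtain ⟨g', hg'⟩ := (mem_adjoin_three a b c _).1 v.2
    have h1 := (hd_mem_span hker κ α (u * v) (g * g') (by
      rw [map_mul, ← hg, ← hg']
      rfl)).1 huv
    have h2 : fib (g * g') κ α = fib g κ α * fib g' κ α := by
      unfold MPb197b4P.fib
      exact eval_mul
    rw [h2] at h1
    rcases hp.dvd_or_dvd h1 with h | h
    · exact Or.inl ((hd_mem_span hker κ α u g hg).2 h)
    · exact Or.inr ((hd_mem_span hker κ α v g' hg').2 h)

/-- HD. PROOF: `w = z - κ y - α(X)` is a prime element of `A1 = k[X, y, z]`, because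
`A1 / (w) = k[X][Y] / (fib f κ α)` (`fib_dvd_iff`, `ker`); helper22's `curve_of_primeN`. -/
theorem fib_curve [IsAlgClosed k] (hS : SurfN k x) (hC : Coord k x x0 x1 Y Z d O₁ c₁)
    (hE : Eqn k x x0 x1 Y Z d f r) (κ : k) (α : k[X]) (hirr : Irreducible (fib f κ α)) :
    ∃ V, IsFib k x x0 x1 Y Z d f κ α V ∧
      ord V (Z / x0 ^ d - algebraMap k F κ * (Y / x0 ^ d) - aeval (x1 / x0) α) = 1 := by
  have hx0 := mem_hom_one.1 hC.h0
  have hA : ChartN (chartOf k x x0) := chartN_chartOf hS hx0 hC.ne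
  have hle := hd_coord hC.h0 hC.h1 hC.hY hC.hZ
  have hint := hd_int (c := Z / x0 ^ d) hE.int
  have hfg1 : (Algebra.adjoin k ({x1 / x0, Y / x0 ^ d, Z / x0 ^ d} : Set F)).FG :=
    Subalgebra.fg_def.2 ⟨_, Set.toFinite _, rfl⟩
  have hfr : IsFractionRing (Algebra.adjoin k ({x1 / x0, Y / x0 ^ d, Z / x0 ^ d} : Set F)) F := by
    refine IsFractionRing.of_field _ F ?_
    intro u
    obtain ⟨g, h, hh, hu⟩ := hE.gen u
    exact ⟨⟨_, (mem_adjoin_three _ _ _ _).2 ⟨g, rfl⟩⟩, ⟨_, (mem_adjoin_three _ _ _ _).2 ⟨h, rfl⟩⟩,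
      hu⟩
  have hw0 : hdW (x1 / x0) (Y / x0 ^ d) (Z / x0 ^ d) κ α ≠ 0 := fun h0 =>
    hd_ne hE.monic (hE.deg ▸ hE.one) hE.ker hirr.ne_zero (congrArg Subtype.val h0)
  haveI hw := hd_prime (a := x1 / x0) (b := Y / x0 ^ d) (c := Z / x0 ^ d) hE.ker hirr
  obtain ⟨V, hV, hV1, hP, hord, huni⟩ := curve_of_primeN hA hle hfg1 hint hfr _ hw0 hw
    fun P hP hlt => hd_max hA hle hint _ P hP (fun h => hw0 (Ideal.span_singleton_eq_bot.1 h)) hlt
  have hV' := (curve_iff hS.ne hx0 hC.ne).1 hV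
  refine ⟨V, ⟨hV'.1, hV'.2, fun g => ?_, fun g => ?_, fun V' hV'c hV'g hlt => ?_⟩, hord⟩
  · exact hV1.2.1 _ ((mem_adjoin_three _ _ _ _).2 ⟨g, rfl⟩)
  · rw [← hP ⟨_, (mem_adjoin_three _ _ _ _).2 ⟨g, rfl⟩⟩]
    exact hd_mem_span hE.ker κ α _ g rfl
  · exact huni V' ((curve_iff hS.ne hx0 hC.ne).2 ⟨hV'c, hV'g⟩) hlt

end Pool.Agent.Lib.MP_b197b4_ntK
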