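import Mathlib
import Pool.Agent.Lib.MP_b197b4_ntH.HB
import Pool.Agent.Lib.MP_b197b4_ntH.HD

/-!
# MP_b197b4_nt, project K1, part KC: the two special members are irreducible
-/

set_option autoImplicit false

namespace Pool.Agent.Lib.MP_b197b4_ntK

open IsLocalRing Polynomial

open MPb197b4P (fib cut ev3 RegPt Spl Good Core)

variable {k F : Type} [Field k] [Field F] [Algebra k F] {n : ℕ} {x : Fin (n + 1) → F}
  {x0 x1 Y Z : F} {d : ℕ} {O₁ : Subring F} {c₁ : k} {f : k[X][X][X]} {r : ℕ}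
  {κ : k} {α γ : k[X]} {e : ℕ} {V : ValuationSubring F}
  {l : ∀ V : ValuationSubring F, ResidueField V → ℚ} {ν : ValuationSubring F → ℚ}

/-- `fib` as a ring homomorphism in the first argument. -/
theorem HG_fib_eq (g : k[X][X][X]) (κ : k) (α : k[X]) :
    fib g κ α = evalRingHom (C (C κ) * Polynomial.X + C α) g := rfl

/-- `ev3` is multiplicative. -/
theorem HG_ev3_mul (g h : k[X][X][X]) (a b c : k) :
    ev3 (g * h) a b c = ev3 g a b c * ev3 h a b c := by
  simp only [ev3, eval_mul]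

theorem HG_map_sub {k F : Type} [Field k] [Field F] (φ : k[X][X][X] →+* F) (a b : k[X][X][X]) :
    φ (a - b) = φ a - φ b := map_sub φ a b

/-- The algebra: from an identity `s y = (x - c) u + (z - κ y) v + f w` in `k[x, y, z]`. -/
theorem HG_root_of_identity (f s u v w : k[X][X][X]) (c κ : k) (hs : ev3 s c 0 0 ≠ 0)
    (hf : ev3 f c 0 0 = 0)
    (h : s * C Polynomial.X = C (C (Polynomial.X - C c)) * u +
      (Polynomial.X - C (C (C κ) * Polynomial.X)) * v + f * w) :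
    ((derivative (fib f κ 0)).eval (C 0)).eval c ≠ 0 := by
  have h1 : fib s κ 0 * Polynomial.X = C (Polynomial.X - C c) * fib u κ 0 +
      fib f κ 0 * fib w κ 0 := by
    have e1 : evalRingHom (C (C κ) * Polynomial.X + C (0 : k[X])) (C (Polynomial.X : k[X][X])) =
        Polynomial.X := by simp
    have e2 : evalRingHom (C (C κ) * Polynomial.X + C (0 : k[X]))
        (C (C (Polynomial.X - C c)) : k[X][X][X]) = C (Polynomial.X - C c) := by simp
    have e3 : evalRingHom (C (C κ) * Polynomial.X + C (0 : k[X]))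
        ((Polynomial.X : k[X][X][X]) - C (C (C κ) * Polynomial.X)) = 0 := by simp
    simp only [HG_fib_eq]
    generalize evalRingHom (C (C κ) * Polynomial.X + C (0 : k[X])) = φ at e1 e2 e3 ⊢
    have h0 := congrArg φ h
    have h01 := φ.map_add (C (C (Polynomial.X - C c)) * u +
      (Polynomial.X - C (C (C κ) * Polynomial.X)) * v) (f * w)
    have h02 := φ.map_add (C (C (Polynomial.X - C c)) * u)
      ((Polynomial.X - C (C (C κ) * Polynomial.X)) * v)
    rw [h01, h02, φ.map_mul s, φ.map_mul (C (C (Polynomial.X - C c))),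
      φ.map_mul (Polynomial.X - C (C (C κ) * Polynomial.X)), φ.map_mul f, e1, e2, e3, zero_mul,
      add_zero] at h0
    exact h0
  have h2 := congrArg (fun g => ((derivative g).eval (C (0 : k))).eval c) h1
  simp only [derivative_mul, derivative_add, derivative_X, derivative_C, eval_add, eval_mul,
    eval_X, eval_C, mul_one, zero_mul, zero_add, eval_sub, sub_self, map_zero, mul_zero] at h2
  have h3 : (eval c (eval 0 (fib s κ 0))) = ev3 s c 0 0 := by
    have := fib_eval s κ 0 c 0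
    simpa using this
  have h4 : (eval c (eval 0 (fib f κ 0))) = 0 := by
    have := fib_eval f κ 0 c 0
    rw [← hf]
    simpa using this
  rw [h3, h4, zero_mul, add_zero] at h2
  intro h5
  rw [map_zero] at h5
  rw [h5, zero_mul] at h2
  exact hs h2

/-- HG. SIMPLE ROOT (T_K1_KC section 3). `y` is in the maximal ideal of `O₁`, which is generated by
`X - c` and `z - κ y`; by `coord_loc` this is an identity of polynomials modulo `f`; put `X = c`,
`z = κ y`. -/
theorem simple_root [IsAlgClosed k] (hS : SurfN k x) (hC : Coord k x x0 x1 Y Z d O₁ c₁)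
    (hE : Eqn k x x0 x1 Y Z d f r) (κ : k)
    (hpar : IsParam O₁ (x1 / x0 - algebraMap k F c₁)
      ((Z - algebraMap k F κ * Y) / x0 ^ d)) :
    ((derivative (fib f κ 0)).eval (C 0)).eval c₁ ≠ 0 := by
  have hloc := coord_loc hS hC hE.int
  -- the function `y` is not a unit
  obtain ⟨hα, hz, h1⟩ := hC.par₁
  obtain ⟨hα2, hzy, h2⟩ := hC.par₂
  obtain ⟨hα3, hκ, h3⟩ := hpar
  have hyeq : Y / x0 ^ d = Z / x0 ^ d - (Z - Y) / x0 ^ d := by
    rw [sub_div]; ring
  have hy : Y / x0 ^ d ∈ O₁ := by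
    rw [hyeq]; exact O₁.sub_mem hz hzy
  -- nonunits are the ideal
  have hmem : (⟨Y / x0 ^ d, hy⟩ : O₁) ∈ Ideal.span
      {(⟨x1 / x0 - algebraMap k F c₁, hα⟩ : O₁), ⟨Z / x0 ^ d, hz⟩} := by
    have hz' : (⟨Z / x0 ^ d, hz⟩ : O₁) ∈ Ideal.span
        {(⟨x1 / x0 - algebraMap k F c₁, hα⟩ : O₁), ⟨Z / x0 ^ d, hz⟩} :=
      Ideal.subset_span (by simp)
    have hzy' : (⟨(Z - Y) / x0 ^ d, hzy⟩ : O₁) ∈ Ideal.span
        {(⟨x1 / x0 - algebraMap k F c₁, hα⟩ : O₁), ⟨Z / x0 ^ d, hz⟩} := by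
      rw [h1, ← h2]
      exact Ideal.subset_span (by simp)
    have := Ideal.sub_mem _ hz' hzy'
    convert this using 1
    apply Subtype.ext
    exact hyeq
  have hnu : ¬ IsUnit (⟨Y / x0 ^ d, hy⟩ : O₁) := (h1 _).1 hmem
  obtain ⟨a, b, hab⟩ := Ideal.mem_span_pair.1 ((h3 _).2 hnu)
  have hab' : (a : F) * (x1 / x0 - algebraMap k F c₁) +
      (b : F) * ((Z - algebraMap k F κ * Y) / x0 ^ d) = Y / x0 ^ d :=
    congrArg (Subtype.val : O₁ → F) hab
  obtain ⟨u, s, hs, hu⟩ := (hloc a).1 a.2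
  obtain ⟨v, t, ht, hv⟩ := (hloc b).1 b.2
  -- `f` vanishes at the point
  have hev : ∀ g : k[X][X], ev (x1 / x0) (Y / x0 ^ d) (Z / x0 ^ d) (C g) =
    ev2 (x1 / x0) (Y / x0 ^ d) g := ev_C _ _ _
  have hevX : ev (x1 / x0) (Y / x0 ^ d) (Z / x0 ^ d) (C (C (Polynomial.X - C c₁)) : k[X][X][X]) =
      x1 / x0 - algebraMap k F c₁ := by
    rw [hev, ev2_C, map_sub, aeval_X, aeval_C]
  have hf0 : ev (x1 / x0) (Y / x0 ^ d) (Z / x0 ^ d) f = 0 := (hE.ker f).2 dvd_rfl
  have hf : ev3 f c₁ 0 0 = 0 := by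
    by_contra hne
    have htop : ∀ w : F, w ∈ O₁ := fun w => (hloc w).2 ⟨0, f, hne, by rw [hf0, map_zero, mul_zero]⟩
    have hne0 : x1 / x0 - algebraMap k F c₁ ≠ 0 := by
      intro h0
      have h4 := hE.ker2 (C (Polynomial.X - C c₁)) (by
        rw [ev2_C, map_sub, aeval_X, aeval_C, h0])
      exact Polynomial.X_sub_C_ne_zero c₁ (Polynomial.C_eq_zero.1 h4)
    have h5 : ¬ IsUnit (⟨x1 / x0 - algebraMap k F c₁, hα⟩ : O₁) :=
      (h1 _).1 (Ideal.subset_span (by simp))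
    exact h5 (isUnit_iff_exists_inv.2 ⟨⟨_, htop (x1 / x0 - algebraMap k F c₁)⁻¹⟩,
      Subtype.ext (mul_inv_cancel₀ hne0)⟩)
  -- the identity
  have hdvd : f ∣ (s * t) * C Polynomial.X - (C (C (Polynomial.X - C c₁)) * (u * t) +
      (Polynomial.X - C (C (C κ) * Polynomial.X)) * (v * s)) := by
    rw [← hE.ker]
    have e1 : ev (x1 / x0) (Y / x0 ^ d) (Z / x0 ^ d) (C (Polynomial.X : k[X][X])) =
        Y / x0 ^ d := by rw [hev, ev2_X]
    have e2 : ev (x1 / x0) (Y / x0 ^ d) (Z / x0 ^ d)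
        ((Polynomial.X : k[X][X][X]) - C (C (C κ) * Polynomial.X)) =
        Z / x0 ^ d - algebraMap k F κ * (Y / x0 ^ d) := by
      rw [HG_map_sub, ev_X, hev, RingHom.map_mul, ev2_C, ev2_X, aeval_C]
    generalize ev (k := k) (x1 / x0) (Y / x0 ^ d) (Z / x0 ^ d) = φ at hu hv e1 e2 hevX ⊢
    rw [HG_map_sub, φ.map_add, φ.map_mul (s * t), φ.map_mul s, φ.map_mul _ (u * t), φ.map_mul u,
      φ.map_mul _ (v * s), φ.map_mul v, e1, e2, hevX, ← hu, ← hv]
    have h6 : (Z - algebraMap k F κ * Y) / x0 ^ d =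
        Z / x0 ^ d - algebraMap k F κ * (Y / x0 ^ d) := by ring
    rw [h6] at hab'
    linear_combination (φ s * φ t) * (-hab')
  obtain ⟨w, hw⟩ := hdvd
  refine HG_root_of_identity f (s * t) (u * t) (v * s) w c₁ κ ?_ hf ?_
  · rw [HG_ev3_mul]
    exact mul_ne_zero hs ht
  · rw [← hw]; ring

end Pool.Agent.Lib.MP_b197b4_ntK
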