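import Mathlib
import Pool.Agent.Lib.MP_b197b4_ntH.HB
import Pool.Agent.Lib.MP_b197b4_ntH.HD

/-!
# MP_b197b4_nt, project K1, part KC: the special members are irreducible (without the simple root)
-/

set_option autoImplicit false

namespace Pool.Agent.Lib.MP_b197b4_ntK

open IsLocalRing Polynomial

open MPb197b4P (fib cut ev3 RegPt Spl Good Core)

variable {k F : Type} [Field k] [Field F] [Algebra k F] {n : ℕ} {x : Fin (n + 1) → F}
  {x0 x1 Y Z : F} {d : ℕ} {O₁ : Subring F} {c₁ : k} {f : k[X][X][X]} {r : ℕ}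
  {κ : k} {α γ : k[X]} {e : ℕ} {V : ValuationSubring F}

/-- `vh` may be computed with any linear form which does not vanish at the curve. -/
theorem hg_vh (hx : ∀ i, x i ≠ 0) (hV : IsDiscreteValuationRing V) (hk : Over k V) {w : F}
    (hw : Gen k x V.toSubring w) (m : ℕ) {t : F} (ht : t ≠ 0) :
    vh x V m t = ord V (t / w ^ m) := by
  have h1 : w / x (idx x V) ∈ V := by
    refine lin_of_le (O := V.toSubring) hk (fun j => ?_) hw.mem
    refine (ord_nonneg_iff hV (div_ne_zero (hx j) (hx _))).1 ?_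
    rw [ord_div hV (hx j) (hx _)]
    have := idx_le x V j
    omega
  have h2 : x (idx x V) / w ∈ V := hw.le _
  have h3 := (ord_nonneg_iff hV (div_ne_zero hw.ne (hx _))).2 h1
  have h4 := (ord_nonneg_iff hV (div_ne_zero (hx _) hw.ne)).2 h2
  rw [ord_div hV hw.ne (hx _)] at h3
  rw [ord_div hV (hx _) hw.ne] at h4
  have h5 : ord V w = ord V (x (idx x V)) := by omega
  unfold vh
  rw [ord_div hV ht (pow_ne_zero _ hw.ne), ord_pow hV hw.ne, h5]

theorem hg_fib_add (g h : k[X][X][X]) (κ : k) (α : k[X]) :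
    fib (g + h) κ α = fib g κ α + fib h κ α := by
  unfold MPb197b4P.fib
  exact eval_add

theorem hg_fib_sub (g h : k[X][X][X]) (κ : k) (α : k[X]) :
    fib (g - h) κ α = fib g κ α - fib h κ α := by
  unfold MPb197b4P.fib
  exact eval_sub _ _ _

theorem hg_fib_mul (g h : k[X][X][X]) (κ : k) (α : k[X]) :
    fib (g * h) κ α = fib g κ α * fib h κ α := by
  unfold MPb197b4P.fib
  exact eval_mul

theorem hg_fib_C (g : k[X][X]) (κ : k) (α : k[X]) : fib (C g) κ α = g := by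
  unfold MPb197b4P.fib
  exact eval_C

/-- The ideal of a factor `q` of the equation of the member. -/
def hgQ {a b c : F} (q : k[X][X]) (κ : k) (α : k[X]) :
    Ideal (Algebra.adjoin k ({a, b, c} : Set F)) where
  carrier := {u | ∃ g : k[X][X][X], (u : F) = ev a b c g ∧ q ∣ fib g κ α}
  add_mem' := by
    rintro u v ⟨g, hg, hq⟩ ⟨h, hh, hq'⟩
    refine ⟨g + h, ?_, ?_⟩
    · rw [map_add, ← hg, ← hh]
      rfl
    · rw [hg_fib_add]
      exact dvd_add hq hq'
  zero_mem' := by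
    refine ⟨0, ?_, ?_⟩
    · rw [map_zero]
      rfl
    · unfold MPb197b4P.fib
      rw [eval_zero]
      exact dvd_zero _
  smul_mem' := by
    rintro u v ⟨g, hg, hq⟩
    obtain ⟨h, hh⟩ := (mem_adjoin_three a b c _).1 u.2
    refine ⟨h * g, ?_, ?_⟩
    · rw [map_mul, ← hg, ← hh]
      rfl
    · rw [hg_fib_mul]
      exact Dvd.dvd.mul_left hq _

theorem hgQ_mem {a b c : F} (hker : ∀ g : k[X][X][X], ev a b c g = 0 ↔ f ∣ g) {q : k[X][X]}
    (hq : q ∣ fib f κ α) (u : Algebra.adjoin k ({a, b, c} : Set F)) (g : k[X][X][X])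
    (hg : (u : F) = ev a b c g) : u ∈ hgQ (a := a) (b := b) (c := c) q κ α ↔ q ∣ fib g κ α := by
  constructor
  · rintro ⟨g', hg', hq'⟩
    have h1 : ev a b c (g - g') = 0 := by
      rw [hd_sub, ← hg, ← hg', sub_self]
    obtain ⟨s, hs⟩ := (hker _).1 h1
    have h2 : fib g κ α = fib g' κ α + fib f κ α * fib s κ α := by
      rw [← hg_fib_mul, ← hs, hg_fib_sub]
      ring
    rw [h2]
    exact dvd_add hq' (Dvd.dvd.mul_right hq _)
  · intro h
    exact ⟨g, hg, h⟩

theorem hgQ_prime {a b c : F} (hker : ∀ g : k[X][X][X], ev a b c g = 0 ↔ f ∣ g) {q : k[X][X]}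
    (hq : q ∣ fib f κ α) (hp : Prime q) :
    (hgQ (a := a) (b := b) (c := c) q κ α).IsPrime := by
  constructor
  · intro h
    have h1 : (1 : Algebra.adjoin k ({a, b, c} : Set F)) ∈
        hgQ (a := a) (b := b) (c := c) q κ α := by
      rw [h]
      trivial
    have h2 := (hgQ_mem hker hq 1 1 (by rw [map_one]; rfl)).1 h1
    have h3 : fib (1 : k[X][X][X]) κ α = 1 := by
      unfold MPb197b4P.fib
      exact eval_one
    rw [h3] at h2
    exact hp.not_isUnit (isUnit_of_dvd_one h2)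
  · intro u v huv
    obtain ⟨g, hg⟩ := (mem_adjoin_three a b c _).1 u.2
    obtain ⟨g', hg'⟩ := (mem_adjoin_three a b c _).1 v.2
    have h1 := (hgQ_mem hker hq (u * v) (g * g') (by
      rw [map_mul, ← hg, ← hg']
      rfl)).1 huv
    rw [hg_fib_mul] at h1
    rcases hp.dvd_or_dvd h1 with h | h
    · exact Or.inl ((hgQ_mem hker hq u g hg).2 h)
    · exact Or.inr ((hgQ_mem hker hq v g' hg').2 h)

/-- The ideal is not maximal. -/
theorem hgQ_not_max [IsAlgClosed k] {a b c : F}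
    (hker : ∀ g : k[X][X][X], ev a b c g = 0 ↔ f ∣ g) {q : k[X][X]}
    (hq : q ∣ fib f κ α) (hp : Prime q) :
    ¬ (hgQ (a := a) (b := b) (c := c) q κ α).IsMaximal := by
  intro hmax
  have hfg1 : (Algebra.adjoin k ({a, b, c} : Set F)).FG :=
    Subalgebra.fg_def.2 ⟨_, Set.toFinite _, rfl⟩
  have key : ∀ g : k[X][X], ∃ s : k, q ∣ g - C (C s) := by
    intro g
    obtain ⟨s, hs⟩ := exists_const_sub_mem hfg1 (hgQ (a := a) (b := b) (c := c) q κ α)
      ⟨ev a b c (C g), (mem_adjoin_three a b c _).2 ⟨_, rfl⟩⟩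
    refine ⟨s, ?_⟩
    have h1 := (hgQ_mem hker hq _ (C (g - C (C s))) ?_).1 hs
    · rwa [hg_fib_C] at h1
    · have h2 : (C (g - C (C s)) : k[X][X][X]) = C g - C (C (C s)) := C_sub
      have h3 : ev a b c (C (C (C s)) : k[X][X][X]) = algebraMap k F s := by
        rw [ev_C, ev2_C, aeval_C]
      rw [h2, hd_sub, h3]
      rfl
  obtain ⟨s, hs⟩ := key Polynomial.X
  obtain ⟨t, ht⟩ := key (C Polynomial.X)
  have h1 : (C Polynomial.X - C (C t) : k[X][X]) = C (Polynomial.X - C t) := C_sub.symm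
  rw [h1] at ht
  have h2 : (Polynomial.X - C t : k[X]) ≠ 0 := X_sub_C_ne_zero t
  have h3 : q.natDegree = 0 := by
    have := natDegree_le_of_dvd ht (C_ne_zero.2 h2)
    rw [natDegree_C] at this
    omega
  obtain ⟨p, rfl⟩ : ∃ p, q = C p := ⟨_, eq_C_of_natDegree_eq_zero h3⟩
  have h4 : p ∣ 1 := by
    have := (C_dvd_iff_dvd_coeff p _).1 hs 1
    rw [coeff_sub, coeff_X_one, coeff_C_succ, sub_zero] at this
    exact this
  exact hp.not_isUnit (isUnit_C.2 (isUnit_of_dvd_one h4))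

/-- Every irreducible factor of the equation of the member defines the curve `V`. -/
theorem hg_factor [IsAlgClosed k] (hS : SurfN k x) (hC : Coord k x x0 x1 Y Z d O₁ c₁)
    (hE : Eqn k x x0 x1 Y Z d f r) (hp : PrimeForm k x d (Z - algebraMap k F κ * Y) V)
    {q : k[X][X]} (hqp : Prime q) (hq : q ∣ fib f κ 0) :
    IsCurve (chartOf k x x0) V ∧ ∀ g : k[X][X][X],
      V.valuation (ev (x1 / x0) (Y / x0 ^ d) (Z / x0 ^ d) g) < 1 ↔ q ∣ fib g κ 0 := by
  have hx0 := mem_hom_one.1 hC.h0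
  have hA : ChartN (chartOf k x x0) := chartN_chartOf hS hx0 hC.ne
  have hle := hd_coord hC.h0 hC.h1 hC.hY hC.hZ
  have hint := hd_int (c := Z / x0 ^ d) hE.int
  let A1 := Algebra.adjoin k ({x1 / x0, Y / x0 ^ d, Z / x0 ^ d} : Set F)
  let Q : Ideal A1 := hgQ q κ 0
  haveI hQ : Q.IsPrime := hgQ_prime hE.ker hq hqp
  have hQm : ¬ Q.IsMaximal := hgQ_not_max hE.ker hq hqp
  letI := (Subalgebra.inclusion hle).toAlgebra
  haveI hI : Algebra.IsIntegral A1 (chartOf k x x0) := by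
    constructor
    intro a
    haveI : IsScalarTower A1 (chartOf k x x0) F := IsScalarTower.of_algebraMap_eq fun c => rfl
    exact (isIntegral_algHom_iff (IsScalarTower.toAlgHom A1 (chartOf k x x0) F)
      Subtype.val_injective).1 (hint a a.2)
  have hinj : Function.Injective (algebraMap A1 (chartOf k x x0)) :=
    Subalgebra.inclusion_injective hle
  haveI : (⊥ : Ideal (chartOf k x x0)).IsPrime := Ideal.isPrime_bot
  obtain ⟨Q', -, hQ', hc⟩ := Ideal.exists_ideal_over_prime_of_isIntegral Q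
    (⊥ : Ideal (chartOf k x x0)) (by
      rw [← RingHom.ker_eq_comap_bot, (RingHom.injective_iff_ker_eq_bot _).1 hinj]
      exact bot_le)
  haveI := hQ'
  -- the element `w = z - κ y`
  have hwe : (Z - algebraMap k F κ * Y) / x0 ^ d =
      Z / x0 ^ d - algebraMap k F κ * (Y / x0 ^ d) := by ring
  have hw0 : (Z - algebraMap k F κ * Y) / x0 ^ d ≠ 0 :=
    div_ne_zero hp.ne (pow_ne_zero _ hC.ne)
  have hwev : (Z - algebraMap k F κ * Y) / x0 ^ d =
      ev (x1 / x0) (Y / x0 ^ d) (Z / x0 ^ d)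
        (Polynomial.X - C (C (C κ) * Polynomial.X + C 0)) := by
    rw [hd_ev, map_zero, sub_zero, hwe]
  have hwA : (Z - algebraMap k F κ * Y) / x0 ^ d ∈ A1 :=
    (mem_adjoin_three _ _ _ _).2 ⟨_, hwev⟩
  have hwQ : (⟨_, hwA⟩ : A1) ∈ Q := by
    refine ⟨_, hwev, ?_⟩
    unfold MPb197b4P.fib
    rw [eval_sub, eval_X, eval_C, sub_self]
    exact dvd_zero _
  have hwQ' : (⟨_, hle hwA⟩ : chartOf k x x0) ∈ Q' := by
    rw [← hc] at hwQ
    exact hwQ
  have hQ0 : Q' ≠ ⊥ := by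
    intro h
    rw [h, Ideal.mem_bot] at hwQ'
    exact hw0 (congrArg Subtype.val hwQ')
  have hQ'm : ¬ Q'.IsMaximal := by
    intro h
    apply hQm
    rw [← hc]
    exact Ideal.isMaximal_comap_of_isIntegral_of_isMaximal Q'
  obtain ⟨M, hM, hPM⟩ := Ideal.exists_le_maximal Q' hQ'.ne_top
  have hPM' : Q' < M := lt_of_le_of_ne hPM fun h => hQ'm (h ▸ hM)
  haveI := hM.isPrime
  have h6 := Ideal.height_add_one_le_of_lt_of_isPrime (bot_lt_iff_ne_bot.2 hQ0)
  have h7 := Ideal.height_add_one_le_of_lt_of_isPrime hPM'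
  rw [Ideal.height_bot, zero_add] at h6
  rw [hA.height M hM] at h7
  have hht : Q'.height = 1 := by
    refine le_antisymm ?_ h6
    have h8 : Q'.height + 1 ≤ 1 + 1 := h7.trans (by norm_num)
    exact (ENat.add_le_add_iff_right (by decide)).1 h8
  obtain ⟨V', hV', hP'⟩ := hA.exists_curve Q' hht
  have hcur := (curve_iff hS.ne hx0 hC.ne).1 hV'
  have hlt : V'.valuation ((Z - algebraMap k F κ * Y) / x0 ^ d) < 1 := (hP' _).1 hwQ'
  have hVV : V' = V := by
    by_contra hne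
    have h9 := hp.other V' hcur.1 hne
    rw [hg_vh hS.ne hV'.1 (curve_over hcur.1) hcur.2 d hp.ne] at h9
    have h10 := (ord_pos_iff hV'.1 hw0).2 hlt
    omega
  subst hVV
  refine ⟨hV', fun g => ?_⟩
  have hgA : ev (x1 / x0) (Y / x0 ^ d) (Z / x0 ^ d) g ∈ A1 :=
    (mem_adjoin_three _ _ _ _).2 ⟨_, rfl⟩
  rw [← hgQ_mem hE.ker hq ⟨_, hgA⟩ g rfl, ← hP' ⟨_, hle hgA⟩]
  change _ ↔ _ ∈ Q
  rw [← hc]
  exact Iff.rfl

theorem hg_unit_iff (g : k[X][X]) : IsUnit g → g.natDegree = 0 := natDegree_eq_zero_of_isUnit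

/-- Some irreducible factor of `h` vanishes where `h` does. -/
theorem hg_exists_factor {R K : Type*} [CommRing R] [IsDomain R] [UniqueFactorizationMonoid R]
    [Field K] (φ : R →+* K) {h : R} (h0 : h ≠ 0) (hφ : φ h = 0) :
    ∃ p : R, Prime p ∧ p ∣ h ∧ φ p = 0 := by
  classical
  obtain ⟨s, hs, hsh⟩ := UniqueFactorizationMonoid.exists_prime_factors h h0
  obtain ⟨u, hu⟩ := hsh
  have h1 : φ s.prod = 0 := by
    rw [← hu, map_mul] at hφ
    rcases mul_eq_zero.1 hφ with h | h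
    · exact h
    · exact absurd h ((u.isUnit.map φ).ne_zero)
  rw [map_multiset_prod, Multiset.prod_eq_zero_iff, Multiset.mem_map] at h1
  obtain ⟨p, hp, hp0⟩ := h1
  exact ⟨p, hs p hp, (Multiset.dvd_prod hp).trans ⟨u, hu.symm⟩, hp0⟩

/-- The equation of the surface vanishes at the coordinates of `O₁`. -/
theorem hg_root [IsAlgClosed k] (hS : SurfN k x) (hC : Coord k x x0 x1 Y Z d O₁ c₁)
    (hE : Eqn k x x0 x1 Y Z d f r) : ev3 f c₁ 0 0 = 0 := by
  by_contra hne
  have hall : ∀ u : F, u ∈ O₁ := by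
    intro u
    refine (coord_loc hS hC hE.int u).2 ⟨0, f, hne, ?_⟩
    rw [(hE.ker f).2 dvd_rfl, mul_zero, map_zero]
  obtain ⟨ha, hb, h⟩ := hC.par₁
  have h1 : ¬ IsUnit (⟨_, ha⟩ : O₁) :=
    (h _).1 (Ideal.subset_span (Set.mem_insert _ _))
  apply h1
  refine (isUnit_iff_inv _).2 ⟨?_, hall _⟩
  intro h0
  change x1 / x0 - algebraMap k F c₁ = 0 at h0
  have h2 : (C (Polynomial.X - C c₁) : k[X][X]) = 0 := by
    refine hE.ker2 _ ?_
    rw [ev2_C, map_sub, aeval_X, aeval_C, h0]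
  exact X_sub_C_ne_zero c₁ (C_eq_zero.1 h2)

theorem fib_of_prime_aux [IsAlgClosed k] (hS : SurfN k x) (hC : Coord k x x0 x1 Y Z d O₁ c₁)
    (hE : Eqn k x x0 x1 Y Z d f r) (κ : k) (htop : (fib f κ 0).natDegree = r)
    (hp : PrimeForm k x d (Z - algebraMap k F κ * Y) V)
    (hroot : ((derivative (fib f κ 0)).eval (C 0)).eval c₁ ≠ 0) :
    Irreducible (fib f κ 0) ∧ IsFib k x x0 x1 Y Z d f κ 0 V := by
  have hx0 := mem_hom_one.1 hC.h0
  let φ : k[X][X] →+* k := (evalRingHom c₁).comp (evalRingHom (C 0))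
  have hφ : ∀ g, φ g = (g.eval (C 0)).eval c₁ := fun g => rfl
  have hh0 : fib f κ 0 ≠ 0 := by
    intro h
    rw [h] at hroot
    exact hroot (by simp)
  have hhu : ¬ IsUnit (fib f κ 0) := by
    intro h
    have h1 := natDegree_eq_zero_of_isUnit h
    have h2 := hE.one
    omega
  have hφh : φ (fib f κ 0) = 0 := by
    rw [hφ, fib_eval, mul_zero, eval_zero, add_zero]
    exact hg_root hS hC hE
  obtain ⟨p, hpp, hpd, hp0⟩ := hg_exists_factor φ hh0 hφh
  have hVp := hg_factor hS hC hE hp hpp hpd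
  have hass : ∀ q : k[X][X], Prime q → q ∣ fib f κ 0 → p ∣ q := by
    intro q hqp hqd
    have hVq := hg_factor hS hC hE hp hqp hqd
    have h1 := (hVp.2 (C q)).1 ((hVq.2 (C q)).2 (by rw [hg_fib_C]))
    rwa [hg_fib_C] at h1
  have hirr : Irreducible (fib f κ 0) := by
    refine ⟨hhu, fun a b hab => ?_⟩
    by_contra hcon
    push Not at hcon
    have ha0 : a ≠ 0 := by
      rintro rfl
      exact hh0 (by rw [hab, zero_mul])
    have hb0 : b ≠ 0 := by
      rintro rfl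
      exact hh0 (by rw [hab, mul_zero])
    obtain ⟨q, hq, hqa⟩ := WfDvdMonoid.exists_irreducible_factor hcon.1 ha0
    obtain ⟨q', hq', hqb⟩ := WfDvdMonoid.exists_irreducible_factor hcon.2 hb0
    have h1 : p ∣ a := (hass q hq.prime (hqa.trans ⟨b, hab⟩)).trans hqa
    have h2 : p ∣ b := (hass q' hq'.prime (hqb.trans ⟨a, by rw [hab, mul_comm]⟩)).trans hqb
    obtain ⟨a', rfl⟩ := h1
    obtain ⟨b', rfl⟩ := h2
    apply hroot
    have h3 : (p.eval (C 0)).eval c₁ = 0 := hp0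
    rw [hab, derivative_mul, derivative_mul, derivative_mul]
    simp only [eval_add, eval_mul, h3]
    ring
  have hVh := hg_factor hS hC hE hp hirr.prime dvd_rfl
  have hcur := (curve_iff hS.ne hx0 hC.ne).1 hVh.1
  have hle := hd_coord hC.h0 hC.h1 hC.hY hC.hZ
  refine ⟨hirr, ⟨hcur.1, hcur.2, fun g => hVh.1.2.1 _ (hle ((mem_adjoin_three _ _ _ _).2 ⟨g, rfl⟩)),
    hVh.2, fun V' hV' hg' hlt => ?_⟩⟩
  rw [map_zero, sub_zero] at hlt
  have hwe : (Z - algebraMap k F κ * Y) / x0 ^ d =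
      Z / x0 ^ d - algebraMap k F κ * (Y / x0 ^ d) := by ring
  rw [← hwe] at hlt
  by_contra hne
  have h9 := hp.other V' hV' hne
  have hV'1 := disc_of_curves hV'
  rw [hg_vh hS.ne hV'1 (curve_over hV') hg' d hp.ne] at h9
  have h10 := (ord_pos_iff hV'1 (div_ne_zero hp.ne (pow_ne_zero _ hC.ne))).2 hlt
  omega

end Pool.Agent.Lib.MP_b197b4_ntK
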