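import Mathlib
import Pool.Agent.Lib.MP_b197b4_ntH.HG1
import Pool.Agent.Lib.MP_b197b4_ntH.HGa

/-!
# MP_b197b4_nt, project K1, part KC: the two special members are irreducible
-/

set_option autoImplicit false

namespace Pool.Agent.Lib.MP_b197b4_ntK

open IsLocalRing Polynomial

open MPb197b4P (fib cut ev3 RegPt Spl Good Core)

variable {k F : Type} [Field k] [Field F] [Algebra k F] {n : ℕ} {x : Fin (n + 1) → F}
  {x0 x1 Y Z : F} {d : ℕ} {O₁ : Subring F} {c₁ : k} {f : k[X][X][X]} {r : ℕ}
  {κ : k} {α γ : k[X]} {e : ℕ} {V : ValuationSubring F}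
  {l : ∀ V : ValuationSubring F, ResidueField V → ℚ} {ν : ValuationSubring F → ℚ}

/-- HG2. IRREDUCIBLE (T_K1_KC section 4): lying over; every irreducible factor of `fib f κ 0` gives
the prime ideal of `V` in `k[X, y, z]`, so `fib f κ 0` is a power of one irreducible polynomial, and
the power is one by `simple_root`. -/
theorem fib_of_prime [IsAlgClosed k] (hS : SurfN k x) (hC : Coord k x x0 x1 Y Z d O₁ c₁)
    (hE : Eqn k x x0 x1 Y Z d f r) (κ : k) (htop : (fib f κ 0).natDegree = r)
    (hp : PrimeForm k x d (Z - algebraMap k F κ * Y) V)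
    (hpar : IsParam O₁ (x1 / x0 - algebraMap k F c₁)
      ((Z - algebraMap k F κ * Y) / x0 ^ d)) :
    Irreducible (fib f κ 0) ∧ IsFib k x x0 x1 Y Z d f κ 0 V :=
  fib_of_prime_aux hS hC hE κ htop hp (simple_root hS hC hE κ hpar)

end Pool.Agent.Lib.MP_b197b4_ntK
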