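import Mathlib
import Pool.Agent.Lib.MP_b197b4_ntH.HA
import Pool.Agent.Lib.MP_b197b4_ntK.G56

/-!
# MP_b197b4_nt, project K1, part KC: curves and points at infinity
-/

set_option autoImplicit false

namespace Pool.Agent.Lib.MP_b197b4_ntK

open IsLocalRing Polynomial

open MPb197b4P (fib cut ev3 RegPt Spl Good Core)

variable {k F : Type} [Field k] [Field F] [Algebra k F] {n : ℕ} {x : Fin (n + 1) → F}
  {x0 x1 Y Z : F} {d : ℕ} {O₁ : Subring F} {c₁ : k} {f : k[X][X][X]} {r : ℕ}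
  {κ : k} {α γ : k[X]} {e : ℕ} {V : ValuationSubring F}
  {l : ∀ V : ValuationSubring F, ResidueField V → ℚ} {ν : ValuationSubring F → ℚ}

/-- A linear form which does not vanish at `O`. -/
theorem HE_gen_of_notZero {O : Subring F} {w : F} (hw : w ∈ hom k x 1)
    (h : NotZero x O 1 w) : Gen k x O w := by
  obtain ⟨h0, v, hv0, hv, h1⟩ := h
  refine ⟨mem_hom_one.1 hw, h0, fun j => ?_⟩
  have h2 : x j / w = x j / v * (w / v ^ 1)⁻¹ := by
    rw [pow_one, inv_div]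
    field_simp
  rw [h2]
  exact O.mul_mem (hv j) h1

theorem HE_inv_of_notZero {O : Subring F} (hk : ∀ c : k, algebraMap k F c ∈ O) {s w : F} {m : ℕ}
    (h : NotZero x O m s) (hw : w ∈ Submodule.span k (Set.range x)) (hw0 : w ≠ 0) :
    (s / w ^ m)⁻¹ ∈ O := by
  obtain ⟨h0, v, hv0, hv, h1⟩ := h
  have h2 : (s / w ^ m)⁻¹ = (w / v) ^ m * (s / v ^ m)⁻¹ := by
    rw [inv_div, inv_div, div_pow]
    field_simp
  rw [h2]
  exact O.mul_mem (O.pow_mem (lin_of_le hk hv hw) m) h1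

theorem HE_gen_idx (hx : ∀ i, x i ≠ 0) (hV : V ∈ Curves (charts k x)) :
    Gen k x V.toSubring (x (idx x V)) :=
  ⟨x_mem_span x _, hx _, fun j => coord_mem (Curves.dvr hV) hx j⟩

/-- A linear form is a generator at the curve iff it does not vanish on the curve. -/
theorem HE_vh_one (hx : ∀ i, x i ≠ 0) (hV : V ∈ Curves (charts k x)) {w : F}
    (hw : Gen k x V.toSubring w) : vh x V 1 w = 0 := by
  have hd := Curves.dvr hV
  have hk : ∀ c : k, algebraMap k F c ∈ V.toSubring := Curves.over hV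
  have h1 : w / x (idx x V) ∈ V := (HE_gen_idx hx hV).lin hk hw.mem
  have h2 : x (idx x V) / w ∈ V := hw.le _
  have h3 := (ord_nonneg_iff hd (div_ne_zero hw.ne (hx _))).2 h1
  have h4 := (ord_nonneg_iff hd (div_ne_zero (hx _) hw.ne)).2 h2
  rw [ord_div hd hw.ne (hx _)] at h3
  rw [ord_div hd (hx _) hw.ne] at h4
  unfold vh
  omega

/-- HE1 (C2). `x1` does not vanish on the curves in `x0 = 0` (G6 and `noz`). -/
theorem curve_inf [IsAlgClosed k] (hS : SurfN k x) (hC : Coord k x x0 x1 Y Z d O₁ c₁)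
    (hV : V ∈ Curves (charts k x)) (h0 : ¬ Gen k x V.toSubring x0) :
    x1 ≠ 0 ∧ vh x V 1 x1 = 0 := by
  have hd2 := hC.two
  have key : ∀ O ∈ Points (charts k x), (O : Set F) ⊆ V → ¬ NotZero x O d Y →
      x1 ≠ 0 ∧ vh x V 1 x1 = 0 := by
    intro O hO hOV hY
    rcases hC.noz O hO with h | h | h
    · have h1 := HE_gen_of_notZero hC.h0 h
      exact absurd ⟨h1.mem, h1.ne, fun j => hOV (h1.le j)⟩ h0
    · have h1 := HE_gen_of_notZero hC.h1 h
      exact ⟨h1.ne, HE_vh_one hS.ne hV ⟨h1.mem, h1.ne, fun j => hOV (h1.le j)⟩⟩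
    · exact absurd h hY
  by_cases hY : Y = 0
  · obtain ⟨O, hO, hOV, -⟩ := curve_meetsN hS hV one_pos (mem_hom_one.2 (x_mem_span x 0))
      (hS.ne 0)
    exact key O hO hOV fun h => h.1 hY
  · obtain ⟨O, hO, hOV, h⟩ := curve_meetsN hS hV (by omega : 0 < d) hC.hY hY
    refine key O hO hOV fun h1 => ?_
    obtain ⟨i, hi⟩ := gen_of_point hS.ne hO
    exact h i hi.le (HE_inv_of_notZero (point_over hO) h1 (x_mem_span x i) (hS.ne i))

theorem HE_aeval (hx0 : x0 ≠ 0) (hα : α.natDegree ≤ e) :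
    x0 ^ e * aeval (x1 / x0) α =
      ∑ i ∈ Finset.range (e + 1), algebraMap k F (α.coeff i) * (x1 ^ i * x0 ^ (e - i)) := by
  rw [aeval_eq_sum_range' (n := e + 1) (by omega), Finset.mul_sum]
  refine Finset.sum_congr rfl fun i hi => ?_
  have h1 : x0 ^ e = x0 ^ i * x0 ^ (e - i) := by
    rw [← pow_add]
    congr 1
    rw [Finset.mem_range] at hi
    omega
  rw [h1, Algebra.smul_def, div_pow]
  field_simp

theorem HE_aeval_mem (h0 : x0 ∈ hom k x 1) (h1 : x1 ∈ hom k x 1) (hx0 : x0 ≠ 0)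
    (hα : α.natDegree ≤ e) : x0 ^ e * aeval (x1 / x0) α ∈ hom k x e := by
  rw [HE_aeval hx0 hα]
  refine Submodule.sum_mem _ fun i hi => ?_
  rw [← Algebra.smul_def]
  refine Submodule.smul_mem _ _ ?_
  rw [Finset.mem_range] at hi
  have h2 := mul_mem_hom (pow_mem_hom' (mem_hom_one.1 h1) i)
    (pow_mem_hom' (mem_hom_one.1 h0) (e - i))
  rwa [show i + (e - i) = e by omega] at h2

theorem HE_div_mem (h0 : x0 ∈ hom k x 1) (hY : Y ∈ hom k x d) (hx0 : x0 ≠ 0) (hde : d ≤ e) :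
    x0 ^ e * (Y / x0 ^ d) ∈ hom k x e := by
  have h1 : x0 ^ e * (Y / x0 ^ d) = x0 ^ (e - d) * Y := by
    rw [show x0 ^ e = x0 ^ (e - d) * x0 ^ d by
      rw [← pow_add]
      congr 1
      omega]
    field_simp
  rw [h1]
  have h2 := mul_mem_hom (pow_mem_hom' (mem_hom_one.1 h0) (e - d)) hY
  rwa [show e - d + d = e by omega] at h2

theorem tform_mem (h0 : x0 ∈ hom k x 1) (h1 : x1 ∈ hom k x 1) (hY : Y ∈ hom k x d)
    (hZ : Z ∈ hom k x d) (hx0 : x0 ≠ 0) (hde : d ≤ e) (hα : α.natDegree ≤ e) :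
    tform k x0 x1 Y Z d e κ α ∈ hom k x e := by
  unfold tform
  have h2 : x0 ^ e * (Z / x0 ^ d - algebraMap k F κ * (Y / x0 ^ d) - aeval (x1 / x0) α) =
      x0 ^ e * (Z / x0 ^ d) - κ • (x0 ^ e * (Y / x0 ^ d)) - x0 ^ e * aeval (x1 / x0) α := by
    rw [Algebra.smul_def]
    ring
  rw [h2]
  exact Submodule.sub_mem _ (Submodule.sub_mem _ (HE_div_mem h0 hZ hx0 hde)
    (Submodule.smul_mem _ _ (HE_div_mem h0 hY hx0 hde))) (HE_aeval_mem h0 h1 hx0 hα)

theorem yform_mem (h0 : x0 ∈ hom k x 1) (h1 : x1 ∈ hom k x 1) (hY : Y ∈ hom k x d)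
    (hx0 : x0 ≠ 0) (hde : d ≤ e) (hγ : γ.natDegree ≤ e) :
    yform k x0 x1 Y d e γ ∈ hom k x e := by
  unfold yform
  rw [mul_sub]
  exact Submodule.sub_mem _ (HE_div_mem h0 hY hx0 hde) (HE_aeval_mem h0 h1 hx0 hγ)

/-- a constant plus a nonunit -/
theorem HE_unit {O : Subring F} (hO : IsLocalRing O) (hk : ∀ c : k, algebraMap k F c ∈ O)
    {q b : F} (hq : q ∈ O) (hq' : q⁻¹ ∉ O) (hb : b ∈ O) {c : k} (hc : c ≠ 0) :
    algebraMap k F c + q * b ≠ 0 ∧ (algebraMap k F c + q * b)⁻¹ ∈ O := by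
  have hu : IsUnit (⟨algebraMap k F c, hk c⟩ : O) := by
    refine (isUnit_iff_inv _).2 ⟨?_, ?_⟩
    · change algebraMap k F c ≠ 0
      rwa [Ne, FaithfulSMul.algebraMap_eq_zero_iff]
    · change (algebraMap k F c)⁻¹ ∈ O
      rw [← map_inv₀]
      exact hk _
  have h1 : (⟨algebraMap k F c, hk c⟩ : O) =
      ⟨algebraMap k F c + q * b, O.add_mem (hk c) (O.mul_mem hq hb)⟩ +
        ⟨q, hq⟩ * ⟨- b, O.neg_mem hb⟩ := by
    apply Subtype.ext
    change algebraMap k F c = algebraMap k F c + q * b + q * (- b)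
    ring
  rw [h1] at hu
  rcases IsLocalRing.isUnit_or_isUnit_of_isUnit_add hu with h | h
  · exact (isUnit_iff_inv _).1 h
  · have h2 := isUnit_of_mul_isUnit_left h
    exact absurd ((isUnit_iff_inv _).1 h2).2 hq'

/-- The part of degree `0` in `x0` of a polynomial. -/
theorem HE_split (h1 : x1 ≠ 0) (hx0 : x0 ≠ 0) (he : 0 < e) (hα : α.natDegree ≤ e) :
    x0 ^ e * aeval (x1 / x0) α / x1 ^ e = algebraMap k F (α.coeff e) + x0 / x1 *
      ∑ i ∈ Finset.range e, algebraMap k F (α.coeff i) * (x0 / x1) ^ (e - 1 - i) := by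
  rw [HE_aeval hx0 hα, Finset.sum_range_succ, Nat.sub_self, pow_zero, mul_one, add_div,
    add_comm, mul_div_assoc, div_self (pow_ne_zero _ h1), mul_one, Finset.mul_sum,
    Finset.sum_div]
  congr 1
  refine Finset.sum_congr rfl fun i hi => ?_
  rw [Finset.mem_range] at hi
  obtain ⟨j, rfl⟩ : ∃ j, e = i + (j + 1) := ⟨e - i - 1, by omega⟩
  rw [show i + (j + 1) - i = j + 1 by omega, show i + (j + 1) - 1 - i = j by omega, div_pow,
    pow_add x1]
  field_simp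
  ring

theorem HE_sum_mem {O : Subring F} (hk : ∀ c : k, algebraMap k F c ∈ O) {q : F} (hq : q ∈ O)
    (α : k[X]) (e : ℕ) :
    ∑ i ∈ Finset.range e, algebraMap k F (α.coeff i) * q ^ (e - 1 - i) ∈ O :=
  O.sum_mem fun _ _ => O.mul_mem (hk _) (O.pow_mem hq _)

theorem HE_div (h1 : x1 ≠ 0) (hx0 : x0 ≠ 0) (hde : d < e) :
    x0 ^ e * (Y / x0 ^ d) / x1 ^ e = x0 / x1 * ((x0 / x1) ^ (e - d - 1) * (Y / x1 ^ d)) := by
  obtain ⟨j, rfl⟩ : ∃ j, e = d + (j + 1) := ⟨e - d - 1, by omega⟩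
  rw [show d + (j + 1) - d - 1 = j by omega, div_pow, pow_add x1, pow_add x0]
  field_simp
  ring

/-- At a local ring where `x1` is a generator and `x0` is not. -/
theorem HE_tform {O : Subring F} (hO : IsLocalRing O) (hk : ∀ c : k, algebraMap k F c ∈ O)
    (hx0 : x0 ≠ 0) (h0 : x0 ∈ hom k x 1) (hY : Y ∈ hom k x d) (hZ : Z ∈ hom k x d)
    (hde : d < e) (hα : α.natDegree ≤ e) (hα' : α.coeff e ≠ 0) (h1 : Gen k x O x1)
    (hn : ¬ Gen k x O x0) :
    tform k x0 x1 Y Z d e κ α ≠ 0 ∧ (tform k x0 x1 Y Z d e κ α / x1 ^ e)⁻¹ ∈ O := by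
  have hq : x0 / x1 ∈ O := h1.lin hk (mem_hom_one.1 h0)
  have hq' : (x0 / x1)⁻¹ ∉ O := by
    rw [inv_div]
    exact fun h => hn (h1.of_div (mem_hom_one.1 h0) hx0 h)
  have h2 : tform k x0 x1 Y Z d e κ α / x1 ^ e = algebraMap k F (- α.coeff e) + x0 / x1 *
      ((x0 / x1) ^ (e - d - 1) * (Z / x1 ^ d) -
        algebraMap k F κ * ((x0 / x1) ^ (e - d - 1) * (Y / x1 ^ d)) -
        ∑ i ∈ Finset.range e, algebraMap k F (α.coeff i) * (x0 / x1) ^ (e - 1 - i)) := by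
    have h3 : tform k x0 x1 Y Z d e κ α / x1 ^ e = x0 ^ e * (Z / x0 ^ d) / x1 ^ e -
        algebraMap k F κ * (x0 ^ e * (Y / x0 ^ d) / x1 ^ e) -
        x0 ^ e * aeval (x1 / x0) α / x1 ^ e := by
      unfold tform
      ring
    rw [h3, HE_div h1.ne hx0 hde, HE_div h1.ne hx0 hde, HE_split h1.ne hx0 (by omega) hα,
      map_neg]
    ring
  have h3 := HE_unit hO hk hq hq' (b := (x0 / x1) ^ (e - d - 1) * (Z / x1 ^ d) -
        algebraMap k F κ * ((x0 / x1) ^ (e - d - 1) * (Y / x1 ^ d)) -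
        ∑ i ∈ Finset.range e, algebraMap k F (α.coeff i) * (x0 / x1) ^ (e - 1 - i))
      (O.sub_mem (O.sub_mem (O.mul_mem (O.pow_mem hq _) (h1.div_mem hk hZ))
        (O.mul_mem (hk _) (O.mul_mem (O.pow_mem hq _) (h1.div_mem hk hY))))
        (HE_sum_mem hk hq α e)) (neg_ne_zero.2 hα')
  rw [← h2] at h3
  refine ⟨fun h => h3.1 ?_, h3.2⟩
  rw [h, zero_div]

theorem HE_yform {O : Subring F} (hO : IsLocalRing O) (hk : ∀ c : k, algebraMap k F c ∈ O)
    (hx0 : x0 ≠ 0) (h0 : x0 ∈ hom k x 1) (hY : Y ∈ hom k x d)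
    (hde : d < e) (hγ : γ.natDegree ≤ e) (hγ' : γ.coeff e ≠ 0) (h1 : Gen k x O x1)
    (hn : ¬ Gen k x O x0) :
    yform k x0 x1 Y d e γ ≠ 0 ∧ (yform k x0 x1 Y d e γ / x1 ^ e)⁻¹ ∈ O := by
  have h2 : yform k x0 x1 Y d e γ = tform k x0 x1 0 Y d e 0 γ := by
    unfold yform tform
    rw [map_zero, zero_mul, sub_zero]
  rw [h2]
  exact HE_tform hO hk hx0 h0 (Submodule.zero_mem _) hY hde hγ hγ' h1 hn

theorem HE_vh (hx : ∀ i, x i ≠ 0) (hV : V ∈ Curves (charts k x)) {w s : F}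
    (hw : Gen k x V.toSubring w) (hs : s ∈ hom k x e) (hs0 : s ≠ 0) (h : (s / w ^ e)⁻¹ ∈ V) :
    vh x V e s = 0 := by
  have hd := Curves.dvr hV
  have hk : ∀ c : k, algebraMap k F c ∈ V.toSubring := Curves.over hV
  have h1 : s / w ^ e ∈ V := hw.div_mem hk hs
  have h2 := HE_vh_one hx hV hw
  have h3 := (ord_nonneg_iff hd (div_ne_zero hs0 (pow_ne_zero _ hw.ne))).2 h1
  rw [inv_div] at h
  have h4 := (ord_nonneg_iff hd (div_ne_zero (pow_ne_zero _ hw.ne) hs0)).2 h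
  rw [ord_div hd hs0 (pow_ne_zero _ hw.ne)] at h3
  rw [ord_div hd (pow_ne_zero _ hw.ne) hs0] at h4
  have h5 : ord V (w ^ e) = e * ord V w := by
    have := ord_zpow hd hw.ne e
    rwa [zpow_natCast] at this
  unfold vh at h2 ⊢
  have h6 : ord V w = ord V (x (idx x V)) := by omega
  rw [h5, h6] at h3 h4
  omega

/-- A linear form which does not vanish on the curve is a generator at the curve. -/
theorem HE_gen_of_vh (hx : ∀ i, x i ≠ 0) (hV : V ∈ Curves (charts k x)) {w : F}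
    (hw : w ∈ hom k x 1) (hw0 : w ≠ 0) (h : vh x V 1 w = 0) : Gen k x V.toSubring w := by
  have hd := Curves.dvr hV
  refine (HE_gen_idx hx hV).of_div (mem_hom_one.1 hw) hw0 ?_
  change x (idx x V) / w ∈ V
  rw [← ord_nonneg_iff hd (div_ne_zero (hx _) hw0), ord_div hd (hx _) hw0]
  unfold vh at h
  omega

/-- HE2. On a curve in `x0 = 0` the form `tform e κ α` is `- α_e x1 ^ e`. -/
theorem tform_inf [IsAlgClosed k] (hS : SurfN k x) (hC : Coord k x x0 x1 Y Z d O₁ c₁)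
    (hde : d < e) (hα : α.natDegree ≤ e) (hα' : α.coeff e ≠ 0)
    (hV : V ∈ Curves (charts k x)) (h0 : ¬ Gen k x V.toSubring x0) :
    vh x V e (tform k x0 x1 Y Z d e κ α) = 0 := by
  obtain ⟨h1, h2⟩ := curve_inf hS hC hV h0
  have hg := HE_gen_of_vh hS.ne hV hC.h1 h1 h2
  have h3 := HE_tform (κ := κ) (inferInstanceAs (IsLocalRing V)) (Curves.over hV) hC.ne hC.h0
    hC.hY hC.hZ hde hα hα' hg h0
  exact HE_vh hS.ne hV hg (tform_mem hC.h0 hC.h1 hC.hY hC.hZ hC.ne hde.le hα) h3.1 h3.2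

theorem yform_inf [IsAlgClosed k] (hS : SurfN k x) (hC : Coord k x x0 x1 Y Z d O₁ c₁)
    (hde : d < e) (hγ : γ.natDegree ≤ e) (hγ' : γ.coeff e ≠ 0)
    (hV : V ∈ Curves (charts k x)) (h0 : ¬ Gen k x V.toSubring x0) :
    vh x V e (yform k x0 x1 Y d e γ) = 0 := by
  obtain ⟨h1, h2⟩ := curve_inf hS hC hV h0
  have hg := HE_gen_of_vh hS.ne hV hC.h1 h1 h2
  have h3 := HE_yform (inferInstanceAs (IsLocalRing V)) (Curves.over hV) hC.ne hC.h0
    hC.hY hde hγ hγ' hg h0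
  exact HE_vh hS.ne hV hg (yform_mem hC.h0 hC.h1 hC.hY hC.ne hde.le hγ) h3.1 h3.2

theorem HE_isLocalRing {O : Subring F} (hO : O ∈ Points (charts k x)) : IsLocalRing O := by
  obtain ⟨A, -, m, hm, h⟩ := hO
  have := hm.isPrime
  rw [isLoc_iff.1 h]
  exact isLocalRing_locSub m

/-- HE3. The same at a point with `x0 = 0`, `x1 ≠ 0`. -/
theorem yform_pt_inf [IsAlgClosed k] (hS : SurfN k x) (hC : Coord k x x0 x1 Y Z d O₁ c₁)
    {O : Subring F} (hO : O ∈ Points (charts k x)) (hde : d < e) (hγ : γ.natDegree ≤ e)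
    (hγ' : γ.coeff e ≠ 0) (h0 : ¬ Gen k x O x0) (h1 : NotZero x O 1 x1) :
    NotZero x O e (yform k x0 x1 Y d e γ) := by
  have hg := HE_gen_of_notZero hC.h1 h1
  have h3 := HE_yform (HE_isLocalRing hO) (point_over hO) hC.ne hC.h0
    hC.hY hde hγ hγ' hg h0
  exact ⟨h3.1, x1, hg.ne, hg.le, h3.2⟩

end Pool.Agent.Lib.MP_b197b4_ntK
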