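import Mathlib
import Pool.Agent.Lib.MP_b197b4_ntH.HD
import Pool.Agent.Lib.MP_b197b4_ntH.HE

/-!
# MP_b197b4_nt, project K1, part KC: prime forms of the family
-/

set_option autoImplicit false

namespace Pool.Agent.Lib.MP_b197b4_ntK

open IsLocalRing Polynomial

open MPb197b4P (fib cut ev3 RegPt Spl Good Core)

variable {k F : Type} [Field k] [Field F] [Algebra k F] {n : ℕ} {x : Fin (n + 1) → F}
  {x0 x1 Y Z : F} {d : ℕ} {O₁ : Subring F} {c₁ : k} {f : k[X][X][X]} {r : ℕ}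
  {κ : k} {α γ : k[X]} {e : ℕ} {V : ValuationSubring F}
  {l : ∀ V : ValuationSubring F, ResidueField V → ℚ} {ν : ValuationSubring F → ℚ}

theorem HE2_ord_zero (V : ValuationSubring F) : ord V (0 : F) = 0 := by
  unfold ord
  rw [dif_neg]
  rintro ⟨m, p, u, hp, h⟩
  have h1 : (p : F) ≠ 0 := fun h0 => hp.ne_zero (Subtype.ext h0)
  have h2 : ((u : V) : F) ≠ 0 := fun h0 => u.ne_zero (Subtype.ext h0)
  exact mul_ne_zero (zpow_ne_zero _ h1) h2 h.symm

/-- The order of a form on a curve on which `x0` does not vanish. -/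
theorem HE2_vh (hx : ∀ i, x i ≠ 0) (hV : V ∈ Curves (charts k x)) (hg : Gen k x V.toSubring x0)
    (a : ℕ) {w : F} (hw : w ≠ 0) : vh x V a (x0 ^ a * w) = ord V w := by
  have hd : IsDiscreteValuationRing V := disc_of_curves hV
  have hk := curve_over hV
  have h1 : x0 / x (idx x V) ∈ V :=
    lin_of_le (O := V.toSubring) hk (fun j => by
      have h := idx_le x V j
      have h2 := (ord_nonneg_iff hd (div_ne_zero (hx j) (hx (idx x V)))).1
        (by rw [ord_div hd (hx j) (hx _)]; omega)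
      exact h2) hg.mem
  have h2 : x (idx x V) / x0 ∈ V := hg.le _
  have h3 := (ord_nonneg_iff hd (div_ne_zero hg.ne (hx _))).2 h1
  have h4 := (ord_nonneg_iff hd (div_ne_zero (hx _) hg.ne)).2 h2
  rw [ord_div hd hg.ne (hx _)] at h3
  rw [ord_div hd (hx _) hg.ne] at h4
  have h5 : ord V x0 = ord V (x (idx x V)) := by omega
  unfold vh
  rw [ord_mul hd (pow_ne_zero _ hg.ne) hw, ord_pow hd hg.ne, h5]
  ring

/-- `Y / x0 ^ d`, `Z / x0 ^ d` and `x1 / x0` are regular where `x0` does not vanish. -/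
theorem HE2_mem (hC : Coord k x x0 x1 Y Z d O₁ c₁) (hV : V ∈ Curves (charts k x))
    (hg : Gen k x V.toSubring x0) :
    x1 / x0 ∈ V ∧ Y / x0 ^ d ∈ V ∧ Z / x0 ^ d ∈ V := by
  have hk := curve_over hV
  refine ⟨?_, ?_, ?_⟩
  · have := hg.div_mem (O := V.toSubring) hk hC.h1
    rwa [pow_one] at this
  · exact hg.div_mem (O := V.toSubring) hk hC.hY
  · exact hg.div_mem (O := V.toSubring) hk hC.hZ

theorem HE2_aeval (hV : V ∈ Curves (charts k x)) {u : F} (hu : u ∈ V) (p : k[X]) :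
    aeval u p ∈ V := by
  have hk := curve_over hV
  rw [aeval_eq_sum_range]
  refine V.toSubring.sum_mem fun i _ => ?_
  rw [Algebra.smul_def]
  exact V.mul_mem _ _ (hk _) (V.toSubring.pow_mem hu i)

theorem HE2_w_mem (hC : Coord k x x0 x1 Y Z d O₁ c₁) (hV : V ∈ Curves (charts k x))
    (hg : Gen k x V.toSubring x0) (κ : k) (α : k[X]) :
    Z / x0 ^ d - algebraMap k F κ * (Y / x0 ^ d) - aeval (x1 / x0) α ∈ V := by
  obtain ⟨h1, h2, h3⟩ := HE2_mem hC hV hg
  exact V.toSubring.sub_mem (V.toSubring.sub_mem h3 (V.mul_mem _ _ (curve_over hV κ) h2))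
    (HE2_aeval hV h1 α)

/-- HE4. The members with `α_e ≠ 0` are prime forms. -/
theorem prime_tform [IsAlgClosed k] (hS : SurfN k x) (hC : Coord k x x0 x1 Y Z d O₁ c₁)
    (hE : Eqn k x x0 x1 Y Z d f r) (hde : d < e) (hα : α.natDegree ≤ e)
    (hα' : α.coeff e ≠ 0) (hirr : Irreducible (fib f κ α)) :
    ∃ V, PrimeForm k x e (tform k x0 x1 Y Z d e κ α) V ∧ IsFib k x x0 x1 Y Z d f κ α V := by
  obtain ⟨V, hV, hord⟩ := fib_curve hS hC hE κ α hirr
  refine ⟨V, ?_, hV⟩
  have hw : Z / x0 ^ d - algebraMap k F κ * (Y / x0 ^ d) - aeval (x1 / x0) α ≠ 0 := by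
    intro h0
    rw [h0, HE2_ord_zero] at hord
    exact absurd hord (by norm_num)
  refine ⟨tform_mem hC.h0 hC.h1 hC.hY hC.hZ hC.ne hde.le hα,
    mul_ne_zero (pow_ne_zero _ hC.ne) hw, hV.cur, ?_, ?_⟩
  · unfold tform
    rw [HE2_vh hS.ne hV.cur hV.gen e hw, hord]
  · intro V' hV' hne
    by_cases hg : Gen k x V'.toSubring x0
    · unfold tform
      rw [HE2_vh hS.ne hV' hg e hw, ord_eq_zero_iff (disc_of_curves hV') hw]
      have h1 := (V'.valuation_le_one_iff _).2 (HE2_w_mem hC hV' hg κ α)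
      refine le_antisymm h1 (not_lt.1 fun h2 => hne (hV.uni V' hV' hg h2))
    · exact tform_inf hS hC hde hα hα' hV' hg

/-- HE5. Coprimality of a section and a member. -/
theorem copr_member [IsAlgClosed k] (hS : SurfN k x) (hC : Coord k x x0 x1 Y Z d O₁ c₁)
    (hE : Eqn k x x0 x1 Y Z d f r) (hr : 2 ≤ r) (hde : d < e) (hα : α.natDegree ≤ e)
    (hirr : Irreducible (fib f κ α)) (htop : (fib f κ α).natDegree = r)
    (hγ : γ.natDegree ≤ e) (hne : α.coeff e ≠ 0 ∨ γ.coeff e ≠ 0) :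
    Copr x (Curves (charts k x)) (yform k x0 x1 Y d e γ) e (tform k x0 x1 Y Z d e κ α) e := by
  obtain ⟨V, hV, hord⟩ := fib_curve hS hC hE κ α hirr
  have hw : Z / x0 ^ d - algebraMap k F κ * (Y / x0 ^ d) - aeval (x1 / x0) α ≠ 0 := by
    intro h0
    rw [h0, HE2_ord_zero] at hord
    exact absurd hord (by norm_num)
  have hy2 : ev2 (k := k) (x1 / x0) (Y / x0 ^ d) (Polynomial.X - C γ)
      = Y / x0 ^ d - aeval (x1 / x0) γ := by
    rw [map_sub, ev2_X, ev2_C]
  have hy : Y / x0 ^ d - aeval (x1 / x0) γ ≠ 0 := by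
    intro h0
    exact X_sub_C_ne_zero γ (hE.ker2 _ (by rw [hy2, h0]))
  have hYne : yform k x0 x1 Y d e γ ≠ 0 := mul_ne_zero (pow_ne_zero _ hC.ne) hy
  have hTne : tform k x0 x1 Y Z d e κ α ≠ 0 := mul_ne_zero (pow_ne_zero _ hC.ne) hw
  refine ⟨hYne, hTne, fun V' hV' => ⟨?_, ?_, ?_⟩⟩
  · exact vh_nonneg (disc_of_curves hV') (curve_over hV') hS.ne
      (yform_mem hC.h0 hC.h1 hC.hY hC.ne hde.le hγ) hYne
  · exact vh_nonneg (disc_of_curves hV') (curve_over hV') hS.ne
      (tform_mem hC.h0 hC.h1 hC.hY hC.hZ hC.ne hde.le hα) hTne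
  · by_cases hg : Gen k x V'.toSubring x0
    · by_cases hlt : V'.valuation
        (Z / x0 ^ d - algebraMap k F κ * (Y / x0 ^ d) - aeval (x1 / x0) α) < 1
      · left
        obtain rfl := hV.uni V' hV' hg hlt
        unfold yform
        rw [HE2_vh hS.ne hV' hg e hy, ord_eq_zero_iff (disc_of_curves hV') hy]
        obtain ⟨h1, h2, -⟩ := HE2_mem hC hV' hg
        have h3 := (V'.valuation_le_one_iff _).2
          (V'.toSubring.sub_mem h2 (HE2_aeval hV' h1 γ))
        refine le_antisymm h3 (not_lt.1 fun h4 => ?_)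
        have h5 := (hV.lt (C (Polynomial.X - C γ))).1 (by rw [ev_C, hy2]; exact h4)
        have h6 : fib (C (Polynomial.X - C γ)) κ α = Polynomial.X - C γ := by
          unfold fib
          rw [eval_C]
        rw [h6] at h5
        have h7 := natDegree_le_of_dvd h5 (X_sub_C_ne_zero γ)
        rw [htop, natDegree_X_sub_C] at h7
        omega
      · right
        unfold tform
        rw [HE2_vh hS.ne hV' hg e hw, ord_eq_zero_iff (disc_of_curves hV') hw]
        exact le_antisymm ((V'.valuation_le_one_iff _).2 (HE2_w_mem hC hV' hg κ α))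
          (not_lt.1 hlt)
    · rcases hne with h | h
      · right
        exact tform_inf hS hC hde hα h hV' hg
      · left
        exact yform_inf hS hC hde hγ h hV' hg

end Pool.Agent.Lib.MP_b197b4_ntK
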