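import Mathlib
import Pool.Agent.Lib.MP_b197b4_ntH.HA
import Pool.Agent.Lib.MP_b197b4_ntK.KLocN
import Pool.Agent.Lib.MP_b197b4_ntG.GenN

/-!
# MP_b197b4_nt, project K1, part KC: split points
-/

set_option autoImplicit false

namespace Pool.Agent.Lib.MP_b197b4_ntK

open IsLocalRing Polynomial

open MPb197b4P (fib cut ev3 RegPt Spl Good Core)

section HHsAbstract

/-- The image of the kernel of a surjection to a field is a maximal ideal. -/
theorem HHs_max {P B K : Type*} [CommRing P] [CommRing B] [Field K] (ψ : P →+* B) (e : P →+* K)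
    (hψ : Function.Surjective ψ) (he : Function.Surjective e) (h : ∀ g, ψ g = 0 → e g = 0) :
    ((RingHom.ker e).map ψ).IsMaximal ∧ ∀ g, ψ g ∈ (RingHom.ker e).map ψ ↔ e g = 0 := by
  have h1 : ∀ g, ψ g ∈ (RingHom.ker e).map ψ ↔ e g = 0 := by
    intro g
    rw [Ideal.mem_map_iff_of_surjective ψ hψ]
    constructor
    · rintro ⟨g', hg', h2⟩
      have h3 : ψ (g' - g) = 0 := by rw [map_sub, h2, sub_self]
      have h4 := h _ h3
      rw [map_sub, RingHom.mem_ker.1 hg', zero_sub, neg_eq_zero] at h4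
      exact h4
    · intro h2
      exact ⟨g, RingHom.mem_ker.2 h2, rfl⟩
  refine ⟨?_, h1⟩
  have hm : (RingHom.ker e).IsMaximal := RingHom.ker_isMaximal_of_surjective e he
  rcases Ideal.map_eq_top_or_isMaximal_of_surjective ψ hψ hm with h2 | h2
  · exfalso
    have h3 : ψ 1 ∈ (RingHom.ker e).map ψ := by
      rw [h2]
      trivial
    rw [h1, map_one] at h3
    exact one_ne_zero h3
  · exact h2

variable {k : Type} [Field k]

/-- Evaluation at a point. -/
noncomputable def HHs_e3 (a b c : k) : k[X][X][X] →+* k :=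
  ((evalRingHom a).comp (evalRingHom (C b))).comp (evalRingHom (C (C c)))

theorem HHs_e3_apply (a b c : k) (g : k[X][X][X]) : HHs_e3 a b c g = ev3 g a b c := rfl

theorem HHs_e3_surj (a b c : k) : Function.Surjective (HHs_e3 a b c) := by
  intro d
  refine ⟨C (C (C d)), ?_⟩
  rw [HHs_e3_apply]
  unfold ev3
  rw [eval_C, eval_C, eval_C]

theorem HHs_e3_CC (a b c : k) (h : k[X]) : HHs_e3 a b c (C (C h)) = h.eval a := by
  rw [HHs_e3_apply]
  unfold ev3
  rw [eval_C, eval_C]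

/-- Division by `y - γ` and `z - κ y - α`. -/
theorem HHs_divide (g : k[X][X][X]) (κ : k) (α γ : k[X]) :
    ∃ u v : k[X][X][X], g = C (C (cut g κ α γ)) + C (Polynomial.X - C γ) * v +
      (Polynomial.X - C (C (C κ) * Polynomial.X + C α)) * u := by
  obtain ⟨u, hu⟩ : (Polynomial.X - C (C (C κ) * Polynomial.X + C α)) ∣ g - C (fib g κ α) := by
    rw [dvd_iff_isRoot]
    unfold fib
    simp
  obtain ⟨v, hv⟩ : (Polynomial.X - C γ) ∣ fib g κ α - C (cut g κ α γ) := by
    rw [dvd_iff_isRoot]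
    unfold cut
    simp
  refine ⟨u, C v, ?_⟩
  have h2 : C (fib g κ α) = C (C (cut g κ α γ)) + C (Polynomial.X - C γ) * C v := by
    rw [← C_mul, ← hv, ← C_add]
    congr 1
    ring
  rw [← h2, ← hu]
  ring

/-- A polynomial which vanishes at the point over a simple root of `cut f κ α γ` is locally a
combination of `y - γ`, `z - κ y - α` and `f`. -/
theorem HHs_local (f : k[X][X][X]) (κ : k) (α γ : k[X]) {a : k}
    (h0 : (cut f κ α γ).eval a = 0) (h1 : (derivative (cut f κ α γ)).eval a ≠ 0)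
    (g : k[X][X][X]) (hg : (cut g κ α γ).eval a = 0) :
    ∃ (s : k[X]) (u v t : k[X][X][X]), s.eval a ≠ 0 ∧
      C (C s) * g = u * C (Polynomial.X - C γ) +
        v * (Polynomial.X - C (C (C κ) * Polynomial.X + C α)) + t * f := by
  obtain ⟨f1, hf1⟩ : (Polynomial.X - C a) ∣ cut f κ α γ := dvd_iff_isRoot.2 h0
  obtain ⟨g1, hg1⟩ : (Polynomial.X - C a) ∣ cut g κ α γ := dvd_iff_isRoot.2 hg
  have hs : f1.eval a ≠ 0 := by
    rw [hf1] at h1
    simpa using h1
  obtain ⟨uf, vf, hf⟩ := HHs_divide f κ α γ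
  obtain ⟨ug, vg, hgg⟩ := HHs_divide g κ α γ
  refine ⟨f1, C (C f1) * vg - C (C g1) * vf, C (C f1) * ug - C (C g1) * uf, C (C g1), hs, ?_⟩
  rw [hg1] at hgg
  rw [hf1] at hf
  have e1 : C (C f1) * C (C ((Polynomial.X - C a) * g1)) =
      C (C g1) * (C (C ((Polynomial.X - C a) * f1)) : k[X][X][X]) := by
    rw [← C_mul, ← C_mul, ← C_mul, ← C_mul]
    congr 2
    ring
  calc C (C f1) * g = C (C f1) * C (C ((Polynomial.X - C a) * g1)) +
        C (C f1) * (C (Polynomial.X - C γ) * vg +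
          (Polynomial.X - C (C (C κ) * Polynomial.X + C α)) * ug) := by
        conv_lhs => rw [hgg]
        ring
    _ = C (C g1) * (C (C ((Polynomial.X - C a) * f1)) + C (Polynomial.X - C γ) * vf +
          (Polynomial.X - C (C (C κ) * Polynomial.X + C α)) * uf) +
        (C (C f1) * vg - C (C g1) * vf) * C (Polynomial.X - C γ) +
        (C (C f1) * ug - C (C g1) * uf) *
          (Polynomial.X - C (C (C κ) * Polynomial.X + C α)) := by
        rw [e1]
        ring
    _ = _ := by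
        rw [← hf]
        ring

end HHsAbstract

variable {k F : Type} [Field k] [Field F] [Algebra k F] {n : ℕ} {x : Fin (n + 1) → F}
  {x0 x1 Y Z : F} {d : ℕ} {O₁ : Subring F} {c₁ : k} {f : k[X][X][X]} {r : ℕ}

/-- The subalgebra generated by the coordinates. -/
noncomputable def HHs_A1 (k : Type) {F : Type} [Field k] [Field F] [Algebra k F] (X' y z : F) :
    Subalgebra k F := Algebra.adjoin k {X', y, z}

/-- Evaluation with values in this subalgebra. -/
noncomputable def HHs_psi (X' y z : F) : k[X][X][X] →+* HHs_A1 k X' y z :=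
  (ev X' y z).codRestrict (HHs_A1 k X' y z) fun g => (mem_adjoin_three X' y z _).2 ⟨g, rfl⟩

theorem HHs_psi_coe (X' y z : F) (g : k[X][X][X]) :
    ((HHs_psi X' y z g : HHs_A1 k X' y z) : F) = ev X' y z g := rfl

theorem HHs_psi_surj (X' y z : F) : Function.Surjective (HHs_psi (k := k) X' y z) := by
  rintro ⟨u, hu⟩
  obtain ⟨g, hg⟩ := (mem_adjoin_three X' y z u).1 hu
  exact ⟨g, Subtype.ext hg.symm⟩

theorem HHs_ev_p (X' y z : F) (γ : k[X]) :
    ev X' y z (C (Polynomial.X - C γ)) = y - aeval X' γ := by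
  rw [ev_C, map_sub, ev2_X, ev2_C]

theorem HHs_ev_q (X' y z : F) (κ : k) (α : k[X]) :
    ev X' y z (Polynomial.X - C (C (C κ) * Polynomial.X + C α)) =
      z - algebraMap k F κ * y - aeval X' α := by
  have h1 := map_sub (ev (k := k) X' y z) Polynomial.X
    (C (C (C κ) * Polynomial.X + C α))
  have h2 : ev2 X' y (C (C κ) * Polynomial.X + C α) =
      algebraMap k F κ * y + aeval X' α := by
    rw [map_add, map_mul, ev2_X, ev2_C, ev2_C, aeval_C]
  rw [ev_X, ev_C, h2] at h1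
  exact h1.trans (by ring)

/-- Elements of the chart. -/
theorem HHs_le (hC : Coord k x x0 x1 Y Z d O₁ c₁) :
    HHs_A1 k (x1 / x0) (Y / x0 ^ d) (Z / x0 ^ d) ≤ chartOf k x x0 := by
  unfold HHs_A1
  rw [Algebra.adjoin_le_iff]
  rintro _ (rfl | rfl | rfl)
  · have h := div_mem_chartOf (w := x0) hC.h1
    rwa [pow_one] at h
  · exact div_mem_chartOf hC.hY
  · exact div_mem_chartOf hC.hZ

theorem HHs_fg (X' y z : F) : (HHs_A1 k X' y z).FG :=
  Subalgebra.fg_def.2 ⟨{X', y, z}, Set.toFinite _, rfl⟩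

theorem HHs_int (hE : Eqn k x x0 x1 Y Z d f r) :
    ∀ u ∈ chartOf k x x0, IsIntegral (HHs_A1 k (x1 / x0) (Y / x0 ^ d) (Z / x0 ^ d)) u := by
  intro u hu
  have h1 := hE.int u hu
  have h2 : Algebra.adjoin k {x1 / x0, Y / x0 ^ d} ≤
      HHs_A1 k (x1 / x0) (Y / x0 ^ d) (Z / x0 ^ d) := by
    unfold HHs_A1
    apply Algebra.adjoin_mono
    rintro _ (rfl | rfl)
    · exact Or.inl rfl
    · exact Or.inr (Or.inl rfl)
  obtain ⟨P, hP, hPu⟩ := h1
  refine ⟨P.map (Subalgebra.inclusion h2).toRingHom, hP.map _, ?_⟩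
  rw [eval₂_map]
  exact hPu

theorem HHs_frac (hE : Eqn k x x0 x1 Y Z d f r) :
    IsFractionRing (HHs_A1 k (x1 / x0) (Y / x0 ^ d) (Z / x0 ^ d)) F := by
  refine IsFractionRing.of_field _ F ?_
  intro u
  obtain ⟨g, h, _, hu⟩ := hE.gen u
  exact ⟨HHs_psi _ _ _ g, HHs_psi _ _ _ h, hu⟩

/-- The elements of the maximal ideal of a point. -/
theorem HHs_inMax {A : Subalgebra k F} {m : Ideal A} [hm : m.IsMaximal] {O : Subring F}
    (hO : IsLoc A m O) (u : A) : InMax O (u : F) ↔ u ∈ m := by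
  have hp := hm.isPrime
  rw [isLoc_iff.1 hO]
  constructor
  · rintro ⟨h1, h2⟩
    by_contra h3
    obtain ⟨v, hv⟩ := ((isUnit_locSub_iff m u).2 h3).exists_right_inv
    exact h2 v v.2 (congrArg Subtype.val hv)
  · intro h1
    refine ⟨le_locSub m _ u.2, fun v hv h2 => ?_⟩
    have h3 : IsUnit (inclO (le_locSub m) u) := IsUnit.of_mul_eq_one ⟨v, hv⟩ (Subtype.ext h2)
    exact (isUnit_locSub_iff m u).1 h3 h1

/-- HH3. SPLIT POINTS: over a simple root `a` of `cut f κ α γ` there is exactly one point `O`.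
The maximal ideal `N` of `A1 = k[X, y, z]` at `(a, γ a, α a + κ γ a)` is locally generated by
`y - γ(X)` and `z - κ y - α(X)`. -/
theorem split_point [IsAlgClosed k] (hS : SurfN k x) (hC : Coord k x x0 x1 Y Z d O₁ c₁)
    (hE : Eqn k x x0 x1 Y Z d f r) (κ : k) (α γ : k[X]) {a : k}
    (h0 : (cut f κ α γ).eval a = 0) (h1 : (derivative (cut f κ α γ)).eval a ≠ 0) :
    ∃ O, HasCoord k x x0 x1 Y Z d O a (γ.eval a) (α.eval a + κ * γ.eval a) ∧
      IsParam O (Y / x0 ^ d - aeval (x1 / x0) γ)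
        (Z / x0 ^ d - algebraMap k F κ * (Y / x0 ^ d) - aeval (x1 / x0) α) ∧
      ∀ O', HasCoord k x x0 x1 Y Z d O' a (γ.eval a) (α.eval a + κ * γ.eval a) → O' = O := by
  obtain ⟨b, hb⟩ : ∃ b, b = γ.eval a := ⟨_, rfl⟩
  obtain ⟨c, hc⟩ : ∃ c, c = α.eval a + κ * γ.eval a := ⟨_, rfl⟩
  rw [← hc, ← hb]
  obtain ⟨X', hX'⟩ : ∃ X', X' = x1 / x0 := ⟨_, rfl⟩
  obtain ⟨y, hy⟩ : ∃ y, y = Y / x0 ^ d := ⟨_, rfl⟩
  obtain ⟨z, hz⟩ : ∃ z, z = Z / x0 ^ d := ⟨_, rfl⟩
  have hx0 : x0 ∈ Submodule.span k (Set.range x) := mem_hom_one.1 hC.h0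
  have hA : ChartN (chartOf k x x0) := chartN_chartOf hS hx0 hC.ne
  have hle := HHs_le hC
  have hint := HHs_int hE
  have hfr := HHs_frac hE
  have hker := hE.ker
  rw [← hX', ← hy, ← hz] at hle hint hfr hker ⊢
  -- the maximal ideal of `A1`
  have hcut : ∀ g : k[X][X][X], (cut g κ α γ).eval a = ev3 g a b c := by
    intro g
    rw [cut_eval, hb, hc]
  have hψe : ∀ g, HHs_psi (k := k) X' y z g = 0 → HHs_e3 a b c g = 0 := by
    intro g hg
    have h2 : ev X' y z g = 0 := congrArg Subtype.val hg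
    obtain ⟨g', rfl⟩ := (hker g).1 h2
    rw [map_mul, HHs_e3_apply, ← hcut, h0, zero_mul]
  obtain ⟨hn, hmem⟩ := HHs_max (P := k[X][X][X]) (B := HHs_A1 k X' y z) (K := k)
    (HHs_psi (k := k) X' y z) (HHs_e3 a b c) (HHs_psi_surj X' y z) (HHs_e3_surj a b c) hψe
  obtain ⟨N, hN⟩ : ∃ N, N = (RingHom.ker (HHs_e3 a b c)).map (HHs_psi (k := k) X' y z) := ⟨_, rfl⟩
  rw [← hN] at hn hmem
  -- the two generators
  obtain ⟨P, hP⟩ : ∃ P : k[X][X][X], P = C (Polynomial.X - C γ) := ⟨_, rfl⟩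
  obtain ⟨Q, hQ⟩ : ∃ Q : k[X][X][X], Q = Polynomial.X - C (C (C κ) * Polynomial.X + C α) :=
    ⟨_, rfl⟩
  have hPe : ev X' y z P = y - aeval X' γ := by rw [hP, HHs_ev_p]
  have hQe : ev X' y z Q = z - algebraMap k F κ * y - aeval X' α := by rw [hQ, HHs_ev_q]
  have hPN : HHs_psi (k := k) X' y z P ∈ N := by
    rw [hmem, HHs_e3_apply, hP]
    unfold ev3
    rw [eval_C, hb]
    simp
  have hQN : HHs_psi (k := k) X' y z Q ∈ N := by
    rw [hmem, HHs_e3_apply, hQ]
    unfold ev3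
    rw [hc, hb]
    simp
    ring
  have hloc : ∀ u ∈ N, ∃ s v w : HHs_A1 k X' y z, s ∉ N ∧
      s * u = v * HHs_psi (k := k) X' y z P + w * HHs_psi (k := k) X' y z Q := by
    intro u hu
    obtain ⟨g, rfl⟩ := HHs_psi_surj (k := k) X' y z u
    rw [hmem, HHs_e3_apply, ← hcut] at hu
    obtain ⟨s, v, w, t, hs, h2⟩ := HHs_local f κ α γ h0 h1 g hu
    refine ⟨HHs_psi X' y z (C (C s)), HHs_psi X' y z v, HHs_psi X' y z w, ?_, ?_⟩
    · rw [hmem, HHs_e3_CC]
      exact hs
    · rw [← map_mul, h2, ← hP, ← hQ, map_add, map_add, map_mul, map_mul, map_mul]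
      have h3 : HHs_psi (k := k) X' y z f = 0 := Subtype.ext ((hker f).2 dvd_rfl)
      rw [h3, mul_zero, add_zero]
  have hcmp := nice_pointN hA hle (HHs_fg X' y z) hint hfr N _ _ hPN hQN hloc
  obtain ⟨m, hm, hmN⟩ := exists_over hle hint N
  have hmr : ∀ u : HHs_A1 k X' y z, u ∈ N ↔ (⟨u, hle u.2⟩ : chartOf k x x0) ∈ m := by
    intro u
    rw [← hmN]
    exact Iff.rfl
  obtain ⟨O, hO, hOg, hOm⟩ := exists_point hS.ne hx0 hC.ne hm
  have hOm1 : IsLoc (HHs_A1 k X' y z) N O := by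
    have hmp := hm.isPrime
    have h2 := (isLoc_of_compare hle m (by
      intro u hu
      obtain ⟨s, hs, hsu⟩ := hcmp u hu
      exact ⟨s, fun h => hs ((hmr s).2 h), hsu⟩) O).1 hOm
    rwa [hmN] at h2
  -- membership in the maximal ideal
  have hin : ∀ g : k[X][X][X], InMax O (ev X' y z g) ↔ ev3 g a b c = 0 := by
    intro g
    rw [← HHs_psi_coe, HHs_inMax hOm1, hmem, HHs_e3_apply]
  have hin' : ∀ (g : k[X][X][X]) (u : F), ev X' y z g = u → ev3 g a b c = 0 → InMax O u := by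
    intro g u h2 h3
    rw [← h2]
    exact (hin g).2 h3
  have hcx : InMax O (X' - algebraMap k F a) := by
    refine hin' (C (C (Polynomial.X - C a))) _ ?_ ?_
    · rw [ev_C, ev2_C, map_sub, aeval_X, aeval_C]
    · unfold ev3
      simp
  have hcy : InMax O (y - algebraMap k F b) := by
    refine hin' (C (Polynomial.X - C (C b))) _ ?_ ?_
    · rw [HHs_ev_p, aeval_C]
    · unfold ev3
      simp
  have hcz : InMax O (z - algebraMap k F c) := by
    refine hin' (Polynomial.X - C (C (C 0) * Polynomial.X + C (C c))) _ ?_ ?_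
    · rw [HHs_ev_q, aeval_C, map_zero]
      ring
    · unfold ev3
      simp
  have hpn := hn.isPrime
  have hOeq := isLoc_iff.1 hOm1
  have hOl : IsLocalRing O := by
    rw [hOeq]
    exact isLocalRing_locSub N
  refine ⟨O, ⟨hO, hOg, ?_, ?_, ?_⟩, ?_, ?_⟩
  · rw [← hX']; exact hcx
  · rw [← hy]; exact hcy
  · rw [← hz]; exact hcz
  · -- the parameters
    have hPm : InMax O (y - aeval X' γ) := by
      rw [← hPe, hin, ← HHs_e3_apply, ← hmem]
      exact hPN
    have hQm : InMax O (z - algebraMap k F κ * y - aeval X' α) := by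
      rw [← hQe, hin, ← HHs_e3_apply, ← hmem]
      exact hQN
    have hnu : ∀ (u : F) (hu : InMax O u), (⟨u, hu.1⟩ : O) ∈ maximalIdeal O := by
      intro u hu
      rw [mem_maximalIdeal, mem_nonunits_iff]
      intro h2
      obtain ⟨v, hv⟩ := h2.exists_right_inv
      exact hu.2 v v.2 (congrArg Subtype.val hv)
    refine ⟨hPm.1, hQm.1, fun t => ⟨fun ht hu => ?_, fun ht => ?_⟩⟩
    · have h2 : t ∈ maximalIdeal O := by
        refine (Ideal.span_le.2 ?_) ht
        rintro _ (rfl | rfl)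
        · exact hnu _ hPm
        · exact hnu _ hQm
      exact ((mem_maximalIdeal t).1 h2) hu
    · obtain ⟨a1, s1, hs1, hts⟩ := (hOm1 t).1 t.2
      have hs10 := coe_ne_zero_of_notMem hs1
      have ha1 : a1 ∈ N := by
        by_contra ha1
        apply ht
        have ha10 := coe_ne_zero_of_notMem ha1
        refine IsUnit.of_mul_eq_one ⟨(s1 : F) / a1, (hOm1 _).2 ⟨s1, a1, ha1, rfl⟩⟩ ?_
        apply Subtype.ext
        change (t : F) * ((s1 : F) / a1) = 1
        rw [hts]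
        field_simp
      obtain ⟨s, v, w, hs, h2⟩ := hloc a1 ha1
      have hs0 := coe_ne_zero_of_notMem hs
      have hss : s * s1 ∉ N := fun h3 => (hpn.mem_or_mem h3).elim hs hs1
      have hv : (v : F) / (s * s1 : HHs_A1 k X' y z) ∈ O := (hOm1 _).2 ⟨v, s * s1, hss, rfl⟩
      have hw : (w : F) / (s * s1 : HHs_A1 k X' y z) ∈ O := (hOm1 _).2 ⟨w, s * s1, hss, rfl⟩
      rw [Ideal.mem_span_pair]
      refine ⟨⟨_, hv⟩, ⟨_, hw⟩, ?_⟩
      apply Subtype.ext
      have h3 : (s : F) * a1 = v * (y - aeval X' γ) +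
          w * (z - algebraMap k F κ * y - aeval X' α) := by
        rw [← hPe, ← hQe]
        exact congrArg Subtype.val h2
      change (v : F) / ((s : F) * s1) * (y - aeval X' γ) +
        (w : F) / ((s : F) * s1) * (z - algebraMap k F κ * y - aeval X' α) = t
      rw [hts]
      field_simp
      linear_combination (-1 : F) * h3
  · intro O' hO'
    obtain ⟨hp', hg', h2, h3, h4⟩ := hO'
    obtain ⟨m', hm', hOm'⟩ := exists_isLoc hS.ne hp' hg'
    rw [← hX'] at h2
    rw [← hy] at h3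
    rw [← hz] at h4
    have hmp := hm.isPrime
    have hmp' := hm'.isPrime
    have hmax : ∀ g : k[X][X][X], ev3 g a b c = 0 →
        (⟨ev X' y z g, hle (HHs_psi (k := k) X' y z g).2⟩ : chartOf k x x0) ∈ m' := by
      intro g hg
      obtain ⟨w, v, hg2⟩ := HHs_divide g 0 (C c) (C b)
      have h5 : (cut g 0 (C c) (C b)).eval a = 0 := by
        rw [cut_eval, eval_C, eval_C, zero_mul, add_zero]
        exact hg
      obtain ⟨h, hh⟩ : (Polynomial.X - C a) ∣ cut g 0 (C c) (C b) := dvd_iff_isRoot.2 h5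
      have hxA : X' - algebraMap k F a ∈ chartOf k x x0 := by
        have := hle (HHs_psi (k := k) X' y z (C (C (Polynomial.X - C a)))).2
        rwa [HHs_psi_coe, ev_C, ev2_C, map_sub, aeval_X, aeval_C] at this
      have hyA : y - algebraMap k F b ∈ chartOf k x x0 := by
        have := hle (HHs_psi (k := k) X' y z (C (Polynomial.X - C (C b)))).2
        rwa [HHs_psi_coe, HHs_ev_p, aeval_C] at this
      have hzA : z - algebraMap k F c ∈ chartOf k x x0 := by
        have := hle (HHs_psi (k := k) X' y z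
          (Polynomial.X - C (C (C 0) * Polynomial.X + C (C c)))).2
        rwa [HHs_psi_coe, HHs_ev_q, aeval_C, map_zero, zero_mul, sub_zero] at this
      have h6 : (⟨_, hxA⟩ : chartOf k x x0) ∈ m' := (HHs_inMax hOm' ⟨_, hxA⟩).1 h2
      have h7 : (⟨_, hyA⟩ : chartOf k x x0) ∈ m' := (HHs_inMax hOm' ⟨_, hyA⟩).1 h3
      have h8 : (⟨_, hzA⟩ : chartOf k x x0) ∈ m' := (HHs_inMax hOm' ⟨_, hzA⟩).1 h4
      have h9 : ev X' y z g = (X' - algebraMap k F a) * ev X' y z (C (C h)) +
          (y - algebraMap k F b) * ev X' y z v + (z - algebraMap k F c) * ev X' y z w := by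
        have e1 := congrArg (ev (k := k) X' y z) hg2
        rw [map_add, map_add, map_mul, map_mul, HHs_ev_p, HHs_ev_q, hh] at e1
        rw [e1, ev_C, ev2_C, map_mul, map_sub, aeval_X, aeval_C, aeval_C, aeval_C, map_zero,
          ev_C, ev2_C]
        ring
      have h10 : (⟨ev X' y z g, hle (HHs_psi (k := k) X' y z g).2⟩ : chartOf k x x0) =
          ⟨_, hxA⟩ * ⟨_, hle (HHs_psi (k := k) X' y z (C (C h))).2⟩ +
          ⟨_, hyA⟩ * ⟨_, hle (HHs_psi (k := k) X' y z v).2⟩ +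
          ⟨_, hzA⟩ * ⟨_, hle (HHs_psi (k := k) X' y z w).2⟩ := Subtype.ext h9
      rw [h10]
      exact add_mem (add_mem (m'.mul_mem_right _ h6) (m'.mul_mem_right _ h7))
        (m'.mul_mem_right _ h8)
    have hNle : N ≤ m'.comap (Subalgebra.inclusion hle) := by
      intro u hu
      obtain ⟨g, rfl⟩ := HHs_psi_surj (k := k) X' y z u
      rw [hmem, HHs_e3_apply] at hu
      exact hmax g hu
    have hNeq : N = m'.comap (Subalgebra.inclusion hle) :=
      hn.eq_of_le (Ideal.comap_ne_top _ hm'.ne_top) hNle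
    have hmm : m' = m := unique_over hle N hcmp m' m (by
      intro u
      rw [hNeq]
      exact Iff.rfl) hmr
    subst hmm
    rw [isLoc_iff.1 hOm', isLoc_iff.1 hOm]

end Pool.Agent.Lib.MP_b197b4_ntK
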