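import Pool.Agent.Lib.MP_b197b4_ntH.HH1
import Pool.Agent.Lib.MP_b197b4_ntH.HHs

/-!
# MP_b197b4_nt, project K1, part KC: points of the chart `x0 ≠ 0`
-/
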