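import Mathlib
import Pool.Agent.Lib.MP_b197b4_ntH.H0
import Pool.Agent.Lib.MP_b197b4_ntK.KLocN
import Pool.Agent.Lib.MP_b197b4_ntK.SingN

/-!
# MP_b197b4_nt, project K1, part KC: two parameters at a point (general facts)
-/

set_option autoImplicit false

namespace Pool.Agent.Lib.MP_b197b4_ntK

open IsLocalRing Polynomial

open MPb197b4P (fib cut ev3 RegPt Spl Good Core)

variable {k F : Type} [Field k] [Field F] [Algebra k F] {n : ℕ} {x : Fin (n + 1) → F}
  {x0 x1 Y Z : F} {d : ℕ} {O₁ : Subring F} {c₁ : k} {f : k[X][X][X]} {r : ℕ}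
  {κ : k} {α γ : k[X]} {e : ℕ} {V : ValuationSubring F}
  {l : ∀ V : ValuationSubring F, ResidueField V → ℚ} {ν : ValuationSubring F → ℚ}

/-- The local ring of a point is a Noetherian local ring of dimension two, `F` its field of
fractions. -/
theorem HI.point_local (hS : SurfN k x) {O : Subring F} (hO : O ∈ Points (charts k x)) :
    IsLocalRing O ∧ IsNoetherianRing O ∧ ringKrullDim O = 2 ∧
      ∀ y : F, ∃ a s : O, (s : F) ≠ 0 ∧ y = (a : F) / s := by
  obtain ⟨_, ⟨i, rfl⟩, m, hm, hOm⟩ := hO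
  have hft := (Subalgebra.fg_iff_finiteType _).1 (hS.chart i).fg
  have hn := Algebra.FiniteType.isNoetherianRing k
    (Algebra.adjoin k (Set.range fun j => x j / x i))
  obtain ⟨h1, h2, h3⟩ := hOm.local_dim hn (hS.chart i).height hm
  refine ⟨h1, h2, h3, fun y => ?_⟩
  have := (hS.chart i).frac
  obtain ⟨a, b, hb, rfl⟩ :=
    IsFractionRing.div_surjective (A := Algebra.adjoin k (Set.range fun j => x j / x i)) y
  refine ⟨⟨a, hOm.coe_mem hm.ne_top a⟩, ⟨b, hOm.coe_mem hm.ne_top b⟩, ?_, rfl⟩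
  intro h
  exact (nonZeroDivisors.ne_zero hb) (Subtype.ext h)

theorem HI.param_span {O : Subring F} [IsLocalRing O] {a b : F} (h : IsParam O a b) :
    ∃ (ha : a ∈ O) (hb : b ∈ O), maximalIdeal O = Ideal.span {(⟨a, ha⟩ : O), ⟨b, hb⟩} := by
  obtain ⟨ha, hb, h⟩ := h
  refine ⟨ha, hb, ?_⟩
  ext y
  rw [h y, mem_maximalIdeal, mem_nonunits_iff]

theorem HI.regular_of_two {O : Subring F} [IsLocalRing O] [IsNoetherianRing O]
    (hd : ringKrullDim O = 2) {a b : O} (h : maximalIdeal O = Ideal.span {a, b}) :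
    IsRegularLocalRing O := by
  apply IsRegularLocalRing.of_spanFinrank_maximalIdeal_le
  rw [hd, h]
  have h9 := Submodule.spanFinrank_span_le_ncard_of_finite (R := O) (M := O)
    (s := {a, b}) (Set.toFinite _)
  have h10 : (Submodule.span O {a, b}).spanFinrank ≤ 2 := by
    refine h9.trans ((Set.ncard_insert_le _ _).trans ?_)
    rw [Set.ncard_singleton]
  have h11 : (((Submodule.span O {a, b}).spanFinrank : ℕ) : WithBot ℕ∞) ≤
    ((2 : ℕ) : WithBot ℕ∞) := by exact_mod_cast h10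
  exact h11

/-- HI1. A point whose maximal ideal has two generators is regular. -/
theorem loc2_of_param (hS : SurfN k x) {O : Subring F} (hO : O ∈ Points (charts k x)) {a b : F}
    (h : IsParam O a b) : Loc2 O := by
  obtain ⟨h1, h2, h3, h4⟩ := HI.point_local hS hO
  obtain ⟨ha, hb, h5⟩ := HI.param_span h
  exact loc2_of_regular (HI.regular_of_two h3 h5) h3 h4

/-- In a two dimensional regular local ring the second parameter does not divide the first. -/
theorem HI.not_dvd {O : Subring F} [IsLocalRing O] [IsNoetherianRing O]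
    (hd : ringKrullDim O = 2) {a b : O} (h : maximalIdeal O = Ideal.span {a, b}) : ¬ b ∣ a := by
  rintro ⟨c, hc⟩
  have hb : b ∈ maximalIdeal O := by rw [h]; exact Ideal.mem_span_pair.2 ⟨0, 1, by ring⟩
  apply not_pow_le hd b hb 1
  rw [pow_one, h, Ideal.span_le]
  rintro y (rfl | rfl)
  · exact Ideal.mem_span_singleton.2 ⟨c, hc⟩
  · exact Ideal.mem_span_singleton_self _

/-- A parameter is a prime element. -/
theorem HI.prime {O : Subring F} [IsLocalRing O] [IsNoetherianRing O]
    [UniqueFactorizationMonoid O]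
    (hd : ringKrullDim O = 2) {a b : O} (h : maximalIdeal O = Ideal.span {a, b}) : Prime b := by
  have hb : b ∈ maximalIdeal O := by rw [h]; exact Ideal.mem_span_pair.2 ⟨0, 1, by ring⟩
  have ha : a ∈ maximalIdeal O := by rw [h]; exact Ideal.mem_span_pair.2 ⟨1, 0, by ring⟩
  rw [← UniqueFactorizationMonoid.irreducible_iff_prime]
  refine ⟨mem_nonunits_iff.1 ((mem_maximalIdeal _).1 hb), ?_⟩
  intro u v huv
  by_contra hcon
  push Not at hcon
  have hu : u ∈ maximalIdeal O := (mem_maximalIdeal _).2 hcon.1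
  have hv : v ∈ maximalIdeal O := (mem_maximalIdeal _).2 hcon.2
  have hle : maximalIdeal O ≤ Ideal.span {a} ⊔ maximalIdeal O * maximalIdeal O := by
    conv_lhs => rw [h]
    rw [Ideal.span_le]
    rintro y (rfl | rfl)
    · exact Ideal.mem_sup_left (Ideal.mem_span_singleton_self _)
    · exact Ideal.mem_sup_right (by rw [huv]; exact Ideal.mul_mem_mul hu hv)
  have hfg : (maximalIdeal O).FG := IsNoetherian.noetherian _
  have h1 := Submodule.le_of_le_smul_of_le_jacobson_bot (I := maximalIdeal O)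
    (N := Ideal.span {a}) (N' := maximalIdeal O) hfg
    (by rw [IsLocalRing.jacobson_eq_maximalIdeal _ bot_ne_top]) hle
  apply not_pow_le hd a ha 1
  rwa [pow_one]

/-- HI2. There is exactly one curve through `O` on which the parameter `b` is zero, it is regular at
`O`, and `a` is a parameter of it. -/
theorem param_curve (hS : SurfN k x) {O : Subring F} (hO : O ∈ Points (charts k x)) {a b : F}
    (h : IsParam O a b) : ∃ V ∈ Curves (charts k x), (O : Set F) ⊆ V ∧ V.valuation b < 1 ∧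
      V.valuation a = 1 ∧ GoodAt O V ∧ len (curveLoc O V) (res V a) = 1 ∧
      ∀ V' ∈ Curves (charts k x), (O : Set F) ⊆ V' → V'.valuation b < 1 → V' = V := by
  have hL := loc2_of_param hS hO h
  obtain ⟨h1, h2, h3, h4⟩ := HI.point_local hS hO
  obtain ⟨ha, hb, h5⟩ := HI.param_span h
  have := hL.ufd
  have hp := HI.prime h3 h5
  have hndvd := HI.not_dvd h3 h5
  have hVO := locPrime_mem hL hp
  have hpV := locPrime_val_lt hL hp
  have hsep := sep_charts (k := k) hS.ne
  obtain ⟨hVC, hOV⟩ := (curves_point hsep hO _).2 hVO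
  have ha1 : (locPrime hL hp).valuation a = 1 :=
    (CurvesAt.unit_iff hVO hp hpV ⟨a, ha⟩).2 hndvd
  have hra : res (locPrime hL hp) a ≠ 0 := (res_ne_zero_iff (hOV ha)).2 ha1
  refine ⟨locPrime hL hp, hVC, hOV, hpV, ha1, ⟨hL, ?_⟩, ?_, ?_⟩
  · refine dvr_of_two_param hL hVO (w := ⟨a, ha⟩) hp hpV ?_ hndvd
    rw [h5, Set.pair_comm]
  · rw [len_curveLoc hL hVO hra]
    have h6 := lenAt_res hL hVO (a := ⟨a, ha⟩) ha1
    have h7 : lenO O (locPrime hL hp) ⟨a, ha⟩ = 1 := by
      unfold lenO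
      have h8 : ctr O (locPrime hL hp) ⊔ Ideal.span {(⟨a, ha⟩ : O)} = maximalIdeal O := by
        rw [ctr_eq hVO hp hpV, h5, ← Ideal.span_insert, Set.pair_comm]
      have h9 : IsSimpleModule O (O ⧸ maximalIdeal O) :=
        isSimpleModule_iff_isCoatom.2 (maximalIdeal.isMaximal O).out
      rw [h8, Module.length_eq_one]
      rfl
    exact h6.trans h7
  · intro V' hV' hOV' hbV'
    exact CurvesAt.unique ((curves_point hsep hO _).1 ⟨hV', hOV'⟩) hVO hp hbV' hpV

/-- HI3. On a curve through `O` a unit of `O` has length zero. -/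
theorem len_unit_pt {O : Subring F} (hO : O ∈ Points (charts k x))
    (hV : V ∈ Curves (charts k x)) (hOV : (O : Set F) ⊆ V) {u : F} (hu : u ∈ O) (hu' : u⁻¹ ∈ O)
    (hu0 : u ≠ 0) : len (curveLoc O V) (res V u) = 0 := by
  have h1 : V.valuation u = 1 := by
    have h2 := (ValuationSubring.valuation_le_one_iff V _).2 (hOV hu)
    have h3 := (ValuationSubring.valuation_le_one_iff V _).2 (hOV hu')
    refine le_antisymm h2 (not_lt.1 fun h4 => ?_)
    have h5 := mul_lt_one_of_lt_of_le h4 h3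
    rw [← map_mul, mul_inv_cancel₀ hu0, map_one] at h5
    exact lt_irrefl _ h5
  refine MP_b197b4_ntK.len_unit _ ?_ ?_
  · exact ⟨⟨u, hOV hu⟩, hu, by rw [res_of_mem (hOV hu)]⟩
  · rw [← res_inv h1]
    exact ⟨⟨u⁻¹, hOV hu'⟩, hu', by rw [res_of_mem (hOV hu')]⟩

/-- Units do not change the order by length. -/
theorem HI.len_mul {L : Type} [Field L] (B : Subring L) {u : L} (hu : u ∈ B) (hu' : u⁻¹ ∈ B)
    (hu0 : u ≠ 0) (c : L) : len B (c * u) = len B c := by
  have key : ∀ (v : L), v ∈ B → v⁻¹ ∈ B → v ≠ 0 → ∀ (c : L) (n : ℤ), HasLen B c n →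
      HasLen B (c * v) n := by
    rintro v hv hv' hv0 c n ⟨a, b, r, s, ha, hb, he, hr, hs, hn⟩
    refine ⟨a * ⟨v, hv⟩, b, r, s, mul_ne_zero ha hv0, hb, ?_, ?_, hs, hn⟩
    · rw [he]
      push_cast
      ring
    · rw [← hr]
      have h1 : Ideal.span {a * ⟨v, hv⟩} = (Ideal.span {a} : Ideal B) := by
        apply Ideal.span_singleton_mul_right_unit
        apply IsUnit.of_mul_eq_one (⟨v⁻¹, hv'⟩ : B)
        exact Subtype.ext (mul_inv_cancel₀ hv0)
      rw [h1]
  have h1 : (fun n => HasLen B (c * u) n) = fun n => HasLen B c n := by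
    funext n
    apply propext
    constructor
    · intro h
      have h2 := key u⁻¹ hu' (by rwa [inv_inv]) (inv_ne_zero hu0) _ _ h
      rwa [mul_assoc, mul_inv_cancel₀ hu0, mul_one] at h2
    · exact key u hu hu' hu0 c n
  unfold len
  have h2 : (∃ n, HasLen B (c * u) n) = ∃ n, HasLen B c n := congrArg (fun p => ∃ n, p n) h1
  by_cases h : ∃ n, HasLen B c n
  · have h' : ∃ n, HasLen B (c * u) n := by rw [h2]; exact h
    rw [dif_pos h, dif_pos h']
    congr 1
  · have h' : ¬ ∃ n, HasLen B (c * u) n := by rw [h2]; exact h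
    rw [dif_neg h, dif_neg h']

/-- HI4. `lenH` may be computed with any linear form which does not vanish at `O`. -/
theorem lenH_gen (hS : SurfN k x) {O : Subring F} (hO : O ∈ Points (charts k x))
    (hV : V ∈ Curves (charts k x)) (hOV : (O : Set F) ⊆ V) {w : F} (hw : Gen k x O w) {b : ℕ}
    {s : F} (hs : s ∈ hom k x b) (hs0 : s ≠ 0) (hv : vh x V b s = 0) :
    lenH x O V b s = len (curveLoc O V) (res V (s / w ^ b)) := by
  have hk : ∀ c : k, algebraMap k F c ∈ O := point_over hO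
  obtain ⟨i₀, hi₀⟩ := gen_of_point hS.ne hO
  have hex : ∃ i, ∀ j, x j / x i ∈ O := ⟨i₀, hi₀.le⟩
  have hi : ∀ j, x j / x (idxP x O) ∈ O := by
    unfold idxP
    rw [dif_pos hex]
    exact hex.choose_spec
  have hg : Gen k x O (x (idxP x O)) := ⟨x_mem_span x _, hS.ne _, hi⟩
  have hxi := hS.ne (idxP x O)
  have hu : w / x (idxP x O) ∈ O := hg.lin hk hw.mem
  have hu' : (w / x (idxP x O))⁻¹ ∈ O := by
    rw [inv_div]
    exact hw.le _
  have hu0 : w / x (idxP x O) ≠ 0 := div_ne_zero hw.ne hxi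
  have hub : (w / x (idxP x O)) ^ b ∈ O := pow_mem hu b
  have hub' : ((w / x (idxP x O)) ^ b)⁻¹ ∈ O := by
    rw [← inv_pow]
    exact pow_mem hu' b
  have hub0 := pow_ne_zero b hu0
  have hsw : s / w ^ b ∈ O := hw.div_mem hk hs
  have h1 : V.valuation ((w / x (idxP x O)) ^ b) = 1 := by
    have h2 := (ValuationSubring.valuation_le_one_iff V _).2 (hOV hub)
    have h3 := (ValuationSubring.valuation_le_one_iff V _).2 (hOV hub')
    refine le_antisymm h2 (not_lt.1 fun h4 => ?_)
    have h5 := mul_lt_one_of_lt_of_le h4 h3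
    rw [← map_mul, mul_inv_cancel₀ hub0, map_one] at h5
    exact lt_irrefl _ h5
  unfold lenH
  have e1 : s / x (idxP x O) ^ (b : ℤ) = s / w ^ b * (w / x (idxP x O)) ^ b := by
    rw [zpow_natCast, div_pow, div_mul_div_cancel₀ (pow_ne_zero b hw.ne)]
  rw [e1, res_mul (hOV hsw) (hOV hub)]
  refine HI.len_mul _ ?_ ?_ ((res_ne_zero_iff (hOV hub)).2 h1) _
  · exact ⟨⟨_, hOV hub⟩, hub, by rw [res_of_mem (hOV hub)]⟩
  · rw [← res_inv h1]
    exact ⟨⟨_, hOV hub'⟩, hub', by rw [res_of_mem (hOV hub')]⟩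

end Pool.Agent.Lib.MP_b197b4_ntK
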