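import Mathlib
import Pool.Agent.Lib.MP_b197b4_ntH.HE2
import Pool.Agent.Lib.MP_b197b4_ntH.HH
import Pool.Agent.Lib.MP_b197b4_ntH.HI

/-!
# MP_b197b4_nt, project K1, part KC: points of a member of the family
-/

set_option autoImplicit false

namespace Pool.Agent.Lib.MP_b197b4_ntK

open IsLocalRing Polynomial

open MPb197b4P (fib cut ev3 RegPt Spl Good Core)

variable {k F : Type} [Field k] [Field F] [Algebra k F] {n : ℕ} {x : Fin (n + 1) → F}
  {x0 x1 Y Z : F} {d : ℕ} {O₁ : Subring F} {c₁ : k} {f : k[X][X][X]} {r : ℕ}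
  {κ : k} {α γ : k[X]} {e : ℕ} {V : ValuationSubring F}
  {l : ∀ V : ValuationSubring F, ResidueField V → ℚ} {ν : ValuationSubring F → ℚ}

namespace HJ

/-- A linear form which does not vanish at `O` does not vanish on the curves through `O`. -/
theorem gen_of_le {O : Subring F} (h : Gen k x O x0) (hOV : (O : Set F) ⊆ V) :
    Gen k x V.toSubring x0 :=
  ⟨h.mem, h.ne, fun j => hOV (h.le j)⟩

/-- The multiplicity is the order of the quotient by a power of a generator. -/
theorem vh_gen (hx : ∀ i, x i ≠ 0) (hV : V ∈ Curves (charts k x))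
    (h : Gen k x V.toSubring x0) (b : ℕ) {s : F} (hs : s ≠ 0) :
    vh x V b (x0 ^ b * s) = ord V s := by
  have hk : Over k V := curve_over hV
  have hVd : IsDiscreteValuationRing V := by
    obtain ⟨A, _, hA⟩ := hV
    exact hA.1
  have h1 : ord V x0 = ord V (x (idx x V)) := by
    apply le_antisymm
    · have h2 : x (idx x V) / x0 ∈ V := h.le _
      rw [← ord_nonneg_iff hVd (div_ne_zero (hx _) h.ne), ord_div hVd (hx _) h.ne] at h2
      omega
    · have h2 : 0 ≤ vh x V ((1 : ℕ) : ℤ) x0 := vh_nonneg hVd hk hx (mem_hom_one.2 h.mem) h.ne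
      unfold vh at h2
      push_cast at h2
      omega
  unfold vh
  rw [ord_mul hVd (pow_ne_zero _ h.ne) hs, ord_pow hVd h.ne, h1]
  ring

/-- A function of `O` which is zero at `O` has no inverse in `O`. -/
theorem inMax_of_inv {O : Subring F} {u : F} (hu : u ∈ O) (h : u ≠ 0 → u⁻¹ ∉ O) :
    InMax O u := by
  refine ⟨hu, fun v hv h1 => ?_⟩
  have hu0 : u ≠ 0 := left_ne_zero_of_mul_eq_one h1
  apply h hu0
  rw [← eq_inv_of_mul_eq_one_right h1]
  exact hv

theorem inMax_of_val {O : Subring F} (hOV : (O : Set F) ⊆ V) {u : F} (hu : u ∈ O)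
    (h : V.valuation u < 1) : InMax O u := by
  refine inMax_of_inv hu fun hu0 hu' => ?_
  have h1 := (V.valuation_le_one_iff _).2 (hOV hu')
  have h2 : V.valuation u * V.valuation u⁻¹ = 1 := by
    rw [← map_mul, mul_inv_cancel₀ hu0, map_one]
  have h3 : V.valuation u * V.valuation u⁻¹ < 1 :=
    lt_of_le_of_lt (mul_le_of_le_one_right' h1) h
  exact h3.ne h2

theorem ev_yform (X y z : F) (γ : k[X]) :
    ev X y z (C (Polynomial.X - C γ)) = y - aeval X γ := by
  rw [ev_C, map_sub, ev2_X, ev2_C]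

theorem ev_tform (X y z : F) (κ : k) (α : k[X]) :
    ev X y z (Polynomial.X - C (C (C κ) * Polynomial.X + C α)) =
      z - algebraMap k F κ * y - aeval X α := by
  have h := (ev (k := k) X y z).map_sub Polynomial.X (C (C (C κ) * Polynomial.X + C α))
  have h2 : ev2 X y (C (C κ) * Polynomial.X + C α) = algebraMap k F κ * y + aeval X α := by
    rw [RingHom.map_add, RingHom.map_mul, ev2_X, ev2_C, ev2_C, aeval_C]
  rw [ev_X, ev_C, h2] at h
  rw [h]
  ring

theorem ev3_yform (γ : k[X]) (a b c : k) :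
    ev3 (C (Polynomial.X - C γ)) a b c = b - γ.eval a := by
  simp [ev3]

theorem ev3_tform (κ : k) (α : k[X]) (a b c : k) :
    ev3 (Polynomial.X - C (C (C κ) * Polynomial.X + C α)) a b c = c - (κ * b + α.eval a) := by
  simp [ev3]

theorem fib_tform (κ : k) (α : k[X]) :
    fib (Polynomial.X - C (C (C κ) * Polynomial.X + C α)) κ α = 0 := by
  simp [fib]

end HJ

/-- HJ1. A split point is on the curve of the member, a good point of it, and the section has
order one there. PROOF: `param_curve` (with `b = w`), `IsFib.uni`, `lenH_gen` with the linear form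
`x0`: `yform / x0 ^ e = y - γ(X)`. -/
theorem split_on [IsAlgClosed k] (hS : SurfN k x) (hC : Coord k x x0 x1 Y Z d O₁ c₁)
    (hV : IsFib k x x0 x1 Y Z d f κ α V) (hde : d < e) (hγ : γ.natDegree ≤ e)
    {O : Subring F} (hO : O ∈ Points (charts k x)) (hO0 : Gen k x O x0)
    (hpar : IsParam O (Y / x0 ^ d - aeval (x1 / x0) γ)
      (Z / x0 ^ d - algebraMap k F κ * (Y / x0 ^ d) - aeval (x1 / x0) α)) :
    (O : Set F) ⊆ V ∧ GoodAt O V ∧ vh x V e (yform k x0 x1 Y d e γ) = 0 ∧
      lenH x O V e (yform k x0 x1 Y d e γ) = 1 := by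
  obtain ⟨V', hV', hOV, hb, ha, hg, hlen, -⟩ := param_curve hS hO hpar
  have h1 : V' = V := hV.uni V' hV' (HJ.gen_of_le hO0 hOV) hb
  subst h1
  have hVd : IsDiscreteValuationRing V' := by
    obtain ⟨A, _, hA⟩ := hV'
    exact hA.1
  have ha0 : Y / x0 ^ d - aeval (x1 / x0) γ ≠ 0 := by
    intro h
    rw [h, map_zero] at ha
    exact zero_ne_one ha
  have hv : vh x V' e (yform k x0 x1 Y d e γ) = 0 := by
    unfold yform
    rw [HJ.vh_gen hS.ne hV' hV.gen e ha0]
    exact (ord_eq_zero_iff hVd ha0).2 ha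
  refine ⟨hOV, hg, hv, ?_⟩
  have hs0 : yform k x0 x1 Y d e γ ≠ 0 := mul_ne_zero (pow_ne_zero _ hC.ne) ha0
  rw [lenH_gen hS hO hV' hOV hO0 (yform_mem hC.h0 hC.h1 hC.hY hC.ne hde.le hγ) hs0 hv]
  have h2 : yform k x0 x1 Y d e γ / x0 ^ e = Y / x0 ^ d - aeval (x1 / x0) γ :=
    mul_div_cancel_left₀ _ (pow_ne_zero _ hC.ne)
  rw [h2]
  exact hlen

/-- HJ2. A point of `V` in the chart at which the section is zero is a split point. -/
theorem zero_split [IsAlgClosed k] (hS : SurfN k x) (hC : Coord k x x0 x1 Y Z d O₁ c₁)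
    (hE : Eqn k x x0 x1 Y Z d f r) (hV : IsFib k x x0 x1 Y Z d f κ α V) {O : Subring F}
    (hO : O ∈ Points (charts k x)) (hO0 : Gen k x O x0) (hOV : (O : Set F) ⊆ V)
    (hz : ¬ NotZero x O e (yform k x0 x1 Y d e γ)) :
    ∃ a, (cut f κ α γ).eval a = 0 ∧
      HasCoord k x x0 x1 Y Z d O a (γ.eval a) (α.eval a + κ * γ.eval a) := by
  obtain ⟨a, b, c, hco, hf⟩ := exists_coords hS hC hE hO hO0
  -- the section
  have h1 := ev_unit hco (C (Polynomial.X - C γ))
  rw [HJ.ev_yform, HJ.ev3_yform] at h1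
  have hb : b = γ.eval a := by
    refine sub_eq_zero.1 (h1.2.1 (HJ.inMax_of_inv h1.1 fun hu hu' => hz ?_))
    refine ⟨mul_ne_zero (pow_ne_zero _ hC.ne) hu, x0, hC.ne, hO0.le, ?_⟩
    have h2 : yform k x0 x1 Y d e γ / x0 ^ e = Y / x0 ^ d - aeval (x1 / x0) γ :=
      mul_div_cancel_left₀ _ (pow_ne_zero _ hC.ne)
    rw [h2]
    exact hu'
  -- the member
  have h3 := ev_unit hco (Polynomial.X - C (C (C κ) * Polynomial.X + C α))
  have h4 : V.valuation (ev (x1 / x0) (Y / x0 ^ d) (Z / x0 ^ d)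
      (Polynomial.X - C (C (C κ) * Polynomial.X + C α))) < 1 := by
    rw [hV.lt, HJ.fib_tform]
    exact dvd_zero _
  have hc : c = α.eval a + κ * b := by
    have h5 := h3.2.1 (HJ.inMax_of_val hOV h3.1 h4)
    rw [HJ.ev3_tform] at h5
    linear_combination h5
  subst hb
  subst hc
  refine ⟨a, ?_, hco⟩
  rw [cut_eval]
  exact hf

end Pool.Agent.Lib.MP_b197b4_ntK
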