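import Mathlib
import Pool.Agent.Lib.MP_b197b4_ntH.HJ

/-!
# MP_b197b4_nt, project K1, part KC: the form of a special member
-/

set_option autoImplicit false

namespace Pool.Agent.Lib.MP_b197b4_ntK

open IsLocalRing Polynomial

open MPb197b4P (fib cut ev3 RegPt Spl Good Core)

variable {k F : Type} [Field k] [Field F] [Algebra k F] {n : ℕ} {x : Fin (n + 1) → F}
  {x0 x1 Y Z : F} {d : ℕ} {O₁ : Subring F} {c₁ : k} {f : k[X][X][X]} {r : ℕ}
  {κ : k} {α γ : k[X]} {e : ℕ} {V : ValuationSubring F}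
  {l : ∀ V : ValuationSubring F, ResidueField V → ℚ} {ν : ValuationSubring F → ℚ}

open Classical in
/-- a point with the coordinates `(a, b, c)` -/
noncomputable def ptAt (k : Type) {F : Type} [Field k] [Field F] [Algebra k F] {n : ℕ}
    (x : Fin (n + 1) → F) (x0 x1 Y Z : F) (d : ℕ) (a b c : k) : Subring F :=
  if h : ∃ O, HasCoord k x x0 x1 Y Z d O a b c then h.choose else ⊥

theorem HM_notZero {O : Subring F} (hO : O ∈ Points (charts k x)) {w s : F} {b : ℕ}
    (hw : Gen k x O w) (h : NotZero x O b s) : (s / w ^ b)⁻¹ ∈ O := by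
  obtain ⟨hs, w', hw', hle, hinv⟩ := h
  have h1 : w / w' ∈ O := lin_of_le (point_over hO) hle hw.mem
  have h2 : (s / w ^ b)⁻¹ = (s / w' ^ b)⁻¹ * (w / w') ^ b := by
    rw [inv_div, inv_div, div_pow, div_mul_div_comm, mul_comm s, mul_div_mul_left]
    exact pow_ne_zero _ hw'
  rw [h2]
  exact O.mul_mem hinv (O.pow_mem h1 b)

theorem HM_gen {O : Subring F} {w : F} (hw : w ∈ hom k x 1) (hw0 : w ≠ 0)
    (h : NotZero x O 1 w) : Gen k x O w := by
  obtain ⟨_, w', hw', hle, hinv⟩ := h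
  refine ⟨mem_hom_one.1 hw, hw0, fun j => ?_⟩
  have h1 := O.mul_mem (hle j) hinv
  have h2 : x j / w' * (w / w' ^ 1)⁻¹ = x j / w := by
    rw [pow_one]
    field_simp
  rwa [h2] at h1

theorem HM_vh (hS : SurfN k x) {O : Subring F} (hV : V ∈ Curves (charts k x))
    (hOV : (O : Set F) ⊆ V) {t : F} {b : ℕ} (h : NotZero x O b t) (h1 : 1 ≤ vh x V b t) :
    False := by
  obtain ⟨ht, w', hw', hle, hinv⟩ := h
  have hd := disc_of_curves hV
  have hx := hS.ne
  have h2 : 0 ≤ ord V (x (idx x V) / w') :=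
    (ord_nonneg_iff hd (div_ne_zero (hx _) hw')).2 (hOV (hle _))
  rw [ord_div hd (hx _) hw'] at h2
  have h3 : 0 ≤ ord V ((t / w' ^ b)⁻¹) :=
    (ord_nonneg_iff hd (inv_ne_zero (div_ne_zero ht (pow_ne_zero _ hw')))).2 (hOV hinv)
  rw [ord_inv hd (div_ne_zero ht (pow_ne_zero _ hw')), ord_div hd ht (pow_ne_zero _ hw'),
    ord_pow hd hw'] at h3
  unfold vh at h1
  have h4 : (0 : ℤ) ≤ (b : ℤ) * (ord V (x (idx x V)) - ord V w') :=
    mul_nonneg (Int.natCast_nonneg b) h2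
  rw [mul_sub] at h4
  omega

theorem HM_inj {O : Subring F} {a b c a' b' c' : k} (h : HasCoord k x x0 x1 Y Z d O a b c)
    (h' : HasCoord k x x0 x1 Y Z d O a' b' c') : a = a' := by
  have h1 := ev_unit h (C (C (Polynomial.X - C a)))
  have h2 := ev_unit h' (C (C (Polynomial.X - C a)))
  have h3 : ev3 (C (C (Polynomial.X - C a))) a b c = 0 := by
    simp [ev3]
  have h4 := h2.2.1 (h1.2.2 h3)
  have h5 : ev3 (C (C (Polynomial.X - C a))) a' b' c' = a' - a := by
    simp [ev3]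
  rw [h5] at h4
  exact (sub_eq_zero.1 h4).symm

theorem HM_lenH (hS : SurfN k x) {O : Subring F} (hO : O ∈ Points (charts k x))
    (hV : V ∈ Curves (charts k x)) (hOV : (O : Set F) ⊆ V) {s : F} {b : ℕ}
    (hs : s ∈ hom k x b) (hv : vh x V b s = 0) (h : NotZero x O b s) : lenH x O V b s = 0 := by
  obtain ⟨i, hi⟩ := gen_of_point hS.ne hO
  rw [lenH_gen hS hO hV hOV hi hs h.1 hv]
  exact len_unit_pt hO hV hOV (hi.div_mem (point_over hO) hs) (HM_notZero hO hi h)
    (div_ne_zero h.1 (pow_ne_zero _ hi.ne))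

open Classical in
/-- HM. PROOF: `Rep` for `s = yform e γ`; its zeros on `V` are the split points (`yform_pt_inf`,
`zero_split`), these are good points (`split_on`) and the orders are one. -/
theorem lam_special [IsAlgClosed k] (hS : SurfN k x) (hC : Coord k x x0 x1 Y Z d O₁ c₁)
    (hE : Eqn k x x0 x1 Y Z d f r) (hV : IsFib k x x0 x1 Y Z d f κ 0 V)
    (hp : PrimeForm k x d (Z - algebraMap k F κ * Y) V)
    (hnoz : ∀ O ∈ Points (charts k x), NotZero x O 1 x0 ∨ NotZero x O 1 x1 ∨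
      NotZero x O d (Z - algebraMap k F κ * Y))
    {g : Subring F → ℚ} (hg : Rep k x l ν V g) (hde : d < e)
    (hs : Spl f e (r * e) κ 0 γ) :
    Lam x l ν V (yform k x0 x1 Y d e γ) e =
      ∑ a ∈ (cut f κ 0 γ).roots.toFinset,
        g (ptAt k x x0 x1 Y Z d a (γ.eval a) (κ * γ.eval a)) := by
  have hd1 : 1 ≤ d := le_trans (by norm_num) hC.two
  have hde' : d ≤ e := hde.le
  have hVc := hV.cur
  set s := yform k x0 x1 Y d e γ with hsdef
  have hcoeff : γ.coeff e ≠ 0 := spl_coeff hE.deg hE.one hd1 hE.wt hde hs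
  have hmem : s ∈ hom k x e := yform_mem hC.h0 hC.h1 hC.hY hC.ne hde' hs.deg
  have hs0 : s ≠ 0 := by
    rw [hsdef]
    unfold yform
    refine mul_ne_zero (pow_ne_zero _ hC.ne) ?_
    intro h0
    have h1 : ev2 (k := k) (x1 / x0) (Y / x0 ^ d) (Polynomial.X - C γ) = 0 := by
      rw [map_sub, ev2_X, ev2_C, h0]
    exact Polynomial.X_sub_C_ne_zero γ (hE.ker2 _ h1)
  -- the split points
  have hroot : ∀ a, (cut f κ 0 γ).eval a = 0 → (derivative (cut f κ 0 γ)).eval a ≠ 0 := by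
    intro a ha
    exact hs.sep.eval₂_derivative_ne_zero (RingHom.id k) (by simpa using ha)
  have hpt : ∀ a, (cut f κ 0 γ).eval a = 0 →
      ∃ O, HasCoord k x x0 x1 Y Z d O a (γ.eval a) (κ * γ.eval a) ∧
        ((O : Set F) ⊆ V ∧ GoodAt O V ∧ vh x V e s = 0 ∧ lenH x O V e s = 1) ∧
        ∀ O', HasCoord k x x0 x1 Y Z d O' a (γ.eval a) (κ * γ.eval a) → O' = O := by
    intro a ha
    obtain ⟨O, h1, h2, h3⟩ := split_point hS hC hE κ 0 γ ha (hroot a ha)
    rw [eval_zero, zero_add] at h1 h3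
    exact ⟨O, h1, split_on hS hC hV hde hs.deg h1.pt h1.gen h2, h3⟩
  have hat : ∀ a, (cut f κ 0 γ).eval a = 0 →
      HasCoord k x x0 x1 Y Z d (ptAt k x x0 x1 Y Z d a (γ.eval a) (κ * γ.eval a)) a (γ.eval a)
        (κ * γ.eval a) := by
    intro a ha
    obtain ⟨O, h1, -, -⟩ := hpt a ha
    have h2 : ∃ O, HasCoord k x x0 x1 Y Z d O a (γ.eval a) (κ * γ.eval a) := ⟨O, h1⟩
    unfold ptAt
    rw [dif_pos h2]
    exact h2.choose_spec
  have hon : ∀ a, (cut f κ 0 γ).eval a = 0 → ∀ O,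
      HasCoord k x x0 x1 Y Z d O a (γ.eval a) (κ * γ.eval a) →
        (O : Set F) ⊆ V ∧ GoodAt O V ∧ vh x V e s = 0 ∧ lenH x O V e s = 1 := by
    intro a ha O hO
    obtain ⟨O', -, h2, h3⟩ := hpt a ha
    rw [h3 O hO]
    exact h2
  have hcne : cut f κ 0 γ ≠ 0 := hs.sep.ne_zero
  -- there is a split point
  have hvh : vh x V e s = 0 := by
    have hdeg : (cut f κ 0 γ).degree ≠ 0 := by
      rw [degree_eq_natDegree hcne, hs.num]
      have h1 : 0 < r * e := Nat.mul_pos hE.one (lt_of_le_of_lt (Nat.zero_le _) hde)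
      exact_mod_cast h1.ne'
    obtain ⟨a, ha⟩ := IsAlgClosed.exists_root _ hdeg
    obtain ⟨O, -, h2, -⟩ := hpt a ha
    exact h2.2.2.1
  -- the zeros are split points
  have hzero : ∀ O ∈ Points (charts k x), (O : Set F) ⊆ V → ¬ NotZero x O e s →
      ∃ a, (cut f κ 0 γ).eval a = 0 ∧
        HasCoord k x x0 x1 Y Z d O a (γ.eval a) (κ * γ.eval a) := by
    intro O hO hOV hz
    have hgen : Gen k x O x0 := by
      by_contra hg0
      rcases hnoz O hO with h | h | h
      · exact hg0 (HM_gen hC.h0 hC.ne h)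
      · exact hz (yform_pt_inf hS hC hO hde hs.deg hcoeff hg0 h)
      · exact HM_vh hS hVc hOV h hp.one.ge
    obtain ⟨a, h1, h2⟩ := zero_split hS hC hE hV hO hgen hOV hz
    rw [eval_zero, zero_add] at h2
    exact ⟨a, h1, h2⟩
  have hreg : RegZeros k x V e s := by
    intro O hO hOV w hw hinv
    have hz : ¬ NotZero x O e s := fun h => hinv (HM_notZero hO hw h)
    obtain ⟨a, ha, h1⟩ := hzero O hO hOV hz
    exact (hon a ha O h1).2.1
  rw [hg e s hmem hs0 hvh hreg]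
  have hmr : ∀ a, a ∈ (cut f κ 0 γ).roots.toFinset ↔ (cut f κ 0 γ).eval a = 0 := by
    intro a
    rw [Multiset.mem_toFinset, mem_roots hcne, IsRoot.def]
  have hinj : Set.InjOn (fun a => ptAt k x x0 x1 Y Z d a (γ.eval a) (κ * γ.eval a))
      ((cut f κ 0 γ).roots.toFinset : Set k) := by
    intro a ha b hb hab
    have ha' := hat a ((hmr a).1 (Finset.mem_coe.1 ha))
    have hb' := hat b ((hmr b).1 (Finset.mem_coe.1 hb))
    have hab' : ptAt k x x0 x1 Y Z d a (γ.eval a) (κ * γ.eval a) =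
      ptAt k x x0 x1 Y Z d b (γ.eval b) (κ * γ.eval b) := hab
    rw [← hab'] at hb'
    exact HM_inj ha' hb'
  have hsum : ∑ᶠ (O) (_ : O ∈ Points (charts k x) ∧ (O : Set F) ⊆ V),
        g O * (lenH x O V e s : ℚ) =
      ∑ O ∈ (cut f κ 0 γ).roots.toFinset.image
        (fun a => ptAt k x x0 x1 Y Z d a (γ.eval a) (κ * γ.eval a)),
          g O * (lenH x O V e s : ℚ) := by
    refine finsum_mem_eq_sum_of_inter_support_eq (s := {O : Subring F |
      O ∈ Points (charts k x) ∧ (O : Set F) ⊆ V}) _ ?_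
    ext O
    constructor
    · rintro ⟨⟨hO, hOV⟩, hsup⟩
      refine ⟨?_, hsup⟩
      have hz : ¬ NotZero x O e s := by
        intro h
        apply hsup
        show g O * (lenH x O V e s : ℚ) = 0
        rw [HM_lenH hS hO hVc hOV hmem hvh h, Int.cast_zero, mul_zero]
      obtain ⟨a, ha, h1⟩ := hzero O hO hOV hz
      obtain ⟨O', -, -, h3⟩ := hpt a ha
      rw [Finset.mem_coe, Finset.mem_image]
      exact ⟨a, (hmr a).2 ha, (h3 _ (hat a ha)).trans (h3 O h1).symm⟩
    · rintro ⟨hO, hsup⟩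
      refine ⟨?_, hsup⟩
      rw [Finset.mem_coe, Finset.mem_image] at hO
      obtain ⟨a, ha, rfl⟩ := hO
      have ha' := (hmr a).1 ha
      exact ⟨(hat a ha').pt, (hon a ha' _ (hat a ha')).1⟩
  rw [hsum, Finset.sum_image hinj]
  refine Finset.sum_congr rfl fun a ha => ?_
  have ha' := (hmr a).1 ha
  rw [(hon a ha' _ (hat a ha')).2.2.2, Int.cast_one, mul_one]

end Pool.Agent.Lib.MP_b197b4_ntK
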