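import Mathlib

/-!
# MP_b197b4_nt, project K1: functions on a plane curve

`h` is the equation of a plane curve with field of functions `K`.  A product of powers of
`y - γ(x)` without zeros and poles is constant.  Hence the logarithm `l (y - γ(x))` of an additive
form `l` is given by a function on the points of the curve.
-/

set_option autoImplicit false
set_option linter.style.haveILetI false

namespace Pool.Agent.Lib.MP_b197b4_ntH

open Polynomial

section Val

variable {k K : Type} [Field k] [Field K] [Algebra k K]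

/-- The constants in a valuation ring. -/
noncomputable def kap (W : ValuationSubring K) (hW : ∀ c : k, algebraMap k K c ∈ W) : k →+* W where
  toFun c := ⟨algebraMap k K c, hW c⟩
  map_one' := Subtype.ext (map_one _)
  map_mul' a b := Subtype.ext (map_mul _ a b)
  map_zero' := Subtype.ext (map_zero _)
  map_add' a b := Subtype.ext (map_add _ a b)

theorem coe_kap (W : ValuationSubring K) (hW : ∀ c : k, algebraMap k K c ∈ W) (c : k) :
    (kap W hW c : K) = algebraMap k K c := rfl

theorem coe_psi (W : ValuationSubring K) (hW : ∀ c : k, algebraMap k K c ∈ W) (t : W) (p : k[X]) :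
    ((eval₂RingHom (kap W hW) t p : W) : K) = aeval (t : K) p := by
  rw [coe_eval₂RingHom, aeval_def]
  have h := Polynomial.hom_eval₂ p (kap W hW) W.subtype t
  change W.subtype (eval₂ (kap W hW) t p) = _
  rw [h]
  rfl

theorem val_const (W : ValuationSubring K) (hW : ∀ c : k, algebraMap k K c ∈ W) {c : k}
    (hc : c ≠ 0) : W.valuation (algebraMap k K c) = 1 := by
  have h1 := (ValuationSubring.valuation_le_one_iff W _).2 (hW c)
  have h2 := (ValuationSubring.valuation_le_one_iff W _).2 (hW c⁻¹)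
  rw [map_inv₀, map_inv₀] at h2
  have h0 : W.valuation (algebraMap k K c) ≠ 0 := by
    rw [Ne, map_eq_zero, map_eq_zero]
    exact hc
  exact le_antisymm h1 ((inv_le_one₀ (zero_lt_iff.2 h0)).1 h2)

/-- A root of a polynomial with coefficients in `W` and invertible leading coefficient. -/
theorem mem_of_root (W : ValuationSubring K) {H : W[X]} {y : K} (hy : aeval y H = 0)
    (hH : W.valuation (H.leadingCoeff : K) = 1) : y ∈ W := by
  have h1 := isIntegral_leadingCoeff_smul H y hy
  have h2 : ((H.leadingCoeff : K) * y) ∈ W := by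
    have h3 : H.leadingCoeff • y = (H.leadingCoeff : K) * y := rfl
    rw [h3] at h1
    obtain ⟨z, hz⟩ := IsIntegrallyClosed.isIntegral_iff.1 h1
    rw [← hz]
    exact z.2
  rw [← ValuationSubring.valuation_le_one_iff] at h2 ⊢
  rwa [map_mul, hH, one_mul] at h2

theorem eval_eval' (h : k[X][X]) (γ : k[X]) (a : k) :
    (h.eval γ).eval a = (h.map (evalRingHom a)).eval (γ.eval a) := by
  have := Polynomial.hom_eval₂ h (RingHom.id _) (evalRingHom a) γ
  rw [RingHom.comp_id] at this
  rw [eval_map]
  exact this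

/-- `p (X') - p (a)` is divisible by `X' - a`. -/
theorem dvd_psi (W : ValuationSubring K) (hW : ∀ c : k, algebraMap k K c ∈ W) (t : W) (p : k[X])
    (a : k) : t - kap W hW a ∣ eval₂RingHom (kap W hW) t p - kap W hW (p.eval a) := by
  have h1 : X - C a ∣ p - C (p.eval a) := by
    rw [dvd_iff_isRoot]
    simp
  obtain ⟨q, hq⟩ := h1
  refine ⟨eval₂RingHom (kap W hW) t q, ?_⟩
  have h2 := congrArg (eval₂RingHom (kap W hW) t) hq
  rw [map_mul, map_sub, map_sub] at h2
  simpa using h2

theorem psi_eval (W : ValuationSubring K) (hW : ∀ c : k, algebraMap k K c ∈ W) (t : W)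
    (h : k[X][X]) (γ : k[X]) :
    eval₂RingHom (kap W hW) t (h.eval γ) =
      (h.map (eval₂RingHom (kap W hW) t)).eval (eval₂RingHom (kap W hW) t γ) := by
  have := Polynomial.hom_eval₂ h (RingHom.id _) (eval₂RingHom (kap W hW) t) γ
  rw [RingHom.comp_id] at this
  rw [eval_map]
  exact this

end Val

section Main

variable {k K : Type} [Field k] [Field K] [Algebra k K] {X' y' : K}
  {h : k[X][X]} {r e : ℕ}

/-- The hypotheses on the curve. -/
structure Curve (X' y' : K) (h : k[X][X]) (r e : ℕ) : Prop where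
  ker : ∀ g : k[X][X], eval₂ (aeval X' : k[X] →ₐ[k] K).toRingHom y' g = 0 ↔ h ∣ g
  deg : h.natDegree = r
  one : 1 ≤ r
  pos : 1 ≤ e
  wt : ∀ i, h.coeff i ≠ 0 → (h.coeff i).natDegree + e * i ≤ e * r

/-- The lines which meet the curve in `r e` different points. -/
structure Sp (h : k[X][X]) (r e : ℕ) (γ : k[X]) : Prop where
  le : γ.natDegree ≤ e
  deg : (h.eval γ).natDegree = r * e
  sep : (h.eval γ).Separable

theorem Curve.ne (H : Curve X' y' h r e) : h ≠ 0 := by
  rintro rfl
  have h1 := H.deg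
  have h2 := H.one
  simp at h1
  omega

/-- The leading coefficient is constant. -/
theorem Curve.lead (H : Curve X' y' h r e) : ∃ c : k, c ≠ 0 ∧ h.leadingCoeff = C c := by
  have h0 : h.coeff r ≠ 0 := by
    rw [← H.deg, coeff_natDegree]
    exact leadingCoeff_ne_zero.2 H.ne
  have h1 := H.wt r h0
  have h2 : (h.coeff r).natDegree = 0 := by omega
  obtain ⟨c, hc⟩ := natDegree_eq_zero.1 h2
  refine ⟨c, ?_, ?_⟩
  · rintro rfl
    rw [C_0] at hc
    exact h0 hc.symm
  · rw [leadingCoeff, H.deg, ← hc]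

theorem Curve.trans (H : Curve X' y' h r e) {p : k[X]} (hp : aeval X' p = 0) : p = 0 := by
  by_contra hne
  have h1 : h ∣ C p := by
    rw [← H.ker, eval₂_C]
    exact hp
  have h2 : (C p : k[X][X]) ≠ 0 := by simpa using hne
  have h3 := natDegree_le_of_dvd h1 h2
  rw [natDegree_C, H.deg] at h3
  have := H.one
  omega

/-- Substitution. -/
theorem eval₂_sub (γ : k[X]) :
    eval₂ (aeval X' : k[X] →ₐ[k] K).toRingHom (aeval X' γ) h = aeval X' (h.eval γ) := by
  have := Polynomial.hom_eval₂ h (RingHom.id _) (aeval X' : k[X] →ₐ[k] K).toRingHom γ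
  rw [RingHom.comp_id] at this
  exact this.symm

theorem Curve.z_ne (H : Curve X' y' h r e) {γ : k[X]} (hγ : Sp h r e γ) :
    y' - aeval X' γ ≠ 0 := by
  intro h0
  rw [sub_eq_zero] at h0
  have h1 : eval₂ (aeval X' : k[X] →ₐ[k] K).toRingHom y' h = 0 := (H.ker h).2 dvd_rfl
  rw [h0, eval₂_sub] at h1
  have h2 := H.trans h1
  have h3 := hγ.deg
  rw [h2, natDegree_zero] at h3
  have h4 := H.one
  have h5 := H.pos
  have : 0 < r * e := by positivity
  omega

variable (W : ValuationSubring K) (hW : ∀ c : k, algebraMap k K c ∈ W)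

include hW in
/-- `y'` is integral at a finite place. -/
theorem Curve.y_mem (H : Curve X' y' h r e) (hX : X' ∈ W) : y' ∈ W := by
  obtain ⟨c, hc, hlc⟩ := H.lead
  let ψ : k[X] →+* W := eval₂RingHom (kap W hW) ⟨X', hX⟩
  have hψ : ∀ p, ((ψ p : W) : K) = aeval X' p := fun p => coe_psi W hW ⟨X', hX⟩ p
  have hψc : ψ (C c) = kap W hW c := by simp [ψ]
  have hne : ψ h.leadingCoeff ≠ 0 := by
    rw [hlc, hψc]
    intro h0
    have h1 := congrArg (Subtype.val : W → K) h0
    rw [coe_kap] at h1
    have h2 : algebraMap k K c = 0 := h1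
    rw [map_eq_zero] at h2
    exact hc h2
  have hlead : (h.map ψ).leadingCoeff = ψ h.leadingCoeff := leadingCoeff_map_of_leadingCoeff_ne_zero ψ hne
  refine mem_of_root W (H := h.map ψ) (y := y') ?_ ?_
  · rw [aeval_def, eval₂_map]
    have h1 : (algebraMap W K).comp ψ = (aeval X' : k[X] →ₐ[k] K).toRingHom :=
      RingHom.ext fun p => hψ p
    rw [h1]
    exact (H.ker h).2 dvd_rfl
  · rw [hlead, hlc, hψc, coe_kap]
    exact val_const W hW hc

include hW in
/-- The place at infinity: all functions `y - γ(x)` have the same order. -/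
theorem Curve.infinite (H : Curve X' y' h r e) (hX : X' ∉ W) {γ : k[X]} (hγ : Sp h r e γ) :
    W.valuation (y' - aeval X' γ) = W.valuation X' ^ e := by
  obtain ⟨c, hc, hlc⟩ := H.lead
  have hX1 : 1 < W.valuation X' := by
    rw [← not_le, ValuationSubring.valuation_le_one_iff]
    exact hX
  have hX0 : X' ≠ 0 := by
    rintro rfl
    exact hX (zero_mem _)
  have hT : X'⁻¹ ∈ W := by
    rw [← ValuationSubring.valuation_le_one_iff, map_inv₀]
    exact inv_le_one_of_one_le₀ hX1.le
  have hT1 : W.valuation X'⁻¹ < 1 := by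
    rw [map_inv₀]
    exact inv_lt_one_of_one_lt₀ hX1
  let T : W := ⟨X'⁻¹, hT⟩
  -- reversed polynomials
  let ψ : k[X] →+* W := eval₂RingHom (kap W hW) T
  have hψ : ∀ p, ((ψ p : W) : K) = aeval X'⁻¹ p := fun p => coe_psi W hW T p
  have hrev : ∀ (N : ℕ) (p : k[X]), p.natDegree ≤ N →
      aeval X'⁻¹ (p.reflect N) = aeval X' p / X' ^ N := by
    intro N p hp
    letI := invertibleOfNonzero hX0
    have h1 := eval₂_reflect_mul_pow (algebraMap k K) X' N p hp
    rw [invOf_eq_inv] at h1
    rw [aeval_def, aeval_def, eq_div_iff (pow_ne_zero _ hX0)]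
    exact h1
  have hcoef : ∀ (N : ℕ) (p : k[X]), p.natDegree ≤ N →
      T ∣ ψ (p.reflect N) - kap W hW (p.coeff N) := by
    intro N p hp
    have h1 := dvd_psi W hW T (p.reflect N) 0
    rw [map_zero, sub_zero] at h1
    have h2 : (p.reflect N).eval 0 = p.coeff N := by
      rw [← coeff_zero_eq_eval_zero, coeff_reflect, revAt_le (Nat.zero_le N), Nat.sub_zero]
    rw [h2] at h1
    exact h1
  -- the polynomial at infinity
  let G : W[X] := ∑ i ∈ Finset.range (r + 1), C (ψ ((h.coeff i).reflect (e * (r - i)))) * X ^ i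
  have hGc : ∀ i, i ≤ r → G.coeff i = ψ ((h.coeff i).reflect (e * (r - i))) := by
    intro i hi
    simp only [G, finsetSum_coeff, coeff_C_mul, coeff_X_pow]
    rw [Finset.sum_eq_single i]
    · simp
    · intro j _ hj
      rw [if_neg hj.symm, mul_zero]
    · intro hi'
      exact absurd (Finset.mem_range.2 (by omega)) hi'
  have hdeg : ∀ i, i ≤ r → (h.coeff i).natDegree ≤ e * (r - i) := by
    intro i hi
    by_cases h0 : h.coeff i = 0
    · rw [h0, natDegree_zero]
      exact Nat.zero_le _
    · have h1 := H.wt i h0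
      rw [Nat.mul_sub]
      omega
  have hGeval : ∀ (t : W) (s : K), (t : K) = s / X' ^ e →
      ((G.eval t : W) : K) =
        eval₂ (aeval X' : k[X] →ₐ[k] K).toRingHom s h / X' ^ (e * r) := by
    intro t s hts
    have h1 : eval₂ (aeval X' : k[X] →ₐ[k] K).toRingHom s h =
        ∑ i ∈ Finset.range (r + 1), aeval X' (h.coeff i) * s ^ i := by
      rw [eval₂_eq_sum_range, H.deg]
      rfl
    rw [h1, Finset.sum_div]
    simp only [G, eval_finsetSum, eval_mul, eval_C, eval_pow, eval_X]
    rw [show ((∑ i ∈ Finset.range (r + 1), ψ ((h.coeff i).reflect (e * (r - i))) * t ^ i : W) : K)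
      = ∑ i ∈ Finset.range (r + 1), ((ψ ((h.coeff i).reflect (e * (r - i))) * t ^ i : W) : K)
      from map_sum W.subtype _ _]
    refine Finset.sum_congr rfl fun i hi => ?_
    have hi' : i ≤ r := by
      have := Finset.mem_range.1 hi
      omega
    change (ψ ((h.coeff i).reflect (e * (r - i))) : K) * (t : K) ^ i = _
    rw [hψ, hrev _ _ (hdeg i hi'), hts]
    have h2 : X' ^ (e * r) = X' ^ (e * (r - i)) * (X' ^ e) ^ i := by
      rw [← pow_mul, ← pow_add, Nat.mul_sub, Nat.sub_add_cancel (Nat.mul_le_mul_left _ hi')]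
    rw [h2, div_pow]
    field_simp
  -- the value of `y' / X' ^ e`
  have hGlead : G.leadingCoeff = kap W hW c := by
    have h1 : G.coeff r = kap W hW c := by
      rw [hGc r le_rfl, Nat.sub_self, mul_zero]
      have h2 : h.coeff r = C c := by rw [← hlc, leadingCoeff, H.deg]
      rw [h2]
      simp [ψ]
    have h2 : G.natDegree ≤ r := by
      refine natDegree_sum_le_of_forall_le _ _ fun i hi => ?_
      have := Finset.mem_range.1 hi
      exact (natDegree_C_mul_X_pow_le _ _).trans (by omega)
    have h3 : G.natDegree = r := by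
      refine le_antisymm h2 (le_natDegree_of_ne_zero ?_)
      rw [h1]
      intro h0
      have h4 : algebraMap k K c = 0 := congrArg (Subtype.val : W → K) h0
      rw [map_eq_zero] at h4
      exact hc h4
    rw [leadingCoeff, h3, h1]
  have hXe : X' ^ e ≠ 0 := pow_ne_zero _ hX0
  have hη : y' / X' ^ e ∈ W := by
    refine mem_of_root W (H := G) ?_ ?_
    · -- the value in `K`
      have h1 : aeval (y' / X' ^ e) G =
          eval₂ (aeval X' : k[X] →ₐ[k] K).toRingHom y' h / X' ^ (e * r) := by
        have h1 : eval₂ (aeval X' : k[X] →ₐ[k] K).toRingHom y' h =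
            ∑ i ∈ Finset.range (r + 1), aeval X' (h.coeff i) * y' ^ i := by
          rw [eval₂_eq_sum_range, H.deg]
          rfl
        rw [h1, Finset.sum_div]
        simp only [G, map_sum, map_mul, aeval_C, map_pow, aeval_X]
        refine Finset.sum_congr rfl fun i hi => ?_
        have hi' : i ≤ r := by
          have := Finset.mem_range.1 hi
          omega
        change (ψ ((h.coeff i).reflect (e * (r - i))) : K) * (y' / X' ^ e) ^ i = _
        rw [hψ, hrev _ _ (hdeg i hi')]
        have h2 : X' ^ (e * r) = X' ^ (e * (r - i)) * (X' ^ e) ^ i := by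
          rw [← pow_mul, ← pow_add, Nat.mul_sub, Nat.sub_add_cancel (Nat.mul_le_mul_left _ hi')]
        rw [h2, div_pow]
        field_simp
      rw [h1, (H.ker h).2 dvd_rfl, zero_div]
    · rw [hGlead, coe_kap]
      exact val_const W hW hc
  have hγm : aeval X' γ / X' ^ e ∈ W := by
    rw [← hrev e γ hγ.le, ← hψ]
    exact (ψ _).2
  let η : W := ⟨y' / X' ^ e, hη⟩
  let γ' : W := ⟨aeval X' γ / X' ^ e, hγm⟩
  have h1 : γ' - η ∣ G.eval γ' - G.eval η := sub_dvd_eval_sub _ _ _
  have h2 : G.eval η = 0 := by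
    apply Subtype.ext
    rw [hGeval η y' rfl, (H.ker h).2 dvd_rfl, zero_div]
    rfl
  have h3 : G.eval γ' = ψ ((h.eval γ).reflect (e * r)) := by
    apply Subtype.ext
    rw [hGeval γ' (aeval X' γ) rfl, eval₂_sub, hψ, hrev _ _ (by rw [hγ.deg, mul_comm])]
  rw [h2, sub_zero, h3] at h1
  -- the value is a unit
  have hlc0 : (h.eval γ).coeff (e * r) ≠ 0 := by
    rw [mul_comm, ← hγ.deg, coeff_natDegree, leadingCoeff_ne_zero]
    rintro h0
    have h4 := hγ.deg
    rw [h0, natDegree_zero] at h4
    have h5 := H.one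
    have h6 := H.pos
    have : 0 < r * e := by positivity
    omega
  have h4 : IsUnit (ψ ((h.eval γ).reflect (e * r))) := by
    have h5 := hcoef (e * r) (h.eval γ) (by rw [hγ.deg, mul_comm])
    rw [ValuationSubring.valuation_eq_one_iff]
    obtain ⟨q, hq⟩ := h5
    have h6 : (ψ ((h.eval γ).reflect (e * r)) : K) =
        algebraMap k K ((h.eval γ).coeff (e * r)) + X'⁻¹ * (q : K) := by
      have h7 := congrArg (Subtype.val : W → K) (sub_eq_iff_eq_add'.1 hq)
      exact h7
    rw [h6]
    have h8 : W.valuation (X'⁻¹ * (q : K)) < 1 := by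
      rw [map_mul]
      exact mul_lt_one_of_lt_of_le hT1 ((ValuationSubring.valuation_le_one_iff W _).2 q.2)
    have h9 := val_const W hW hlc0
    rw [Valuation.map_add_eq_of_lt_left _ (by rw [h9]; exact h8), h9]
  have h5 : IsUnit (γ' - η) := isUnit_of_dvd_unit h1 h4
  rw [ValuationSubring.valuation_eq_one_iff] at h5
  have h6 : ((γ' - η : W) : K) = - ((y' - aeval X' γ) / X' ^ e) := by
    change aeval X' γ / X' ^ e - y' / X' ^ e = _
    ring
  rw [h6, Valuation.map_neg, map_div₀, map_pow] at h5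
  have h7 : W.valuation X' ^ e ≠ 0 := pow_ne_zero _ (zero_lt_iff.1 (zero_lt_one.trans hX1))
  rw [div_eq_one_iff_eq h7] at h5
  exact h5

include hW in
/-- The place over the point `(a, γ(a))`. -/
theorem Curve.finite (H : Curve X' y' h r e) [IsAlgClosed k] (hX : X' ∈ W) {γ : k[X]}
    (hγ : Sp h r e γ) (hlt : W.valuation (y' - aeval X' γ) < 1) :
    ∃ a : k, (h.eval γ).eval a = 0 ∧ W.valuation (X' - algebraMap k K a) < 1 := by
  have hy := H.y_mem W hW hX
  let T : W := ⟨X', hX⟩
  let ψ : k[X] →+* W := eval₂RingHom (kap W hW) T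
  have hψ : ∀ p, ((ψ p : W) : K) = aeval X' p := fun p => coe_psi W hW T p
  let Y : W := ⟨y', hy⟩
  have h1 : ψ γ - Y ∣ (h.map ψ).eval (ψ γ) - (h.map ψ).eval Y := sub_dvd_eval_sub _ _ _
  have h2 : (h.map ψ).eval Y = 0 := by
    apply Subtype.ext
    have h3 : (((h.map ψ).eval Y : W) : K) = aeval y' (h.map ψ) := by
      rw [aeval_def, eval, eval₂_eq_sum_range, eval₂_eq_sum_range]
      rw [show ((∑ i ∈ Finset.range ((h.map ψ).natDegree + 1), (RingHom.id W) ((h.map ψ).coeff i) *
        Y ^ i : W) : K) = ∑ i ∈ Finset.range ((h.map ψ).natDegree + 1),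
        (((RingHom.id W) ((h.map ψ).coeff i) * Y ^ i : W) : K) from map_sum W.subtype _ _]
      rfl
    rw [h3, aeval_def, eval₂_map]
    have h4 : (algebraMap W K).comp ψ = (aeval X' : k[X] →ₐ[k] K).toRingHom :=
      RingHom.ext fun p => hψ p
    rw [h4, (H.ker h).2 dvd_rfl]
    rfl
  rw [h2, sub_zero] at h1
  have h3 : (h.map ψ).eval (ψ γ) = ψ (h.eval γ) := (psi_eval W hW T h γ).symm
  rw [h3] at h1
  have h4 : W.valuation ((ψ (h.eval γ) : W) : K) < 1 := by
    obtain ⟨q, hq⟩ := h1
    rw [hq]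
    change W.valuation ((ψ γ - Y : W) * (q : K)) < 1
    rw [map_mul]
    refine mul_lt_one_of_lt_of_le ?_ ((ValuationSubring.valuation_le_one_iff W _).2 q.2)
    have h5 : ((ψ γ - Y : W) : K) = - (y' - aeval X' γ) := by
      change (ψ γ : K) - y' = _
      rw [hψ]
      ring
    rw [h5, Valuation.map_neg]
    exact hlt
  -- the polynomial splits
  have hne : h.eval γ ≠ 0 := by
    intro h0
    have h4 := hγ.deg
    rw [h0, natDegree_zero] at h4
    have h5 := H.one
    have h6 := H.pos
    have : 0 < r * e := by positivity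
    omega
  rw [hψ, (IsAlgClosed.splits (h.eval γ)).eq_prod_roots, map_mul, aeval_C, map_mul,
    val_const W hW (leadingCoeff_ne_zero.2 hne), one_mul, map_multiset_prod,
    map_multiset_prod, Multiset.map_map, Multiset.map_map] at h4
  by_contra hcon
  push Not at hcon
  have h5 : ∀ a ∈ (h.eval γ).roots, W.valuation (X' - algebraMap k K a) = 1 := by
    intro a ha
    refine le_antisymm ((ValuationSubring.valuation_le_one_iff W _).2 (sub_mem hX (hW a))) ?_
    exact hcon a (mem_roots hne |>.1 ha)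
  have h6 : (Multiset.map ((⇑W.valuation ∘ ⇑(aeval X' : k[X] →ₐ[k] K)) ∘ fun a => X - C a)
      (h.eval γ).roots).prod = 1 := by
    refine Multiset.prod_eq_one fun z hz => ?_
    obtain ⟨a, ha, rfl⟩ := Multiset.mem_map.1 hz
    simp only [Function.comp_apply, map_sub, aeval_X, aeval_C]
    exact h5 a ha
  rw [h6] at h4
  exact lt_irrefl _ h4

include hW in
/-- Two lines through the same point: one direction. -/
theorem Curve.le_of_point (H : Curve X' y' h r e) (hX : X' ∈ W) {γ γ' : k[X]}
    (hγ : Sp h r e γ) {a : k} (ha : (h.eval γ).eval a = 0)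
    (hlt : W.valuation (X' - algebraMap k K a) < 1) (heq : γ'.eval a = γ.eval a) :
    W.valuation (y' - aeval X' γ') ≤ W.valuation (y' - aeval X' γ) := by
  have hy := H.y_mem W hW hX
  let T : W := ⟨X', hX⟩
  let ψ : k[X] →+* W := eval₂RingHom (kap W hW) T
  have hψ : ∀ p, ((ψ p : W) : K) = aeval X' p := fun p => coe_psi W hW T p
  let Y : W := ⟨y', hy⟩
  have h1 : ψ γ - Y ∣ (h.map ψ).eval (ψ γ) - (h.map ψ).eval Y := sub_dvd_eval_sub _ _ _
  have h2 : (h.map ψ).eval Y = 0 := by
    apply Subtype.ext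
    have h3 : (((h.map ψ).eval Y : W) : K) = aeval y' (h.map ψ) := by
      rw [aeval_def, eval, eval₂_eq_sum_range, eval₂_eq_sum_range]
      rw [show ((∑ i ∈ Finset.range ((h.map ψ).natDegree + 1), (RingHom.id W) ((h.map ψ).coeff i) *
        Y ^ i : W) : K) = ∑ i ∈ Finset.range ((h.map ψ).natDegree + 1),
        (((RingHom.id W) ((h.map ψ).coeff i) * Y ^ i : W) : K) from map_sum W.subtype _ _]
      rfl
    rw [h3, aeval_def, eval₂_map]
    have h4 : (algebraMap W K).comp ψ = (aeval X' : k[X] →ₐ[k] K).toRingHom :=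
      RingHom.ext fun p => hψ p
    rw [h4, (H.ker h).2 dvd_rfl]
    rfl
  rw [h2, sub_zero] at h1
  have h3 : (h.map ψ).eval (ψ γ) = ψ (h.eval γ) := (psi_eval W hW T h γ).symm
  rw [h3] at h1
  -- the simple root
  obtain ⟨u, hu⟩ := (dvd_iff_isRoot.2 ha : X - C a ∣ h.eval γ)
  have hu0 : u.eval a ≠ 0 := by
    intro h0
    obtain ⟨u', hu'⟩ := (dvd_iff_isRoot.2 h0 : X - C a ∣ u)
    have h4 := hγ.sep.squarefree (X - C a) ⟨u', by rw [hu, hu', mul_assoc]⟩
    exact not_isUnit_X_sub_C a h4
  have hunit : W.valuation ((ψ u : W) : K) = 1 := by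
    obtain ⟨q, hq⟩ := dvd_psi W hW T u a
    have h6 : (ψ u : K) = algebraMap k K (u.eval a) + (X' - algebraMap k K a) * (q : K) := by
      have h7 := congrArg (Subtype.val : W → K) (sub_eq_iff_eq_add'.1 hq)
      exact h7
    rw [h6]
    have h8 : W.valuation ((X' - algebraMap k K a) * (q : K)) < 1 := by
      rw [map_mul]
      exact mul_lt_one_of_lt_of_le hlt ((ValuationSubring.valuation_le_one_iff W _).2 q.2)
    have h9 := val_const W hW hu0
    rw [Valuation.map_add_eq_of_lt_left _ (by rw [h9]; exact h8), h9]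
  have h4 : W.valuation (X' - algebraMap k K a) ≤ W.valuation (y' - aeval X' γ) := by
    obtain ⟨q, hq⟩ := h1
    have h5 : W.valuation ((ψ (h.eval γ) : W) : K) =
        W.valuation (X' - algebraMap k K a) * W.valuation ((ψ u : W) : K) := by
      rw [hψ, hψ, ← map_mul, hu, map_mul, map_sub, aeval_X, aeval_C]
    rw [hunit, mul_one] at h5
    rw [← h5, hq]
    change W.valuation ((ψ γ - Y : W) * (q : K)) ≤ _
    rw [map_mul]
    have h6 : ((ψ γ - Y : W) : K) = - (y' - aeval X' γ) := by
      change (ψ γ : K) - y' = _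
      rw [hψ]
      ring
    rw [h6, Valuation.map_neg]
    exact mul_le_of_le_one_right' ((ValuationSubring.valuation_le_one_iff W _).2 q.2)
  -- the difference of the lines
  have h5 : W.valuation (aeval X' γ - aeval X' γ') ≤ W.valuation (X' - algebraMap k K a) := by
    obtain ⟨q, hq⟩ := dvd_psi W hW T (γ - γ') a
    have h6 : (ψ (γ - γ') : K) = algebraMap k K ((γ - γ').eval a) +
        (X' - algebraMap k K a) * (q : K) := by
      have h7 := congrArg (Subtype.val : W → K) (sub_eq_iff_eq_add'.1 hq)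
      exact h7
    have h7 : (γ - γ').eval a = 0 := by rw [eval_sub, heq, sub_self]
    rw [h7, map_zero, zero_add, hψ, map_sub] at h6
    rw [h6, map_mul]
    exact mul_le_of_le_one_right' ((ValuationSubring.valuation_le_one_iff W _).2 q.2)
  have h6 : y' - aeval X' γ' = (y' - aeval X' γ) + (aeval X' γ - aeval X' γ') := by ring
  rw [h6]
  exact (Valuation.map_add _ _ _).trans (max_le le_rfl (h5.trans h4))

include hW in
theorem eq_one_of_ne (hX : X' ∈ W) {γ γ' : k[X]}
    {a : k} (hlt : W.valuation (X' - algebraMap k K a) < 1)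
    (hlt' : W.valuation (y' - aeval X' γ) < 1) (hne : γ'.eval a ≠ γ.eval a) :
    W.valuation (y' - aeval X' γ') = 1 := by
  have h1 : ∀ p : k[X], W.valuation (aeval X' p - algebraMap k K (p.eval a)) < 1 := by
    intro p
    obtain ⟨q, hq⟩ := dvd_psi W hW ⟨X', hX⟩ p a
    have h6 : aeval X' p - algebraMap k K (p.eval a) = (X' - algebraMap k K a) * (q : K) := by
      have h7 := congrArg (Subtype.val : W → K) hq
      rw [← coe_psi W hW ⟨X', hX⟩ p]
      exact h7
    rw [h6, map_mul]
    exact mul_lt_one_of_lt_of_le hlt ((ValuationSubring.valuation_le_one_iff W _).2 q.2)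
  have h2 : W.valuation (algebraMap k K (γ.eval a - γ'.eval a)) = 1 :=
    val_const W hW (sub_ne_zero.2 hne.symm)
  have h3 : y' - aeval X' γ' = algebraMap k K (γ.eval a - γ'.eval a) +
      ((y' - aeval X' γ) + ((aeval X' γ - algebraMap k K (γ.eval a)) -
        (aeval X' γ' - algebraMap k K (γ'.eval a)))) := by
    rw [map_sub]
    ring
  have h4 : W.valuation ((y' - aeval X' γ) + ((aeval X' γ - algebraMap k K (γ.eval a)) -
        (aeval X' γ' - algebraMap k K (γ'.eval a)))) < 1 :=
    Valuation.map_add_lt _ hlt' (Valuation.map_sub_lt _ (h1 γ) (h1 γ'))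
  rw [h3, Valuation.map_add_eq_of_lt_left _ (by rw [h2]; exact h4), h2]

open Classical in
/-- A product without zeros and poles is constant. -/
theorem Curve.const (H : Curve X' y' h r e) [IsAlgClosed k] (S : Finset k[X]) (c : k[X] → ℤ)
    (hS : ∀ γ ∈ S, Sp h r e γ) (h0 : ∑ γ ∈ S, c γ = 0)
    (hc : ∀ a b : k, ∑ γ ∈ S, (if (h.eval γ).eval a = 0 ∧ γ.eval a = b then c γ else 0) = 0) :
    ∃ u : k, u ≠ 0 ∧ ∏ γ ∈ S, (y' - aeval X' γ) ^ c γ = algebraMap k K u := by
  have key : ∀ W : ValuationSubring K, (∀ c : k, algebraMap k K c ∈ W) →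
      W.valuation (∏ γ ∈ S, (y' - aeval X' γ) ^ c γ) = 1 := by
    intro W hW
    rw [map_prod]
    simp only [map_zpow₀]
    have hz : ∀ γ ∈ S, W.valuation (y' - aeval X' γ) ≠ 0 := fun γ hγ =>
      (Valuation.ne_zero_iff _).2 (H.z_ne (hS γ hγ))
    have hprod : ∀ (t : W.ValueGroup) (ht : t ≠ 0) (T : Finset k[X]) (P : k[X] → Prop)
        [DecidablePred P], ∏ γ ∈ T, (if P γ then t else 1) ^ c γ = t ^ ∑ γ ∈ T, (if P γ then c γ else 0) := by
      intro t ht T P _
      induction T using Finset.induction_on with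
      | empty => simp
      | insert γ T hγ ih =>
        rw [Finset.prod_insert hγ, Finset.sum_insert hγ, zpow_add₀ ht, ih]
        congr 1
        split_ifs <;> simp
    by_cases hX : X' ∈ W
    · by_cases hall : ∀ γ ∈ S, W.valuation (y' - aeval X' γ) = 1
      · refine Finset.prod_eq_one fun γ hγ => ?_
        rw [hall γ hγ, one_zpow]
      · push Not at hall
        obtain ⟨γ₁, hγ₁, hne⟩ := hall
        have hy := H.y_mem W hW hX
        have hmem : ∀ γ : k[X], y' - aeval X' γ ∈ W := by
          intro γ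
          refine sub_mem hy ?_
          rw [← coe_psi W hW ⟨X', hX⟩ γ]
          exact Subtype.mem _
        have hlt₁ : W.valuation (y' - aeval X' γ₁) < 1 :=
          lt_of_le_of_ne ((ValuationSubring.valuation_le_one_iff W _).2 (hmem γ₁)) hne
        obtain ⟨a, ha, hlt⟩ := H.finite W hW hX (hS γ₁ hγ₁) hlt₁
        have hroot : ∀ γ : k[X], γ.eval a = γ₁.eval a → (h.eval γ).eval a = 0 := by
          intro γ hγ
          rw [eval_eval', hγ, ← eval_eval', ha]
        have hval : ∀ γ ∈ S, W.valuation (y' - aeval X' γ) =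
            if (h.eval γ).eval a = 0 ∧ γ.eval a = γ₁.eval a then
              W.valuation (y' - aeval X' γ₁) else 1 := by
          intro γ hγ
          split_ifs with hif
          · exact le_antisymm
              (H.le_of_point W hW hX (hS γ₁ hγ₁) ha hlt hif.2)
              (H.le_of_point W hW hX (hS γ hγ) hif.1 hlt hif.2.symm)
          · have h1 : γ.eval a ≠ γ₁.eval a := fun h1 => hif ⟨hroot γ h1, h1⟩
            exact eq_one_of_ne W hW hX hlt hlt₁ h1
        have h2 : ∏ γ ∈ S, W.valuation (y' - aeval X' γ) ^ c γ =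
            ∏ γ ∈ S, (if (h.eval γ).eval a = 0 ∧ γ.eval a = γ₁.eval a then
              W.valuation (y' - aeval X' γ₁) else 1) ^ c γ :=
          Finset.prod_congr rfl fun γ hγ => by rw [hval γ hγ]
        rw [h2, hprod _ (hz γ₁ hγ₁), hc, zpow_zero]
    · have h1 : ∀ γ ∈ S, W.valuation (y' - aeval X' γ) = W.valuation X' ^ e :=
        fun γ hγ => H.infinite W hW hX (hS γ hγ)
      have h2 : ∏ γ ∈ S, W.valuation (y' - aeval X' γ) ^ c γ =
          ∏ γ ∈ S, (if True then W.valuation X' ^ e else 1) ^ c γ :=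
        Finset.prod_congr rfl fun γ hγ => by rw [h1 γ hγ, if_pos trivial]
      have hX0 : W.valuation X' ^ e ≠ 0 := by
        refine pow_ne_zero _ ((Valuation.ne_zero_iff _).2 ?_)
        rintro rfl
        exact hX (zero_mem _)
      rw [h2, hprod _ hX0]
      simp only [if_true]
      rw [h0, zpow_zero]
  -- integral over the constants
  set φ := ∏ γ ∈ S, (y' - aeval X' γ) ^ c γ with hφ
  have h1 : φ ∈ (⨅ W : {W : ValuationSubring K // Set.range (algebraMap k K) ⊆ W.toSubring},
      W.1.toSubring) := by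
    rw [Subring.mem_iInf]
    rintro ⟨W, hW⟩
    exact (ValuationSubring.valuation_le_one_iff W _).1 (key W fun c => hW ⟨c, rfl⟩).le
  rw [iInf_valuationSubring_superset] at h1
  have h2 : IsIntegral (Subring.closure (Set.range (algebraMap k K))) φ := h1
  obtain ⟨p, hp, hp0⟩ := h2
  have hle : Subring.closure (Set.range (algebraMap k K)) ≤ (algebraMap k K).range := by
    rw [Subring.closure_le]
    rintro _ ⟨c, rfl⟩
    exact ⟨c, rfl⟩
  have h3 : IsIntegral k φ := by
    let ψ : Subring.closure (Set.range (algebraMap k K)) →+* (algebraMap k K).range :=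
      Subring.inclusion hle
    have hψ : IsIntegral (algebraMap k K).range φ := by
      refine ⟨p.map ψ, hp.map ψ, ?_⟩
      rw [Polynomial.eval₂_map]
      exact hp0
    obtain ⟨q, hq, hq0⟩ := hψ
    have hinj : Function.Bijective (algebraMap k K).rangeRestrict :=
      ⟨fun a b hab => (algebraMap k K).injective (congrArg Subtype.val hab),
        (algebraMap k K).rangeRestrict_surjective⟩
    let E := RingEquiv.ofBijective (algebraMap k K).rangeRestrict hinj
    refine ⟨q.map (E.symm : (algebraMap k K).range →+* k), hq.map _, ?_⟩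
    rw [Polynomial.eval₂_map]
    have he : (algebraMap k K).comp (E.symm : (algebraMap k K).range →+* k) =
        algebraMap (algebraMap k K).range K := by
      apply RingHom.ext
      intro z
      obtain ⟨c, rfl⟩ := (algebraMap k K).rangeRestrict_surjective z
      have : E.symm ((algebraMap k K).rangeRestrict c) = c := E.symm_apply_apply c
      change algebraMap k K (E.symm ((algebraMap k K).rangeRestrict c)) = algebraMap k K c
      rw [this]
    rw [he]
    exact hq0
  haveI : Algebra.IsIntegral k (integralClosure k K) := integralClosure.AlgebraIsIntegral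
  obtain ⟨u, hu⟩ := (IsAlgClosed.algebraMap_bijective_of_isIntegral (k := k)
    (K := integralClosure k K)).2 ⟨φ, h3⟩
  have h5 : algebraMap k K u = φ := congrArg Subtype.val hu
  refine ⟨u, ?_, h5.symm⟩
  rintro rfl
  rw [map_zero] at h5
  rw [hφ, eq_comm, Finset.prod_eq_zero_iff] at h5
  obtain ⟨γ, hγ, h6⟩ := h5
  exact zpow_ne_zero _ (H.z_ne (hS γ hγ)) h6

theorem exists_factor' {G H : Type*} [AddCommGroup G] [AddCommGroup H] (δ : G →+ H) (M : G →+ ℚ)
    (h : ∀ g, δ g = 0 → M g = 0) : ∃ E : H →+ ℚ, ∀ g, E (δ g) = M g := by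
  obtain ⟨E, hE⟩ := (Module.Baer.of_divisible ℚ).extension_property_addMonoidHom
    (QuotientAddGroup.kerLift δ) (QuotientAddGroup.kerLift_injective δ)
    (QuotientAddGroup.lift δ.ker M (fun g hg => h g hg))
  refine ⟨E, fun g => ?_⟩
  exact DFunLike.congr_fun hE (g : G ⧸ δ.ker)

theorem l_one' {l : K → ℚ} (hl : ∀ a b, a ≠ 0 → b ≠ 0 → l (a * b) = l a + l b) : l 1 = 0 := by
  have := hl 1 1 one_ne_zero one_ne_zero
  rw [mul_one] at this
  linarith

theorem l_zpow' {l : K → ℚ} (hl : ∀ a b, a ≠ 0 → b ≠ 0 → l (a * b) = l a + l b) {a : K}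
    (ha : a ≠ 0) (m : ℤ) : l (a ^ m) = m * l a := by
  have h1 : ∀ n : ℕ, l (a ^ n) = n * l a := by
    intro n
    induction n with
    | zero => rw [pow_zero, l_one' hl]; simp
    | succ n ih =>
      rw [pow_succ, hl _ _ (pow_ne_zero _ ha) ha, ih]
      push_cast
      ring
  cases m with
  | ofNat n =>
    rw [Int.ofNat_eq_natCast, zpow_natCast, h1]
    push_cast
    ring
  | negSucc n =>
    rw [zpow_negSucc]
    have h2 := hl (a ^ (n + 1)) (a ^ (n + 1))⁻¹ (pow_ne_zero _ ha) (inv_ne_zero (pow_ne_zero _ ha))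
    rw [mul_inv_cancel₀ (pow_ne_zero _ ha), l_one' hl, h1] at h2
    rw [Int.negSucc_eq]
    push_cast at h2 ⊢
    linarith

omit [Algebra k K] in
theorem l_prod' {l : K → ℚ} (hl : ∀ a b, a ≠ 0 → b ≠ 0 → l (a * b) = l a + l b)
    (S : Finset k[X]) (f : k[X] → K) (hf : ∀ γ ∈ S, f γ ≠ 0) (c : k[X] → ℤ) :
    l (∏ γ ∈ S, f γ ^ c γ) = ∑ γ ∈ S, c γ * l (f γ) := by
  classical
  induction S using Finset.induction_on with
  | empty => rw [Finset.prod_empty, Finset.sum_empty, l_one' hl]
  | insert γ S hγ ih =>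
    rw [Finset.prod_insert hγ, Finset.sum_insert hγ,
      hl _ _ (zpow_ne_zero _ (hf γ (Finset.mem_insert_self _ _))) (Finset.prod_ne_zero_iff.2
        fun δ hδ => zpow_ne_zero _ (hf δ (Finset.mem_insert_of_mem hδ))),
      l_zpow' hl (hf γ (Finset.mem_insert_self _ _)),
      ih fun δ hδ => hf δ (Finset.mem_insert_of_mem hδ)]

open Classical in
/-- The function `g(s, ·)` exists. -/
theorem exists_g [IsAlgClosed k] (H : Curve X' y' h r e) (l : K → ℚ)
    (hl : ∀ a b, a ≠ 0 → b ≠ 0 → l (a * b) = l a + l b)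
    (hlc : ∀ c : k, c ≠ 0 → l (algebraMap k K c) = 0) (c₀ : ℚ) :
    ∃ g : k × k → ℚ, ∀ γ : k[X], Sp h r e γ →
      l (y' - aeval X' γ) + c₀ = ∑ a ∈ (h.eval γ).roots.toFinset, g (a, γ.eval a) := by
  classical
  -- the divisor of a line
  let δ : ({γ : k[X] // Sp h r e γ} →₀ ℤ) →+ (k × k →₀ ℤ) :=
    Finsupp.liftAddHom fun γ =>
      { toFun := fun m => ∑ a ∈ (h.eval γ.1).roots.toFinset, Finsupp.single (a, γ.1.eval a) m
        map_zero' := by simp
        map_add' := by
          intro m m'
          simp only [Finsupp.single_add, Finset.sum_add_distrib] }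
  let M : ({γ : k[X] // Sp h r e γ} →₀ ℤ) →+ ℚ :=
    Finsupp.liftAddHom fun γ =>
      { toFun := fun m => m * (l (y' - aeval X' γ.1) + c₀)
        map_zero' := by simp
        map_add' := by
          intro m m'
          push_cast
          ring }
  have hδ : ∀ (c : {γ : k[X] // Sp h r e γ} →₀ ℤ) (a b : k), δ c (a, b) =
      ∑ γ ∈ c.support, (if (h.eval γ.1).eval a = 0 ∧ γ.1.eval a = b then c γ else 0) := by
    intro c a b
    change (Finsupp.liftAddHom _ c : k × k →₀ ℤ) (a, b) = _
    rw [Finsupp.liftAddHom_apply, Finsupp.sum, Finsupp.finsetSum_apply]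
    refine Finset.sum_congr rfl fun γ _ => ?_
    change (∑ a' ∈ (h.eval γ.1).roots.toFinset, Finsupp.single (a', γ.1.eval a') (c γ)) (a, b) = _
    have hne : h.eval γ.1 ≠ 0 := by
      intro h0
      have h4 := γ.2.deg
      rw [h0, natDegree_zero] at h4
      have h5 := H.one
      have h6 := H.pos
      have : 0 < r * e := by positivity
      omega
    rw [Finsupp.finsetSum_apply]
    split_ifs with hif
    · rw [Finset.sum_eq_single a]
      · rw [hif.2, Finsupp.single_eq_same]
      · intro a' _ ha'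
        rw [Finsupp.single_apply, if_neg]
        intro h1
        exact ha' (congrArg Prod.fst h1)
      · intro h1
        exact absurd (Multiset.mem_toFinset.2 ((mem_roots hne).2 hif.1)) h1
    · refine Finset.sum_eq_zero fun a' ha' => ?_
      rw [Finsupp.single_apply, if_neg]
      intro h1
      have h2 : a' = a := congrArg Prod.fst h1
      have h3 : γ.1.eval a' = b := congrArg Prod.snd h1
      rw [h2] at h3 ha'
      exact hif ⟨(mem_roots hne).1 (Multiset.mem_toFinset.1 ha'), h3⟩
  have hcard : ∀ γ : k[X], Sp h r e γ → (h.eval γ).roots.toFinset.card = r * e := by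
    intro γ hγ
    rw [Multiset.toFinset_card_of_nodup (nodup_roots hγ.sep), ← hγ.deg]
    exact (IsAlgClosed.splits (h.eval γ)).natDegree_eq_card_roots.symm
  obtain ⟨E, hE⟩ := exists_factor' δ M (by
    intro c hc
    -- pass to a finite set of polynomials
    let S : Finset k[X] := c.support.map ⟨Subtype.val, Subtype.val_injective⟩
    let c' : k[X] → ℤ := fun γ => if hγ : Sp h r e γ then c ⟨γ, hγ⟩ else 0
    have hS : ∀ γ ∈ S, Sp h r e γ := by
      intro γ hγ
      obtain ⟨γ', _, rfl⟩ := Finset.mem_map.1 hγ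
      exact γ'.2
    have hc' : ∀ γ : {γ : k[X] // Sp h r e γ}, c' γ.1 = c γ := by
      intro γ
      simp only [c', dif_pos γ.2]
    have h1 : ∀ a b : k, ∑ γ ∈ S, (if (h.eval γ).eval a = 0 ∧ γ.eval a = b then c' γ else 0) = 0 := by
      intro a b
      rw [Finset.sum_map]
      have h2 := hδ c a b
      rw [hc] at h2
      rw [Finsupp.zero_apply] at h2
      refine Eq.trans ?_ h2.symm
      refine Finset.sum_congr rfl fun γ _ => ?_
      change (if (h.eval γ.1).eval a = 0 ∧ γ.1.eval a = b then c' γ.1 else 0) = _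
      rw [hc' γ]
    -- the total mass
    have h2 : ∑ γ ∈ S, c' γ = 0 := by
      have h3 : ((k × k →₀ ℤ) →+ ℤ) := Finsupp.liftAddHom fun _ => AddMonoidHom.id ℤ
      have h4 : (Finsupp.liftAddHom fun _ : k × k => AddMonoidHom.id ℤ) (δ c) =
          (r * e : ℕ) * ∑ γ ∈ S, c' γ := by
        change (Finsupp.liftAddHom fun _ : k × k => AddMonoidHom.id ℤ)
          (Finsupp.liftAddHom _ c) = _
        rw [Finsupp.liftAddHom_apply _ c, Finsupp.sum, map_sum, Finset.sum_map, Finset.mul_sum]
        refine Finset.sum_congr rfl fun γ _ => ?_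
        change (Finsupp.liftAddHom fun _ : k × k => AddMonoidHom.id ℤ)
          (∑ a' ∈ (h.eval γ.1).roots.toFinset, Finsupp.single (a', γ.1.eval a') (c γ)) =
            _ * c' γ.1
        rw [map_sum, hc' γ]
        have h5 : ∀ a' ∈ (h.eval γ.1).roots.toFinset,
            (Finsupp.liftAddHom fun _ : k × k => AddMonoidHom.id ℤ)
              (Finsupp.single (a', γ.1.eval a') (c γ)) = c γ := by
          intro a' _
          simp
        rw [Finset.sum_congr rfl h5, Finset.sum_const, hcard γ.1 γ.2, nsmul_eq_mul]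
      rw [hc, map_zero] at h4
      have h5 : ((r * e : ℕ) : ℤ) ≠ 0 := by
        have h5 := H.one
        have h6 := H.pos
        have : 0 < r * e := by positivity
        exact_mod_cast this.ne'
      exact (mul_eq_zero.1 h4.symm).resolve_left h5
    obtain ⟨u, hu0, hu⟩ := H.const S c' hS h2 h1
    have h3 := l_prod' hl S (fun γ => y' - aeval X' γ) (fun γ hγ => H.z_ne (hS γ hγ)) c'
    rw [hu, hlc u hu0] at h3
    have h4 : M c = ∑ γ ∈ S, c' γ * (l (y' - aeval X' γ) + c₀) := by
      change (Finsupp.liftAddHom _ c : ℚ) = _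
      rw [Finsupp.liftAddHom_apply, Finsupp.sum, Finset.sum_map]
      refine Finset.sum_congr rfl fun γ _ => ?_
      change (c γ : ℚ) * (l (y' - aeval X' γ.1) + c₀) = c' γ.1 * (l (y' - aeval X' γ.1) + c₀)
      rw [hc' γ]
    rw [h4]
    simp only [mul_add]
    rw [Finset.sum_add_distrib, ← h3, ← Finset.sum_mul, ← Int.cast_sum, h2]
    simp)
  refine ⟨fun q => E (Finsupp.single q 1), fun γ hγ => ?_⟩
  have h1 := hE (Finsupp.single ⟨γ, hγ⟩ 1)
  have h2 : M (Finsupp.single ⟨γ, hγ⟩ 1) = l (y' - aeval X' γ) + c₀ := by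
    change (Finsupp.liftAddHom _ (Finsupp.single _ _) : ℚ) = _
    rw [Finsupp.liftAddHom_apply_single]
    change ((1 : ℤ) : ℚ) * (l (y' - aeval X' γ) + c₀) = _
    rw [Int.cast_one, one_mul]
  have h3 : δ (Finsupp.single ⟨γ, hγ⟩ 1) =
      ∑ a ∈ (h.eval γ).roots.toFinset, Finsupp.single (a, γ.eval a) (1 : ℤ) := by
    change (Finsupp.liftAddHom _ (Finsupp.single _ _) : k × k →₀ ℤ) = _
    rw [Finsupp.liftAddHom_apply_single]
    rfl
  rw [h2, h3, map_sum] at h1
  exact h1.symm

end Main

end Pool.Agent.Lib.MP_b197b4_ntH
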