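import Mathlib
import Pool.Agent.Lib.MP_b197b4_ntH.H0
import Pool.Agent.Lib.MP_b197b4_ntH.PhiG

/-!
# MP_b197b4_nt, project K1, part KC: a function on the points of a plane curve
-/

set_option autoImplicit false

namespace Pool.Agent.Lib.MP_b197b4_ntK

open IsLocalRing Polynomial

open MPb197b4P (fib cut ev3 RegPt Spl Good Core)

open Classical in
/-- HK (helper28). `h` is the equation of the plane curve; the values of an additive form `l`, zero on
the constants, at the split sections `y - γ` are given by a function on the points. -/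
theorem exists_phi {k : Type} [Field k] [IsAlgClosed k] {K : Type} [Field K] [Algebra k K]
    (X' y' : K) (h : k[X][X]) (r e : ℕ) (hr : 1 ≤ r) (he : 1 ≤ e)
    (hker : ∀ g : k[X][X], ev2 X' y' g = 0 ↔ h ∣ g) (hdeg : h.natDegree = r)
    (hwt : ∀ i, (h.coeff i).natDegree + e * i ≤ e * r ∨ h.coeff i = 0)
    (l : K → ℚ) (hl : ∀ a b : K, a ≠ 0 → b ≠ 0 → l (a * b) = l a + l b)
    (hc : ∀ c : k, c ≠ 0 → l (algebraMap k K c) = 0) (c₀ : ℚ) :
    ∃ g : k × k → ℚ, ∀ γ : k[X], γ.natDegree ≤ e → (h.eval γ).natDegree = r * e →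
      (h.eval γ).Separable →
      l (y' - aeval X' γ) + c₀ = ∑ a ∈ (h.eval γ).roots.toFinset, g (a, γ.eval a) := by
  have H : MP_b197b4_ntH.Curve X' y' h r e :=
    ⟨fun g => hker g, hdeg, hr, he, fun i hi => (hwt i).resolve_right hi⟩
  obtain ⟨g, hg⟩ := MP_b197b4_ntH.exists_g H l hl hc c₀
  exact ⟨g, fun γ h1 h2 h3 => hg γ ⟨h1, h2, h3⟩⟩

end Pool.Agent.Lib.MP_b197b4_ntK
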