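import Mathlib
import Pool.Agent.Lib.MP_b197b4_ntH.HE2
import Pool.Agent.Lib.MP_b197b4_ntH.HK

/-!
# MP_b197b4_nt, project K1, part KC: the form of a member of the family
-/

set_option autoImplicit false

namespace Pool.Agent.Lib.MP_b197b4_ntK

open IsLocalRing Polynomial

open MPb197b4P (fib cut ev3 RegPt Spl Good Core)

variable {k F : Type} [Field k] [Field F] [Algebra k F] {n : ℕ} {x : Fin (n + 1) → F}
  {x0 x1 Y Z : F} {d : ℕ} {O₁ : Subring F} {c₁ : k} {f : k[X][X][X]} {r : ℕ}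
  {κ : k} {α γ : k[X]} {e : ℕ} {V : ValuationSubring F}
  {l : ∀ V : ValuationSubring F, ResidueField V → ℚ} {ν : ValuationSubring F → ℚ}

/-- The constants in the residue field of a curve. -/
noncomputable def HN_alg (hk : Over k V) : Algebra k (ResidueField V) :=
  ((residue V).comp ((algebraMap k F).codRestrict V hk)).toAlgebra

theorem HN_algebraMap (hk : Over k V) (c : k) :
    letI := HN_alg hk
    algebraMap k (ResidueField V) c = res V (algebraMap k F c) := by
  letI := HN_alg hk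
  rw [res_of_mem (hk c)]
  rfl

theorem HN_aeval (hk : Over k V) {a : F} (ha : a ∈ V) (g : k[X]) :
    letI := HN_alg hk
    aeval a g ∈ V ∧ aeval (res V a) g = res V (aeval a g) := by
  letI := HN_alg hk
  induction g using Polynomial.induction_on' with
  | add p q hp hq =>
    refine ⟨by rw [map_add]; exact add_mem hp.1 hq.1, ?_⟩
    rw [map_add, map_add, hp.2, hq.2, res_add hp.1 hq.1]
  | monomial m c =>
    have h1 : a ^ m ∈ V := pow_mem ha m
    rw [aeval_monomial, aeval_monomial, HN_algebraMap hk, res_mul (hk c) h1, res_pow ha]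
    exact ⟨mul_mem (hk c) h1, rfl⟩

theorem HN_ev2 (hk : Over k V) {a b : F} (ha : a ∈ V) (hb : b ∈ V) (g : k[X][X]) :
    letI := HN_alg hk
    ev2 a b g ∈ V ∧ ev2 (res V a) (res V b) g = res V (ev2 a b g) := by
  letI := HN_alg hk
  induction g using Polynomial.induction_on' with
  | add p q hp hq =>
    refine ⟨by rw [map_add]; exact add_mem hp.1 hq.1, ?_⟩
    rw [map_add, map_add, hp.2, hq.2, res_add hp.1 hq.1]
  | monomial m c =>
    have h1 : b ^ m ∈ V := pow_mem hb m
    obtain ⟨h2, h3⟩ := HN_aeval hk ha c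
    rw [← C_mul_X_pow_eq_monomial, map_mul, map_pow, map_mul, map_pow, ev2_C, ev2_X, ev2_C, ev2_X,
      h3, res_mul h2 h1, res_pow hb]
    exact ⟨mul_mem h2 h1, rfl⟩

open Classical in
/-- HN. PROOF: `exists_phi` with `K` the residue field of `V`, `h = fib f κ α`, `l = l V` and
`c₀ = Lam x l ν V (x0 ^ e) e`: `yform = x0 ^ e (y - γ(X))`. Constants are roots of unity. -/
theorem lam_family [IsAlgClosed k] (hS : SurfN k x) (hl : Forms k (Curves (charts k x)) l)
    (hrou : ∀ c : k, c ≠ 0 → ∃ N : ℕ, 0 < N ∧ c ^ N = 1)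
    (hC : Coord k x x0 x1 Y Z d O₁ c₁) (hE : Eqn k x x0 x1 Y Z d f r)
    (hV : IsFib k x x0 x1 Y Z d f κ α V) (hde : d < e) (hα : α.natDegree ≤ e)
    (htop : (fib f κ α).natDegree = r) (hr : 2 ≤ r) :
    ∃ g : k × k → ℚ, ∀ γ : k[X], Spl f e (r * e) κ α γ →
      Lam x l ν V (yform k x0 x1 Y d e γ) e =
        ∑ a ∈ (cut f κ α γ).roots.toFinset, g (a, γ.eval a) := by
  have hk : Over k V := curve_over hV.cur
  have hd : IsDiscreteValuationRing V := disc_of_curves hV.cur
  obtain ⟨hX, hY, hZ⟩ := HE2_mem hC hV.cur hV.gen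
  letI := HN_alg hk
  have hker : ∀ g : k[X][X], ev2 (res V (x1 / x0)) (res V (Y / x0 ^ d)) g = 0 ↔
      fib f κ α ∣ g := by
    intro g
    have h1 := HN_ev2 hk hX hY g
    rw [h1.2, res_eq_zero_iff h1.1, ← ev_C (x1 / x0) (Y / x0 ^ d) (Z / x0 ^ d) g, hV.lt]
    unfold MPb197b4P.fib
    rw [eval_C]
  have hc : ∀ c : k, c ≠ 0 → l V (algebraMap k (ResidueField V) c) = 0 := by
    intro c hc0
    obtain ⟨N, hN, hcN⟩ := hrou c hc0
    refine hl.l_torsion hV.cur hN ?_
    rw [← map_pow, hcN, map_one]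
  have hmul : ∀ a b : ResidueField V, a ≠ 0 → b ≠ 0 → l V (a * b) = l V a + l V b :=
    hl.mul V hV.cur
  obtain ⟨g, hg⟩ := exists_phi (res V (x1 / x0)) (res V (Y / x0 ^ d)) (fib f κ α) r e
    (by omega) (by omega) hker htop
    (fun i => fib_weight hE.deg (by have := hC.two; omega) hE.wt hde hα i) (l V) hmul hc
    (Lam x l ν V (x0 ^ e) e)
  refine ⟨g, fun γ hs => ?_⟩
  have h1 := hg γ hs.deg hs.num hs.sep
  have h2 : Lam x l ν V (yform k x0 x1 Y d e γ) e =
      l V (res V (Y / x0 ^ d) - aeval (res V (x1 / x0)) γ) + Lam x l ν V (x0 ^ e) e := by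
    have h3 := HN_aeval hk hX γ
    rw [h3.2, ← res_sub hY h3.1]
    have h4 : Y / x0 ^ d - aeval (x1 / x0) γ ∈ V := sub_mem hY h3.1
    have h5 : res V (Y / x0 ^ d - aeval (x1 / x0) γ) ≠ 0 := by
      rw [res_sub hY h3.1, ← h3.2]
      intro h0
      have h6 : ev2 (res V (x1 / x0)) (res V (Y / x0 ^ d)) (Polynomial.X - C γ) = 0 := by
        rw [map_sub, ev2_X, ev2_C]
        exact h0
      have h7 := natDegree_le_of_dvd ((hker _).1 h6) (X_sub_C_ne_zero γ)
      rw [htop, natDegree_X_sub_C] at h7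
      omega
    have h6 : vh x V e (x0 ^ e) = 0 := by
      have h7 := HE2_vh hS.ne hV.cur hV.gen e (w := 1) one_ne_zero
      rw [mul_one] at h7
      rw [h7, ord_one V hd]
    have h7 : V.valuation (hat x V e (x0 ^ e)) = 1 := by
      rw [← ord_eq_zero_iff hd (hat_ne hS.ne V e (pow_ne_zero _ hV.gen.ne)),
        ord_hat hS.ne hd e (pow_ne_zero _ hV.gen.ne), h6]
    have h8 : hat x V e (yform k x0 x1 Y d e γ) =
        hat x V e (x0 ^ e) * (Y / x0 ^ d - aeval (x1 / x0) γ) := by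
      unfold hat yform
      ring
    unfold Lam
    rw [h8, res_mul (mem_of_val_one h7) h4, hl.mul V hV.cur _ _
      ((res_ne_zero_iff (mem_of_val_one h7)).2 h7) h5]
    ring
  rw [h2, h1]
  rfl

end Pool.Agent.Lib.MP_b197b4_ntK
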