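import Mathlib
import Pool.Agent.Lib.MP_b197b4_ntH.HE2

/-!
# MP_b197b4_nt, project K1, part KC: symbols
-/

set_option autoImplicit false

namespace Pool.Agent.Lib.MP_b197b4_ntK

open IsLocalRing Polynomial

open MPb197b4P (fib cut ev3 RegPt Spl Good Core)

variable {k F : Type} [Field k] [Field F] [Algebra k F] {n : ℕ} {x : Fin (n + 1) → F}
  {x0 x1 Y Z : F} {d : ℕ} {O₁ : Subring F} {c₁ : k} {f : k[X][X][X]} {r : ℕ}
  {κ : k} {α γ : k[X]} {e : ℕ} {V : ValuationSubring F}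
  {l : ∀ V : ValuationSubring F, ResidueField V → ℚ} {ν : ValuationSubring F → ℚ}

/-- HO1. For a prime form the symbol is the form of its curve. -/
theorem mu_prime {a : ℕ} {t : F} (hp : PrimeForm k x a t V) (s : F) (b : ℤ) :
    mu x (Curves (charts k x)) l ν t a s b = Lam x l ν V s b := by
  unfold mu
  rw [finsum_eq_single (fun V' => ∑ᶠ (_ : V' ∈ Curves (charts k x)),
    (vh x V' a t : ℚ) * Lam x l ν V' s b) V (fun V' hV' => ?_)]
  · rw [finsum_eq_single _ hp.curve fun h hh => absurd rfl hh, hp.one]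
    push_cast
    ring
  · by_cases h : V' ∈ Curves (charts k x)
    · rw [finsum_eq_single _ h fun h' hh => absurd rfl hh, hp.other V' h hV']
      push_cast
      ring
    · have : IsEmpty (V' ∈ Curves (charts k x)) := ⟨h⟩
      exact finsum_of_isEmpty _

/-- HO2. `tform 0 (α + κ γ) = tform κ α + κ yform γ` (`mu_add`, `mu_symm`). -/
theorem mu_member (hx : ∀ i, x i ≠ 0) (hl : Forms k (Curves (charts k x)) l)
    (hν : ∀ (f g : F) (a b : ℤ), f ≠ 0 → g ≠ 0 → LS x (Curves (charts k x)) l ν f a g b = 0)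
    (hC : Coord k x x0 x1 Y Z d O₁ c₁) (hE : Eqn k x x0 x1 Y Z d f r) (hr : 2 ≤ r)
    (hde : d < e) (hα : α.natDegree ≤ e) (hγ : γ.natDegree ≤ e)
    (hcop : Copr x (Curves (charts k x)) (yform k x0 x1 Y d e γ) e
      (tform k x0 x1 Y Z d e κ α) e) :
    mu x (Curves (charts k x)) l ν (yform k x0 x1 Y d e γ) e
        (tform k x0 x1 Y Z d e 0 (α + C κ * γ)) e =
      mu x (Curves (charts k x)) l ν (tform k x0 x1 Y Z d e κ α) e
        (yform k x0 x1 Y d e γ) e := by
  have h1 : tform k x0 x1 Y Z d e 0 (α + C κ * γ) =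
      tform k x0 x1 Y Z d e κ α + algebraMap k F κ * yform k x0 x1 Y d e γ := by
    unfold tform yform
    rw [map_zero, map_add, map_mul, aeval_C]
    ring
  have hf := yform_mem (γ := γ) hC.h0 hC.h1 hC.hY hC.ne hde.le hγ
  have hg := tform_mem (κ := κ) (α := α) hC.h0 hC.h1 hC.hY hC.hZ hC.ne hde.le hα
  rw [← mu_symm hl hx hν hcop, h1]
  refine (mu_congr hcop fun V hV hpos => ?_).symm
  have hd := hl.disc V hV
  have hk := hl.base V hV
  have e1 : hat x V e (tform k x0 x1 Y Z d e κ α + algebraMap k F κ * yform k x0 x1 Y d e γ) =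
      hat x V e (tform k x0 x1 Y Z d e κ α) +
        algebraMap k F κ * hat x V e (yform k x0 x1 Y d e γ) := by
    unfold hat
    rw [add_div, mul_div_assoc]
  have h0 : res V (hat x V e (yform k x0 x1 Y d e γ)) = 0 := by
    rw [res_eq_zero_iff (hat_mem hd hk hx hf), ← ord_pos_iff hd (hat_ne hx V _ hcop.1),
      ord_hat hx hd _ hcop.1]
    exact hpos
  rw [e1, res_add (hat_mem hd hk hx hg) (mul_mem (hk κ) (hat_mem hd hk hx hf)),
    res_mul (hk κ) (hat_mem hd hk hx hf), h0, mul_zero, add_zero]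

/-- On a curve in `x0 = 0` the form `yform e γ` is `- γ_e x1 ^ e`. -/
theorem HO_Lam [IsAlgClosed k] (hS : SurfN k x) (hl : Forms k (Curves (charts k x)) l)
    (hrou : ∀ c : k, c ≠ 0 → ∃ N : ℕ, 0 < N ∧ c ^ N = 1)
    (hC : Coord k x x0 x1 Y Z d O₁ c₁) (hde : d < e) (hγ : γ.natDegree ≤ e)
    (hγ' : γ.coeff e ≠ 0) (hV : V ∈ Curves (charts k x)) (h0 : ¬ Gen k x V.toSubring x0) :
    Lam x l ν V (yform k x0 x1 Y d e γ) e = e * Lam x l ν V x1 1 := by
  have hx := hS.ne
  have hd := hl.disc V hV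
  have hk := hl.base V hV
  obtain ⟨h1, h2⟩ := curve_inf hS hC hV h0
  have hg := HE_gen_of_vh hS.ne hV hC.h1 h1 h2
  have hq : x0 / x1 ∈ V := hg.lin hk (mem_hom_one.1 hC.h0)
  have hq' : (x0 / x1)⁻¹ ∉ V := by
    rw [inv_div]
    exact fun h => h0 (hg.of_div (mem_hom_one.1 hC.h0) hC.ne h)
  have h3 : yform k x0 x1 Y d e γ / x1 ^ e = algebraMap k F (- γ.coeff e) + x0 / x1 *
      ((x0 / x1) ^ (e - d - 1) * (Y / x1 ^ d) -
        ∑ i ∈ Finset.range e, algebraMap k F (γ.coeff i) * (x0 / x1) ^ (e - 1 - i)) := by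
    have h4 : yform k x0 x1 Y d e γ / x1 ^ e = x0 ^ e * (Y / x0 ^ d) / x1 ^ e -
        x0 ^ e * aeval (x1 / x0) γ / x1 ^ e := by
      unfold yform
      ring
    rw [h4, HE_div hg.ne hC.ne hde, HE_split hg.ne hC.ne (by omega) hγ, map_neg]
    ring
  have hm : (x0 / x1) ^ (e - d - 1) * (Y / x1 ^ d) -
      ∑ i ∈ Finset.range e, algebraMap k F (γ.coeff i) * (x0 / x1) ^ (e - 1 - i) ∈ V :=
    V.toSubring.sub_mem (V.toSubring.mul_mem (V.toSubring.pow_mem hq _) (hg.div_mem hk hC.hY))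
      (HE_sum_mem (O := V.toSubring) hk hq γ e)
  have hc : (- γ.coeff e : k) ≠ 0 := neg_ne_zero.2 hγ'
  have hv0 : V.valuation (x0 / x1) < 1 := by
    by_contra h5
    refine hq' ?_
    have h6 : V.valuation (x0 / x1) = 1 :=
      le_antisymm ((V.valuation_le_one_iff _).2 hq) (not_lt.1 h5)
    rw [← V.valuation_le_one_iff, map_inv₀, h6, inv_one]
  have h4 : res V (yform k x0 x1 Y d e γ / x1 ^ e) = res V (algebraMap k F (- γ.coeff e)) := by
    rw [h3, res_add (hk _) (mul_mem hq hm), res_mul hq hm, (res_eq_zero_iff hq).2 hv0, zero_mul,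
      add_zero]
  have hym : yform k x0 x1 Y d e γ / x1 ^ e ∈ V := by
    rw [h3]
    exact add_mem (hk _) (mul_mem hq hm)
  have h5 : hat x V e (yform k x0 x1 Y d e γ) =
      yform k x0 x1 Y d e γ / x1 ^ e * hat x V 1 x1 ^ e := by
    unfold hat
    rw [zpow_one, zpow_natCast, div_pow]
    have := hx (idx x V)
    field_simp
  have h6 : hat x V 1 x1 ∈ V := by
    have := hat_mem hd hk hx hC.h1
    rwa [Nat.cast_one] at this
  have hv1 : V.valuation (hat x V 1 x1) = 1 := by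
    rw [← ord_eq_zero_iff hd (hat_ne hx V 1 h1), ord_hat hx hd 1 h1, h2]
  have hr1 : res V (hat x V 1 x1) ≠ 0 := (res_ne_zero_iff h6).2 hv1
  have hc0 : algebraMap k F (- γ.coeff e) ≠ 0 := by
    rwa [Ne, FaithfulSMul.algebraMap_eq_zero_iff]
  have hvc : V.valuation (algebraMap k F (- γ.coeff e)) = 1 := by
    refine le_antisymm ((V.valuation_le_one_iff _).2 (hk _)) ?_
    have h7 : V.valuation (algebraMap k F (- γ.coeff e))⁻¹ ≤ 1 := by
      rw [V.valuation_le_one_iff, ← map_inv₀]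
      exact hk _
    have h8 : (1 : V.ValueGroup) = V.valuation (algebraMap k F (- γ.coeff e)) *
        V.valuation (algebraMap k F (- γ.coeff e))⁻¹ := by
      rw [← map_mul, mul_inv_cancel₀ hc0, map_one]
    rw [h8]
    exact mul_le_of_le_one_right' h7
  have hrc : res V (algebraMap k F (- γ.coeff e)) ≠ 0 := (res_ne_zero_iff (hk _)).2 hvc
  have hlc : l V (res V (algebraMap k F (- γ.coeff e))) = 0 := by
    obtain ⟨N, hN, hN1⟩ := hrou _ hc
    refine hl.l_torsion hV hN ?_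
    rw [← res_pow (hk _), ← map_pow, hN1, map_one, res_one]
  unfold Lam
  rw [h5, res_mul hym (pow_mem h6 _), h4, res_pow h6, hl.mul V hV _ _ hrc (pow_ne_zero _ hr1), hlc,
    hl.l_pow hV hr1]
  push_cast
  ring

/-- HO3. For the two special members: `tform κ 0 = x0 ^ (e - d) (Z - κ Y)` and
`mu(x0, yform γ) = mu(x0, - γ_e x1 ^ e) = e mu(x0, x1)` (`mu_mul_left`, `mu_congr`, `mu_const`,
`curve_inf`). -/
theorem mu_special [IsAlgClosed k] (hS : SurfN k x) (hl : Forms k (Curves (charts k x)) l)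
    (hrou : ∀ c : k, c ≠ 0 → ∃ N : ℕ, 0 < N ∧ c ^ N = 1)
    (hC : Coord k x x0 x1 Y Z d O₁ c₁) (hde : d < e)
    (hp : PrimeForm k x d (Z - algebraMap k F κ * Y) V) (hγ : γ.natDegree ≤ e)
    (hγ' : γ.coeff e ≠ 0) :
    mu x (Curves (charts k x)) l ν (tform k x0 x1 Y Z d e κ 0) e (yform k x0 x1 Y d e γ) e =
      ((e : ℚ) - d) * (e * mu x (Curves (charts k x)) l ν x0 1 x1 1) +
        Lam x l ν V (yform k x0 x1 Y d e γ) e := by
  have hx := hS.ne
  have h1 : tform k x0 x1 Y Z d e κ 0 = x0 ^ (e - d) * (Z - algebraMap k F κ * Y) := by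
    unfold tform
    have h2 : x0 ^ e = x0 ^ (e - d) * x0 ^ d := by
      rw [← pow_add]
      exact congrArg _ (by omega)
    have h3 : x0 ^ d ≠ 0 := pow_ne_zero _ hC.ne
    rw [h2, map_zero]
    field_simp
    ring
  have h2 : ((e : ℕ) : ℤ) = ((e - d : ℕ) : ℤ) + d := by
    rw [Nat.cast_sub hde.le]
    ring
  have h3 : mu x (Curves (charts k x)) l ν x0 1 (yform k x0 x1 Y d e γ) e =
      e * mu x (Curves (charts k x)) l ν x0 1 x1 1 := by
    have h4 := mul_finsum_mem (s := Curves (charts k x))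
      (fun V => (vh x V 1 x0 : ℚ) * Lam x l ν V x1 1) (e : ℚ)
    unfold mu
    rw [h4]
    refine finsum_mem_congr rfl fun V hV => ?_
    by_cases h5 : vh x V 1 x0 = 0
    · rw [h5]
      push_cast
      ring
    · have h6 : ¬ Gen k x V.toSubring x0 := fun h => h5 (HE_vh_one hx hV h)
      rw [HO_Lam hS hl hrou hC hde hγ hγ' hV h6]
      ring
  have h4 : ∀ (m : ℕ) (g : F) (b : ℤ), mu x (Curves (charts k x)) l ν (x0 ^ m) m g b =
      m * mu x (Curves (charts k x)) l ν x0 1 g b := by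
    intro m g b
    have h5 := mul_finsum_mem (s := Curves (charts k x))
      (fun V => (vh x V 1 x0 : ℚ) * Lam x l ν V g b) (m : ℚ)
    unfold mu
    rw [h5]
    refine finsum_mem_congr rfl fun V hV => ?_
    have h6 := vh_zpow (x := x) (hl.disc V hV) 1 m hC.ne
    rw [zpow_natCast, one_mul] at h6
    rw [h6]
    push_cast
    ring
  rw [h1]
  have h5 := mu_mul_left (e := ν) hl hx (pow_ne_zero (e - d) hC.ne) hp.ne ((e - d : ℕ) : ℤ) (d : ℤ)
    (yform k x0 x1 Y d e γ) (e : ℤ)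
  rw [← h2] at h5
  rw [h5, h4, h3, mu_prime hp, Nat.cast_sub hde.le]

end Pool.Agent.Lib.MP_b197b4_ntK
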