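import Mathlib
import Pool.Agent.Lib.MP_b197b4_ntH.HC
import Pool.Agent.Lib.MP_b197b4_ntH.HC2
import Pool.Agent.Lib.MP_b197b4_ntH.HF
import Pool.Agent.Lib.MP_b197b4_ntH.HG
import Pool.Agent.Lib.MP_b197b4_ntH.HM
import Pool.Agent.Lib.MP_b197b4_ntH.HN
import Pool.Agent.Lib.MP_b197b4_ntH.HO

/-!
# MP_b197b4_nt, project K1, part KC: comparison of two prime forms of the same degree at a point
-/

set_option autoImplicit false

namespace Pool.Agent.Lib.MP_b197b4_ntK

open IsLocalRing Polynomial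

open MPb197b4P (fib cut ev3 RegPt Spl Good Core)

variable {k F : Type} [Field k] [Field F] [Algebra k F] {n : ℕ} {x : Fin (n + 1) → F}
  {x0 x1 Y Z : F} {d : ℕ} {O₁ : Subring F} {c₁ : k} {f : k[X][X][X]} {r : ℕ}
  {κ : k} {α γ : k[X]} {e : ℕ} {V : ValuationSubring F}
  {l : ∀ V : ValuationSubring F, ResidueField V → ℚ} {ν : ValuationSubring F → ℚ}

/-- elements which are not units -/
theorem HP_inMax_iff {O : Subring F} {u : F} (hu : u ∈ O) : InMax O u ↔ ¬ IsUnit (⟨u, hu⟩ : O) := by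
  constructor
  · rintro ⟨-, h⟩ h1
    obtain ⟨v, hv⟩ := isUnit_iff_exists_inv.1 h1
    exact h v.1 v.2 (congrArg Subtype.val hv)
  · intro h
    refine ⟨hu, fun v hv h1 => h (isUnit_iff_exists_inv.2 ⟨⟨v, hv⟩, Subtype.ext h1⟩)⟩

/-- the coordinates of `O₁` -/
theorem HP_coord (hC : Coord k x x0 x1 Y Z d O₁ c₁) : HasCoord k x x0 x1 Y Z d O₁ c₁ 0 0 := by
  obtain ⟨hα, hβ, h⟩ := hC.par₁
  obtain ⟨hα', hβ', h'⟩ := hC.par₂
  have h1 : InMax O₁ (x1 / x0 - algebraMap k F c₁) :=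
    (HP_inMax_iff hα).2 ((h _).1 (Ideal.subset_span (Set.mem_insert _ _)))
  have h2 : InMax O₁ (Z / x0 ^ d) :=
    (HP_inMax_iff hβ).2 ((h _).1 (Ideal.subset_span (Set.mem_insert_of_mem _ rfl)))
  have h3 : (⟨(Z - Y) / x0 ^ d, hβ'⟩ : O₁) ∈
      Ideal.span {(⟨x1 / x0 - algebraMap k F c₁, hα⟩ : O₁), ⟨Z / x0 ^ d, hβ⟩} :=
    (h _).2 ((h' _).1 (Ideal.subset_span (Set.mem_insert_of_mem _ rfl)))
  have h4 := Ideal.sub_mem _ (Ideal.subset_span (Set.mem_insert_of_mem _ rfl) :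
    (⟨Z / x0 ^ d, hβ⟩ : O₁) ∈ Ideal.span {(⟨x1 / x0 - algebraMap k F c₁, hα⟩ : O₁),
      ⟨Z / x0 ^ d, hβ⟩}) h3
  have h5 : Y / x0 ^ d = Z / x0 ^ d - (Z - Y) / x0 ^ d := by ring
  have h6 : InMax O₁ (Y / x0 ^ d) := by
    rw [h5]
    exact (HP_inMax_iff (O₁.sub_mem hβ hβ')).2 ((h _).1 h4)
  refine ⟨hC.pt, hC.gen, h1, ?_, ?_⟩
  · rw [map_zero, sub_zero]
    exact h6
  · rw [map_zero, sub_zero]
    exact h2

/-- `O₁` is the point with the coordinates `(c₁, 0, 0)` -/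
theorem HP_ptAt (hC : Coord k x x0 x1 Y Z d O₁ c₁) : ptAt k x x0 x1 Y Z d c₁ 0 0 = O₁ := by
  have h : ∃ O, HasCoord k x x0 x1 Y Z d O c₁ 0 0 := ⟨O₁, HP_coord hC⟩
  unfold ptAt
  rw [dif_pos h]
  have h1 := h.choose_spec
  have h2 := h1.cy
  have h3 := h1.cz
  rw [map_zero, sub_zero] at h2 h3
  exact hC.uni _ h1.pt h1.gen h1.cx h2 h3

open Classical in
/-- the number of the points of a split section -/
theorem HP_card [IsAlgClosed k] {m : ℕ} (hs : Spl f e m κ α γ) :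
    (cut f κ α γ).roots.toFinset.card = m := by
  rw [Multiset.toFinset_card_of_nodup (Polynomial.nodup_roots hs.sep), ← hs.num]
  exact (IsAlgClosed.splits _).natDegree_eq_card_roots.symm

/-- HP. PROOF: `f` (HC), `Core` with `E = {(0, 0), (1, 0)}`,
`G γ δ = mu(yform γ, tform 0 δ)` (`mu_member`), `g` from `lam_family` for the members with
`α_e ≠ 0` (`prime_tform`, `mu_prime`), and for `κ = 0, 1`, `α = 0` from `lam_special` and
`mu_special` (the constant `(e - d) e mu(x0, x1)` divided by `r e`, the number of the roots; it is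
the same for both); `Good` for the two special members: `fib_of_prime`, `top_zero`, `top_one`,
`simple_root`. At the end `ptAt (c₁, 0, 0) = O₁` by `uni`. -/
theorem compare [IsAlgClosed k] (hcore : Core k) (hS : SurfN k x)
    (hl : Forms k (Curves (charts k x)) l)
    (hrou : ∀ c : k, c ≠ 0 → ∃ N : ℕ, 0 < N ∧ c ^ N = 1)
    (hν : ∀ (f g : F) (a b : ℤ), f ≠ 0 → g ≠ 0 → LS x (Curves (charts k x)) l ν f a g b = 0)
    {V₁ V₂ : ValuationSubring F} (hC : Coord k x x0 x1 Y Z d O₁ c₁)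
    (p₁ : PrimeForm k x d Z V₁) (p₂ : PrimeForm k x d (Z - Y) V₂)
    {g₁ g₂ : Subring F → ℚ} (G₁ : Rep k x l ν V₁ g₁) (G₂ : Rep k x l ν V₂ g₂) :
    g₁ O₁ = g₂ O₁ := by
  classical
  obtain ⟨f, r, hE⟩ := exists_eqn hS hC
  have hr := eqn_two hS hC hE
  obtain ⟨e, -, hde, hc⟩ := hcore f r d ⟨hE.monic, hE.deg, hE.irr, hr,
    (by norm_num : 1 ≤ 2).trans hC.two, hE.wt⟩ 0
  -- the two special members
  have q₁ : PrimeForm k x d (Z - algebraMap k F 0 * Y) V₁ := by
    rw [map_zero, zero_mul, sub_zero]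
    exact p₁
  have q₂ : PrimeForm k x d (Z - algebraMap k F 1 * Y) V₂ := by
    rw [map_one, one_mul]
    exact p₂
  have m₁ : IsParam O₁ (x1 / x0 - algebraMap k F c₁) ((Z - algebraMap k F 0 * Y) / x0 ^ d) := by
    rw [map_zero, zero_mul, sub_zero]
    exact hC.par₁
  have m₂ : IsParam O₁ (x1 / x0 - algebraMap k F c₁) ((Z - algebraMap k F 1 * Y) / x0 ^ d) := by
    rw [map_one, one_mul]
    exact hC.par₂
  have z₁ : ∀ O ∈ Points (charts k x), NotZero x O 1 x0 ∨ NotZero x O 1 x1 ∨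
      NotZero x O d (Z - algebraMap k F 0 * Y) := by
    rw [map_zero, zero_mul, sub_zero]
    exact hC.noz₁
  have z₂ : ∀ O ∈ Points (charts k x), NotZero x O 1 x0 ∨ NotZero x O 1 x1 ∨
      NotZero x O d (Z - algebraMap k F 1 * Y) := by
    rw [map_one, one_mul]
    exact hC.noz₂
  obtain ⟨i₁, v₁⟩ := fib_of_prime hS hC hE 0 (top_zero hS hC hE) q₁ m₁
  obtain ⟨i₂, v₂⟩ := fib_of_prime hS hC hE 1 (top_one hS hC hE) q₂ m₂
  have s₁ := simple_root hS hC hE 0 m₁
  have s₂ := simple_root hS hC hE 1 m₂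
  let D := Curves (charts k x)
  let c₀ : ℚ := ((e : ℚ) - d) * (e * mu x D l ν x0 1 x1 1) / (r * e)
  -- the members with `α_e ≠ 0`
  have hgen : ∀ (κ : k) (α : k[X]), ∃ g : k × k → ℚ, α.coeff e ≠ 0 → α.natDegree ≤ e →
      Irreducible (fib f κ α) → (fib f κ α).natDegree = r → ∀ γ : k[X], Spl f e (r * e) κ α γ →
      mu x D l ν (tform k x0 x1 Y Z d e κ α) e (yform k x0 x1 Y d e γ) e =
        ∑ a ∈ (cut f κ α γ).roots.toFinset, g (a, γ.eval a) := by
    intro κ α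
    by_cases h : α.coeff e ≠ 0 ∧ α.natDegree ≤ e ∧ Irreducible (fib f κ α) ∧
        (fib f κ α).natDegree = r
    · obtain ⟨V, hV, hV'⟩ := prime_tform hS hC hE hde h.2.1 h.1 h.2.2.1
      obtain ⟨g, hg⟩ := lam_family (ν := ν) hS hl hrou hC hE hV' hde h.2.1 h.2.2.2 hr
      refine ⟨g, fun _ _ _ _ γ hs => ?_⟩
      rw [mu_prime hV]
      exact hg γ hs
    · exact ⟨fun _ => 0, fun h1 h2 h3 h4 => absurd ⟨h1, h2, h3, h4⟩ h⟩
  choose gg hgg using hgen
  let g : k → k[X] → k × k → ℚ := fun κ α P =>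
    if α = 0 then (if κ = 0 then g₁ (ptAt k x x0 x1 Y Z d P.1 P.2 (κ * P.2)) + c₀
      else g₂ (ptAt k x x0 x1 Y Z d P.1 P.2 (κ * P.2)) + c₀) else gg κ α P
  have he0 : (0 : ℚ) < r * e := by
    have h1 : (0 : ℚ) < r := by exact_mod_cast (by omega : 0 < r)
    have h2 : (0 : ℚ) < e := by exact_mod_cast (by omega : 0 < e)
    exact mul_pos h1 h2
  -- the special members
  have hspec : ∀ (κ : k) (V : ValuationSubring F) (h : Subring F → ℚ)
      (q : PrimeForm k x d (Z - algebraMap k F κ * Y) V)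
      (z : ∀ O ∈ Points (charts k x), NotZero x O 1 x0 ∨ NotZero x O 1 x1 ∨
        NotZero x O d (Z - algebraMap k F κ * Y))
      (v : IsFib k x x0 x1 Y Z d f κ 0 V) (R : Rep k x l ν V h) (γ : k[X])
      (hs : Spl f e (r * e) κ 0 γ),
      mu x D l ν (tform k x0 x1 Y Z d e κ 0) e (yform k x0 x1 Y d e γ) e =
        ∑ a ∈ (cut f κ 0 γ).roots.toFinset,
          (h (ptAt k x x0 x1 Y Z d a (γ.eval a) (κ * γ.eval a)) + c₀) := by
    intro κ V h q z v R γ hs
    have hγ' : γ.coeff e ≠ 0 := spl_coeff hE.deg hE.one ((by norm_num : 1 ≤ 2).trans hC.two) hE.wt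
      hde hs
    rw [mu_special hS hl hrou hC hde q hs.deg hγ', lam_special hS hC hE v q z R hde hs,
      Finset.sum_add_distrib, Finset.sum_const, HP_card hs, nsmul_eq_mul, Nat.cast_mul,
      mul_div_cancel₀ _ he0.ne', add_comm]
  have hG : ∀ κ α γ, Good f r e {((0 : k), (0 : k[X])), (1, 0)} κ α → Spl f e (r * e) κ α γ →
      mu x D l ν (yform k x0 x1 Y d e γ) e (tform k x0 x1 Y Z d e 0 (α + C κ * γ)) e =
        ∑ a ∈ (cut f κ α γ).roots.toFinset, g κ α (a, γ.eval a) := by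
    intro κ α γ hg hs
    have hne : α.coeff e ≠ 0 ∨ γ.coeff e ≠ 0 := by
      rcases hg.lead with h | h
      · exact Or.inl h
      · right
        have hα : α = 0 := by
          rcases h with h | h
          · exact (Prod.mk.inj h).2
          · exact (Prod.mk.inj h).2
        subst hα
        exact spl_coeff hE.deg hE.one ((by norm_num : 1 ≤ 2).trans hC.two) hE.wt hde hs
    have hcop := copr_member hS hC hE hr hde hg.deg hg.irr hg.top hs.deg hne
    rw [mu_member hS.ne hl hν hC hE hr hde hg.deg hs.deg hcop]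
    by_cases hα : α = 0
    · subst hα
      have hκ : κ = 0 ∨ κ = 1 := by
        rcases hg.lead with h | h
        · exact absurd (Polynomial.coeff_zero e) h
        · rcases h with h | h
          · exact Or.inl (Prod.mk.inj h).1
          · exact Or.inr (Prod.mk.inj h).1
      rcases hκ with rfl | rfl
      · rw [hspec 0 V₁ g₁ q₁ z₁ v₁ G₁ γ hs]
        refine Finset.sum_congr rfl fun a _ => ?_
        simp only [g, if_true]
      · rw [hspec 1 V₂ g₂ q₂ z₂ v₂ G₂ γ hs]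
        refine Finset.sum_congr rfl fun a _ => ?_
        simp only [g, if_true, one_ne_zero, if_false]
    · have hlead : α.coeff e ≠ 0 := by
        rcases hg.lead with h | h
        · exact h
        · exfalso
          rcases h with h | h
          · exact hα (Prod.mk.inj h).2
          · exact hα (Prod.mk.inj h).2
      rw [hgg κ α hlead hg.deg hg.irr hg.top γ hs]
      refine Finset.sum_congr rfl fun a _ => ?_
      simp only [g, if_neg hα]
  have e₁ : Good f r e {((0 : k), (0 : k[X])), (1, 0)} 0 0 :=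
    ⟨by rw [natDegree_zero]; exact Nat.zero_le _, Or.inr (Set.mem_insert _ _), i₁, top_zero hS hC hE,
      fun h => s₁ (by rw [h, eval_zero, eval_zero])⟩
  have e₂ : Good f r e {((0 : k), (0 : k[X])), (1, 0)} 1 0 :=
    ⟨by rw [natDegree_zero]; exact Nat.zero_le _, Or.inr (Set.mem_insert_of_mem _ rfl), i₂,
      top_one hS hC hE, fun h => s₂ (by rw [h, eval_zero, eval_zero])⟩
  have h0 : ev3 f c₁ 0 0 = 0 := by
    have h1 := (ev_unit (HP_coord hC) f).2
    rw [(hE.ker f).2 dvd_rfl] at h1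
    refine h1.1 ⟨O₁.zero_mem, fun v _ h2 => ?_⟩
    rw [zero_mul] at h2
    exact zero_ne_one h2
  have hfin := hc {((0 : k), (0 : k[X])), (1, 0)}
    (fun γ δ => mu x D l ν (yform k x0 x1 Y d e γ) e (tform k x0 x1 Y Z d e 0 δ) e) g hG
    0 0 1 0 c₁ 0 0 e₁ e₂ (by simp) (by simp) h0 (Or.inl s₁) (Or.inl s₂)
  simp only [g, if_true, one_ne_zero, if_false, mul_zero, HP_ptAt hC] at hfin
  exact add_right_cancel hfin

end Pool.Agent.Lib.MP_b197b4_ntK
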