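import Mathlib
import Pool.Agent.Lib.MP_b197b4_ntH.HI
import Pool.Agent.Lib.MP_b197b4_ntK.FinN
import Pool.Agent.Lib.MP_b197b4_ntK.PtsN
import Pool.Agent.Lib.MP_b197b4_ntK.Avoid
import Pool.Agent.Lib.MP_b197b4_ntG.GenN

/-!
# MP_b197b4_nt, project K1, part KC: choice of the coordinates
-/

set_option autoImplicit false

namespace Pool.Agent.Lib.MP_b197b4_ntK

open IsLocalRing Polynomial

open MPb197b4P (fib cut ev3 RegPt Spl Good Core)

section Sub

variable {k F : Type} [Field k] [Field F] [Algebra k F] {n : ℕ} {x : Fin (n + 1) → F}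

/-- The elements of an ideal of `O` as a `k`-subspace of `F`. -/
def HQ_N (O : Subring F) (hk : ∀ c : k, algebraMap k F c ∈ O) (J : Ideal O) : Submodule k F where
  carrier := {z | ∃ h : z ∈ O, (⟨z, h⟩ : O) ∈ J}
  add_mem' := by
    rintro a b ⟨ha, ha'⟩ ⟨hb, hb'⟩
    exact ⟨O.add_mem ha hb, J.add_mem ha' hb'⟩
  zero_mem' := ⟨O.zero_mem, J.zero_mem⟩
  smul_mem' := by
    rintro c a ⟨ha, ha'⟩
    have h1 : c • a = algebraMap k F c * a := Algebra.smul_def c a
    have h2 : c • a ∈ O := by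
      rw [h1]
      exact O.mul_mem (hk c) ha
    refine ⟨h2, ?_⟩
    have h3 : (⟨c • a, h2⟩ : O) = ⟨algebraMap k F c, hk c⟩ * ⟨a, ha⟩ := Subtype.ext h1
    rw [h3]
    exact J.mul_mem_left _ ha'

theorem HQ_mem_N {O : Subring F} {hk : ∀ c : k, algebraMap k F c ∈ O} {J : Ideal O} {z : F} :
    z ∈ HQ_N O hk J ↔ ∃ h : z ∈ O, (⟨z, h⟩ : O) ∈ J := Iff.rfl

theorem HQ_N_mul {O : Subring F} {hk : ∀ c : k, algebraMap k F c ∈ O} {J : Ideal O} {z z' : F}
    (hz : z ∈ HQ_N O hk J) (hz' : z' ∈ HQ_N O hk J) : z * z' ∈ HQ_N O hk J := by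
  obtain ⟨h1, h2⟩ := hz
  obtain ⟨h3, h4⟩ := hz'
  refine ⟨O.mul_mem h1 h3, ?_⟩
  have h5 : (⟨z * z', O.mul_mem h1 h3⟩ : O) = ⟨z, h1⟩ * ⟨z', h3⟩ := rfl
  rw [h5]
  exact J.mul_mem_left _ h4

/-- The elements which are constant modulo `N`. -/
def HQ_C (N : Submodule k F) : Submodule k F where
  carrier := {y | ∃ c : k, y - algebraMap k F c ∈ N}
  add_mem' := by
    rintro a b ⟨c, hc⟩ ⟨c', hc'⟩
    refine ⟨c + c', ?_⟩
    have : a + b - algebraMap k F (c + c') = (a - algebraMap k F c) + (b - algebraMap k F c') := by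
      rw [map_add]
      ring
    rw [this]
    exact N.add_mem hc hc'
  zero_mem' := ⟨0, by rw [map_zero, sub_zero]; exact N.zero_mem⟩
  smul_mem' := by
    rintro c a ⟨c', hc'⟩
    refine ⟨c * c', ?_⟩
    have : c • a - algebraMap k F (c * c') = c • (a - algebraMap k F c') := by
      rw [map_mul, smul_sub, Algebra.smul_def c (algebraMap k F c')]
    rw [this]
    exact N.smul_mem c hc'

theorem HQ_mem_C {N : Submodule k F} {y : F} :
    y ∈ HQ_C N ↔ ∃ c : k, y - algebraMap k F c ∈ N := Iff.rfl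

/-- If the coordinates are constant modulo `N`, then all functions on the chart are. -/
theorem HQ_chart {N : Submodule k F} (hN : ∀ z ∈ N, ∀ z' ∈ N, z * z' ∈ N) {w : F}
    (h : ∀ j, x j / w ∈ HQ_C N) : ∀ a ∈ chartOf k x w, a ∈ HQ_C N := by
  intro a ha
  unfold chartOf at ha
  induction ha using Algebra.adjoin_induction with
  | mem y hy =>
    obtain ⟨j, rfl⟩ := hy
    exact h j
  | algebraMap c => exact ⟨c, by rw [sub_self]; exact N.zero_mem⟩
  | add y z _ _ h1 h2 => exact (HQ_C N).add_mem h1 h2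
  | mul y z _ _ h1 h2 =>
    obtain ⟨c, hc⟩ := h1
    obtain ⟨c', hc'⟩ := h2
    refine ⟨c * c', ?_⟩
    have : y * z - algebraMap k F (c * c') = (y - algebraMap k F c) * (z - algebraMap k F c') +
        (c • (z - algebraMap k F c') + c' • (y - algebraMap k F c)) := by
      rw [map_mul, Algebra.smul_def, Algebra.smul_def]
      ring
    rw [this]
    exact N.add_mem (hN _ hc _ hc') (N.add_mem (N.smul_mem _ hc') (N.smul_mem _ hc))

/-- Two points of a chart are separated by the linear forms. -/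
theorem HQ_separate {w : F} {O O' : Subring F} (hO : O ∈ Points (charts k x))
    (hO' : O' ∈ Points (charts k x)) (hx : ∀ i, x i ≠ 0) (hw : Gen k x O w) (hw' : Gen k x O' w)
    (hne : O' ≠ O) [IsLocalRing O] [IsLocalRing O'] :
    ¬ ∀ j, x j / w ∈ HQ_C (HQ_N O (point_over hO) (maximalIdeal O) ⊓
      HQ_N O' (point_over hO') (maximalIdeal O')) := by
  intro h
  have h1 := HQ_chart (k := k) (x := x) (N := HQ_N O (point_over hO) (maximalIdeal O) ⊓
      HQ_N O' (point_over hO') (maximalIdeal O'))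
    (fun z hz z' hz' => ⟨HQ_N_mul hz.1 hz'.1, HQ_N_mul hz.2 hz'.2⟩) h
  obtain ⟨m, hm, hmO⟩ := exists_isLoc hx hO hw
  obtain ⟨m', hm', hmO'⟩ := exists_isLoc hx hO' hw'
  haveI := hm.isPrime
  haveI := hm'.isPrime
  have h2 : m ≤ m' := by
    intro a ha
    obtain ⟨c, ⟨h3, h4⟩, ⟨h5, h6⟩⟩ := h1 a a.2
    have haO : (a : F) ∈ O := mem_of_isLoc hm.ne_top hmO a.2
    have haO' : (a : F) ∈ O' := mem_of_isLoc hm'.ne_top hmO' a.2
    -- the value of `a` at `O` is zero
    have h7 : (⟨a, haO⟩ : O) ∈ maximalIdeal O := by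
      rw [mem_maximalIdeal, mem_nonunits_iff]
      have h8 := isUnit_locSub_iff m a
      have h9 := isLoc_iff.1 hmO
      subst h9
      intro h10
      exact (h8.1 h10) ha
    have hc : c = 0 := by
      by_contra hc
      have h8 : (⟨algebraMap k F c, point_over hO c⟩ : O) ∈ maximalIdeal O := by
        have : (⟨algebraMap k F c, point_over hO c⟩ : O) =
            ⟨a, haO⟩ - ⟨a - algebraMap k F c, h3⟩ := by
          apply Subtype.ext
          change algebraMap k F c = (a : F) - (a - algebraMap k F c)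
          ring
        rw [this]
        exact (maximalIdeal O).sub_mem h7 h4
      rw [mem_maximalIdeal, mem_nonunits_iff] at h8
      apply h8
      refine (isUnit_iff_inv _).2 ⟨?_, ?_⟩
      · change algebraMap k F c ≠ 0
        rwa [Ne, map_eq_zero]
      · change (algebraMap k F c)⁻¹ ∈ O
        rw [← map_inv₀]
        exact point_over hO c⁻¹
    subst hc
    have h8 : (⟨a, haO'⟩ : O') ∈ maximalIdeal O' := by
      have : (⟨a, haO'⟩ : O') = ⟨a - algebraMap k F 0, h5⟩ := by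
        apply Subtype.ext
        change (a : F) = a - algebraMap k F 0
        rw [map_zero, sub_zero]
      rw [this]
      exact h6
    by_contra ham
    rw [mem_maximalIdeal, mem_nonunits_iff] at h8
    apply h8
    have h9 := isUnit_locSub_iff m' a
    have h10 := isLoc_iff.1 hmO'
    subst h10
    exact h9.2 ham
  have h3 : m = m' := hm.eq_of_le hm'.ne_top h2
  subst h3
  exact hne ((isLoc_iff.1 hmO').trans (isLoc_iff.1 hmO).symm)

/-- If the coordinates are constant modulo `J`, then all elements of `O` are. -/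
theorem HQ_loc {w : F} {O : Subring F} (hO : O ∈ Points (charts k x)) (hx : ∀ i, x i ≠ 0)
    (hw : Gen k x O w) [IsLocalRing O] {J : Ideal O} (hJ : J ≤ maximalIdeal O)
    (h : ∀ j, x j / w ∈ HQ_C (HQ_N O (point_over hO) J)) (y : O) :
    ∃ c : k, y - ⟨algebraMap k F c, point_over hO c⟩ ∈ J := by
  have h1 := HQ_chart (k := k) (x := x) (N := HQ_N O (point_over hO) J)
    (fun z hz z' hz' => HQ_N_mul hz hz') h
  obtain ⟨m, hm, hmO⟩ := exists_isLoc hx hO hw
  haveI := hm.isPrime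
  obtain ⟨a, s, hs, hy⟩ := (hmO y).1 y.2
  obtain ⟨c, h2, h3⟩ := h1 a a.2
  obtain ⟨c', h4, h5⟩ := h1 s s.2
  have haO : (a : F) ∈ O := mem_of_isLoc hm.ne_top hmO a.2
  have hsO : (s : F) ∈ O := mem_of_isLoc hm.ne_top hmO s.2
  have hs0 := coe_ne_zero_of_notMem hs
  have hsu : IsUnit (⟨s, hsO⟩ : O) := by
    refine (isUnit_iff_inv _).2 ⟨hs0, ?_⟩
    change (s : F)⁻¹ ∈ O
    refine (hmO _).2 ⟨1, s, hs, ?_⟩
    simp
  have hc' : c' ≠ 0 := by
    intro hc'
    apply (mem_maximalIdeal _).1 (hJ h5) 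
    have : (⟨(s : F) - algebraMap k F c', h4⟩ : O) = ⟨s, hsO⟩ := by
      apply Subtype.ext
      change (s : F) - algebraMap k F c' = s
      rw [hc', map_zero, sub_zero]
    rw [this]
    exact hsu
  have hcu : IsUnit (⟨algebraMap k F c', point_over hO c'⟩ : O) := by
    refine (isUnit_iff_inv _).2 ⟨?_, ?_⟩
    · change algebraMap k F c' ≠ 0
      rwa [Ne, map_eq_zero]
    · change (algebraMap k F c')⁻¹ ∈ O
      rw [← map_inv₀]
      exact point_over hO c'⁻¹
  refine ⟨c / c', ?_⟩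
  obtain ⟨u, hu⟩ := (hsu.mul hcu).exists_right_inv
  have hu' : (s : F) * algebraMap k F c' * u = 1 := congrArg Subtype.val hu
  have hck : algebraMap k F c' ≠ 0 := by rwa [Ne, map_eq_zero]
  have h6 : y - ⟨algebraMap k F (c / c'), point_over hO (c / c')⟩ =
      u * ((⟨algebraMap k F c', point_over hO c'⟩ : O) * ⟨(a : F) - algebraMap k F c, h2⟩ -
        (⟨algebraMap k F c, point_over hO c⟩ : O) * ⟨(s : F) - algebraMap k F c', h4⟩) := by
    apply Subtype.ext
    change (y : F) - algebraMap k F (c / c') = (u : F) * (algebraMap k F c' *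
      ((a : F) - algebraMap k F c) - algebraMap k F c * ((s : F) - algebraMap k F c'))
    have h7 : (u : F) = ((s : F) * algebraMap k F c')⁻¹ := eq_inv_of_mul_eq_one_right hu'
    rw [h7, hy, map_div₀]
    field_simp
    ring
  rw [h6]
  exact J.mul_mem_left _ (J.sub_mem (J.mul_mem_left _ h3) (J.mul_mem_left _ h5))

/-- The functions `v / w - c` give a parameter of a regular curve through `O`. -/
theorem HQ_param_exists {w : F} {O : Subring F} {V : ValuationSubring F}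
    (hO : O ∈ Points (charts k x)) (hx : ∀ i, x i ≠ 0)
    (hw : Gen k x O w) [IsLocalRing O] (hV : V ∈ CurvesAt O)
    [hD : IsDiscreteValuationRing (curveLoc O V)] :
    ¬ ∀ j, x j / w ∈ HQ_C (HQ_N O (point_over hO)
      ((maximalIdeal (curveLoc O V) ^ 2).comap (toCurveLoc hV))) := by
  intro h
  obtain ⟨ϖ, hϖ⟩ := IsDiscreteValuationRing.exists_irreducible (curveLoc O V)
  have hm := hϖ.maximalIdeal_eq
  have hJ : (maximalIdeal (curveLoc O V) ^ 2).comap (toCurveLoc hV) ≤ maximalIdeal O := by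
    intro a ha
    rw [mem_maximalIdeal, mem_nonunits_iff]
    intro hu
    have h1 : toCurveLoc hV a ∈ maximalIdeal (curveLoc O V) :=
      Ideal.pow_le_self two_ne_zero (Ideal.mem_comap.1 ha)
    exact (mem_maximalIdeal _).1 h1 (hu.map (toCurveLoc hV))
  obtain ⟨y, hy⟩ := toCurveLoc_surjective hV ϖ
  obtain ⟨c, hc⟩ := HQ_loc hO hx hw hJ h y
  rw [Ideal.mem_comap, map_sub, hy] at hc
  have h1 : toCurveLoc hV ⟨algebraMap k F c, point_over hO c⟩ ∈ maximalIdeal (curveLoc O V) := by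
    have h2 : ϖ ∈ maximalIdeal (curveLoc O V) := by
      rw [hm]
      exact Ideal.mem_span_singleton_self ϖ
    have h3 := (maximalIdeal (curveLoc O V)).sub_mem h2 (Ideal.pow_le_self two_ne_zero hc)
    rwa [sub_sub_cancel] at h3
  have hc0 : c = 0 := by
    by_contra hc0
    have h2 : IsUnit (⟨algebraMap k F c, point_over hO c⟩ : O) := by
      refine (isUnit_iff_inv _).2 ⟨?_, ?_⟩
      · change algebraMap k F c ≠ 0
        rwa [Ne, map_eq_zero]
      · change (algebraMap k F c)⁻¹ ∈ O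
        rw [← map_inv₀]
        exact point_over hO c⁻¹
    exact (mem_maximalIdeal _).1 h1 (h2.map (toCurveLoc hV))
  subst hc0
  have h4 : (⟨algebraMap k F 0, point_over hO 0⟩ : O) = 0 := Subtype.ext (map_zero _)
  rw [h4, map_zero, sub_zero, hm, Ideal.span_singleton_pow, Ideal.mem_span_singleton] at hc
  obtain ⟨z, hz⟩ := hc
  have h5 : ϖ * (1 - ϖ * z) = 0 := by
    have h6 : ϖ * (1 - ϖ * z) = ϖ - ϖ ^ 2 * z := by ring
    rw [h6, ← hz, sub_self]
  rcases mul_eq_zero.1 h5 with h6 | h6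
  · exact hϖ.ne_zero h6
  · exact hϖ.not_isUnit (IsUnit.of_mul_eq_one z (sub_eq_zero.1 h6).symm)

/-- A parameter of the curve and the equation of the curve generate the maximal ideal. -/
theorem HQ_isParam {O : Subring F} {V : ValuationSubring F} [IsLocalRing O] (hV : V ∈ CurvesAt O)
    [hD : IsDiscreteValuationRing (curveLoc O V)] {α β : F} (hα : α ∈ O)
    (h1 : (⟨α, hα⟩ : O) ∈ maximalIdeal O)
    (h2 : (⟨α, hα⟩ : O) ∉ (maximalIdeal (curveLoc O V) ^ 2).comap (toCurveLoc hV))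
    (hβ : GenAt O {V} β) : IsParam O α β := by
  have hOV : (O : Set F) ⊆ V := fun a ha => hV.2.1 a ha
  have hβm : (⟨β, hβ.mem⟩ : O) ∈ maximalIdeal O := by
    rw [mem_maximalIdeal, mem_nonunits_iff]
    intro hu
    have h3 : V.valuation β = 1 := CurvesAt.isUnit hV hu
    have h4 := hβ.lt V rfl hOV
    rw [h3] at h4
    exact lt_irrefl _ h4
  refine ⟨hα, hβ.mem, fun y => ⟨fun hy => ?_, fun hy => ?_⟩⟩
  · have h3 : Ideal.span {(⟨α, hα⟩ : O), ⟨β, hβ.mem⟩} ≤ maximalIdeal O := by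
      rw [Ideal.span_le]
      rintro z (rfl | hz)
      · exact h1
      · rw [Set.mem_singleton_iff.1 hz]
        exact hβm
    exact (mem_maximalIdeal _).1 (h3 hy)
  · have hsurj := toCurveLoc_surjective hV
    have hloc : ∀ z : O, z ∈ maximalIdeal O → toCurveLoc hV z ∈ maximalIdeal (curveLoc O V) := by
      intro z hz
      rw [mem_maximalIdeal, mem_nonunits_iff]
      intro hu
      obtain ⟨c, hc⟩ := hu.exists_right_inv
      obtain ⟨b, rfl⟩ := hsurj c
      rw [← map_mul, ← map_one (toCurveLoc hV), ← sub_eq_zero, ← map_sub] at hc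
      have h3 : V.valuation ((z * b - 1 : O) : F) < 1 := by
        rw [← res_eq_zero_iff (hV.2.1 _ (z * b - 1).2)]
        exact congrArg Subtype.val hc
      have h4 : IsUnit (z * b - 1) := by
        have h5 : IsUnit (1 - z * b) :=
          isUnit_of_mem_nonunits_one_sub_self _ (by
            have : 1 - (1 - z * b) = z * b := by ring
            rw [this]
            exact (maximalIdeal O).mul_mem_right b hz)
        have h6 : z * b - 1 = -(1 - z * b) := by ring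
        rw [h6]
        exact h5.neg
      rw [CurvesAt.isUnit hV h4] at h3
      exact lt_irrefl _ h3
    obtain ⟨ϖ, hϖ⟩ := IsDiscreteValuationRing.exists_irreducible (curveLoc O V)
    have hm := hϖ.maximalIdeal_eq
    have hαm := hloc _ h1
    rw [hm, Ideal.mem_span_singleton] at hαm
    obtain ⟨u, hu⟩ := hαm
    have huu : IsUnit u := by
      by_contra huu
      have h3 : u ∈ maximalIdeal (curveLoc O V) := (mem_maximalIdeal _).2 huu
      rw [hm, Ideal.mem_span_singleton] at h3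
      obtain ⟨v, rfl⟩ := h3
      apply h2
      rw [Ideal.mem_comap, hu, hm, Ideal.span_singleton_pow, Ideal.mem_span_singleton]
      exact ⟨v, by ring⟩
    have hym := hloc y ((mem_maximalIdeal _).2 hy)
    rw [hm, Ideal.mem_span_singleton] at hym
    obtain ⟨v, hv⟩ := hym
    obtain ⟨u', hu'⟩ := huu.exists_right_inv
    obtain ⟨b, hb⟩ := hsurj (u' * v)
    have h3 : toCurveLoc hV (y - ⟨α, hα⟩ * b) = 0 := by
      rw [map_sub, map_mul, hb, hu, hv]
      calc ϖ * v - ϖ * u * (u' * v) = ϖ * v * (1 - u * u') := by ring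
        _ = 0 := by rw [hu', sub_self, mul_zero]
    have h4 : V.valuation ((y - ⟨α, hα⟩ * b : O) : F) < 1 := by
      rw [← res_eq_zero_iff (hV.2.1 _ (y - ⟨α, hα⟩ * b).2)]
      exact congrArg Subtype.val h3
    obtain ⟨c, hc, hc'⟩ := hβ.gen _ (y - ⟨α, hα⟩ * b : O).2
      (fun V' hV' _ => by rw [Set.mem_singleton_iff.1 hV']; exact h4)
    rw [Ideal.mem_span_pair]
    refine ⟨b, ⟨c, hc⟩, ?_⟩
    apply Subtype.ext
    have h5 : (y : F) - α * b = c * β := hc'
    change (b : F) * α + c * β = y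
    rw [← h5]
    ring

end Sub

section Main

variable {k F : Type} [Field k] [Field F] [Algebra k F] {n : ℕ} {x : Fin (n + 1) → F}

/-- The order of a form on a curve does not depend on the generator. -/
theorem HQ_ord (hx : ∀ i, x i ≠ 0) {V : ValuationSubring F} (hV : V ∈ Curves (charts k x))
    {w : F} (hw : Gen k x V.toSubring w) (d : ℕ) {f : F} (hf : f ≠ 0) :
    ord V (f / w ^ d) = vh x V d f := by
  have hD : IsDiscreteValuationRing V := by
    obtain ⟨A, _, hA⟩ := hV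
    exact hA.1
  have hk : Over k V := curve_over hV
  have h1 : ord V w ≤ ord V (x (idx x V)) := by
    have h : x (idx x V) / w ∈ V := hw.le (idx x V)
    rw [← ord_nonneg_iff hD (div_ne_zero (hx _) hw.ne), ord_div hD (hx _) hw.ne] at h
    omega
  have h2 : ord V (x (idx x V)) ≤ ord V w := by
    have h3 : ∀ j, x j / x (idx x V) ∈ V.toSubring := by
      intro j
      show x j / x (idx x V) ∈ V
      rw [← ord_nonneg_iff hD (div_ne_zero (hx _) (hx _)), ord_div hD (hx _) (hx _)]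
      have := idx_le x V j
      omega
    have h : w / x (idx x V) ∈ V := lin_of_le (O := V.toSubring) hk h3 hw.mem
    rw [← ord_nonneg_iff hD (div_ne_zero hw.ne (hx _)), ord_div hD hw.ne (hx _)] at h
    omega
  unfold vh
  rw [ord_div hD hf (pow_ne_zero _ hw.ne), ord_pow hD hw.ne, le_antisymm h1 h2]

/-- A prime form generates the ideal of its curve at a regular point of the surface. -/
theorem HQ_genAt (hS : SurfN k x) {a : ℕ} {t : F} {V : ValuationSubring F}
    (ht : PrimeForm k x a t V) {O : Subring F} (hO : O ∈ Points (charts k x)) (hOg : Loc2 O)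
    (hOV : (O : Set F) ⊆ V) {w : F} (hw : Gen k x O w) : GenAt O {V} (t / w ^ a) := by
  have hk : ∀ c : k, algebraMap k F c ∈ O := point_over hO
  have hmem : t / w ^ a ∈ O := hw.div_mem hk ht.mem
  have hV : V ∈ CurvesAt O := (hS.curvesAt hO).1 ⟨ht.curve, hOV⟩
  have hgen : ∀ V' : ValuationSubring F, (O : Set F) ⊆ V' → Gen k x V'.toSubring w :=
    fun V' h => ⟨hw.mem, hw.ne, fun j => h (hw.le j)⟩
  have hy0 : t / w ^ a ≠ 0 := div_ne_zero ht.ne (pow_ne_zero _ hw.ne)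
  have hord : ord V (t / w ^ a) = 1 := by
    rw [HQ_ord hS.ne ht.curve (hgen V hOV) a ht.ne, ht.one]
  have hlt : V.valuation (t / w ^ a) < 1 := by
    rw [← ord_pos_iff hV.1 hy0, hord]
    exact one_pos
  refine ⟨hmem, fun V' hV' _ => ?_, fun z hz hzV => ?_⟩
  · rw [Set.mem_singleton_iff.1 hV']
    exact hlt
  have := hOg.ufd
  obtain ⟨p, hp, hpV⟩ := CurvesAt.exists_prime hOg hV
  have hp0 : (p : F) ≠ 0 := fun h => hp.ne_zero (Subtype.ext h)
  obtain ⟨y', hy'⟩ : p ∣ (⟨t / w ^ a, hmem⟩ : O) := (CurvesAt.dvd_iff hV hp hpV _).1 hlt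
  have hyF : t / w ^ a = (p : F) * (y' : F) := congrArg Subtype.val hy'
  have hy'0 : (y' : F) ≠ 0 := by
    intro h
    rw [h, mul_zero] at hyF
    exact hy0 hyF
  have hunit : IsUnit y' := by
    by_contra hnu
    obtain ⟨q, hq, hqy⟩ := WfDvdMonoid.exists_irreducible_factor hnu
      (fun h => hy'0 (congrArg Subtype.val h))
    have hqp : Prime q := UniqueFactorizationMonoid.irreducible_iff_prime.1 hq
    have hV' := locPrime_mem hOg hqp
    have hq1 : (locPrime hOg hqp).valuation (q : F) < 1 := locPrime_val_lt hOg hqp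
    obtain ⟨hc, hOV'⟩ := (hS.curvesAt hO).2 hV'
    have hlt' : (locPrime hOg hqp).valuation (t / w ^ a) < 1 := by
      have h := CurvesAt.lt_of_dvd hV' hq1 (hqy.trans (Dvd.intro_left p rfl))
      rw [hyF]
      exact_mod_cast h
    have hpos : 0 < ord (locPrime hOg hqp) (t / w ^ a) := (ord_pos_iff hV'.1 hy0).2 hlt'
    by_cases hVV : locPrime hOg hqp = V
    · rw [hVV] at hq1
      have h1 : V.valuation (y' : F) < 1 := CurvesAt.lt_of_dvd hV hq1 hqy
      have h2 := (ord_pos_iff hV.1 hy'0).2 h1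
      have h3 := (ord_pos_iff hV.1 hp0).2 hpV
      rw [hyF, ord_mul hV.1 hp0 hy'0] at hord
      omega
    · rw [HQ_ord hS.ne hc (hgen _ hOV') a ht.ne, ht.other _ hc hVV] at hpos
      exact lt_irrefl _ hpos
  obtain ⟨u, hu⟩ := hunit.exists_right_inv
  have hzlt : V.valuation ((⟨z, hz⟩ : O) : F) < 1 := hzV V rfl hOV
  obtain ⟨c, hc⟩ := (CurvesAt.dvd_iff hV hp hpV _).1 hzlt
  refine ⟨((c * u : O) : F), (c * u).2, ?_⟩
  have h1 : z = (p : F) * (c : F) := congrArg Subtype.val hc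
  have h2 : (y' : F) * (u : F) = 1 := congrArg Subtype.val hu
  rw [hyF, h1]
  push_cast
  calc (p : F) * (c : F) = (c : F) * (p : F) * 1 := by ring
    _ = (c : F) * (p : F) * ((y' : F) * (u : F)) := by rw [h2]
    _ = (c : F) * (u : F) * ((p : F) * (y' : F)) := by ring

theorem HQ_notZero {d : ℕ} {f : F} (hx : ∀ i, x i ≠ 0) {O : Subring F}
    (hO : O ∈ Points (charts k x)) (h : ¬ ZeroAt x O d f) : NotZero x O d f := by
  obtain ⟨i, hi⟩ := gen_of_point hx hO
  unfold ZeroAt at h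
  push Not at h
  obtain ⟨y, hy, h1⟩ := h i hi.le
  have h2 : f / x i ^ d ≠ 0 := right_ne_zero_of_mul_eq_one h1
  refine ⟨fun hf => h2 (by rw [hf, zero_div]), x i, hx i, hi.le, ?_⟩
  rw [← eq_inv_of_mul_eq_one_left h1]
  exact hy

theorem HQ_notZero_gen {O : Subring F} {w : F} (h : Gen k x O w) : NotZero x O 1 w := by
  refine ⟨h.ne, w, h.ne, h.le, ?_⟩
  rw [pow_one, div_self h.ne, inv_one]
  exact O.one_mem

/-- A form is zero at `O` if it is zero with respect to one generator. -/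
theorem HQ_zeroAt (hx : ∀ i, x i ≠ 0) {O : Subring F}
    (hO : O ∈ Points (charts k x)) {w : F} (hw : Gen k x O w) {d : ℕ} {f : F}
    (h : InMax O (f / w ^ d)) : ZeroAt x O d f := by
  obtain ⟨i, hi⟩ := gen_of_point hx hO
  refine ⟨i, hi.le, fun y hy h1 => ?_⟩
  have hk : ∀ c : k, algebraMap k F c ∈ O := point_over hO
  have h2 : w / x i ∈ O := hi.lin hk hw.mem
  refine h.2 (y * (w / x i) ^ d) (O.mul_mem hy (O.pow_mem h2 d)) ?_
  rw [← h1, div_pow]
  have := pow_ne_zero d hw.ne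
  have := pow_ne_zero d (hx i)
  field_simp

theorem HQ_inMax {O : Subring F} [IsLocalRing O] {u : F} :
    InMax O u ↔ ∃ h : u ∈ O, (⟨u, h⟩ : O) ∈ maximalIdeal O := by
  constructor
  · rintro ⟨h1, h2⟩
    refine ⟨h1, ?_⟩
    rw [mem_maximalIdeal, mem_nonunits_iff]
    intro hu
    obtain ⟨v, hv⟩ := hu.exists_right_inv
    exact h2 v v.2 (congrArg Subtype.val hv)
  · rintro ⟨h1, h2⟩
    refine ⟨h1, fun v hv h3 => ?_⟩
    rw [mem_maximalIdeal, mem_nonunits_iff] at h2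
    exact h2 (IsUnit.of_mul_eq_one ⟨v, hv⟩ (Subtype.ext h3))

/-- HQ. Choice of `x0`, `x1` for two prime forms (T_K1_KC, Choice). -/
theorem exists_coord {d : ℕ} {O₁ : Subring F} [IsAlgClosed k] (hS : SurfN k x) (hd : 2 ≤ d)
    {t₁ t₂ : F}
    {V₁ V₂ : ValuationSubring F} (p₁ : PrimeForm k x d t₁ V₁) (p₂ : PrimeForm k x d t₂ V₂)
    (hne : V₁ ≠ V₂) (hO : O₁ ∈ Points (charts k x)) (h₁ : (O₁ : Set F) ⊆ V₁)
    (h₂ : (O₁ : Set F) ⊆ V₂) (r₁ : GoodAt O₁ V₁) (r₂ : GoodAt O₁ V₂) :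
    ∃ x0 x1 c₁, Coord k x x0 x1 (t₁ - t₂) t₁ d O₁ c₁ := by
  classical
  haveI : Infinite k := IsAlgClosed.instInfinite
  have hx := hS.ne
  have hdisc : ∀ V ∈ Curves (charts k x), IsDiscreteValuationRing V := by
    rintro V ⟨A, _, hA⟩
    exact hA.1
  have hfin : ∀ f : F, f ≠ 0 → {V | V ∈ Curves (charts k x) ∧ ord V f ≠ 0}.Finite :=
    fun f hf => hS.curves_finite f hf
  have hy0 : t₁ - t₂ ≠ 0 := by
    intro h
    have h1 := p₁.other V₂ p₂.curve hne.symm
    rw [sub_eq_zero.1 h, p₂.one] at h1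
    exact one_ne_zero h1
  have hym : t₁ - t₂ ∈ hom k x d := Submodule.sub_mem _ p₁.mem p₂.mem
  -- the first coordinate
  obtain ⟨x0, hx0L, hx00, hx0V, hx0O, -⟩ := avoid (k := k) hx
    (S := ({V | V ∈ Curves (charts k x) ∧ vh x V d t₁ ≠ 0} ∪
      {V | V ∈ Curves (charts k x) ∧ vh x V d t₂ ≠ 0}) ∪
      {V | V ∈ Curves (charts k x) ∧ vh x V d (t₁ - t₂) ≠ 0})
    (((vh_finite hfin hx d p₁.ne).union (vh_finite hfin hx d p₂.ne)).union
      (vh_finite hfin hx d hy0))
    (by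
      rintro V ((hV | hV) | hV)
      · exact hV.1
      · exact hV.1
      · exact hV.1)
    (T := {O₁}) (Set.finite_singleton _) (by
      rintro O hO'
      rw [Set.mem_singleton_iff.1 hO']
      exact hO)
    (U := ∅) Set.finite_empty (fun u hu => absurd hu (Set.notMem_empty u))
  have hcop : ∀ s : F, s ≠ 0 → s ∈ hom k x d →
      (∀ V ∈ Curves (charts k x), vh x V d s ≠ 0 → ∀ j, x j / x0 ∈ V) →
      Copr x (Curves (charts k x)) x0 1 s d := by
    intro s hs hsd hV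
    refine ⟨hx00, hs, fun V hVC => ⟨?_, ?_, ?_⟩⟩
    · exact vh_nonneg (hdisc V hVC) (curve_over hVC) hx (mem_hom_one.2 hx0L) hx00
    · exact vh_nonneg (hdisc V hVC) (curve_over hVC) hx hsd hs
    · by_cases h0 : vh x V d s = 0
      · exact Or.inr h0
      · left
        have hg : Gen k x V.toSubring x0 := ⟨hx0L, hx00, hV V hVC h0⟩
        have h3 := HQ_ord hx hVC hg 1 hx00
        rw [pow_one, div_self hx00, ord_one V (hdisc V hVC)] at h3
        exact_mod_cast h3.symm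
  have hc₁ := hcop t₁ p₁.ne p₁.mem fun V hV h => hx0V V (Or.inl (Or.inl ⟨hV, h⟩))
  have hc₂ := hcop t₂ p₂.ne p₂.mem fun V hV h => hx0V V (Or.inl (Or.inr ⟨hV, h⟩))
  have hc₃ := hcop (t₁ - t₂) hy0 hym fun V hV h => hx0V V (Or.inr ⟨hV, h⟩)
  have hgO : Gen k x O₁ x0 := ⟨hx0L, hx00, hx0O O₁ rfl⟩
  -- the points
  have hT₁ := hS.zero_finite (mem_hom_one.2 hx0L) p₁.mem (by exact_mod_cast hc₁)
  have hT₂ := hS.zero_finite (mem_hom_one.2 hx0L) p₂.mem (by exact_mod_cast hc₂)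
  have hT₃ := hS.zero_finite (mem_hom_one.2 hx0L) hym (by exact_mod_cast hc₃)
  have hc₄ : Copr x (Curves (charts k x)) t₁ d t₂ d := by
    refine ⟨p₁.ne, p₂.ne, fun V hVC => ⟨?_, ?_, ?_⟩⟩
    · exact vh_nonneg (hdisc V hVC) (curve_over hVC) hx p₁.mem p₁.ne
    · exact vh_nonneg (hdisc V hVC) (curve_over hVC) hx p₂.mem p₂.ne
    · by_cases h : V = V₁
      · right
        exact p₂.other V hVC fun h' => hne (h.symm.trans h')
      · exact Or.inl (p₁.other V hVC h)
  have hT₄ := hS.zero_finite p₁.mem p₂.mem hc₄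
  haveI hloc : IsLocalRing O₁ := hS.local hO
  have hVA₁ : V₁ ∈ CurvesAt O₁ := (hS.curvesAt hO).1 ⟨p₁.curve, h₁⟩
  have hVA₂ : V₂ ∈ CurvesAt O₁ := (hS.curvesAt hO).1 ⟨p₂.curve, h₂⟩
  haveI hd₁ : IsDiscreteValuationRing (curveLoc O₁ V₁) := r₁.2
  haveI hd₂ : IsDiscreteValuationRing (curveLoc O₁ V₂) := r₂.2
  -- the subspaces
  let μ : F →ₗ[k] F := LinearMap.mulRight k x0⁻¹
  have hμ : ∀ v, μ v = v / x0 := fun v => (div_eq_mul_inv v x0).symm
  have hsub : ∀ N : Submodule k F, (¬ ∀ j, x j / x0 ∈ HQ_C N) →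
      ¬ Submodule.span k (Set.range x) ≤ (HQ_C N).comap μ := by
    intro N hN hle
    apply hN
    intro j
    have := hle (x_mem_span x j)
    rwa [Submodule.mem_comap, hμ] at this
  let J : ∀ V : ValuationSubring F, V ∈ CurvesAt O₁ → IsLocalRing (curveLoc O₁ V) → Ideal O₁ :=
    fun V hV _ => (maximalIdeal (curveLoc O₁ V) ^ 2).comap (toCurveLoc hV)
  let U₁ := (HQ_C (HQ_N O₁ (point_over hO) (J V₁ hVA₁ inferInstance))).comap μ
  let U₂ := (HQ_C (HQ_N O₁ (point_over hO) (J V₂ hVA₂ inferInstance))).comap μ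
  have hU₁ : ¬ Submodule.span k (Set.range x) ≤ U₁ := hsub _ (HQ_param_exists hO hx hgO hVA₁)
  have hU₂ : ¬ Submodule.span k (Set.range x) ≤ U₂ := hsub _ (HQ_param_exists hO hx hgO hVA₂)
  let T₄ := {O | (O ∈ Points (charts k x) ∧ ZeroAt x O d t₁ ∧ ZeroAt x O d t₂) ∧
    Gen k x O x0 ∧ O ≠ O₁}
  have hT₄f : T₄.Finite := hT₄.subset fun O hO' => hO'.1
  let UO : Subring F → Submodule k F := fun O =>
    if h : O ∈ Points (charts k x) then
      haveI := hS.local h
      (HQ_C (HQ_N O₁ (point_over hO) (maximalIdeal O₁) ⊓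
        HQ_N O (point_over h) (maximalIdeal O))).comap μ
    else ⊥
  have hUO : ∀ O ∈ T₄, ¬ Submodule.span k (Set.range x) ≤ UO O := by
    rintro O ⟨⟨hO', _, _⟩, hg, hneO⟩
    haveI := hS.local hO'
    have h1 := hsub _ (HQ_separate hO hO' hx hgO hg hneO)
    simp only [UO, dif_pos hO']
    exact h1
  -- the second coordinate
  obtain ⟨x1, hx1L, hx10, -, hx1T, hx1U⟩ := avoid (k := k) hx
    (S := ∅) Set.finite_empty (fun V hV => absurd hV (Set.notMem_empty V))
    (T := ({O | O ∈ Points (charts k x) ∧ ZeroAt x O 1 x0 ∧ ZeroAt x O d t₁} ∪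
      {O | O ∈ Points (charts k x) ∧ ZeroAt x O 1 x0 ∧ ZeroAt x O d t₂}) ∪
      {O | O ∈ Points (charts k x) ∧ ZeroAt x O 1 x0 ∧ ZeroAt x O d (t₁ - t₂)})
    ((hT₁.union hT₂).union hT₃) (by
      rintro O ((h | h) | h)
      · exact h.1
      · exact h.1
      · exact h.1)
    (U := (UO '' T₄) ∪ {U₁, U₂}) ((hT₄f.image _).union (Set.toFinite _)) (by
      rintro u (⟨O, hO', rfl⟩ | rfl | hu)
      · exact hUO O hO'
      · exact hU₁
      · rw [Set.mem_singleton_iff.1 hu]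
        exact hU₂)
  -- the value of `x1 / x0` at `O₁`
  have hx1O : x1 / x0 ∈ O₁ := hgO.lin (point_over hO) hx1L
  obtain ⟨c, hc⟩ := hS.residue hO (⟨x1 / x0, hx1O⟩ : O₁)
  have hcO : x1 / x0 - algebraMap k F c ∈ O₁ := O₁.sub_mem hx1O (point_over hO c)
  have hc' : (⟨x1 / x0 - algebraMap k F c, hcO⟩ : O₁) ∈ maximalIdeal O₁ := hc
  have hpar : ∀ (t : F) (V : ValuationSubring F) (hV : V ∈ CurvesAt O₁)
      (_ : IsDiscreteValuationRing (curveLoc O₁ V)), PrimeForm k x d t V → Loc2 O₁ →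
      (x1 ∉ (HQ_C (HQ_N O₁ (point_over hO) ((maximalIdeal (curveLoc O₁ V) ^ 2).comap
        (toCurveLoc hV)))).comap μ) →
      IsParam O₁ (x1 / x0 - algebraMap k F c) (t / x0 ^ d) := by
    intro t V hV hD p hL hU
    have hOV : (O₁ : Set F) ⊆ V := fun a ha => hV.2.1 a ha
    refine HQ_isParam hV hcO hc' ?_ (HQ_genAt hS p hO hL hOV hgO)
    intro h3
    apply hU
    rw [Submodule.mem_comap, hμ]
    exact ⟨c, hcO, h3⟩
  have hnozx : ∀ O ∈ Points (charts k x), ∀ s : F, (ZeroAt x O 1 x0 → ZeroAt x O d s →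
      Gen k x O x1) → NotZero x O 1 x0 ∨ NotZero x O 1 x1 ∨ NotZero x O d s := by
    intro O hO' s hs
    by_cases h3 : ZeroAt x O 1 x0
    · by_cases h4 : ZeroAt x O d s
      · exact Or.inr (Or.inl (HQ_notZero_gen (hs h3 h4)))
      · exact Or.inr (Or.inr (HQ_notZero hx hO' h4))
    · exact Or.inl (HQ_notZero hx hO' h3)
  refine ⟨x0, x1, c, ⟨hd, mem_hom_one.2 hx0L, mem_hom_one.2 hx1L, hym, p₁.mem, hx00, ?_, ?_, ?_,
    hO, hgO, ?_, ?_, ?_⟩⟩
  · intro O hO'
    exact hnozx O hO' _ fun h3 h4 => ⟨hx1L, hx10, hx1T O (Or.inr ⟨hO', h3, h4⟩)⟩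
  · intro O hO'
    exact hnozx O hO' _ fun h3 h4 => ⟨hx1L, hx10, hx1T O (Or.inl (Or.inl ⟨hO', h3, h4⟩))⟩
  · intro O hO'
    rw [sub_sub_cancel]
    exact hnozx O hO' _ fun h3 h4 => ⟨hx1L, hx10, hx1T O (Or.inl (Or.inr ⟨hO', h3, h4⟩))⟩
  · intro O hO' hg hm1 hmY hmZ
    by_contra hneO
    haveI := hS.local hO'
    have hz₁ : ZeroAt x O d t₁ := HQ_zeroAt hx hO' hg hmZ
    have hmt : InMax O (t₂ / x0 ^ d) := by
      obtain ⟨ha, ha'⟩ := HQ_inMax.1 hmZ
      obtain ⟨hb, hb'⟩ := HQ_inMax.1 hmY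
      have h3 : t₂ / x0 ^ d = t₁ / x0 ^ d - (t₁ - t₂) / x0 ^ d := by ring
      have h4 : t₂ / x0 ^ d ∈ O := by
        rw [h3]
        exact O.sub_mem ha hb
      refine HQ_inMax.2 ⟨h4, ?_⟩
      have h5 : (⟨t₂ / x0 ^ d, h4⟩ : O) = ⟨t₁ / x0 ^ d, ha⟩ - ⟨(t₁ - t₂) / x0 ^ d, hb⟩ :=
        Subtype.ext h3
      rw [h5]
      exact (maximalIdeal O).sub_mem ha' hb'
    have hz₂ : ZeroAt x O d t₂ := HQ_zeroAt hx hO' hg hmt
    have hmem : O ∈ T₄ := ⟨⟨hO', hz₁, hz₂⟩, hg, hneO⟩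
    apply hx1U (UO O) (Or.inl ⟨O, hmem, rfl⟩)
    simp only [UO, dif_pos hO']
    rw [Submodule.mem_comap, hμ]
    obtain ⟨ha, ha'⟩ := HQ_inMax.1 hm1
    exact ⟨c, ⟨hcO, hc'⟩, ⟨ha, ha'⟩⟩
  · exact hpar t₁ V₁ hVA₁ hd₁ p₁ r₁.1 (hx1U U₁ (Or.inr (Or.inl rfl)))
  · rw [sub_sub_cancel]
    exact hpar t₂ V₂ hVA₂ hd₂ p₂ r₂.1 (hx1U U₂ (Or.inr (Or.inr rfl)))

end Main

end Pool.Agent.Lib.MP_b197b4_ntK
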