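import Mathlib
import Pool.Agent.Lib.MP_b197b4_ntH.HI
import Pool.Agent.Lib.MP_b197b4_ntK.G56
import Pool.Agent.Lib.MP_b197b4_ntK.Pts

/-!
# MP_b197b4_nt, project K1, part KC: relations between forms on a curve
-/

set_option autoImplicit false
set_option linter.style.haveILetI false

namespace Pool.Agent.Lib.MP_b197b4_ntK

open IsLocalRing Polynomial

open MPb197b4P (fib cut ev3 RegPt Spl Good Core)

section HRA

variable {F : Type} [Field F] {O : Subring F} {V : ValuationSubring F}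

/-- At a regular point of a curve a function of order zero is regular. -/
theorem HR_mem (hO : Loc2 O) (hV : V ∈ CurvesAt O)
    (hd : IsDiscreteValuationRing (curveLoc O V)) {u : ResidueField V} (hu : u ≠ 0)
    (h : len (curveLoc O V) u = 0) : u ∈ curveLoc O V := by
  rw [len_curveLoc hO hV hu] at h
  obtain ⟨n, a, s, ha, hs, hc, hn⟩ := hasLenO_exists hV hu
  have ha0 := (res_ne_zero_iff (mem_of_val_one ha)).2 ha
  have hs0 := (res_ne_zero_iff (mem_of_val_one hs)).2 hs
  have hcoe : ∀ b : O, ((toCurveLoc hV b : curveLoc O V) : ResidueField V) = res V (b : F) :=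
    fun _ => rfl
  rcases ValuationRing.dvd_total (toCurveLoc hV s) (toCurveLoc hV a) with ⟨g, hg⟩ | ⟨g, hg⟩
  · have h1 : res V (a : F) = res V (s : F) * (g : ResidueField V) := by
      have := congrArg (Subtype.val : curveLoc O V → ResidueField V) hg
      exact this
    rw [hc, h1, mul_div_cancel_left₀ _ hs0]
    exact g.2
  · have h1 : res V (s : F) = res V (a : F) * (g : ResidueField V) := by
      have := congrArg (Subtype.val : curveLoc O V → ResidueField V) hg
      exact this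
    have hg0 : (g : ResidueField V) ≠ 0 := by
      intro h0
      rw [h0, mul_zero] at h1
      exact hs0 h1
    have h2 : u = (g : ResidueField V)⁻¹ := by
      rw [hc, h1]
      field_simp
    obtain ⟨b, rfl⟩ := toCurveLoc_surjective hV g
    rw [hcoe] at hg0 h2
    have hb : V.valuation (b : F) = 1 := (res_ne_zero_iff (hV.2.1 b b.2)).1 hg0
    rw [h2, lenAt_inv hO hV hg0, lenAt_res hO hV hb] at h
    have h3 : (Module.length O (O ⧸ (ctr O V ⊔ Ideal.span {b}))).toNat = 0 := by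
      unfold lenO at h
      omega
    have h4 : Module.length O (O ⧸ (ctr O V ⊔ Ideal.span {b})) = 0 := by
      rcases ENat.toNat_eq_zero.1 h3 with h5 | h5
      · exact h5
      · exact absurd h5 (length_ne_top hO hV hb)
    rw [← length_curveLoc hO hV b, Module.length_eq_zero_iff, Ideal.Quotient.subsingleton_iff,
      Ideal.span_singleton_eq_top] at h4
    obtain ⟨c, hc2⟩ := h4.exists_right_inv
    have h5 : res V (b : F) * (c : ResidueField V) = 1 :=
      congrArg (Subtype.val : curveLoc O V → ResidueField V) hc2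
    rw [h2, inv_eq_of_mul_eq_one_right h5]
    exact c.2

theorem HR_zpow {L : Type} [Field L] {B : Subring L} {t : L} (h : t ∈ B) (h' : t⁻¹ ∈ B) (m : ℤ) :
    t ^ m ∈ B := by
  cases m with
  | ofNat m => simpa using pow_mem h m
  | negSucc m =>
    rw [zpow_negSucc, ← inv_pow]
    exact pow_mem h' _

theorem HR_len_prod (hO : Loc2 O) (hV : V ∈ CurvesAt O) {ι : Type} (T : Finset ι)
    (t : ι → ResidueField V) (m : ι → ℤ) (h : ∀ i ∈ T, t i ≠ 0) :
    len (curveLoc O V) (∏ i ∈ T, t i ^ m i) = ∑ i ∈ T, m i * len (curveLoc O V) (t i) := by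
  classical
  have key : lenAt O V (∏ i ∈ T, t i ^ m i) = ∑ i ∈ T, m i * lenAt O V (t i) := by
    induction T using Finset.induction_on with
    | empty => simp [lenAt_one hO hV]
    | insert a T ha ih =>
      have h1 : ∀ i ∈ T, t i ≠ 0 := fun i hi => h i (Finset.mem_insert_of_mem hi)
      rw [Finset.prod_insert ha, Finset.sum_insert ha, lenAt_mul hO hV
        (zpow_ne_zero _ (h a (Finset.mem_insert_self a T)))
        (Finset.prod_ne_zero_iff.2 fun i hi => zpow_ne_zero _ (h1 i hi)), ih h1,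
        lenAt_zpow hO hV (h a (Finset.mem_insert_self a T))]
  rw [len_curveLoc hO hV (Finset.prod_ne_zero_iff.2 fun i hi => zpow_ne_zero _ (h i hi)), key]
  exact Finset.sum_congr rfl fun i hi => by rw [len_curveLoc hO hV (h i hi)]

end HRA

variable {k F : Type} [Field k] [Field F] [Algebra k F] {n : ℕ} {x : Fin (n + 1) → F}
  {x0 x1 Y Z : F} {d : ℕ} {O₁ : Subring F} {c₁ : k} {f : k[X][X][X]} {r : ℕ}
  {κ : k} {α γ : k[X]} {e : ℕ} {V : ValuationSubring F}
  {l : ∀ V : ValuationSubring F, ResidueField V → ℚ} {ν : ValuationSubring F → ℚ}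

/-- The product of the forms at a point: regular and invertible. -/
theorem HR_point (hS : SurfN k x) (hV : V ∈ Curves (charts k x))
    {ι : Type} (T : Finset ι) (b : ι → ℕ) (s : ι → F) (m : ι → ℤ)
    (hs : ∀ i ∈ T, s i ∈ hom k x (b i) ∧ s i ≠ 0 ∧ vh x V (b i) (s i) = 0 ∧
      RegZeros k x V (b i) (s i))
    {O : Subring F} (hO : O ∈ Points (charts k x)) (hOV : (O : Set F) ⊆ V)
    (hrel : ∑ i ∈ T, m i * lenH x O V (b i) (s i) = 0) {w : F} (hw : Gen k x O w) :
    (∀ i ∈ T, V.valuation (s i / w ^ b i) = 1) ∧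
      (∏ i ∈ T, res V (s i / w ^ b i) ^ m i) ∈ curveLoc O V ∧
      (∏ i ∈ T, res V (s i / w ^ b i) ^ m i)⁻¹ ∈ curveLoc O V := by
  classical
  have hdv := Curves.dvr hV
  have hk : ∀ c : k, algebraMap k F c ∈ O := point_over hO
  have hVO : V ∈ CurvesAt O := (curves_point (sep_charts hS.ne) hO V).1 ⟨hV, hOV⟩
  have hmemO : ∀ i ∈ T, s i / w ^ b i ∈ O := fun i hi => hw.div_mem hk (hs i hi).1
  -- the values on the curve
  have hval : ∀ i ∈ T, V.valuation (s i / w ^ b i) = 1 := by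
    intro i hi
    obtain ⟨h1, h2, h3, -⟩ := hs i hi
    have hIw : V.valuation (x (idx x V) / w) = 1 := by
      refine le_antisymm ((ValuationSubring.valuation_le_one_iff V _).2 (hOV (hw.le _))) ?_
      -- `w / x idx` is in `V`
      have h4 : w / x (idx x V) ∈ V := by
        have := hat_mem hdv (Curves.over hV) hS.ne (mem_hom_one.2 hw.mem)
        unfold hat at this
        rwa [Nat.cast_one, zpow_one] at this
      have h5 := (ValuationSubring.valuation_le_one_iff V _).2 h4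
      rw [← inv_div, map_inv₀] at h5
      exact (inv_le_one₀ (by rw [Valuation.pos_iff]; exact div_ne_zero (hS.ne _) hw.ne)).1 h5
    have h6 : V.valuation (hat x V (b i) (s i)) = 1 := by
      rw [← ord_eq_zero_iff hdv (hat_ne hS.ne V _ h2), ord_hat hS.ne hdv _ h2, h3]
    have h7 : s i / w ^ b i = hat x V (b i) (s i) * (x (idx x V) / w) ^ b i := by
      unfold hat
      rw [zpow_natCast, div_pow, div_mul_div_cancel₀ (pow_ne_zero _ (hS.ne _))]
    rw [h7, map_mul, map_pow, h6, hIw, one_pow, mul_one]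
  have hne : ∀ i ∈ T, res V (s i / w ^ b i) ≠ 0 := fun i hi =>
    (res_ne_zero_iff (mem_of_val_one (hval i hi))).2 (hval i hi)
  have hmem : ∀ i ∈ T, res V (s i / w ^ b i) ∈ curveLoc O V := fun i hi =>
    (mem_curveLoc hVO _).2 ⟨⟨_, hmemO i hi⟩, rfl⟩
  refine ⟨hval, ?_⟩
  by_cases hall : ∀ i ∈ T, (s i / w ^ b i)⁻¹ ∈ O
  · have hinv : ∀ i ∈ T, (res V (s i / w ^ b i))⁻¹ ∈ curveLoc O V := by
      intro i hi
      rw [← res_inv (hval i hi)]
      exact (mem_curveLoc hVO _).2 ⟨⟨_, hall i hi⟩, rfl⟩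
    constructor
    · exact prod_mem fun i hi => HR_zpow (hmem i hi) (hinv i hi) _
    · rw [← Finset.prod_inv_distrib]
      refine prod_mem fun i hi => ?_
      rw [← zpow_neg]
      exact HR_zpow (hmem i hi) (hinv i hi) _
  · push Not at hall
    obtain ⟨i, hi, hi2⟩ := hall
    have hg : GoodAt O V := (hs i hi).2.2.2 O hO hOV w hw hi2
    have h1 : len (curveLoc O V) (∏ i ∈ T, res V (s i / w ^ b i) ^ m i) = 0 := by
      rw [HR_len_prod hg.1 hVO T _ m hne, ← hrel]
      refine Finset.sum_congr rfl fun j hj => ?_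
      rw [lenH_gen hS hO hV hOV hw (hs j hj).1 (hs j hj).2.1 (hs j hj).2.2.1]
    have h0 : (∏ i ∈ T, res V (s i / w ^ b i) ^ m i) ≠ 0 :=
      Finset.prod_ne_zero_iff.2 fun i hi => zpow_ne_zero _ (hne i hi)
    refine ⟨HR_mem hg.1 hVO hg.2 h0 h1, HR_mem hg.1 hVO hg.2 (inv_ne_zero h0) ?_⟩
    rw [len_curveLoc hg.1 hVO h0] at h1
    rw [len_curveLoc hg.1 hVO (inv_ne_zero h0), lenAt_inv hg.1 hVO h0, h1, neg_zero]

theorem HR_gen_val (hS : SurfN k x) (hV : V ∈ Curves (charts k x)) {O : Subring F}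
    (hOV : (O : Set F) ⊆ V) {w : F} (hw : Gen k x O w) : V.valuation (w / x (idx x V)) = 1 := by
  have hdv := Curves.dvr hV
  have h4 : w / x (idx x V) ∈ V := by
    have := hat_mem hdv (Curves.over hV) hS.ne (mem_hom_one.2 hw.mem)
    unfold hat at this
    rwa [Nat.cast_one, zpow_one] at this
  refine le_antisymm ((ValuationSubring.valuation_le_one_iff V _).2 h4) ?_
  have h5 := (ValuationSubring.valuation_le_one_iff V _).2 (hOV (hw.le (idx x V)))
  rw [← inv_div, map_inv₀] at h5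
  exact (inv_le_one₀ (by rw [Valuation.pos_iff]; exact div_ne_zero hw.ne (hS.ne _))).1 h5

theorem HR_prod {L : Type} [Field L] {ι : Type} (T : Finset ι) (b : ι → ℕ) (m : ι → ℤ)
    (t v : ι → L) {ρ : L} (hρ : ρ ≠ 0) (h : ∀ i ∈ T, v i = t i * ρ ^ b i) :
    ∏ i ∈ T, v i ^ m i = (∏ i ∈ T, t i ^ m i) * ρ ^ (∑ i ∈ T, m i * b i) := by
  classical
  induction T using Finset.induction_on with
  | empty => simp
  | insert a T ha ih =>
    rw [Finset.prod_insert ha, Finset.prod_insert ha, Finset.sum_insert ha,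
      ih (fun i hi => h i (Finset.mem_insert_of_mem hi)), h a (Finset.mem_insert_self a T),
      zpow_add₀ hρ, mul_zpow, ← zpow_natCast, ← zpow_mul, mul_comm (b a : ℤ) (m a)]
    ring

theorem HR_change (hS : SurfN k x) (hV : V ∈ Curves (charts k x))
    {ι : Type} (T : Finset ι) (b : ι → ℕ) (s : ι → F) (m : ι → ℤ)
    {O : Subring F} (hOV : (O : Set F) ⊆ V) {w : F} (hw : Gen k x O w)
    (hval : ∀ i ∈ T, V.valuation (s i / w ^ b i) = 1) :
    (∏ i ∈ T, res V (hat x V (b i) (s i)) ^ m i) =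
      (∏ i ∈ T, res V (s i / w ^ b i) ^ m i) *
        res V (w / x (idx x V)) ^ (∑ i ∈ T, m i * (b i : ℤ)) := by
  have h1 := HR_gen_val hS hV hOV hw
  refine HR_prod T b m _ _ ((res_ne_zero_iff (mem_of_val_one h1)).2 h1) fun i hi => ?_
  rw [← res_pow (mem_of_val_one h1), ← res_mul (mem_of_val_one (hval i hi))
    (pow_mem (mem_of_val_one h1) _)]
  congr 1
  unfold hat
  rw [zpow_natCast, div_pow, div_mul_div_cancel₀ (pow_ne_zero _ hw.ne)]

/-- The degree is not positive. -/
theorem HR_deg [IsAlgClosed k] (hS : SurfN k x) (hV : V ∈ Curves (charts k x))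
    {ι : Type} (T : Finset ι) (b : ι → ℕ) (s : ι → F) (m : ι → ℤ)
    (hs : ∀ i ∈ T, s i ∈ hom k x (b i) ∧ s i ≠ 0 ∧ vh x V (b i) (s i) = 0 ∧
      RegZeros k x V (b i) (s i))
    (hrel : ∀ O ∈ Points (charts k x), (O : Set F) ⊆ V →
      ∑ i ∈ T, m i * lenH x O V (b i) (s i) = 0) :
    ¬ 0 < ∑ i ∈ T, m i * (b i : ℤ) := by
  classical
  intro hD
  have hdv := Curves.dvr hV
  have hk := Curves.over hV
  set D := ∑ i ∈ T, m i * (b i : ℤ) with hDdef
  set U := ∏ i ∈ T, res V (hat x V (b i) (s i)) ^ m i with hU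
  have hpos : D = ((D.toNat : ℕ) : ℤ) := (Int.toNat_of_nonneg hD.le).symm
  have hvh : ∀ i ∈ T, V.valuation (hat x V (b i) (s i)) = 1 := by
    intro i hi
    rw [← ord_eq_zero_iff hdv (hat_ne hS.ne V _ (hs i hi).2.1), ord_hat hS.ne hdv _ (hs i hi).2.1,
      (hs i hi).2.2.1]
  have hU0 : U ≠ 0 := Finset.prod_ne_zero_iff.2 fun i hi =>
    zpow_ne_zero _ ((res_ne_zero_iff (mem_of_val_one (hvh i hi))).2 (hvh i hi))
  -- the inverse of `U` is regular everywhere
  have hreg : ∀ O ∈ Points (charts k x), (O : Set F) ⊆ V → U⁻¹ ∈ curveLoc O V := by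
    intro O hO hOV
    have hVO : V ∈ CurvesAt O := (curves_point (sep_charts hS.ne) hO V).1 ⟨hV, hOV⟩
    obtain ⟨i, hw⟩ := gen_of_point hS.ne hO
    obtain ⟨h1, h2, h3⟩ := HR_point hS hV T b s m hs hO hOV (hrel O hO hOV) hw
    rw [hU, HR_change hS hV T b s m hOV hw h1, mul_inv, ← inv_zpow, ← hDdef, hpos, zpow_natCast]
    refine mul_mem h3 (pow_mem ?_ _)
    rw [← res_inv (HR_gen_val hS hV hOV hw), inv_div]
    exact (mem_curveLoc hVO _).2 ⟨⟨_, hw.le _⟩, rfl⟩
  obtain ⟨c, hc⟩ := curve_constN hS hV hreg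
  -- a point at which the coordinate vanishes
  obtain ⟨O, hO, hOV, hzero⟩ := curve_meetsN hS hV one_pos (mem_hom_one.2 (x_mem_span x (idx x V)))
    (hS.ne _)
  have hVO : V ∈ CurvesAt O := (curves_point (sep_charts hS.ne) hO V).1 ⟨hV, hOV⟩
  obtain ⟨i, hw⟩ := gen_of_point hS.ne hO
  have hz := hzero i hw.le
  rw [pow_one] at hz
  obtain ⟨h1, h2, h3⟩ := HR_point hS hV T b s m hs hO hOV (hrel O hO hOV) hw
  have hval := HR_gen_val hS hV hOV hw
  set ρ := res V (x i / x (idx x V)) with hρ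
  have hρ0 : ρ ≠ 0 := (res_ne_zero_iff (mem_of_val_one hval)).2 hval
  -- `ρ` is regular at `O`
  have hρ1 : ρ⁻¹ ∈ curveLoc O V := by
    rw [hρ, ← res_inv hval, inv_div]
    exact (mem_curveLoc hVO _).2 ⟨⟨_, hw.le _⟩, rfl⟩
  have hUm : U ∈ curveLoc O V := by
    have hc0 : algebraMap k F c ≠ 0 := by
      intro h0
      rw [h0, res_zero] at hc
      exact inv_ne_zero hU0 hc
    have hck : c ≠ 0 := by
      rintro rfl
      exact hc0 (map_zero _)
    have hval1 : V.valuation (algebraMap k F c) = 1 := by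
      refine (res_ne_zero_iff (hk c)).1 ?_
      rw [← hc]
      exact inv_ne_zero hU0
    have h4 : U = res V (algebraMap k F c⁻¹) := by
      rw [← inv_inv U, hc, map_inv₀, res_inv hval1]
    rw [h4]
    exact (mem_curveLoc hVO _).2 ⟨⟨_, point_over hO c⁻¹⟩, rfl⟩
  have hρD : ρ ^ D ∈ curveLoc O V := by
    have h4 := HR_change hS hV T b s m hOV hw h1
    have h5 : (∏ i_1 ∈ T, res V (s i_1 / x i ^ b i_1) ^ m i_1) ≠ 0 :=
      Finset.prod_ne_zero_iff.2 fun j hj =>
        zpow_ne_zero _ ((res_ne_zero_iff (mem_of_val_one (h1 j hj))).2 (h1 j hj))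
    have h6 : ρ ^ D = (∏ i_1 ∈ T, res V (s i_1 / x i ^ b i_1) ^ m i_1)⁻¹ * U := by
      rw [hU, h4, inv_mul_cancel_left₀ h5]
    rw [h6]
    exact mul_mem h3 hUm
  have hρ2 : ρ ∈ curveLoc O V := by
    have h4 : ρ = ρ ^ D * ρ⁻¹ ^ (D.toNat - 1) := by
      have h5 : D.toNat = (D.toNat - 1) + 1 := by omega
      rw [hpos, zpow_natCast, Int.toNat_natCast]
      conv_rhs => rw [h5]
      rw [pow_succ', Nat.add_sub_cancel, mul_assoc, ← mul_pow, mul_inv_cancel₀ hρ0, one_pow,
        mul_one]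
    rw [h4]
    exact mul_mem hρD (pow_mem hρ1 _)
  obtain ⟨a, ha⟩ := (mem_curveLoc hVO _).1 hρ2
  -- `x idx / x i` is a unit of `O`
  haveI hloc : IsLocalRing O := by
    obtain ⟨A, _, m, hm, hAO⟩ := hO
    haveI := hm.isPrime
    letI := (hAO.incl hm.isPrime.ne_top).toAlgebra
    haveI := hAO.isLocalization
    exact IsLocalization.AtPrime.isLocalRing O m
  have hI : x (idx x V) / x i ∈ O := hw.le _
  let y : O := ⟨_, hI⟩
  have h7 : V.valuation ((a * y - 1 : O) : F) < 1 := by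
    have h8 : ((a * y - 1 : O) : F) ∈ V := hVO.2.1 _ (a * y - 1 : O).2
    rw [← res_eq_zero_iff h8]
    push_cast
    rw [res_sub (mul_mem (hVO.2.1 _ a.2) (hVO.2.1 _ y.2)) (one_mem V),
      res_mul (hVO.2.1 _ a.2) (hVO.2.1 _ y.2), ha, res_one]
    change ρ * res V (x (idx x V) / x i) - 1 = 0
    rw [← inv_div, res_inv hval, ← hρ, mul_inv_cancel₀ hρ0, sub_self]
  have h8 : ¬ IsUnit (a * y - 1 : O) := by
    intro h
    rw [CurvesAt.isUnit hVO h] at h7
    exact lt_irrefl _ h7
  have h9 : IsUnit (a * y) := by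
    rcases IsLocalRing.isUnit_or_isUnit_of_isUnit_add (a := a * y) (b := -(a * y - 1))
      (by rw [neg_sub, add_sub_cancel]; exact isUnit_one) with h | h
    · exact h
    · exact absurd (by simpa using h.neg) h8
  have h10 : IsUnit y := isUnit_of_mul_isUnit_right h9
  exact hz ((isUnit_iff_inv y).1 h10).2

/-- HR. A product of powers of forms with trivial divisor on `V` is a root of unity (T_K1_KC
section 7; G5 over `SurfN`: global units of `V` are constants; the degree of the product is zero). -/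
theorem unit_rel [IsAlgClosed k] (hS : SurfN k x) (hl : Forms k (Curves (charts k x)) l)
    (hrou : ∀ c : k, c ≠ 0 → ∃ N : ℕ, 0 < N ∧ c ^ N = 1) (hV : V ∈ Curves (charts k x))
    {ι : Type} (T : Finset ι) (b : ι → ℕ) (s : ι → F) (m : ι → ℤ)
    (hs : ∀ i ∈ T, s i ∈ hom k x (b i) ∧ s i ≠ 0 ∧ vh x V (b i) (s i) = 0 ∧
      RegZeros k x V (b i) (s i))
    (hrel : ∀ O ∈ Points (charts k x), (O : Set F) ⊆ V →
      ∑ i ∈ T, m i * lenH x O V (b i) (s i) = 0) :
    ∑ i ∈ T, (m i : ℚ) * Lam x l ν V (s i) (b i) = 0 := by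
  classical
  have hdv := Curves.dvr hV
  have hk := Curves.over hV
  -- the degree is zero
  have hD : ∑ i ∈ T, m i * (b i : ℤ) = 0 := by
    have h1 := HR_deg hS hV T b s m hs hrel
    have h2 := HR_deg hS hV T b s (fun i => - m i) hs (by
      intro O hO hOV
      have := hrel O hO hOV
      simp only [neg_mul, Finset.sum_neg_distrib, this, neg_zero])
    simp only [neg_mul, Finset.sum_neg_distrib] at h2
    omega
  set U := ∏ i ∈ T, res V (hat x V (b i) (s i)) ^ m i with hU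
  have hvh : ∀ i ∈ T, V.valuation (hat x V (b i) (s i)) = 1 := by
    intro i hi
    rw [← ord_eq_zero_iff hdv (hat_ne hS.ne V _ (hs i hi).2.1), ord_hat hS.ne hdv _ (hs i hi).2.1,
      (hs i hi).2.2.1]
  have hv0 : ∀ i ∈ T, res V (hat x V (b i) (s i)) ≠ 0 := fun i hi =>
    (res_ne_zero_iff (mem_of_val_one (hvh i hi))).2 (hvh i hi)
  have hU0 : U ≠ 0 := Finset.prod_ne_zero_iff.2 fun i hi => zpow_ne_zero _ (hv0 i hi)
  have hreg : ∀ O ∈ Points (charts k x), (O : Set F) ⊆ V → U ∈ curveLoc O V := by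
    intro O hO hOV
    obtain ⟨i, hw⟩ := gen_of_point hS.ne hO
    obtain ⟨h1, h2, h3⟩ := HR_point hS hV T b s m hs hO hOV (hrel O hO hOV) hw
    rw [hU, HR_change hS hV T b s m hOV hw h1, hD, zpow_zero, mul_one]
    exact h2
  obtain ⟨c, hc⟩ := curve_constN hS hV hreg
  have hck : c ≠ 0 := by
    rintro rfl
    rw [map_zero, res_zero] at hc
    exact hU0 hc
  obtain ⟨N, hN, hcN⟩ := hrou c hck
  have hUN : U ^ N = 1 := by
    rw [hc, ← res_pow (hk c), ← map_pow, hcN, map_one, res_one]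
  have hlU : l V U = 0 := hl.l_torsion hV hN hUN
  -- expand
  have key : ∀ T' : Finset ι, T' ⊆ T →
      l V (∏ i ∈ T', res V (hat x V (b i) (s i)) ^ m i) =
        ∑ i ∈ T', (m i : ℚ) * l V (res V (hat x V (b i) (s i))) := by
    intro T' hT'
    induction T' using Finset.induction_on with
    | empty => simp [hl.l_one hV]
    | insert a T' ha ih =>
      have h1 : T' ⊆ T := fun i hi => hT' (Finset.mem_insert_of_mem hi)
      have h2 : a ∈ T := hT' (Finset.mem_insert_self a T')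
      rw [Finset.prod_insert ha, Finset.sum_insert ha, hl.mul V hV _ _ (zpow_ne_zero _ (hv0 a h2))
        (Finset.prod_ne_zero_iff.2 fun i hi => zpow_ne_zero _ (hv0 i (h1 hi))), ih h1,
        hl.l_zpow hV (hv0 a h2)]
  have h1 := key T (Finset.Subset.refl T)
  rw [← hU, hlU] at h1
  have h2 : ∑ i ∈ T, (m i : ℚ) * Lam x l ν V (s i) (b i) =
      ∑ i ∈ T, (m i : ℚ) * l V (res V (hat x V (b i) (s i))) +
        ((∑ i ∈ T, m i * (b i : ℤ) : ℤ) : ℚ) * ν V := by
    rw [Int.cast_sum, Finset.sum_mul, ← Finset.sum_add_distrib]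
    refine Finset.sum_congr rfl fun i _ => ?_
    unfold Lam
    push_cast
    ring
  rw [h2, ← h1, hD]
  simp

end Pool.Agent.Lib.MP_b197b4_ntK
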