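import Mathlib
import Pool.Agent.Lib.MP_b197b4_ntH.HR
import Pool.Agent.Lib.MP_b197b4_ntH.HI
import Pool.Agent.Lib.MP_b197b4_ntK.SingN

/-!
# MP_b197b4_nt, project K1, part KC: the representing function of a curve
-/

set_option autoImplicit false

namespace Pool.Agent.Lib.MP_b197b4_ntK

open IsLocalRing Polynomial

open MPb197b4P (fib cut ev3 RegPt Spl Good Core)

variable {k F : Type} [Field k] [Field F] [Algebra k F] {n : ℕ} {x : Fin (n + 1) → F}
  {x0 x1 Y Z : F} {d : ℕ} {O₁ : Subring F} {c₁ : k} {f : k[X][X][X]} {r : ℕ}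
  {κ : k} {α γ : k[X]} {e : ℕ} {V : ValuationSubring F}
  {l : ∀ V : ValuationSubring F, ResidueField V → ℚ} {ν : ValuationSubring F → ℚ}

/-- A form which is not zero on `V` has finitely many zeros on `V`. -/
theorem HS.zeros_finite (hS : SurfN k x) (hV : V ∈ Curves (charts k x)) {b : ℕ} {s : F}
    (hs : s ∈ hom k x b) (hs0 : s ≠ 0) (hv : vh x V b s = 0) :
    {O | O ∈ Points (charts k x) ∧ (O : Set F) ⊆ V ∧ lenH x O V b s ≠ 0}.Finite := by
  refine finite_of_chartsS _ fun i => ?_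
  by_cases hi : ∀ a ∈ Algebra.adjoin k (Set.range fun l => x l / x i), a ∈ V
  swap
  · refine Set.finite_empty.subset ?_
    rintro O ⟨⟨m, hm, hO⟩, hOV, -⟩
    exact hi fun a ha => hOV (hO.subset hm.ne_top ha)
  have hc := glue hS.ne hV hi
  have hft := (Subalgebra.fg_iff_finiteType _).1 (hS.chart i).fg
  have hn := Algebra.FiniteType.isNoetherianRing k
    (Algebra.adjoin k (Set.range fun j => x j / x i))
  obtain ⟨P, hPp, hP⟩ := exists_primeOf hc.2.1
  have hmem : s / x i ^ b ∈ Algebra.adjoin k (Set.range fun l => x l / x i) :=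
    div_mem_chartOf hs
  have hg : Gen k x V.toSubring (x i) :=
    ⟨x_mem_span x i, hS.ne i, fun j => hi _ (Algebra.subset_adjoin ⟨j, rfl⟩)⟩
  have hxb := pow_ne_zero b (hS.ne i)
  have hne : s / x i ^ b ≠ 0 := div_ne_zero hs0 hxb
  have hcP : (⟨s / x i ^ b, hmem⟩ : Algebra.adjoin k (Set.range fun l => x l / x i)) ∉ P := by
    rw [hP.val_one hc.2.1]
    change V.valuation (s / x i ^ b) = 1
    rw [← ord_eq_zero_iff hc.1 hne]
    have h1 := ord_chart hS.ne hc.1 (i := i) hg.le b hs0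
    rw [h1]
    exact hv
  refine (pts_finite (curve_finite_aff hn (hS.chart i).height hc hP hcP)).subset ?_
  rintro O ⟨⟨m, hm, hO⟩, hOV, hnot⟩
  refine ⟨m, ⟨hm, le_of_subset hP hO hOV, ?_⟩, hO⟩
  by_contra hcm
  apply hnot
  have hOP : O ∈ Points (charts k x) := ⟨_, ⟨i, rfl⟩, m, hm, hO⟩
  have hgO : Gen k x O (x i) :=
    ⟨x_mem_span x i, hS.ne i, fun j => hO.subset hm.ne_top (Algebra.subset_adjoin ⟨j, rfl⟩)⟩
  rw [lenH_gen hS hOP hV hOV hgO hs hs0 hv]
  exact len_unit_pt hOP hV hOV (hO.subset hm.ne_top hmem) (hO.inv_mem hcm) hne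

/-- HS. `unit_rel`, finiteness of the zeros on `V`, and linear algebra (`exists_factor`). -/
theorem exists_rep [IsAlgClosed k] (hS : SurfN k x) (hl : Forms k (Curves (charts k x)) l)
    (hrou : ∀ c : k, c ≠ 0 → ∃ N : ℕ, 0 < N ∧ c ^ N = 1) (hV : V ∈ Curves (charts k x)) :
    ∃ g : Subring F → ℚ, Rep k x l ν V g := by
  classical
  let ι : Type := {q : ℕ × F // q.2 ∈ hom k x q.1 ∧ q.2 ≠ 0 ∧ vh x V q.1 q.2 = 0 ∧
    RegZeros k x V q.1 q.2}
  let D : ι → (Subring F →₀ ℤ) := fun q =>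
    Finsupp.onFinset (HS.zeros_finite hS hV q.2.1 q.2.2.1 q.2.2.2.1).toFinset
      (fun O => if O ∈ Points (charts k x) ∧ (O : Set F) ⊆ V then lenH x O V q.1.1 q.1.2 else 0)
      (by
        intro O hO
        rw [Set.Finite.mem_toFinset]
        by_cases h : O ∈ Points (charts k x) ∧ (O : Set F) ⊆ V
        · rw [if_pos h] at hO
          exact ⟨h.1, h.2, hO⟩
        · rw [if_neg h] at hO
          exact absurd rfl hO)
  have hD : ∀ q O, D q O = if O ∈ Points (charts k x) ∧ (O : Set F) ⊆ V then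
      lenH x O V q.1.1 q.1.2 else 0 := fun q O => rfl
  let δ : (ι →₀ ℤ) →+ (Subring F →₀ ℤ) :=
    Finsupp.liftAddHom fun q => (zmultiplesHom (Subring F →₀ ℤ)) (D q)
  let M : (ι →₀ ℤ) →+ ℚ :=
    Finsupp.liftAddHom fun q => (zmultiplesHom ℚ) (Lam x l ν V q.1.2 q.1.1)
  have hδ : ∀ g : ι →₀ ℤ, δ g = ∑ q ∈ g.support, g q • D q := fun g => rfl
  have hM : ∀ g : ι →₀ ℤ, M g = ∑ q ∈ g.support, g q • Lam x l ν V q.1.2 q.1.1 := fun g => rfl
  obtain ⟨E, hE⟩ := exists_factor δ M (by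
    intro g hg
    rw [hM]
    have h1 := unit_rel hS hl (ν := ν) hrou hV g.support (fun q => q.1.1) (fun q => q.1.2) g
      (fun q _ => q.2) (by
        intro O hO hOV
        have h2 := DFunLike.congr_fun hg O
        rw [hδ, Finsupp.finsetSum_apply] at h2
        refine Eq.trans ?_ h2
        refine Finset.sum_congr rfl fun q _ => ?_
        rw [Finsupp.smul_apply, hD, if_pos ⟨hO, hOV⟩, smul_eq_mul])
    rw [← h1]
    exact Finset.sum_congr rfl fun q _ => by rw [zsmul_eq_mul])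
  refine ⟨fun O => E (Finsupp.single O 1), ?_⟩
  intro b s hs hs0 hv hr
  let q : ι := ⟨(b, s), hs, hs0, hv, hr⟩
  have h1 := hE (Finsupp.single q 1)
  have h2 : δ (Finsupp.single q 1) = D q := by
    change (Finsupp.liftAddHom fun q => (zmultiplesHom (Subring F →₀ ℤ)) (D q))
      (Finsupp.single q 1) = D q
    rw [Finsupp.liftAddHom_apply_single]
    change (1 : ℤ) • D q = D q
    rw [one_smul]
  have h3 : M (Finsupp.single q 1) = Lam x l ν V s b := by
    change (Finsupp.liftAddHom fun q => (zmultiplesHom ℚ) (Lam x l ν V q.1.2 q.1.1))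
      (Finsupp.single q 1) = Lam x l ν V s b
    rw [Finsupp.liftAddHom_apply_single]
    change (1 : ℤ) • Lam x l ν V s b = _
    rw [one_smul]
  rw [h2, h3] at h1
  rw [← h1]
  have h4 : D q = ∑ O ∈ (D q).support, (D q O) • Finsupp.single O (1 : ℤ) := by
    conv_lhs => rw [← Finsupp.sum_single (D q)]
    unfold Finsupp.sum
    refine Finset.sum_congr rfl fun O _ => ?_
    rw [Finsupp.smul_single, smul_eq_mul, mul_one]
  rw [h4, map_sum]
  symm
  have h5 : ∀ O, E (Finsupp.single O 1) * (lenH x O V b s : ℚ) ≠ 0 →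
      ((O ∈ Points (charts k x) ∧ (O : Set F) ⊆ V) ↔ O ∈ (D q).support) := by
    intro O hne
    rw [Finsupp.mem_support_iff, hD]
    constructor
    · intro h
      rw [if_pos h]
      intro h0
      apply hne
      have h6 : lenH x O V b s = 0 := h0
      rw [h6]
      simp
    · intro h
      by_contra h0
      rw [if_neg h0] at h
      exact h rfl
  rw [finsum_cond_eq_sum_of_cond_iff _ (fun {O} hO => h5 O hO)]
  refine Finset.sum_congr rfl fun O hO => ?_
  rw [map_zsmul, zsmul_eq_mul, mul_comm]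
  congr 2
  rw [Finsupp.mem_support_iff, hD] at hO
  rw [hD]
  by_cases h0 : O ∈ Points (charts k x) ∧ (O : Set F) ⊆ V
  · rw [if_pos h0]
  · rw [if_neg h0] at hO
    exact absurd rfl hO

end Pool.Agent.Lib.MP_b197b4_ntK
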