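import Mathlib
import Pool.Agent.Lib.MP_b197b4_ntH.HP
import Pool.Agent.Lib.MP_b197b4_ntH.HQ
import Pool.Agent.Lib.MP_b197b4_ntH.HS

/-!
# MP_b197b4_nt, project K1, part KC: S1
-/

set_option autoImplicit false

namespace Pool.Agent.Lib.MP_b197b4_ntK

open IsLocalRing Polynomial

open MPb197b4P (fib cut ev3 RegPt Spl Good Core)

variable {k F : Type} [Field k] [Field F] [Algebra k F] {n : ℕ} {x : Fin (n + 1) → F}
  {x0 x1 Y Z : F} {d : ℕ} {O₁ : Subring F} {c₁ : k} {f : k[X][X][X]} {r : ℕ}
  {κ : k} {α γ : k[X]} {e : ℕ} {V : ValuationSubring F}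
  {l : ∀ V : ValuationSubring F, ResidueField V → ℚ} {ν : ValuationSubring F → ℚ}

/-- HT. PROOF: choose for every curve `V` a function `g V` (`exists_rep`) and put `h O = g V O` for
some `V ∋ O` of a prime form of degree `d` with `GoodAt O V` (zero if there is none); `compare` and
`exists_coord`; in `Rep` only good points of `V` contribute (at the other points the form `s` is a
unit, the term is zero). -/
theorem s1 [IsAlgClosed k] (hcore : Core k) (hS : SurfN k x)
    (hl : Forms k (Curves (charts k x)) l)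
    (hrou : ∀ c : k, c ≠ 0 → ∃ N : ℕ, 0 < N ∧ c ^ N = 1)
    (hν : ∀ (f g : F) (a b : ℤ), f ≠ 0 → g ≠ 0 → LS x (Curves (charts k x)) l ν f a g b = 0)
    (hd : 2 ≤ d) : S1 k x l ν d := by
  classical
  have hg : ∀ V, ∃ g : Subring F → ℚ, V ∈ Curves (charts k x) → Rep k x l ν V g := by
    intro V
    by_cases hV : V ∈ Curves (charts k x)
    · obtain ⟨g, h⟩ := exists_rep (ν := ν) hS hl hrou hV
      exact ⟨g, fun _ => h⟩
    · exact ⟨0, fun h => absurd h hV⟩
  choose g hg using hg
  let P : Subring F → Prop := fun O =>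
    ∃ V t, PrimeForm k x d t V ∧ (O : Set F) ⊆ V ∧ GoodAt O V
  let h : Subring F → ℚ := fun O => if hO : P O then g hO.choose O else 0
  refine ⟨h, ?_, ?_⟩
  · intro O hO
    have h1 : ¬ P O := by
      rintro ⟨V, t, -, -, h2⟩
      exact hO h2.1
    simp only [h]
    rw [dif_neg h1]
  · intro t V hp b s hs hs0 hv hr
    rw [hg V hp.curve b s hs hs0 hv hr]
    refine finsum_congr fun O => finsum_congr fun hO => ?_
    by_cases hlen : lenH x O V b s = 0
    · rw [hlen, Int.cast_zero, mul_zero, mul_zero]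
    · obtain ⟨i, hw⟩ := gen_of_point hS.ne hO.1
      have hk := point_over hO.1
      have h1 := lenH_gen hS hO.1 hp.curve hO.2 hw hs hs0 hv
      have hgood : GoodAt O V := by
        refine hr O hO.1 hO.2 _ hw fun h2 => hlen ?_
        rw [h1]
        exact len_unit_pt hO.1 hp.curve hO.2 (hw.div_mem hk hs) h2
          (div_ne_zero hs0 (pow_ne_zero _ hw.ne))
      have hPO : P O := ⟨V, t, hp, hO.2, hgood⟩
      have h2 : h O = g hPO.choose O := by
        simp only [h]
        rw [dif_pos hPO]
      rw [h2]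
      obtain ⟨t', hp', hOV', hgood'⟩ := hPO.choose_spec
      congr 1
      by_cases hVV : V = hPO.choose
      · rw [← hVV]
      · obtain ⟨x0, x1, c, hC⟩ := exists_coord hS hd hp hp' hVV hO.1 hO.2 hOV' hgood hgood'
        refine compare hcore hS hl hrou hν hC hp ?_ (hg V hp.curve) (hg _ hp'.curve)
        rw [sub_sub_cancel]
        exact hp'

end Pool.Agent.Lib.MP_b197b4_ntK
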