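import Mathlib
import Pool.Agent.Lib.MP_b197b4_ntH.H0
import Pool.Agent.Lib.MP_b197b4_ntK.KLoc

/-!
# MP_b197b4_nt, project K1, part KC: the points of the chart `x0 ≠ 0` have coordinates
-/

set_option autoImplicit false

namespace Pool.Agent.Lib.MP_b197b4_ntK

open IsLocalRing Polynomial

open MPb197b4P (fib cut ev3 RegPt Spl Good Core)

variable {k F : Type} [Field k] [Field F] [Algebra k F] {n : ℕ} {x : Fin (n + 1) → F}
  {x0 x1 Y Z : F} {d : ℕ} {O₁ : Subring F} {c₁ : k} {f : k[X][X][X]} {r : ℕ}

theorem HH1_inMax_iff {O : Subring F} {u : F} (hu : u ∈ O) :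
    InMax O u ↔ ¬ IsUnit (⟨u, hu⟩ : O) := by
  constructor
  · rintro ⟨_, h⟩ h1
    obtain ⟨b, hb⟩ := h1.exists_right_inv
    exact h b b.2 (congrArg Subtype.val hb)
  · intro h
    refine ⟨hu, fun v hv h1 => h ?_⟩
    exact IsUnit.of_mul_eq_one ⟨v, hv⟩ (Subtype.ext h1)

theorem HH1_isLocalRing {O : Subring F} (hO : O ∈ Points (charts k x)) : IsLocalRing O := by
  obtain ⟨A, _, m, hm, h⟩ := hO
  have := hm.isPrime
  have h1 : O = locSub A m := isLoc_iff.1 h
  subst h1
  exact isLocalRing_locSub m

/-- The elements of the maximal ideal of the chart are in the maximal ideal of the local ring. -/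
theorem HH1_inMax_of_mem {A : Subalgebra k F} {m : Ideal A} (hm : m ≠ ⊤) {O : Subring F}
    (h : IsLoc A m O) (a : A) (ha : a ∈ m) : InMax O a := by
  refine ⟨mem_of_isLoc hm h a.2, fun v hv h1 => ?_⟩
  obtain ⟨b, s, hs, rfl⟩ := (h v).1 hv
  by_cases hs0 : (s : F) = 0
  · rw [hs0, div_zero, mul_zero] at h1
    exact zero_ne_one h1
  · apply hs
    have h2 : s = a * b := by
      apply Subtype.ext
      change (s : F) = (a : F) * (b : F)
      field_simp at h1
      exact h1.symm
    rw [h2]
    exact m.mul_mem_right b ha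

/-- The value of a polynomial in `x, y, z` at a point. -/
noncomputable def HH1_ev3Hom (a b c : k) : k[X][X][X] →+* k :=
  (evalRingHom a).comp ((evalRingHom (C b)).comp (evalRingHom (C (C c))))

theorem HH1_ev3Hom_apply (a b c : k) (g : k[X][X][X]) : HH1_ev3Hom a b c g = ev3 g a b c := rfl

/-- Two ring homomorphisms on polynomials in three variables agree if they agree on the constants
and the variables. -/
theorem HH1_hom_ext {R : Type} [CommRing R] {φ ψ : k[X][X][X] →+* R}
    (h0 : ∀ c : k, φ (C (C (C c))) = ψ (C (C (C c))))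
    (h1 : φ (C (C Polynomial.X)) = ψ (C (C Polynomial.X)))
    (h2 : φ (C Polynomial.X) = ψ (C Polynomial.X)) (h3 : φ Polynomial.X = ψ Polynomial.X) :
    φ = ψ := by
  apply Polynomial.ringHom_ext _ h3
  intro a
  have h4 : φ.comp C = ψ.comp (C : k[X][X] →+* k[X][X][X]) := by
    apply Polynomial.ringHom_ext _ h2
    intro b
    have h5 : (φ.comp (C : k[X][X] →+* k[X][X][X])).comp C =
        (ψ.comp (C : k[X][X] →+* k[X][X][X])).comp (C : k[X] →+* k[X][X]) :=
      Polynomial.ringHom_ext h0 h1
    exact RingHom.congr_fun h5 b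
  exact RingHom.congr_fun h4 a

/-- HH2, for any local subring. -/
theorem HH1_ev_unit {O : Subring F} (hloc : IsLocalRing O) (hk : ∀ c : k, algebraMap k F c ∈ O)
    {u v w : F} {a b c : k} (ha : InMax O (u - algebraMap k F a))
    (hb : InMax O (v - algebraMap k F b)) (hc : InMax O (w - algebraMap k F c))
    (g : k[X][X][X]) :
    ev u v w g ∈ O ∧ (InMax O (ev u v w g) ↔ ev3 g a b c = 0) := by
  have hmem : ∀ {z : F} {e : k}, InMax O (z - algebraMap k F e) → z ∈ O := by
    intro z e h
    have h1 := O.add_mem h.1 (hk e)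
    rwa [sub_add_cancel] at h1
  have hu := hmem ha
  have hv := hmem hb
  have hw := hmem hc
  -- values of ev on constants and variables
  have e0 : ∀ e : k, ev u v w (C (C (C e))) = algebraMap k F e := by
    intro e
    simp [ev]
  have e1 : ev u v w (C (C (Polynomial.X : k[X]))) = u := by
    simp [ev]
  have e2 : ev u v w (C (Polynomial.X : k[X][X])) = v := by
    simp [ev]
  have e3 : ev u v w (Polynomial.X : k[X][X][X]) = w := by
    simp [ev]
  have hO : ∀ g : k[X][X][X], ev u v w g ∈ O := by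
    have k1 : ∀ p : k[X], ev u v w (C (C p)) ∈ O := by
      intro p
      induction p using Polynomial.induction_on' with
      | add p q hp hq =>
        rw [map_add, map_add, map_add]
        exact O.add_mem hp hq
      | monomial i e =>
        rw [← C_mul_X_pow_eq_monomial, map_mul, map_mul, map_mul, e0, map_pow, map_pow, map_pow, e1]
        exact O.mul_mem (hk e) (O.pow_mem hu _)
    have k2 : ∀ p : k[X][X], ev u v w (C p) ∈ O := by
      intro p
      induction p using Polynomial.induction_on' with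
      | add p q hp hq =>
        rw [map_add, map_add]
        exact O.add_mem hp hq
      | monomial i e =>
        rw [← C_mul_X_pow_eq_monomial, map_mul, map_mul, map_pow, map_pow, e2]
        exact O.mul_mem (k1 e) (O.pow_mem hv _)
    intro p
    induction p using Polynomial.induction_on' with
    | add p q hp hq =>
      rw [map_add]
      exact O.add_mem hp hq
    | monomial i e =>
      rw [← C_mul_X_pow_eq_monomial, map_mul, map_pow, e3]
      exact O.mul_mem (k2 e) (O.pow_mem hw _)
  let κ := ResidueField O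
  let evO : k[X][X][X] →+* O := (ev u v w).codRestrict O hO
  let kO : k →+* O := (algebraMap k F).codRestrict O hk
  have hres : ∀ {z : F} {e : k} (hz : z ∈ O), InMax O (z - algebraMap k F e) →
      residue O ⟨z, hz⟩ = residue O (kO e) := by
    intro z e hz h
    rw [← sub_eq_zero, ← map_sub, residue_eq_zero_iff, mem_maximalIdeal, mem_nonunits_iff]
    exact (HH1_inMax_iff h.1).1 h
  have key : (residue O).comp evO = ((residue O).comp kO).comp (HH1_ev3Hom a b c) := by
    apply HH1_hom_ext
    · intro e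
      change residue O (evO _) = residue O (kO (ev3 _ _ _ _))
      congr 1
      apply Subtype.ext
      change ev u v w (C (C (C e))) = algebraMap k F _
      rw [e0]
      simp [ev3]
    · change residue O ⟨ev u v w _, hO _⟩ = residue O (kO (ev3 _ _ _ _))
      have h1 : ev3 (C (C (Polynomial.X : k[X]))) a b c = a := by simp [ev3]
      rw [h1, ← hres hu ha]
      congr 1
      exact Subtype.ext e1
    · change residue O ⟨ev u v w _, hO _⟩ = residue O (kO (ev3 _ _ _ _))
      have h1 : ev3 (C (Polynomial.X : k[X][X])) a b c = b := by simp [ev3]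
      rw [h1, ← hres hv hb]
      congr 1
      exact Subtype.ext e2
    · change residue O ⟨ev u v w _, hO _⟩ = residue O (kO (ev3 _ _ _ _))
      have h1 : ev3 (Polynomial.X : k[X][X][X]) a b c = c := by simp [ev3]
      rw [h1, ← hres hw hc]
      congr 1
      exact Subtype.ext e3
  refine ⟨hO g, ?_⟩
  have h1 : residue O ⟨ev u v w g, hO g⟩ = residue O (kO (ev3 g a b c)) :=
    RingHom.congr_fun key g
  rw [HH1_inMax_iff (hO g), ← mem_nonunits_iff, ← mem_maximalIdeal, ← residue_eq_zero_iff, h1]
  exact map_eq_zero ((residue O).comp kO)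

/-- HH1. Every point of the chart has coordinates (`k` is algebraically closed), and they satisfy
the equation. -/
theorem exists_coords [IsAlgClosed k] (hS : SurfN k x) (hC : Coord k x x0 x1 Y Z d O₁ c₁)
    (hE : Eqn k x x0 x1 Y Z d f r) {O : Subring F} (hO : O ∈ Points (charts k x))
    (h0 : Gen k x O x0) :
    ∃ a b c : k, HasCoord k x x0 x1 Y Z d O a b c ∧ ev3 f a b c = 0 := by
  obtain ⟨m, hm, hmO⟩ := exists_isLoc hS.ne hO h0
  have := hm
  have h1 : x1 / x0 ∈ chartOf k x x0 := by
    have := div_mem_chartOf (w := x0) hC.h1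
    rwa [pow_one] at this
  have h2 : Y / x0 ^ d ∈ chartOf k x x0 := div_mem_chartOf hC.hY
  have h3 : Z / x0 ^ d ∈ chartOf k x x0 := div_mem_chartOf hC.hZ
  obtain ⟨a, ha⟩ := exists_const_sub_mem (chartOf_fg k x x0) m ⟨_, h1⟩
  obtain ⟨b, hb⟩ := exists_const_sub_mem (chartOf_fg k x x0) m ⟨_, h2⟩
  obtain ⟨c, hc⟩ := exists_const_sub_mem (chartOf_fg k x x0) m ⟨_, h3⟩
  have ca : InMax O (x1 / x0 - algebraMap k F a) := HH1_inMax_of_mem hm.ne_top hmO _ ha
  have cb : InMax O (Y / x0 ^ d - algebraMap k F b) := HH1_inMax_of_mem hm.ne_top hmO _ hb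
  have cc : InMax O (Z / x0 ^ d - algebraMap k F c) := HH1_inMax_of_mem hm.ne_top hmO _ hc
  refine ⟨a, b, c, ⟨hO, h0, ca, cb, cc⟩, ?_⟩
  have h4 := (HH1_ev_unit (HH1_isLocalRing hO) (point_over hO) ca cb cc f).2
  rw [← h4, (hE.ker f).2 dvd_rfl]
  exact ⟨O.zero_mem, fun v _ h => zero_ne_one (by rwa [zero_mul] at h)⟩

/-- HH2. Value of a polynomial at a point. -/
theorem ev_unit {O : Subring F} {a b c : k} (hO : HasCoord k x x0 x1 Y Z d O a b c)
    (g : k[X][X][X]) :
    ev (x1 / x0) (Y / x0 ^ d) (Z / x0 ^ d) g ∈ O ∧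
      (InMax O (ev (x1 / x0) (Y / x0 ^ d) (Z / x0 ^ d) g) ↔ ev3 g a b c = 0) :=
  HH1_ev_unit (HH1_isLocalRing hO.pt) (point_over hO.pt) hO.cx hO.cy hO.cz g

end Pool.Agent.Lib.MP_b197b4_ntK
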